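import Pool.Agent.Lib.MP_ba1bba_al.TR.Spec
import Pool.Agent.Lib.MP_ba1bba_al.TR.Diag

/-!
# The growth series of `B(2,4n)` is transcendental: definitions

Here `p = 2`, `m = 2 n`, `q = 4 n`, `n ≥ 1`. Everything below the first section is used in the proof
only. `z = zz`, `u = uu`; `P2 = 𝔽₂[z]`, `S2 = 𝔽₂⟦z⟧`; polynomials and power series in `y` over `P2`,
`S2` are `Polynomial P2`, `PowerSeries S2` etc.
-/

namespace Pool.Agent.Lib.MPba1bba.TM

open Polynomial TR

/-- Main statement: no sequence `T` whose generating function is algebraic over `ℚ(z)`, or that is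
the diagonal of a rational power series over `ℤ`, or that is `2`-automatic modulo `4`, is congruent
modulo `4` to the sphere sizes of `B(2,4n)`, `n ≥ 1`. -/
def MainStatement : Prop := ∀ n : ℕ, 1 ≤ n → ∀ T : ℕ → ℤ,
  (IsAlgebraic (Polynomial ℚ) (PowerSeries.mk fun k => (T k : ℚ)) ∨
    (∃ (d : ℕ) (F : MvPowerSeries (Fin d) ℤ), IsRational F ∧ ∀ k, diag F k = T k) ∨
    (ker2 fun k => (T k : ZMod 4)).Finite) →
  ∃ k, (T k : ZMod 4) ≠ (sphere 2 (4 * n) k : ZMod 4)

/-! ## 1. The section operator for `p = 2` (states: `v` zero slopes) -/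

/-- The minimum of `b_v` on the class of `r < m` modulo `m`. -/
def cc (m v r : ℕ) : ℕ := if r ≤ v then 0 else 2 * min (m - r) (r - v)

/-- The number of zero increments of `b_v` on the class of `r < m` modulo `m`. -/
def ww (m v r : ℕ) : ℕ := if r ≤ v then (v - r) / m else if m - r = r - v then 1 else 0

/-- `Λ u^v = ∑_{r < m} z^{cc} u^{ww}`. -/
noncomputable def im (R : Type) [CommRing R] (m v : ℕ) : PowerSeries R[X] :=
  ∑ r ∈ Finset.range m, zz ^ cc m v r * uu ^ ww m v r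

/-- The section operator `Λ`, extended `R⟦z⟧`-linearly. -/
noncomputable def LMm {R : Type} [CommRing R] (m : ℕ) (F : PowerSeries R[X]) : PowerSeries R[X] :=
  PowerSeries.mk fun N => ∑ ij ∈ Finset.HasAntidiagonal.antidiagonal N,
    (PowerSeries.coeff ij.1 F).sum fun v a => C a * PowerSeries.coeff ij.2 (im R m v)

/-- The coefficient of `u^v`. -/
noncomputable def cf {R : Type} [CommRing R] (v : ℕ) (F : PowerSeries R[X]) : PowerSeries R :=
  PowerSeries.mk fun k => (PowerSeries.coeff k F).coeff v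

/-- The system for `p = 2`. -/
def SysM (m : ℕ) (Q E H : PowerSeries ℤ[X]) : Prop :=
  Q = zz * uu + zz * uu * E * Q ∧
  E = zz ^ 2 * (LMm m (1 + E + Q * (1 + E) ^ 2) - 1) ∧
  H = zz * LMm m ((1 + Q * (1 + E)) * (1 + E + H))

/-- An exponent in the recursion of `P_v`. -/
def xx (m v : ℕ) : ℕ := max 1 ((m - v + 1) / 2)

/-- The recursion of the series `P_v`. -/
def RecPM (m : ℕ) (P : ℕ → PowerSeries ℤ) : Prop := ∀ v : ℕ,
  P v = zz ^ 2 * (∑ r ∈ Finset.range m, zz ^ cc m v r * P (ww m v r)) +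
    ((v : PowerSeries ℤ) + 1) * (1 - zz ^ 2) + 2 * (zz ^ 2 - zz ^ (2 * xx m v + 2))

/-- `∑_{1 ≤ t ≤ (m-v)/2} z^{2t}`. -/
noncomputable def ch (R : Type) [CommRing R] (m v : ℕ) : PowerSeries R :=
  ∑ t ∈ Finset.range ((m - v) / 2), zz ^ (2 * (t + 1))

/-! ## 2. The dual sequences -/

/-- Indices of the functionals. -/
abbrev Fi (n : ℕ) : Type := Option (Fin (n - 1))

/-- The functionals: value at `u = 1`, and coefficient of `u^i`, `i < n - 1`. -/
noncomputable def fl (n : ℕ) : Fi n → ((ZMod 2)[X] →ₗ[ZMod 2] ZMod 2)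
  | none => Polynomial.leval 1
  | some i => Polynomial.lcoeff (ZMod 2) (i : ℕ)

/-- A functional applied coefficientwise. -/
noncomputable def evf (ψ : (ZMod 2)[X] →ₗ[ZMod 2] ZMod 2) (F : PowerSeries (ZMod 2)[X]) : S2 :=
  PowerSeries.mk fun k => ψ (PowerSeries.coeff k F)

/-- The recursion of the dual sequence `δ` with the data `a j = ψ(u^j)`; write `w j = a j + δ j`. -/
def RecD (n : ℕ) (a : ℕ → ZMod 2) (δ : ℕ → S2) : Prop :=
  (∀ i : ℕ, 1 ≤ i → δ (2 * i - 1) = zz * δ (2 * i)) ∧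
  (∀ i : ℕ, i < n → δ (2 * i) + zz ^ (2 * n + 3) * δ (2 * i + 2) =
    zz * (PowerSeries.C (a 0) + δ 0 + zz ^ (2 * n - 2 * i) * (PowerSeries.C (a 1) + δ 1))) ∧
  (∀ i : ℕ, n ≤ i → δ (2 * i) + zz ^ (2 * n + 3) * δ (2 * i + 2) =
    zz * (PowerSeries.C (a (i / n)) + δ (i / n) + (PowerSeries.C (a (i / n - 1)) + δ (i / n - 1))))

/-- The growth constant of a functional. -/
def gg (n : ℕ) : Fi n → ℕ
  | none => 1
  | some i => (i : ℕ) + 2

/-! ## 3. The Mahler functions in the variable `y`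

`s = z^(2n+3) y`, `Y = s^n`, `En = ∑_{t<n} s^t`, `Tn = ∑_{t<n} (z^(2n+1) y)^t`. -/

/-- `z^k y^l`. -/
noncomputable def mo (k l : ℕ) : Polynomial P2 := C (X ^ k) * X ^ l

/-- `Y = z^((2n+3)n) y^n`. -/
noncomputable def YY (n : ℕ) : Polynomial P2 := mo ((2 * n + 3) * n) n

/-- `∑_{t<n} (z^(2n+3) y)^t`. -/
noncomputable def En (n : ℕ) : Polynomial P2 := ∑ t ∈ Finset.range n, mo ((2 * n + 3) * t) t

/-- `∑_{t<n} (z^(2n+1) y)^t`. -/
noncomputable def Tn (n : ℕ) : Polynomial P2 := ∑ t ∈ Finset.range n, mo ((2 * n + 1) * t) t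

/-- The multiplier `ϑ = z^(1+(2n+3)(n-1)) y^n (Y + z) (1 + Y) En`. -/
noncomputable def th (n : ℕ) : Polynomial P2 :=
  mo (1 + (2 * n + 3) * (n - 1)) n * (YY n + mo 1 0) * (1 + YY n) * En n

/-- Inhomogeneous term of the homogeneous solution `φ`. -/
noncomputable def bphi (n : ℕ) : Polynomial P2 := 1 + mo 1 0 * (1 + YY n) * En n + Tn n

/-- `(1 + Y) Ψ(Y)`. -/
noncomputable def Ps (n : ℕ) : Fi n → Polynomial P2
  | none => 1
  | some i => (1 + YY n) * YY n ^ (i : ℕ)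

/-- Inhomogeneous terms for the functionals. -/
noncomputable def bpsi (n : ℕ) (f : Fi n) : Polynomial P2 :=
  (1 + mo 1 0) * mo 1 0 * En n * Ps n f +
    mo 1 0 * (C (C (fl n f 1)) + mo (2 * n + 1) 0 * C (C (fl n f X))) * Tn n

/-- All inhomogeneous terms: `none` is `φ`. -/
noncomputable def bet (n : ℕ) : Option (Fi n) → Polynomial P2
  | none => bphi n
  | some f => bpsi n f

/-- The substitution `y ↦ c y^(2n)`. -/
noncomputable def sg (n : ℕ) {R : Type} [CommRing R] (c : R) (F : PowerSeries R) : PowerSeries R :=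
  PowerSeries.mk fun j => if 2 * n ∣ j then c ^ (j / (2 * n)) * PowerSeries.coeff (j / (2 * n)) F
    else 0

/-- The exponent of `c = z^((2n+3)(2n-1))`; also `y_1 = z^(ce n)`. -/
def ce (n : ℕ) : ℕ := (2 * n + 3) * (2 * n - 1)

/-- The Mahler equation over `𝔽₂[z]`. -/
def Sol (n : ℕ) (β : Polynomial P2) (g : PowerSeries P2) : Prop :=
  (1 + PowerSeries.X) * g = (th n : PowerSeries P2) * sg n ((X : P2) ^ ce n) g + (β : PowerSeries P2)

/-- From `𝔽₂[z]⟦y⟧` to `𝔽₂⟦z⟧⟦y⟧`. -/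
noncomputable def toS (F : PowerSeries P2) : PowerSeries S2 := PowerSeries.map (algebraMap P2 S2) F

/-- From `𝔽₂[z][y]` to `𝔽₂⟦z⟧[y]`. -/
noncomputable def pS (p : Polynomial P2) : Polynomial S2 := p.map (algebraMap P2 S2)

/-- The Mahler equation over `𝔽₂⟦z⟧`. -/
def SolS (n : ℕ) (β : Polynomial S2) (x : PowerSeries S2) : Prop :=
  (1 + PowerSeries.X) * x =
    (pS (th n) : PowerSeries S2) * sg n ((zz : S2) ^ ce n) x + (β : PowerSeries S2)

/-- The residue `ϑ(1) x(y_1) + β(1)`. -/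
noncomputable def Res (n : ℕ) (x : PowerSeries S2) (β : Polynomial S2) : S2 :=
  (pS (th n)).eval 1 * ev (ce n) x + β.eval 1

/-- The scaled series of a dual sequence: `∑_i z^((2n+3)(i+1)) δ_(2i+2) y^i`. -/
noncomputable def Dh (n : ℕ) (δ : ℕ → S2) : PowerSeries S2 :=
  PowerSeries.mk fun i => zz ^ ((2 * n + 3) * (i + 1)) * δ (2 * i + 2)

/-- The values `F_i`. -/
noncomputable def Fv (n : ℕ) (G : Option (Fi n) → PowerSeries P2) (i : Option (Fi n)) : S2 :=
  Res n (toS (G i)) (pS (bet n i))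

/-- The exponents of the orbit: `y_k = z^(Nk n k)`, `k ≥ 0` (this is `y_(k+1)` of the paper). -/
def Nk (n k : ℕ) : ℕ := (2 * n + 3) * ((2 * n) ^ (k + 1) - 1)

/-- The order of `a_k`. -/
def al (n k : ℕ) : ℕ := ∑ l ∈ Finset.range (k + 1), (n * (2 * n + 3) * (2 * n) ^ l - (2 * n + 1))

/-- Exact order `o`. -/
def HasOrd (x : S2) (o : ℕ) : Prop := ∃ t : S2, x = zz ^ o * (1 + zz * t)

/-- The data of the orbit. -/
structure Orb (n : ℕ) {ι : Type} (g : ι → PowerSeries S2) (F : ι → S2) where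
  a : ℕ → S2
  b : ι → ℕ → S2
  hF : ∀ i k, F i = a k * ev (Nk n k) (g i) + b i k
  ha : ∀ k, HasOrd (a k) (al n k)

/-- Evaluation of a polynomial in `y` and the variables `a = none`, `b_i = some i` at the `k`-th point
of the orbit. -/
noncomputable def Ev (n : ℕ) {ι : Type} {g : ι → PowerSeries S2} {F : ι → S2} (O : Orb n g F) (k : ℕ) :
    Polynomial (MvPolynomial (Option ι) P2) →+* S2 :=
  Polynomial.eval₂RingHom (MvPolynomial.eval₂Hom (algebraMap P2 S2)
    (fun v : Option ι => match v with | none => O.a k | some i => O.b i k)) (zz ^ Nk n k)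

end Pool.Agent.Lib.MPba1bba.TM
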