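import Pool.Agent.Lib.MP_ba1bba_al.TM.Spec
import Pool.Agent.Lib.MP_ba1bba_al.TR.RE

section
/-!
# Module ALG: a criterion of algebraic independence in characteristic `2`
-/
namespace Pool.Agent.Lib.MPba1bba.TM

namespace ALGAux

open MvPolynomial

/-- The substitution `X_i ↦ α X_i + β_i`. -/
noncomputable def sb {R ι : Type} [CommRing R] (α : R) (β : ι → R) :
    MvPolynomial ι R →ₐ[R] MvPolynomial ι R :=
  aeval fun i => C α * X i + C (β i)

theorem sb_C {R ι : Type} [CommRing R] (α : R) (β : ι → R) (r : R) :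
    sb α β (C r) = C r := by
  rw [← MvPolynomial.algebraMap_eq, AlgHom.commutes]

theorem coeff_sb_monomial {R ι : Type} [CommRing R] (α : R) (β : ι → R) :
    ∀ (n : ℕ) (μ κ : ι →₀ ℕ), μ.degree = n → n ≤ κ.degree →
      coeff κ (sb α β (monomial μ 1)) = α ^ n * coeff κ (monomial μ (1 : R)) := by
  classical
  intro n
  induction n with
  | zero =>
    intro μ κ hμ _
    have : μ = 0 := (Finsupp.degree_eq_zero_iff μ).mp hμ
    subst this
    simp
  | succ n ih =>
    intro μ κ hμ hκ
    have hne : μ ≠ 0 := by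
      rintro rfl
      simp at hμ
    obtain ⟨i, hi⟩ := Finsupp.ne_iff.mp hne
    have hi : μ i ≠ 0 := by simpa using hi
    have hle : Finsupp.single i 1 ≤ μ := by
      rw [Finsupp.single_le_iff]; omega
    obtain ⟨ν, rfl⟩ := exists_add_of_le hle
    have hν : ν.degree = n := by
      rw [map_add, Finsupp.degree_single] at hμ
      omega
    have hmon : (monomial (Finsupp.single i 1 + ν) (1 : R)) = X i * monomial ν 1 := by
      rw [X, monomial_mul, one_mul]
    have hsX : sb α β (X i) = C α * X i + C (β i) := by simp [sb]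
    rw [hmon, map_mul, hsX, add_mul, coeff_add, mul_assoc, coeff_C_mul, coeff_C_mul,
      coeff_X_mul', coeff_X_mul']
    have h1 : coeff κ (sb α β (monomial ν 1)) = 0 := by
      rw [ih ν κ hν (by omega), coeff_monomial, if_neg, mul_zero]
      rintro rfl
      omega
    rw [h1, mul_zero, add_zero]
    split_ifs with hsup
    · have hκi : κ i ≠ 0 := by simpa using hsup
      have hle' : Finsupp.single i 1 ≤ κ := by
        rw [Finsupp.single_le_iff]; omega
      obtain ⟨κ', rfl⟩ := exists_add_of_le hle'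
      have e1 : Finsupp.single i 1 + κ' - Finsupp.single i 1 = κ' := by
        rw [add_tsub_cancel_left]
      rw [e1, ih ν κ' hν (by rw [map_add, Finsupp.degree_single] at hκ; omega)]
      ring
    · simp

theorem coeff_sb {R ι : Type} [CommRing R] (α : R) (β : ι → R) (Q : MvPolynomial ι R) (e : ℕ)
    (hQ : ∀ κ, e < κ.degree → coeff κ Q = 0) (κ : ι →₀ ℕ) (hκ : e ≤ κ.degree) :
    coeff κ (sb α β Q) = α ^ κ.degree * coeff κ Q := by
  classical
  conv_lhs => rw [Q.as_sum]
  conv_rhs => rw [Q.as_sum]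
  rw [map_sum, coeff_sum, coeff_sum, Finset.mul_sum]
  refine Finset.sum_congr rfl fun μ hμ => ?_
  have hμe : μ.degree ≤ e := by
    by_contra h
    exact (mem_support_iff.mp hμ) (hQ μ (by omega))
  have e1 : (monomial μ (coeff μ Q)) = C (coeff μ Q) * monomial μ (1 : R) := by
    rw [C_mul_monomial, mul_one]
  have hC : ∀ r : R, sb α β (C r) = C r := fun r => by
    rw [← MvPolynomial.algebraMap_eq, AlgHom.commutes]
  rw [e1, map_mul, hC, coeff_C_mul, coeff_C_mul,
    coeff_sb_monomial α β μ.degree μ κ rfl (by omega), coeff_monomial]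
  split_ifs with h
  · subst h; ring
  · ring

theorem eval₂_sb {R S ι : Type} [CommRing R] [CommRing S] (φ : R →+* S) (g : ι → S) (α : R)
    (β : ι → R) (Q : MvPolynomial ι R) :
    eval₂ φ g (sb α β Q) = eval₂ φ (fun i => φ α * g i + φ (β i)) Q := by
  induction Q using MvPolynomial.induction_on with
  | C r =>
    rw [← MvPolynomial.algebraMap_eq, AlgHom.commutes, MvPolynomial.algebraMap_eq, eval₂_C, eval₂_C]
  | add p q hp hq => rw [map_add, eval₂_add, eval₂_add, hp, hq]
  | mul_X p i hp =>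
    rw [map_mul, eval₂_mul, eval₂_mul, hp]
    simp [sb]

theorem map_sb {R S ι : Type} [CommRing R] [CommRing S] (φ : R →+* S) (α : R)
    (β : ι → R) (Q : MvPolynomial ι R) :
    map φ (sb α β Q) = sb (φ α) (fun i => φ (β i)) (map φ Q) := by
  induction Q using MvPolynomial.induction_on with
  | C r =>
    rw [sb_C, map_C, sb_C]
  | add p q hp hq => rw [map_add, map_add, map_add, map_add, hp, hq]
  | mul_X p i hp =>
    rw [map_mul, map_mul, map_mul, map_mul, hp]
    simp [sb]

theorem sb_sb {R ι : Type} [CommRing R] (α γ : R) (β δ : ι → R) (Q : MvPolynomial ι R) :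
    sb α β (sb γ δ Q) = sb (α * γ) (fun i => γ * β i + δ i) Q := by
  induction Q using MvPolynomial.induction_on with
  | C r =>
    rw [← MvPolynomial.algebraMap_eq, AlgHom.commutes, AlgHom.commutes, AlgHom.commutes]
  | add p q hp hq => rw [map_add, map_add, map_add, hp, hq]
  | mul_X p i hp =>
    rw [map_mul, map_mul, map_mul, hp]
    simp only [sb, aeval_X, map_add, map_mul, ← MvPolynomial.algebraMap_eq, AlgHom.commutes]
    ring

theorem coeff_sb_zero {R ι : Type} [CommRing R] (α : R) (Q : MvPolynomial ι R) (κ : ι →₀ ℕ) :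
    coeff κ (sb α (fun _ => 0) Q) = α ^ κ.degree * coeff κ Q := by
  classical
  conv_lhs => rw [Q.as_sum]
  conv_rhs => rw [Q.as_sum]
  rw [map_sum, coeff_sum, coeff_sum, Finset.mul_sum]
  refine Finset.sum_congr rfl fun μ hμ => ?_
  have e0 : sb α (fun _ => 0) (monomial μ (coeff μ Q)) =
      C (α ^ μ.degree) * monomial μ (coeff μ Q) := by
    rw [sb, aeval_monomial, MvPolynomial.algebraMap_eq]
    rw [monomial_eq (s := μ)]
    simp only [map_zero, add_zero, mul_pow, Finsupp.prod_mul]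
    have : (μ.prod fun (_ : ι) (e : ℕ) => (C α : MvPolynomial ι R) ^ e) = C (α ^ μ.degree) := by
      rw [Finsupp.prod, Finset.prod_pow_eq_pow_sum, map_pow]
      rfl
    rw [this]
    ring
  rw [e0, coeff_C_mul, coeff_monomial]
  split_ifs with h
  · subst h; rfl
  · ring

/-- `(s+1)^e = s^e + 1` as polynomials in characteristic `2` implies that `e` is a power of `2`. -/
theorem pow_two_of_add_pow {M : Type} [Field M] [CharP M 2] (e : ℕ) (he : 1 ≤ e)
    (h : ((Polynomial.X : Polynomial M) + 1) ^ e = Polynomial.X ^ e + 1) : ∃ r : ℕ, e = 2 ^ r := by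
  obtain ⟨r, o, ho, rfl⟩ := Nat.exists_eq_two_pow_mul_odd (n := e) (by omega)
  refine ⟨r, ?_⟩
  have : CharP (Polynomial M) 2 := inferInstance
  have ho1 : 1 ≤ o := ho.pos
  by_cases h1 : o = 1
  · rw [h1, mul_one]
  exfalso
  have e1 : ((Polynomial.X : Polynomial M) + 1) ^ 2 ^ r = Polynomial.X ^ 2 ^ r + 1 := by
    rw [add_pow_char_pow, one_pow]
  rw [pow_mul, e1] at h
  have hco := congrArg (fun p => Polynomial.coeff p (2 ^ r)) h
  have e2 : ((Polynomial.X : Polynomial M) ^ 2 ^ r + 1) ^ o =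
      ((Polynomial.expand M (2 ^ r)) ((Polynomial.X + 1) ^ o)) := by
    simp
  have hr : 0 < 2 ^ r := by positivity
  have e3 : Polynomial.coeff (((Polynomial.X : Polynomial M) ^ 2 ^ r + 1) ^ o) (2 ^ r) = (o : M) := by
    rw [e2, Polynomial.coeff_expand hr, if_pos dvd_rfl, Nat.div_self hr,
      Polynomial.coeff_X_add_one_pow]
    simp
  have e4 : Polynomial.coeff ((Polynomial.X : Polynomial M) ^ (2 ^ r * o) + 1) (2 ^ r) = 0 := by
    rw [Polynomial.coeff_add, Polynomial.coeff_X_pow, if_neg, Polynomial.coeff_one, if_neg, add_zero]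
    · omega
    · intro h2
      have : 2 ^ r * 1 = 2 ^ r * o := by rw [mul_one]; exact h2
      have := Nat.eq_of_mul_eq_mul_left hr this
      omega
  have e5 : (o : M) = 0 := by
    rw [← e3, hco, e4]
  have : 2 ∣ o := (CharP.cast_eq_zero_iff M 2 o).mp e5
  exact (Nat.not_even_iff_odd.mpr ho) (even_iff_two_dvd.mpr this)

/-- The value of a homogeneous polynomial at a multiple of a basis vector. -/
theorem eval_single {M ι : Type} [CommRing M] [Fintype ι] [DecidableEq ι] (p : MvPolynomial ι M)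
    (e : ℕ) (hp : ∀ κ : ι →₀ ℕ, κ.degree ≠ e → coeff κ p = 0) (i : ι) (x : M) :
    eval (Pi.single i x) p = coeff (Finsupp.single i e) p * x ^ e := by
  classical
  rw [eval_eq']
  rw [Finset.sum_eq_single (Finsupp.single i e)]
  · congr 1
    rw [Finset.prod_eq_single i]
    · simp
    · intro j _ hj
      simp [Ne.symm hj]
    · intro h
      exact absurd (Finset.mem_univ i) h
  · intro κ hκ hne
    have hdeg : κ.degree = e := by
      by_contra h
      exact (mem_support_iff.mp hκ) (hp κ h)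
    have : ∃ j, j ≠ i ∧ κ j ≠ 0 := by
      by_contra hcon
      push Not at hcon
      apply hne
      have hk : κ = Finsupp.single i (κ i) := by
        ext j
        by_cases hj : j = i
        · subst hj; simp
        · rw [hcon j hj, Finsupp.single_apply, if_neg (Ne.symm hj)]
      rw [hk, Finsupp.degree_single] at hdeg
      rw [hk, hdeg]
    obtain ⟨j, hj, hkj⟩ := this
    rw [Finset.prod_eq_zero (Finset.mem_univ j), mul_zero]
    rw [Pi.single_eq_of_ne hj, zero_pow hkj]
  · intro h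
    rw [notMem_support_iff.mp h, zero_mul]

theorem core {K M ι : Type} [Field K] [CharP K 2] [Field M] [Fintype ι] (φ : M →+* K)
    (σ : K →+* K) (τ : M →+* M) (hτ : ∀ x, σ (φ x) = φ (τ x)) (a : M) (ha : a ≠ 0)
    (g : ι → K) (b : ι → M) (hg : ∀ i, g i = φ a * σ (g i) + φ (b i))
    (hNH : ∀ (j : ℕ) (r : K), 1 ≤ j → φ a ^ j * σ r = r → r = 0)
    (hinf : {x : M | τ x = x}.Infinite)
    (hLI : ∀ (r : ℕ) (c : ι → M), (∀ i, τ (c i) = c i) →
      (∃ y : M, ∑ i, φ (c i) * g i ^ 2 ^ r = φ y) → ∀ i, c i = 0) :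
    ∀ P : MvPolynomial ι M, eval₂ φ g P = 0 → P = 0 := by
  classical
  have hφ : Function.Injective φ := φ.injective
  have : CharP M 2 := (RingHom.charP_iff φ hφ 2).mpr inferInstance
  have hφa : φ a ≠ 0 := fun h => ha (hφ (by rw [h, map_zero]))
  have hφai : φ a * φ a⁻¹ = 1 := by rw [← map_mul, mul_inv_cancel₀ ha, map_one]
  have hσg : ∀ i, φ a⁻¹ * g i + φ (-(a⁻¹ * b i)) = σ (g i) := by
    intro i
    have e1 : φ a⁻¹ * g i = φ a⁻¹ * (φ a * σ (g i) + φ (b i)) := by rw [← hg i]
    rw [e1, map_neg, map_mul]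
    linear_combination (σ (g i)) * hφai
  by_contra hcon
  push Not at hcon
  -- minimal degree
  have hex : ∃ e : ℕ, ∃ P : MvPolynomial ι M, eval₂ φ g P = 0 ∧ P ≠ 0 ∧
      ∀ κ : ι →₀ ℕ, e < κ.degree → coeff κ P = 0 := by
    obtain ⟨P, h0, h1⟩ := hcon
    refine ⟨P.support.sup fun κ => κ.degree, P, h0, h1, fun κ hκ => ?_⟩
    by_contra h
    have := Finset.le_sup (f := fun κ : ι →₀ ℕ => κ.degree) (mem_support_iff.mpr h)
    omega
  obtain ⟨e, he, hmin⟩ : ∃ e : ℕ, (∃ P : MvPolynomial ι M, eval₂ φ g P = 0 ∧ P ≠ 0 ∧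
      ∀ κ : ι →₀ ℕ, e < κ.degree → coeff κ P = 0) ∧
      ∀ Q : MvPolynomial ι M, eval₂ φ g Q = 0 → (∀ κ : ι →₀ ℕ, e ≤ κ.degree → coeff κ Q = 0) →
        Q = 0 := by
    refine ⟨Nat.find hex, Nat.find_spec hex, fun Q hQ hQd => ?_⟩
    by_contra hne
    rcases Nat.eq_zero_or_pos (Nat.find hex) with h0 | hpos
    · apply hne
      ext κ
      rw [hQd κ (by omega), coeff_zero]
    · refine Nat.find_min hex (m := Nat.find hex - 1) (by omega) ⟨Q, hQ, hne, fun κ hκ => ?_⟩
      exact hQd κ (by omega)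
  have hex2 : ∃ t : ℕ, ∃ P : MvPolynomial ι M, (eval₂ φ g P = 0 ∧ P ≠ 0 ∧
      ∀ κ : ι →₀ ℕ, e < κ.degree → coeff κ P = 0) ∧
      (P.support.filter fun κ => κ.degree = e).card = t := by
    obtain ⟨P, hP⟩ := he
    exact ⟨_, P, hP, rfl⟩
  obtain ⟨P₀, ⟨hP₀, hP₀ne, hP₀d⟩, hP₀t⟩ := Nat.find_spec hex2
  have hmin2 : ∀ Q : MvPolynomial ι M, eval₂ φ g Q = 0 →
      (∀ κ : ι →₀ ℕ, e < κ.degree → coeff κ Q = 0) →
      (Q.support.filter fun κ => κ.degree = e).card < Nat.find hex2 → Q = 0 := by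
    intro Q hQ hQd hlt
    by_contra hne
    exact Nat.find_min hex2 hlt ⟨Q, ⟨hQ, hne, hQd⟩, rfl⟩
  -- normalisation
  obtain ⟨ν, hνe, hν⟩ : ∃ ν : ι →₀ ℕ, ν.degree = e ∧ coeff ν P₀ ≠ 0 := by
    by_contra h
    push Not at h
    refine hP₀ne (hmin P₀ hP₀ fun κ hκ => ?_)
    rcases hκ.lt_or_eq with h1 | h1
    · exact hP₀d κ h1
    · exact h κ h1.symm
  obtain ⟨P, hP, hPd, hPt, hPν⟩ : ∃ P : MvPolynomial ι M, eval₂ φ g P = 0 ∧
      (∀ κ : ι →₀ ℕ, e < κ.degree → coeff κ P = 0) ∧
      (P.support.filter fun κ => κ.degree = e).card = Nat.find hex2 ∧ coeff ν P = 1 := by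
    refine ⟨C (coeff ν P₀)⁻¹ * P₀, ?_, ?_, ?_, ?_⟩
    · rw [eval₂_mul, hP₀, mul_zero]
    · intro κ hκ
      rw [coeff_C_mul, hP₀d κ hκ, mul_zero]
    · rw [← hP₀t]
      congr 2
      ext κ
      rw [mem_support_iff, mem_support_iff, coeff_C_mul]
      simp [hν]
    · rw [coeff_C_mul, inv_mul_cancel₀ hν]
  -- step 2
  have hR : P = C (a ^ e) * sb a⁻¹ (fun i => -(a⁻¹ * b i)) (map τ P) := by
    have hcoef : ∀ κ : ι →₀ ℕ, e ≤ κ.degree →
        coeff κ (P - C (a ^ e) * sb a⁻¹ (fun i => -(a⁻¹ * b i)) (map τ P)) =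
          coeff κ P - a ^ e * (a⁻¹ ^ κ.degree * τ (coeff κ P)) := by
      intro κ hκ
      rw [coeff_sub, coeff_C_mul, coeff_sb _ _ _ e _ κ hκ, coeff_map]
      intro κ' hκ'
      rw [coeff_map, hPd κ' hκ', map_zero]
    rw [← sub_eq_zero]
    apply hmin2
    · rw [eval₂_sub, hP, eval₂_mul, eval₂_sb]
      simp only [hσg]
      rw [eval₂_map]
      have hcomp : φ.comp τ = σ.comp φ := by
        ext x; simp [hτ]
      rw [hcomp]
      have := MvPolynomial.eval₂_comp_left σ φ g P
      rw [hP, map_zero] at this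
      have e2 : (fun i => σ (g i)) = σ ∘ g := rfl
      rw [e2, ← this, mul_zero, sub_zero]
    · intro κ hκ
      rw [hcoef κ hκ.le, hPd κ hκ, map_zero]
      ring
    · rw [← hPt]
      apply Finset.card_lt_card
      rw [Finset.ssubset_iff_of_subset]
      · refine ⟨ν, ?_, ?_⟩
        · rw [Finset.mem_filter, mem_support_iff, hPν]
          exact ⟨one_ne_zero, hνe⟩
        · rw [Finset.mem_filter, mem_support_iff, hcoef ν hνe.ge, hPν, map_one, hνe, mul_one,
            ← mul_pow, mul_inv_cancel₀ ha, one_pow, sub_self]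
          simp
      · intro κ hκ
        rw [Finset.mem_filter, mem_support_iff] at hκ ⊢
        obtain ⟨h1, h2⟩ := hκ
        refine ⟨fun h3 => h1 ?_, h2⟩
        rw [hcoef κ h2.ge, h3, map_zero]
        ring
  have hfix : ∀ κ : ι →₀ ℕ, κ.degree = e → τ (coeff κ P) = coeff κ P := by
    intro κ hκ
    conv_rhs => rw [hR]
    rw [coeff_C_mul, coeff_sb _ _ _ e _ κ hκ.ge, coeff_map, hκ, ← mul_assoc, ← mul_pow,
      mul_inv_cancel₀ ha, one_pow, one_mul]
    intro κ' hκ'
    rw [coeff_map, hPd κ' hκ', map_zero]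
  -- step 3: the Taylor expansion at `g`
  set p : MvPolynomial ι M := homogeneousComponent e P with hp
  have hpc : ∀ κ : ι →₀ ℕ, coeff κ p = if κ.degree = e then coeff κ P else 0 := by
    intro κ
    rw [hp, coeff_homogeneousComponent]
  have hphom : ∀ κ : ι →₀ ℕ, κ.degree ≠ e → coeff κ p = 0 := fun κ h => by
    rw [hpc, if_neg h]
  have hPt1 : sb (φ a) (fun _ => 0) (sb 1 g (map φ P)) =
      C (φ a ^ e) * map σ (sb 1 g (map φ P)) := by
    rw [sb_sb, map_sb]
    conv_lhs => rw [hR]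
    rw [map_mul, map_C, map_sb, map_mul, sb_C, sb_sb, map_pow]
    have hcomp : φ.comp τ = σ.comp φ := RingHom.ext fun x => by simp [hτ]
    have hmm : map φ (map τ P) = map σ (map φ P) := by
      rw [map_map, map_map, hcomp]
    rw [hmm]
    congr 1
    have e1 : φ a * 1 * φ a⁻¹ = σ 1 := by rw [mul_one, hφai, map_one]
    have e2 : (fun i => φ a⁻¹ * (1 * 0 + g i) + φ (-(a⁻¹ * b i))) = fun i => σ (g i) := by
      funext i
      rw [mul_zero, zero_add, hσg]
    rw [e1, e2]
  have hPt2 : sb 1 g (map φ P) = map φ p := by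
    ext κ
    rw [coeff_map, hpc]
    rcases lt_or_ge κ.degree e with h | h
    · rw [if_neg h.ne, map_zero]
      have h1 := congrArg (coeff κ) hPt1
      rw [coeff_sb_zero, coeff_C_mul, coeff_map] at h1
      refine hNH (e - κ.degree) _ (by omega) ?_
      have h2 : φ a ^ e = φ a ^ κ.degree * φ a ^ (e - κ.degree) := by
        rw [← pow_add]; congr 1; omega
      rw [h2, mul_assoc] at h1
      exact (mul_left_cancel₀ (pow_ne_zero _ hφa) h1).symm
    · rw [coeff_sb _ _ _ e _ κ h, one_pow, one_mul, coeff_map]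
      · split_ifs with h1
        · rfl
        · rw [hPd κ (lt_of_le_of_ne h (Ne.symm h1)), map_zero]
      · intro κ' hκ'
        rw [coeff_map, hPd κ' hκ', map_zero]
  -- step 4
  have he1 : 1 ≤ e := by
    by_contra h
    have he0 : e = 0 := by omega
    have hP1 : P = C 1 := by
      ext κ
      by_cases hκ : κ = 0
      · subst hκ
        have : ν = 0 := (Finsupp.degree_eq_zero_iff ν).mp (by rw [hνe, he0])
        rw [← this, hPν, this, coeff_C]
        simp
      · rw [coeff_C, if_neg (Ne.symm hκ)]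
        apply hPd
        rw [he0, Nat.pos_iff_ne_zero]
        exact fun h => hκ ((Finsupp.degree_eq_zero_iff κ).mp h)
    rw [hP1, eval₂_C, map_one] at hP
    exact one_ne_zero hP
  have hadd0 : ∀ t : ι → M, (∀ i, τ (t i) = t i) → sb 1 t P = P + C (eval t p) := by
    intro t ht
    have : sb 1 t P - (P + C (eval t p)) = 0 := by
      apply hmin
      · rw [eval₂_sub, eval₂_add, hP, eval₂_C, eval₂_sb, zero_add]
        have h1 := congrArg (eval fun i => φ (t i)) hPt2
        rw [eval_map] at h1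
        rw [show (eval fun i => φ (t i)) (sb 1 g (map φ P)) =
          eval₂ (RingHom.id K) (fun i => φ (t i)) (sb 1 g (map φ P)) from rfl, eval₂_sb,
          eval₂_map, RingHom.id_comp] at h1
        simp only [RingHom.id_apply, one_mul] at h1
        have h2 : (fun i => φ 1 * g i + φ (t i)) = fun i => φ (t i) + g i := by
          funext i; rw [map_one, one_mul, add_comm]
        rw [h2, h1]
        have h3 := MvPolynomial.eval₂_comp_left φ (RingHom.id M) t p
        rw [RingHom.comp_id] at h3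
        rw [show eval t p = eval₂ (RingHom.id M) t p from rfl, h3]
        exact sub_self _
      · intro κ hκ
        have hκ0 : (0 : ι →₀ ℕ) ≠ κ := by
          rintro rfl
          simp at hκ
          omega
        rw [coeff_sub, coeff_add, coeff_C, if_neg hκ0, add_zero, coeff_sb _ _ _ e hPd κ hκ,
          one_pow, one_mul, sub_self]
    exact sub_eq_zero.mp this
  have hadd1 : ∀ t t' : ι → M, (∀ i, τ (t i) = t i) →
      eval (fun i => t' i + t i) P = eval t' P + eval t p := by
    intro t t' ht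
    have h1 := congrArg (eval t') (hadd0 t ht)
    rw [map_add, eval_C] at h1
    rw [← h1]
    rw [show (eval t') (sb 1 t P) = eval₂ (RingHom.id M) t' (sb 1 t P) from rfl, eval₂_sb]
    simp only [RingHom.id_apply, one_mul]
    rfl
  have hadd2 : ∀ t : ι → M, (∀ i, τ (t i) = t i) → eval t P = eval 0 P + eval t p := by
    intro t ht
    have := hadd1 t 0 ht
    simpa using this
  have hadd3 : ∀ t t' : ι → M, (∀ i, τ (t i) = t i) → (∀ i, τ (t' i) = t' i) →
      eval (fun i => t' i + t i) p = eval t' p + eval t p := by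
    intro t t' ht ht'
    have h1 := hadd1 t t' ht
    rw [hadd2 t' ht', hadd2 _ (fun i => by rw [map_add, ht, ht'])] at h1
    have h2 : eval 0 P + eval (fun i => t' i + t i) p = eval 0 P + (eval t' p + eval t p) := by
      rw [h1]; ring
    exact add_left_cancel h2
  -- step 5
  set c : ι → M := fun i => coeff (Finsupp.single i e) p with hc
  have hs : ∀ (t : ι → M), (∀ i, τ (t i) = t i) → ∀ s : Finset ι,
      eval (fun i => if i ∈ s then t i else 0) p = ∑ i ∈ s, c i * t i ^ e := by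
    intro t ht s
    induction s using Finset.induction_on with
    | empty =>
      have h1 := hadd3 0 0 (fun i => by simp) (fun i => by simp)
      simp only [Pi.zero_apply, add_zero] at h1
      simp only [Finset.notMem_empty, if_false, Finset.sum_empty]
      have h2 : (0 : ι → M) = fun _ => 0 := rfl
      rw [h2] at h1
      exact left_eq_add.mp h1
    | insert i s his ih =>
      rw [Finset.sum_insert his, ← ih, ← eval_single p e hphom i (t i)]
      have h1 := hadd3 (fun j => if j ∈ s then t j else 0) (Pi.single i (t i))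
        (fun j => by split_ifs <;> simp [ht])
        (fun j => by
          by_cases hj : j = i
          · subst hj; simp [ht]
          · simp [Pi.single_eq_of_ne hj])
      rw [← h1]
      congr 1
      congr 1
      funext j
      by_cases hj : j = i
      · subst hj
        simp [his]
      · simp [hj]
  have hsum : ∀ (t : ι → M), (∀ i, τ (t i) = t i) → eval t p = ∑ i, c i * t i ^ e := by
    intro t ht
    have := hs t ht Finset.univ
    simpa using this
  have hPform : P = C (eval 0 P) + ∑ i, C (c i) * X i ^ e := by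
    refine funext_set (fun _ => {x : M | τ x = x}) (fun _ => hinf) fun t ht => ?_
    have ht' : ∀ i, τ (t i) = t i := fun i => ht i (Set.mem_univ i)
    rw [hadd2 t ht', hsum t ht']
    simp
  have hcfix : ∀ i, τ (c i) = c i := by
    intro i
    simp only [hc, hpc]
    rw [if_pos (Finsupp.degree_single i e)]
    exact hfix _ (Finsupp.degree_single i e)
  -- step 6
  obtain ⟨i₀, hi₀⟩ : ∃ i, c i ≠ 0 := by
    by_contra h
    push Not at h
    have h1 : P = C (eval 0 P) := by
      rw [hPform]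
      simp [h]
    have h2 : coeff ν P = 0 := by
      rw [h1, coeff_C, if_neg]
      rintro rfl
      simp at hνe
      omega
    rw [hPν] at h2
    exact one_ne_zero h2
  have hpoly : ((Polynomial.X : Polynomial M) + 1) ^ e = Polynomial.X ^ e + 1 := by
    apply Polynomial.eq_of_infinite_eval_eq
    refine hinf.mono fun x hx => ?_
    have hx : τ x = x := hx
    have hfx : ∀ y : M, τ y = y → ∀ j, τ ((Pi.single i₀ y : ι → M) j) = (Pi.single i₀ y : ι → M) j := by
      intro y hy j
      by_cases hj : j = i₀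
      · subst hj; simp [hy]
      · simp [Pi.single_eq_of_ne hj]
    have h1 := hadd3 (Pi.single i₀ 1) (Pi.single i₀ x) (hfx 1 (map_one τ)) (hfx x hx)
    have h2 : (fun i => (Pi.single i₀ x : ι → M) i + (Pi.single i₀ 1 : ι → M) i) =
        Pi.single i₀ (x + 1) := by
      funext j
      by_cases hj : j = i₀
      · subst hj; simp
      · simp [Pi.single_eq_of_ne hj]
    rw [h2, eval_single p e hphom, eval_single p e hphom, eval_single p e hphom, ← mul_add,
      one_pow] at h1
    have h3 := mul_left_cancel₀ hi₀ h1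
    simpa using h3
  obtain ⟨r, rfl⟩ := pow_two_of_add_pow e he1 hpoly
  -- step 7
  apply hi₀
  refine hLI r c hcfix ⟨-eval 0 P, ?_⟩ i₀
  have h1 : eval₂ φ g P = φ (eval 0 P) + ∑ i, φ (c i) * g i ^ 2 ^ r := by
    conv_lhs => rw [hPform]
    rw [eval₂_add, eval₂_C, eval₂_sum]
    congr 1
    refine Finset.sum_congr rfl fun i _ => ?_
    rw [eval₂_mul, eval₂_C, eval₂_pow, eval₂_X]
  rw [hP] at h1
  rw [map_neg]
  linear_combination -h1

end ALGAux

theorem specALG : SpecALG := by
  intro K _ _ ι _ σ M a g b haM hbM hσM hg hNH hinf hLI P hPM hP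
  classical
  -- the restriction of `σ`
  let τ : M →+* M := (σ.comp M.subtype).codRestrict M.toSubring.toSubsemiring
    (fun x => hσM _ x.2)
  have hτ : ∀ x : M, σ (M.subtype x) = M.subtype (τ x) := fun x => rfl
  obtain ⟨P', rfl⟩ : ∃ P' : MvPolynomial ι M, MvPolynomial.map M.subtype P' = P := by
    refine ⟨∑ κ ∈ P.support, MvPolynomial.monomial κ (⟨P.coeff κ, hPM κ⟩ : M), ?_⟩
    rw [map_sum]
    conv_rhs => rw [P.as_sum]
    refine Finset.sum_congr rfl fun κ _ => ?_
    rw [MvPolynomial.map_monomial]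
    rfl
  have hP' : MvPolynomial.eval₂ M.subtype g P' = 0 := by
    rw [← MvPolynomial.eval_map]; exact hP
  by_cases ha : a = 0
  · rcases isEmpty_or_nonempty ι with hι | ⟨⟨i⟩⟩
    · rw [MvPolynomial.eq_C_of_isEmpty P', MvPolynomial.eval₂_C] at hP'
      have h1 : MvPolynomial.coeff 0 P' = 0 := M.subtype.injective (by rw [hP', map_zero])
      rw [MvPolynomial.eq_C_of_isEmpty P', h1, map_zero, map_zero]
    · exfalso
      have h1 := hLI 0 (Pi.single i 1) (fun j => by
        by_cases hj : j = i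
        · subst hj; simp
        · simp [Pi.single_eq_of_ne hj]) (by
        rw [Finset.sum_eq_single i]
        · rw [Pi.single_eq_same, one_mul, pow_zero, pow_one, hg i, ha, zero_mul, zero_add]
          exact hbM i
        · intro j _ hj
          rw [Pi.single_eq_of_ne hj, zero_mul]
        · intro h
          exact absurd (Finset.mem_univ i) h) i
      rw [Pi.single_eq_same] at h1
      exact one_ne_zero h1
  have h0 := ALGAux.core M.subtype σ τ hτ ⟨a, haM⟩ (fun h => ha (congrArg Subtype.val h)) g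
    (fun i => ⟨b i, hbM i⟩) hg hNH ?_ ?_ P' hP'
  · rw [h0, map_zero]
  · refine Set.Infinite.of_image Subtype.val (hinf.mono ?_)
    rintro x ⟨hx, hx'⟩
    exact ⟨⟨x, hx⟩, Subtype.ext hx', rfl⟩
  · rintro r c hc ⟨y, hy⟩ i
    refine Subtype.ext (hLI r (fun i => (c i : K)) (fun j => congrArg Subtype.val (hc j)) ?_ i)
    have : ∑ i, (c i : K) * g i ^ 2 ^ r = (y : K) := hy
    rw [this]
    exact y.2

end Pool.Agent.Lib.MPba1bba.TM
end

section
/-!
# Module AUX: Siegel's lemma for the auxiliary function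
-/
namespace Pool.Agent.Lib.MPba1bba.TM

open Polynomial TR

namespace AUXM

variable {V : Type} [Fintype V] [DecidableEq V]

/-- The exponent vector of a bounded function. -/
noncomputable def ex {p : ℕ} (e : V → Fin p) : V →₀ ℕ :=
  Finsupp.equivFunOnFinite.symm fun v => (e v : ℕ)

omit [DecidableEq V] in
theorem ex_apply {p : ℕ} (e : V → Fin p) (v : V) : ex e v = (e v : ℕ) := rfl

omit [DecidableEq V] in
theorem ex_inj {p : ℕ} {e e' : V → Fin p} (h : ex e = ex e') : e = e' := by
  funext v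
  have := DFunLike.congr_fun h v
  simp only [ex_apply] at this
  exact Fin.ext this

/-- The auxiliary polynomials. -/
noncomputable def Pcf (p : ℕ) (c : Fin (p + 1) × Fin (p + 1) × (V → Fin (p + 1)) → P2) (h : ℕ) :
    Polynomial (MvPolynomial V P2) :=
  if hh : h < p + 1 then
    ∑ x : Fin (p + 1) × (V → Fin (p + 1)),
      Polynomial.monomial (x.1 : ℕ) (MvPolynomial.monomial (ex x.2) (c (⟨h, hh⟩, x)))
  else 0

theorem coeff_Pcf (p : ℕ) (c : Fin (p + 1) × Fin (p + 1) × (V → Fin (p + 1)) → P2) (h : ℕ)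
    (hh : h < p + 1) (l : ℕ) (m : V →₀ ℕ) :
    MvPolynomial.coeff m ((Pcf p c h).coeff l) =
      ∑ x : Fin (p + 1) × (V → Fin (p + 1)),
        if (x.1 : ℕ) = l ∧ ex x.2 = m then c (⟨h, hh⟩, x) else 0 := by
  classical
  rw [Pcf, dif_pos hh, Polynomial.finsetSum_coeff, MvPolynomial.coeff_sum]
  refine Finset.sum_congr rfl fun x _ => ?_
  rw [Polynomial.coeff_monomial]
  by_cases h1 : (x.1 : ℕ) = l
  · rw [if_pos h1, MvPolynomial.coeff_monomial]
    by_cases h2 : ex x.2 = m
    · rw [if_pos h2, if_pos ⟨h1, h2⟩]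
    · rw [if_neg h2, if_neg fun h => h2 h.2]
  · rw [if_neg h1, if_neg fun h => h1 h.1, MvPolynomial.coeff_zero]

theorem coeff_Pcf_self (p : ℕ) (c : Fin (p + 1) × Fin (p + 1) × (V → Fin (p + 1)) → P2)
    (h l : Fin (p + 1)) (e : V → Fin (p + 1)) :
    MvPolynomial.coeff (ex e) ((Pcf p c h).coeff l) = c (h, l, e) := by
  classical
  rw [coeff_Pcf p c h h.2, Finset.sum_eq_single (l, e)]
  · simp
  · rintro ⟨l', e'⟩ _ hne
    refine if_neg ?_
    rintro ⟨h1, h2⟩
    exact hne (Prod.ext (Fin.ext h1) (ex_inj h2))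
  · intro h'
    exact absurd (Finset.mem_univ _) h'

theorem natDegree_Pcf (p : ℕ) (c : Fin (p + 1) × Fin (p + 1) × (V → Fin (p + 1)) → P2) (h : ℕ) :
    (Pcf p c h).natDegree ≤ p := by
  rw [Pcf]
  split_ifs with hh
  · refine Polynomial.natDegree_sum_le_of_forall_le _ _ fun x _ => ?_
    exact le_trans (Polynomial.natDegree_monomial_le _) (Nat.lt_succ_iff.1 x.1.2)
  · simp

theorem degreeOf_Pcf (p : ℕ) (c : Fin (p + 1) × Fin (p + 1) × (V → Fin (p + 1)) → P2) (h : ℕ)
    (l : ℕ) (v : V) : ((Pcf p c h).coeff l).degreeOf v ≤ p := by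
  classical
  by_cases hh : h < p + 1
  · rw [MvPolynomial.degreeOf_le_iff]
    intro m hm
    rw [MvPolynomial.mem_support_iff, coeff_Pcf p c h hh] at hm
    obtain ⟨x, -, hx⟩ := Finset.exists_ne_zero_of_sum_ne_zero hm
    have h2 : (x.1 : ℕ) = l ∧ ex x.2 = m := by
      by_contra h3
      exact hx (if_neg h3)
    rw [← h2.2, ex_apply]
    exact Nat.lt_succ_iff.1 (x.2 v).2
  · rw [Pcf, dif_neg hh, Polynomial.coeff_zero, MvPolynomial.degreeOf_zero]
    exact Nat.zero_le _

omit [Fintype V] [DecidableEq V] in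
theorem degreeOf_pow (d : ℕ) (Φ : PowerSeries (MvPolynomial V P2))
    (hΦ : ∀ l v, (PowerSeries.coeff l Φ).degreeOf v ≤ d) (h : ℕ) : ∀ (l : ℕ) (v : V),
    (PowerSeries.coeff l (Φ ^ h)).degreeOf v ≤ h * d := by
  classical
  induction h with
  | zero =>
    intro l v
    rw [pow_zero, PowerSeries.coeff_one]
    split_ifs
    · rw [show (1 : MvPolynomial V P2) = MvPolynomial.C 1 from rfl, MvPolynomial.degreeOf_C]
      exact Nat.zero_le _
    · rw [MvPolynomial.degreeOf_zero]
      exact Nat.zero_le _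
  | succ h ih =>
    intro l v
    rw [pow_succ, PowerSeries.coeff_mul]
    refine le_trans (MvPolynomial.degreeOf_sum_le _ _ _) (Finset.sup_le fun x _ => ?_)
    refine le_trans (MvPolynomial.degreeOf_mul_le _ _ _) ?_
    have h1 := ih x.1 v
    have h2 := hΦ x.2 v
    nlinarith [h1, h2]

/-- The matrix of the conditions. -/
noncomputable def mat (d p I : ℕ) (Φ : PowerSeries (MvPolynomial V P2)) :
    Matrix (Fin I × (V → Fin (p * d + p + 1))) (Fin (p + 1) × Fin (p + 1) × (V → Fin (p + 1))) P2 :=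
  fun i x => by
    classical
    exact if (x.2.1 : ℕ) ≤ i.1 ∧ ex x.2.2 ≤ ex i.2 then
      MvPolynomial.coeff (ex i.2 - ex x.2.2)
        (PowerSeries.coeff ((i.1 : ℕ) - x.2.1) (Φ ^ (x.1 : ℕ))) else 0

theorem coeff_total (p : ℕ) (c : Fin (p + 1) × Fin (p + 1) × (V → Fin (p + 1)) → P2)
    (Φ : PowerSeries (MvPolynomial V P2)) (i : ℕ) (m : V →₀ ℕ) :
    MvPolynomial.coeff m (PowerSeries.coeff i (∑ h ∈ Finset.range (p + 1),
      (Pcf p c h : PowerSeries (MvPolynomial V P2)) * Φ ^ h)) =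
    ∑ x : Fin (p + 1) × Fin (p + 1) × (V → Fin (p + 1)),
      (open scoped Classical in if (x.2.1 : ℕ) ≤ i ∧ ex x.2.2 ≤ m then
        MvPolynomial.coeff (m - ex x.2.2) (PowerSeries.coeff (i - x.2.1) (Φ ^ (x.1 : ℕ))) else 0) *
      c x := by
  classical
  rw [Finset.sum_range, map_sum, MvPolynomial.coeff_sum, Fintype.sum_prod_type]
  refine Finset.sum_congr rfl fun h _ => ?_
  rw [Pcf, dif_pos h.2]
  have hcoe : ((∑ x : Fin (p + 1) × (V → Fin (p + 1)),
      Polynomial.monomial (x.1 : ℕ) (MvPolynomial.monomial (ex x.2) (c (⟨(h : ℕ), h.2⟩, x))) :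
        Polynomial (MvPolynomial V P2)) : PowerSeries (MvPolynomial V P2)) =
      ∑ x : Fin (p + 1) × (V → Fin (p + 1)),
        PowerSeries.monomial (x.1 : ℕ) (MvPolynomial.monomial (ex x.2) (c (⟨(h : ℕ), h.2⟩, x))) := by
    rw [← Polynomial.coeToPowerSeries.ringHom_apply, map_sum]
    refine Finset.sum_congr rfl fun x _ => ?_
    rw [Polynomial.coeToPowerSeries.ringHom_apply, Polynomial.coe_monomial]
  rw [hcoe, Finset.sum_mul, map_sum, MvPolynomial.coeff_sum]
  refine Finset.sum_congr rfl fun x _ => ?_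
  have hmon : PowerSeries.coeff i (PowerSeries.monomial (x.1 : ℕ)
      (MvPolynomial.monomial (ex x.2) (c (⟨(h : ℕ), h.2⟩, x))) * Φ ^ (h : ℕ)) =
      if (x.1 : ℕ) ≤ i then MvPolynomial.monomial (ex x.2) (c (⟨(h : ℕ), h.2⟩, x)) *
        PowerSeries.coeff (i - x.1) (Φ ^ (h : ℕ)) else 0 := by
    rw [PowerSeries.monomial_eq_C_mul_X_pow, mul_assoc, PowerSeries.coeff_C_mul,
      PowerSeries.coeff_X_pow_mul']
    split_ifs <;> simp
  rw [hmon]
  by_cases h1 : (x.1 : ℕ) ≤ i
  · rw [if_pos h1, MvPolynomial.coeff_monomial_mul']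
    by_cases h2 : ex x.2 ≤ m
    · rw [if_pos h2, if_pos ⟨h1, h2⟩, mul_comm]
    · rw [if_neg h2, if_neg fun h => h2 h.2, zero_mul]
  · rw [if_neg h1, if_neg fun h => h1 h.1, zero_mul, MvPolynomial.coeff_zero]

end AUXM

open AUXM in
theorem specAUX : SpecAUX := by
  classical
  intro V _ d p I Φ hΦ hI
  have hcard : Fintype.card (Fin I × (V → Fin (p * d + p + 1))) <
      Fintype.card (Fin (p + 1) × Fin (p + 1) × (V → Fin (p + 1))) := by
    simp only [Fintype.card_prod, Fintype.card_fin, Fintype.card_fun]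
    have h1 : (p * d + p + 1) ^ Fintype.card V ≤ (1 + d) ^ Fintype.card V *
        (p + 1) ^ Fintype.card V := by
      rw [← mul_pow]
      exact Nat.pow_le_pow_left (by nlinarith) _
    have h2 : 0 < (p + 1) ^ Fintype.card V := Nat.pow_pos (Nat.succ_pos p)
    calc I * (p * d + p + 1) ^ Fintype.card V
        ≤ I * ((1 + d) ^ Fintype.card V * (p + 1) ^ Fintype.card V) := Nat.mul_le_mul_left _ h1
      _ = I * (1 + d) ^ Fintype.card V * (p + 1) ^ Fintype.card V := by ring
      _ < (p + 1) ^ 2 * (p + 1) ^ Fintype.card V := Nat.mul_lt_mul_of_pos_right hI h2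
      _ = (p + 1) * ((p + 1) * (p + 1) ^ Fintype.card V) := by ring
  have hni : ¬ Function.Injective (Matrix.mulVecLin (mat d p I Φ)) := fun h =>
    absurd (card_le_of_injective P2 _ h) (not_le.2 hcard)
  rw [injective_iff_map_eq_zero] at hni
  push Not at hni
  obtain ⟨c, hc, hc0⟩ := hni
  refine ⟨Pcf p c, ?_, fun h => ⟨natDegree_Pcf p c h, fun l v => degreeOf_Pcf p c h l v⟩, ?_⟩
  · obtain ⟨x, hx⟩ := Function.ne_iff.1 hc0
    refine ⟨x.1, Nat.lt_succ_iff.1 x.1.2, fun h0 => hx ?_⟩
    rw [Pi.zero_apply, show x = (x.1, x.2.1, x.2.2) from rfl,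
      ← coeff_Pcf_self p c x.1 x.2.1 x.2.2, h0, Polynomial.coeff_zero, MvPolynomial.coeff_zero]
  · rw [PowerSeries.X_pow_dvd_iff]
    intro i hi
    ext m : 1
    rw [coeff_total, MvPolynomial.coeff_zero]
    by_cases hm : ∀ v, m v < p * d + p + 1
    · have h1 := congrFun hc (⟨i, hi⟩, fun v => ⟨m v, hm v⟩)
      have h2 : ex (fun v => (⟨m v, hm v⟩ : Fin (p * d + p + 1))) = m := by
        ext v
        rfl
      rw [Matrix.mulVecLin_apply, Matrix.mulVec, dotProduct, Pi.zero_apply] at h1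
      refine Eq.trans (Finset.sum_congr rfl fun x _ => ?_) h1
      rw [mat]
      simp only [h2]
    · push Not at hm
      obtain ⟨v, hv⟩ := hm
      refine Finset.sum_eq_zero fun x _ => ?_
      by_cases h1 : (x.2.1 : ℕ) ≤ i ∧ ex x.2.2 ≤ m
      · rw [if_pos h1]
        have h3 : MvPolynomial.coeff (m - ex x.2.2)
            (PowerSeries.coeff (i - x.2.1) (Φ ^ (x.1 : ℕ))) = 0 := by
          by_contra h4
          have h5 := MvPolynomial.degreeOf_le_iff.1 (degreeOf_pow d Φ hΦ x.1 (i - x.2.1) v)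
            _ (MvPolynomial.mem_support_iff.2 h4)
          have h6 : (m - ex x.2.2) v = m v - (x.2.2 v : ℕ) := rfl
          have h7 := (x.2.2 v).2
          have h8 : (x.1 : ℕ) * d ≤ p * d := Nat.mul_le_mul_right _ (Nat.lt_succ_iff.1 x.1.2)
          omega
        rw [h3, zero_mul]
      · rw [if_neg h1, zero_mul]

end Pool.Agent.Lib.MPba1bba.TM
end

section
/-!
# Module BAM: reduction modulo 2
-/
namespace Pool.Agent.Lib.MPba1bba.TM

open Polynomial TR

namespace BAMAux

/-- reduction of polynomials -/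
noncomputable def φ : ℤ[X] →+* (ZMod 2)[X] := Polynomial.mapRingHom (Int.castRingHom (ZMod 2))

theorem coeff_bar (F : PowerSeries ℤ[X]) (k : ℕ) :
    PowerSeries.coeff k (bar F) = φ (PowerSeries.coeff k F) := by
  simp [bar, φ]

theorem im_map (m v : ℕ) : PowerSeries.map φ (im ℤ m v) = im (ZMod 2) m v := by
  unfold im
  rw [map_sum]
  refine Finset.sum_congr rfl fun r _ => ?_
  rw [map_mul, map_pow, map_pow]
  have h1 : PowerSeries.map φ (zz : PowerSeries ℤ[X]) = zz := PowerSeries.map_X _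
  have h2 : PowerSeries.map φ (uu : PowerSeries ℤ[X]) = uu := by
    unfold uu
    rw [PowerSeries.map_C]
    simp [φ]
  rw [h1, h2]

end BAMAux

open BAMAux

theorem specBAM : SpecBAM := by
  refine ⟨?_, ?_, ?_⟩
  · intro m F
    ext1 N
    rw [coeff_bar]
    simp only [LMm, PowerSeries.coeff_mk, map_sum]
    refine Finset.sum_congr rfl fun ij _ => ?_
    rw [coeff_bar]
    have h : ∀ p : ℤ[X], φ (p.sum fun v a => C a * PowerSeries.coeff ij.2 (im ℤ m v)) =
        (φ p).sum fun v a => C a * PowerSeries.coeff ij.2 (im (ZMod 2) m v) := by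
      intro p
      induction p using Polynomial.induction_on' with
      | add p q hp hq =>
        rw [Polynomial.sum_add_index _ _ _ (by intro i; simp) (by intro i a b; simp [add_mul]),
          map_add, hp, hq, map_add,
          Polynomial.sum_add_index _ _ _ (by intro i; simp) (by intro i a b; simp [add_mul])]
      | monomial k a =>
        have e1 : φ (monomial k a) = monomial k ((a : ℤ) : ZMod 2) := by
          simp [φ]
        rw [Polynomial.sum_monomial_index _ _ (by simp), e1,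
          Polynomial.sum_monomial_index _ _ (by simp), map_mul]
        congr 1
        · simp [φ]
        · rw [← im_map, PowerSeries.coeff_map]
    exact h _
  · intro v F
    ext k
    simp only [bar0, cf, PowerSeries.coeff_map, PowerSeries.coeff_mk, coeff_bar]
    simp [φ]
  · intro m v
    unfold bar0 ch
    rw [map_sum]
    refine Finset.sum_congr rfl fun t _ => ?_
    rw [map_pow]
    congr 1
    exact PowerSeries.map_X _

end Pool.Agent.Lib.MPba1bba.TM
end

section
/-!
# Module CFM: coefficients of `FF2` modulo `2`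
-/
set_option autoImplicit false

namespace Pool.Agent.Lib.MPba1bba.TM.CFMAux

open Polynomial TR

/-- Squares of power series in characteristic `2`. -/
theorem coeff_sq {R : Type} [CommRing R] (h2 : (2 : R) = 0) (n : ℕ) : ∀ f : PowerSeries R,
    PowerSeries.coeff n (f ^ 2) = if Even n then PowerSeries.coeff (n / 2) f ^ 2 else 0 := by
  have h2' : (2 : PowerSeries R) = 0 := by
    rw [← map_ofNat (PowerSeries.C : R →+* PowerSeries R) 2, h2, map_zero]
  induction n using Nat.strong_induction_on with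
  | _ n ih =>
    intro f
    have hf := PowerSeries.eq_X_mul_shift_add_const f
    set g : PowerSeries R := PowerSeries.mk fun i => PowerSeries.coeff (i + 1) f with hg
    set a := PowerSeries.constantCoeff f with ha
    have h1 : f ^ 2 = PowerSeries.X ^ 2 * g ^ 2 + PowerSeries.C (a ^ 2) := by
      rw [map_pow]
      conv_lhs => rw [hf]
      linear_combination (PowerSeries.X * g * PowerSeries.C a) * h2'
    rw [h1, map_add, PowerSeries.coeff_X_pow_mul', PowerSeries.coeff_C]
    rcases n with _ | _ | n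
    · simp [ha]
    · simp
    · rw [if_pos (by omega), if_neg (by omega), add_zero, show n + 1 + 1 - 2 = n by omega,
        ih n (by omega) g]
      have h3 : Even (n + 1 + 1) ↔ Even n := by
        rw [show n + 1 + 1 = n + 2 by omega, Nat.even_add]
        simp
      simp only [h3]
      split_ifs
      · rw [hg, PowerSeries.coeff_mk, show (n + 1 + 1) / 2 = n / 2 + 1 by omega]
      · rfl

/-- Squares of polynomials in characteristic `2`. -/
theorem pcoeff_sq (p : (ZMod 2)[X]) (j : ℕ) : (p ^ 2).coeff (2 * j) = p.coeff j ^ 2 := by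
  have h := coeff_sq (R := ZMod 2) rfl (2 * j) (p : PowerSeries (ZMod 2))
  rw [← Polynomial.coe_pow, Polynomial.coeff_coe, Polynomial.coeff_coe,
    if_pos (even_two_mul j), Nat.mul_div_cancel_left _ two_pos] at h
  exact h

section

variable {R : Type} [CommRing R]

theorem cf_add (v : ℕ) (F G : PowerSeries R[X]) : cf v (F + G) = cf v F + cf v G := by
  ext k
  rw [map_add, cf, cf, cf, PowerSeries.coeff_mk, PowerSeries.coeff_mk, PowerSeries.coeff_mk,
    map_add, Polynomial.coeff_add]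

theorem cf_zz (v : ℕ) (F : PowerSeries R[X]) : cf v (zz * F) = zz * cf v F := by
  ext k
  rw [cf, cf, PowerSeries.coeff_mk]
  rcases k with _ | k
  · rw [PowerSeries.coeff_zero_X_mul, PowerSeries.coeff_zero_X_mul, Polynomial.coeff_zero]
  · rw [PowerSeries.coeff_succ_X_mul, PowerSeries.coeff_succ_X_mul, PowerSeries.coeff_mk]

theorem cf_pow (v n : ℕ) (F : PowerSeries R[X]) : cf v (zz ^ n * F) = zz ^ n * cf v F := by
  induction n with
  | zero => rw [pow_zero, one_mul, pow_zero, one_mul]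
  | succ n ih => rw [pow_succ', mul_assoc, cf_zz, ih, pow_succ', mul_assoc]

theorem cf_uu_succ (v : ℕ) (F : PowerSeries R[X]) : cf (v + 1) (uu * F) = cf v F := by
  ext k
  rw [cf, cf, PowerSeries.coeff_mk, PowerSeries.coeff_mk, uu, PowerSeries.coeff_C_mul,
    Polynomial.coeff_X_mul]

theorem cf_uu_zero (F : PowerSeries R[X]) : cf 0 (uu * F) = 0 := by
  ext k
  rw [cf, PowerSeries.coeff_mk, uu, PowerSeries.coeff_C_mul, map_zero]
  simp

theorem cf_one (v : ℕ) : cf v (1 : PowerSeries R[X]) = if v = 0 then 1 else 0 := by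
  ext k
  rw [cf, PowerSeries.coeff_mk, PowerSeries.coeff_one]
  split_ifs with h1 h2 h2
  · rw [PowerSeries.coeff_one, if_pos h1, h2]
    simp
  · rw [map_zero, Polynomial.coeff_one, if_neg h2]
  · rw [PowerSeries.coeff_one, if_neg h1]
    simp
  · simp

end

theorem cf_sq (j : ℕ) (K : PowerSeries (ZMod 2)[X]) : cf (2 * j) (K ^ 2) = cf j K ^ 2 := by
  have h2 : (2 : (ZMod 2)[X]) = 0 := by
    have h0 : (2 : ZMod 2) = 0 := rfl
    rw [← map_ofNat (Polynomial.C : ZMod 2 →+* (ZMod 2)[X]) 2, h0, map_zero]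
  ext t
  rw [cf, PowerSeries.coeff_mk, coeff_sq h2, coeff_sq (R := ZMod 2) rfl, cf, PowerSeries.coeff_mk]
  split_ifs
  · exact pcoeff_sq _ j
  · exact Polynomial.coeff_zero _

theorem two_S : (2 : S2) = 0 := by
  have h0 : (2 : ZMod 2) = 0 := rfl
  rw [← map_ofNat (PowerSeries.C : ZMod 2 →+* S2) 2, h0, map_zero]

end Pool.Agent.Lib.MPba1bba.TM.CFMAux

namespace Pool.Agent.Lib.MPba1bba.TM

open Polynomial TR CFMAux

theorem specCFM (hE : SpecEMM) : SpecCFM := by
  intro n hn Q E H hS j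
  obtain ⟨eE, -, -, -, -, eF⟩ := hE n hn Q E H hS
  set F := bar (FF2 Q E H) with hF
  set G := F - 1 - bar E with hG
  have hFG : F = G + 1 + bar E := by
    rw [hG]
    ring
  have cfE : ∀ v, cf v (bar E) = if v = 1 then zz ^ (2 * n + 2) else 0 := by
    intro v
    rw [eE, cf_pow]
    rcases v with _ | v
    · rw [← mul_one (uu : PowerSeries (ZMod 2)[X]), cf_uu_zero, mul_zero, if_neg (by omega)]
    · rw [← mul_one (uu : PowerSeries (ZMod 2)[X]), cf_uu_succ, cf_one]
      by_cases h : v = 0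
      · rw [if_pos h, if_pos (by omega), mul_one]
      · rw [if_neg h, if_neg (by omega), mul_zero]
  have cfK : ∀ i, cf (2 * i) ((1 + bar E + bar H) ^ 2) =
      (if i = 0 then 1 else 0) + (if i = 1 then zz ^ (4 * n + 4) else 0) + cf i (bar H) ^ 2 := by
    intro i
    rw [cf_sq, cf_add, cf_add, cf_one, cfE]
    have h3 : ∀ a b c : S2, (a + b + c) ^ 2 = a ^ 2 + b ^ 2 + c ^ 2 := fun a b c => by
      linear_combination (a * b + a * c + b * c) * two_S
    rw [h3]
    congr 1
    congr 1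
    · split_ifs <;> ring
    · split_ifs
      · ring
      · ring
  -- the recursion
  have hR : ∀ v, cf v ((1 + zz ^ (2 * n + 3) * uu ^ 2) * G) =
      cf v (zz * uu * (1 + bar E + bar H) ^ 2) := fun v => congrArg (cf v) eF
  have hL : ∀ v, cf v ((1 + zz ^ (2 * n + 3) * uu ^ 2) * G) =
      cf v G + zz ^ (2 * n + 3) * cf v (uu * (uu * G)) := by
    intro v
    rw [← cf_pow, ← cf_add]
    congr 1
    ring
  have hRR : ∀ i, cf (2 * i + 1) (zz * uu * (1 + bar E + bar H) ^ 2) =
      zz * ((if i = 0 then 1 else 0) + (if i = 1 then zz ^ (4 * n + 4) else 0) +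
        cf i (bar H) ^ 2) := by
    intro i
    rw [mul_assoc, cf_zz, cf_uu_succ, cfK]
  have hφ : ∀ j, cf (2 * j + 1) G = ∑ i ∈ Finset.range (j + 1), zz ^ ((2 * n + 3) * (j - i) + 1) *
      ((if i = 0 then 1 else 0) + (if i = 1 then zz ^ (4 * n + 4) else 0) +
        cf i (bar H) ^ 2) := by
    intro j
    induction j with
    | zero =>
      have h1 := hR 1
      rw [hL, show (1 : ℕ) = 0 + 1 from rfl, cf_uu_succ, cf_uu_zero, mul_zero, add_zero] at h1
      have h2 := hRR 0
      rw [mul_zero] at h2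
      rw [mul_zero, h1, h2, Finset.sum_range_one]
      simp
    | succ j ih =>
      have h1 := hR (2 * (j + 1) + 1)
      rw [hL, hRR, show 2 * (j + 1) + 1 = 2 * j + 1 + 1 + 1 by ring, cf_uu_succ, cf_uu_succ,
        ih, show 2 * j + 1 + 1 + 1 = 2 * (j + 1) + 1 by ring] at h1
      rw [Finset.sum_range_succ, Nat.sub_self, mul_zero, zero_add, pow_one, ← h1]
      have h3 : ∀ i ∈ Finset.range (j + 1), (zz : S2) ^ ((2 * n + 3) * (j + 1 - i) + 1) *
          ((if i = 0 then 1 else 0) + (if i = 1 then zz ^ (4 * n + 4) else 0) +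
            cf i (bar H) ^ 2) = zz ^ (2 * n + 3) * (zz ^ ((2 * n + 3) * (j - i) + 1) *
          ((if i = 0 then 1 else 0) + (if i = 1 then zz ^ (4 * n + 4) else 0) +
            cf i (bar H) ^ 2)) := by
        intro i hi
        rw [Finset.mem_range] at hi
        rw [← mul_assoc, ← pow_add]
        congr 2
        rw [show j + 1 - i = (j - i) + 1 by omega]
        ring
      rw [Finset.sum_congr rfl h3, ← Finset.mul_sum]
      generalize (zz : S2) ^ (2 * n + 3) * ∑ i ∈ Finset.range (j + 1),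
        zz ^ ((2 * n + 3) * (j - i) + 1) * ((if i = 0 then 1 else 0) +
          (if i = 1 then zz ^ (4 * n + 4) else 0) + cf i (bar H) ^ 2) = S
      linear_combination (-S) * two_S
  rw [hFG, cf_add, cf_add, hφ, cf_one, cfE, if_neg (by omega), add_zero, add_comm]
  congr 1
  by_cases h : j = 0
  · rw [if_pos h, if_pos (by omega)]
  · rw [if_neg h, if_neg (by omega)]

end Pool.Agent.Lib.MPba1bba.TM
end

section
/-!
# Module DHM: the Mahler equation of a dual sequence
-/
namespace Pool.Agent.Lib.MPba1bba.TM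

open Polynomial TR

namespace DHMAux

/-- `𝔽₂[z][y] → 𝔽₂⟦z⟧⟦y⟧` -/
noncomputable def K : Polynomial P2 →+* PowerSeries S2 :=
  (Polynomial.coeToPowerSeries.ringHom : Polynomial S2 →+* PowerSeries S2).comp
    (Polynomial.mapRingHom (algebraMap P2 S2))

theorem K_eq (p : Polynomial P2) : K p = (pS p : PowerSeries S2) := rfl

theorem alg_X : algebraMap P2 S2 X = zz := by
  rw [PowerSeries.algebraMap_apply']
  simp

theorem alg_C (a : ZMod 2) : algebraMap P2 S2 (C a) = PowerSeries.C a := by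
  rw [PowerSeries.algebraMap_apply']
  simp

theorem K_X : K X = PowerSeries.X := by
  simp [K_eq, pS]

theorem K_C (p : P2) : K (C p) = PowerSeries.C (algebraMap P2 S2 p) := by
  simp [K_eq, pS]

theorem K_mo (k l : ℕ) : K (mo k l) = PowerSeries.C (zz ^ k) * PowerSeries.X ^ l := by
  rw [mo, map_mul, K_C, map_pow, alg_X, map_pow K, K_X]

theorem two_eq : (2 : S2) = 0 := by
  have h : (2 : S2) = PowerSeries.C (2 : ZMod 2) := (map_ofNat PowerSeries.C 2).symm
  rw [h, show (2 : ZMod 2) = 0 from rfl, map_zero]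

theorem add_self_S (x : S2) : x + x = 0 := by
  rw [← two_mul, two_eq, zero_mul]

theorem K_YY (n : ℕ) : K (YY n) = PowerSeries.C (zz ^ ((2 * n + 3) * n)) * PowerSeries.X ^ n := by
  rw [YY, K_mo]

theorem coeff_YY (n : ℕ) (G : PowerSeries S2) (j : ℕ) :
    PowerSeries.coeff j (K (YY n) * G) =
      if n ≤ j then zz ^ ((2 * n + 3) * n) * PowerSeries.coeff (j - n) G else 0 := by
  rw [K_YY, mul_assoc, PowerSeries.coeff_C_mul, PowerSeries.coeff_X_pow_mul']
  split_ifs <;> simp

theorem coeff_En (n : ℕ) (G : PowerSeries S2) (i : ℕ) :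
    PowerSeries.coeff i (K (En n) * G) = ∑ t ∈ Finset.range n,
      if t ≤ i then zz ^ ((2 * n + 3) * t) * PowerSeries.coeff (i - t) G else 0 := by
  rw [En, map_sum, Finset.sum_mul, map_sum]
  refine Finset.sum_congr rfl fun t _ => ?_
  rw [K_mo, mul_assoc, PowerSeries.coeff_C_mul, PowerSeries.coeff_X_pow_mul']
  split_ifs <;> simp

theorem coeff_Tn (n : ℕ) (i : ℕ) :
    PowerSeries.coeff i (K (Tn n)) = if i < n then (zz : S2) ^ ((2 * n + 1) * i) else 0 := by
  rw [Tn, map_sum, map_sum]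
  have h1 : ∀ t ∈ Finset.range n, PowerSeries.coeff i (K (mo ((2 * n + 1) * t) t)) =
      if t = i then (zz : S2) ^ ((2 * n + 1) * i) else 0 := by
    intro t _
    rw [K_mo, PowerSeries.coeff_C_mul, PowerSeries.coeff_X_pow]
    by_cases h : t = i
    · subst h
      simp
    · rw [if_neg (Ne.symm h), if_neg h, mul_zero]
  rw [Finset.sum_congr rfl h1, Finset.sum_ite_eq']
  simp only [Finset.mem_range]

/-- `W(Y)` for a sequence `w` -/
noncomputable def GW (n : ℕ) (w : ℕ → S2) : PowerSeries S2 :=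
  PowerSeries.mk fun j => if n ∣ j then zz ^ ((2 * n + 3) * j) * w (j / n) else 0

/-- `∑_i δ_(2i+2) Y^(2i)` -/
noncomputable def DY (n : ℕ) (δ : ℕ → S2) : PowerSeries S2 :=
  PowerSeries.mk fun j => if 2 * n ∣ j then
    zz ^ ((2 * n + 3) * j) * δ (2 * (j / (2 * n)) + 2) else 0

theorem En_GW {n : ℕ} (hn : 1 ≤ n) (w : ℕ → S2) (i : ℕ) :
    PowerSeries.coeff i (K (En n) * GW n w) = zz ^ ((2 * n + 3) * i) * w (i / n) := by
  have hlt : i % n < n := Nat.mod_lt _ hn
  have hmod := Nat.mod_add_div i n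
  rw [coeff_En, Finset.sum_eq_single (i % n)]
  · rw [if_pos (Nat.mod_le i n), GW, PowerSeries.coeff_mk, if_pos (Nat.dvd_sub_mod i)]
    have h1 : i - i % n = n * (i / n) := by omega
    rw [h1, Nat.mul_div_cancel_left _ hn, ← mul_assoc, ← pow_add, ← mul_add, hmod]
  · intro t ht hne
    rw [Finset.mem_range] at ht
    split_ifs with h
    · rw [GW, PowerSeries.coeff_mk, if_neg, mul_zero]
      rintro ⟨c, hc⟩
      refine hne ?_
      have h2 : i = t + n * c := by omega
      rw [h2, Nat.add_mul_mod_self_left, Nat.mod_eq_of_lt ht]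
    · rfl
  · intro h
    exact absurd (Finset.mem_range.2 hlt) h

/-- the right sides of the recursion, scaled -/
noncomputable def Rho (n : ℕ) (w : ℕ → S2) : PowerSeries S2 :=
  PowerSeries.mk fun i => zz ^ ((2 * n + 3) * i) *
    if i < n then w 0 + zz ^ (2 * n - 2 * i) * w 1 else w (i / n) + w (i / n - 1)

theorem Rho_eq {n : ℕ} (hn : 1 ≤ n) (w : ℕ → S2) :
    Rho n w = K (En n) * GW n w + K (YY n) * (K (En n) * GW n w) +
      PowerSeries.C (w 1 * zz ^ (2 * n)) * K (Tn n) := by
  ext1 i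
  rw [map_add, map_add, coeff_YY, En_GW hn, En_GW hn, PowerSeries.coeff_C_mul, coeff_Tn, Rho,
    PowerSeries.coeff_mk]
  by_cases hi : i < n
  · rw [if_pos hi, if_neg (by omega), if_pos hi, Nat.div_eq_of_lt hi]
    have h1 : (zz : S2) ^ ((2 * n + 3) * i) * zz ^ (2 * n - 2 * i) =
        zz ^ (2 * n) * zz ^ ((2 * n + 1) * i) := by
      rw [← pow_add, ← pow_add]
      congr 1
      have h2 : (2 * n + 3) * i = (2 * n + 1) * i + 2 * i := by ring
      omega
    linear_combination w 1 * h1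
  · rw [if_neg hi, if_pos (by omega), if_neg hi]
    have h2 : (i - n) / n = i / n - 1 := by
      obtain ⟨j, rfl⟩ : ∃ j, i = n + j := ⟨i - n, by omega⟩
      rw [Nat.add_div_left j hn, Nat.add_sub_cancel_left, Nat.succ_sub_one]
    have h3 : (zz : S2) ^ ((2 * n + 3) * n) * zz ^ ((2 * n + 3) * (i - n)) =
        zz ^ ((2 * n + 3) * i) := by
      rw [← pow_add, ← mul_add]
      congr 2
      omega
    rw [h2]
    linear_combination (-w (i / n - 1)) * h3

theorem Dh_eq {n : ℕ} (hn : 1 ≤ n) (a : ℕ → ZMod 2) (δ : ℕ → S2) (h : RecD n a δ) :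
    (1 + PowerSeries.X) * Dh n δ = PowerSeries.C (δ 0) +
      PowerSeries.C zz * Rho n (fun j => PowerSeries.C (a j) + δ j) := by
  obtain ⟨h1, h2, h3⟩ := h
  ext1 i
  rw [add_mul, one_mul, map_add, map_add, PowerSeries.coeff_C_mul, Rho, PowerSeries.coeff_mk,
    PowerSeries.coeff_C]
  have h4 : ∀ j, PowerSeries.coeff j (Dh n δ) = zz ^ ((2 * n + 3) * (j + 1)) * δ (2 * j + 2) :=
    fun j => by rw [Dh, PowerSeries.coeff_mk]
  rcases Nat.eq_zero_or_pos i with rfl | hi
  · have h5 := h2 0 hn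
    have h6 : PowerSeries.coeff 0 (PowerSeries.X * Dh n δ) = 0 := by simp
    rw [h6, h4, if_pos rfl, if_pos (show 0 < n from hn)]
    have h7 := two_eq
    simp only [mul_zero, zero_add, mul_one, pow_zero, one_mul, Nat.sub_zero] at h5 ⊢
    linear_combination h5 - δ 0 * h7
  · obtain ⟨i, rfl⟩ : ∃ k, i = k + 1 := ⟨i - 1, by omega⟩
    rw [PowerSeries.coeff_succ_X_mul, h4, h4, if_neg (by omega)]
    have h8 : (zz : S2) ^ ((2 * n + 3) * (i + 1 + 1)) =
        zz ^ ((2 * n + 3) * (i + 1)) * zz ^ (2 * n + 3) := by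
      rw [← pow_add]
      congr 1
    have h9 : 2 * i + 2 = 2 * (i + 1) := by ring
    rw [h8, h9]
    by_cases hin : i + 1 < n
    · have h5 := h2 (i + 1) hin
      rw [if_pos hin]
      linear_combination (zz ^ ((2 * n + 3) * (i + 1)) : S2) * h5
    · have h5 := h3 (i + 1) (by omega)
      rw [if_neg hin]
      linear_combination (zz ^ ((2 * n + 3) * (i + 1)) : S2) * h5

/-- the values `a j = ψ(u^j)` -/
theorem fl_none (n j : ℕ) : fl n none (X ^ j) = 1 := by
  simp [fl]

theorem fl_some (n : ℕ) (i : Fin (n - 1)) (j : ℕ) :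
    fl n (some i) (X ^ j) = if (i : ℕ) = j then 1 else 0 := by
  simp only [fl, Polynomial.lcoeff_apply, Polynomial.coeff_X_pow]

theorem K_Ps (n : ℕ) (f : Fi n) : K (Ps n f) = match f with
    | none => 1
    | some i => (1 + K (YY n)) * K (YY n) ^ (i : ℕ) := by
  cases f with
  | none => simp [Ps]
  | some i => simp [Ps]

theorem GW_a {n : ℕ} (hn : 1 ≤ n) (f : Fi n) :
    (1 + K (YY n)) * GW n (fun j => PowerSeries.C (fl n f (X ^ j))) = K (Ps n f) := by
  rw [K_Ps]
  cases f with
  | none =>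
    dsimp only
    ext1 j
    rw [add_mul, one_mul, map_add, coeff_YY, GW, PowerSeries.coeff_mk, PowerSeries.coeff_mk,
      fl_none, fl_none, map_one, mul_one, mul_one, PowerSeries.coeff_one]
    rcases Nat.eq_zero_or_pos j with rfl | hj
    · rw [if_pos (dvd_zero n), if_neg (by omega), if_pos rfl, mul_zero, pow_zero, add_zero]
    · rw [if_neg (show j ≠ 0 by omega)]
      by_cases hnj : n ∣ j
      · have hle : n ≤ j := Nat.le_of_dvd hj hnj
        rw [if_pos hnj, if_pos hle, if_pos (Nat.dvd_sub hnj dvd_rfl), ← pow_add, ← mul_add,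
          show n + (j - n) = j by omega, add_self_S]
      · rw [if_neg hnj, zero_add]
        split_ifs with h1 h2
        · exfalso
          apply hnj
          have := Nat.dvd_add h2 (dvd_refl n)
          rwa [show j - n + n = j by omega] at this
        · rw [mul_zero]
        · rfl
  | some i =>
    dsimp only
    congr 1
    rw [K_YY, mul_pow, ← map_pow, ← pow_mul, ← pow_mul]
    ext1 j
    rw [GW, PowerSeries.coeff_mk, PowerSeries.coeff_C_mul, PowerSeries.coeff_X_pow, fl_some]
    by_cases h : j = n * i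
    · subst h
      rw [if_pos (dvd_mul_right n _), Nat.mul_div_cancel_left _ hn, if_pos rfl, if_pos rfl,
        map_one, mul_assoc]
    · rw [if_neg h, mul_zero]
      split_ifs with h1 h2
      · exfalso
        apply h
        rw [h2, Nat.mul_div_cancel' h1]
      · rw [map_zero, mul_zero]
      · rfl

theorem GW_add (n : ℕ) (w w' : ℕ → S2) :
    GW n (fun j => w j + w' j) = GW n w + GW n w' := by
  ext1 j
  rw [map_add, GW, GW, GW, PowerSeries.coeff_mk, PowerSeries.coeff_mk, PowerSeries.coeff_mk]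
  split_ifs
  · rw [mul_add]
  · rw [add_zero]

theorem GW_d {n : ℕ} (hn : 1 ≤ n) (δ : ℕ → S2)
    (h1 : ∀ i : ℕ, 1 ≤ i → δ (2 * i - 1) = zz * δ (2 * i)) :
    GW n δ = PowerSeries.C (δ 0) + K (YY n) * (K (YY n) * DY n δ) +
      K (YY n) * (PowerSeries.C zz * DY n δ) := by
  ext1 j
  have hDY : ∀ i, PowerSeries.coeff i (DY n δ) = if 2 * n ∣ i then
      zz ^ ((2 * n + 3) * i) * δ (2 * (i / (2 * n)) + 2) else 0 := fun i => by
    rw [DY, PowerSeries.coeff_mk]
  rw [map_add, map_add, coeff_YY, coeff_YY, coeff_YY, PowerSeries.coeff_C_mul, hDY, hDY, GW,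
    PowerSeries.coeff_mk, PowerSeries.coeff_C]
  by_cases hj : j < n
  · rw [if_neg (show ¬ n ≤ j by omega), if_neg (show ¬ n ≤ j by omega), add_zero, add_zero]
    rcases Nat.eq_zero_or_pos j with rfl | hj0
    · rw [if_pos (dvd_zero n), if_pos rfl, mul_zero, pow_zero, one_mul, Nat.zero_div]
    · rw [if_neg (fun h => by have := Nat.le_of_dvd hj0 h; omega), if_neg (by omega)]
  · push Not at hj
    rw [if_pos hj, if_pos hj, if_neg (show j ≠ 0 by omega), zero_add]
    by_cases hnj : n ∣ j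
    · obtain ⟨k, rfl⟩ := hnj
      rw [if_pos (dvd_mul_right n k), Nat.mul_div_cancel_left _ hn]
      have hk : 1 ≤ k := by
        rcases Nat.eq_zero_or_pos k with rfl | h
        · omega
        · exact h
      obtain ⟨k', rfl⟩ : ∃ k', k = k' + 1 := ⟨k - 1, by omega⟩
      have e1 : n * (k' + 1) - n = n * k' := by
        rw [mul_add, mul_one, Nat.add_sub_cancel]
      rw [e1]
      rcases Nat.even_or_odd' k' with ⟨i, rfl | rfl⟩
      · -- `k = 2 i + 1`
        have e2 : n * (2 * i) = 2 * n * i := by ring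
        have e3 : ¬ (n ≤ n * (2 * i) ∧ 2 * n ∣ n * (2 * i) - n) := by
          rintro ⟨h3, c, hc⟩
          have h4 : n * (2 * i) = n * (2 * c + 1) := by
            have : n * (2 * c + 1) = 2 * n * c + n := by ring
            omega
          have := Nat.eq_of_mul_eq_mul_left hn h4
          omega
        have e4 := h1 (i + 1) (by omega)
        rw [show 2 * (i + 1) - 1 = 2 * i + 1 by omega, show 2 * (i + 1) = 2 * i + 2 by ring] at e4
        have e5 : (if n ≤ n * (2 * i) then (zz : S2) ^ ((2 * n + 3) * n) *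
            (if 2 * n ∣ n * (2 * i) - n then zz ^ ((2 * n + 3) * (n * (2 * i) - n)) *
              δ (2 * ((n * (2 * i) - n) / (2 * n)) + 2) else 0) else 0) = 0 := by
          split_ifs with h3 h4
          · exact absurd ⟨h3, h4⟩ e3
          · rw [mul_zero]
          · rfl
        rw [e5, mul_zero, zero_add, if_pos (by rw [e2]; exact dvd_mul_right _ _)]
        have e6 : n * (2 * i) / (2 * n) = i := by
          rw [e2]
          exact Nat.mul_div_cancel_left _ (by omega)
        have e7 : (zz : S2) ^ ((2 * n + 3) * (n * (2 * i + 1))) =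
            zz ^ ((2 * n + 3) * n) * zz ^ ((2 * n + 3) * (n * (2 * i))) := by
          rw [← pow_add]
          congr 1
          ring
        rw [e6, e7, e4]
        ring
      · -- `k = 2 i + 2`
        have e2 : n * (2 * i + 1) - n = 2 * n * i := by
          have : n * (2 * i + 1) = 2 * n * i + n := by ring
          omega
        have e3 : ¬ 2 * n ∣ n * (2 * i + 1) := by
          rintro ⟨c, hc⟩
          have h4 : n * (2 * i + 1) = n * (2 * c) := by rw [hc]; ring
          have := Nat.eq_of_mul_eq_mul_left hn h4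
          omega
        have e4 : n ≤ n * (2 * i + 1) := Nat.le_mul_of_pos_right n (by omega)
        rw [if_neg e3, mul_zero, mul_zero, add_zero, if_pos e4, e2,
          if_pos (dvd_mul_right _ _), Nat.mul_div_cancel_left _ (by omega)]
        have e7 : (zz : S2) ^ ((2 * n + 3) * (n * (2 * i + 1 + 1))) =
            zz ^ ((2 * n + 3) * n) * (zz ^ ((2 * n + 3) * n) *
              zz ^ ((2 * n + 3) * (2 * n * i))) := by
          rw [← pow_add, ← pow_add]
          congr 1
          ring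
        rw [e7, show 2 * i + 1 + 1 = 2 * i + 2 by ring]
        ring
    · rw [if_neg hnj]
      have e1 : ¬ 2 * n ∣ j - n := by
        intro h
        apply hnj
        have h2 := Nat.dvd_add (dvd_trans (dvd_mul_left n 2) h) (dvd_refl n)
        rwa [show j - n + n = j by omega] at h2
      have e2 : ¬ (n ≤ j - n ∧ 2 * n ∣ j - n - n) := by
        rintro ⟨h3, h⟩
        apply hnj
        have h2 := Nat.dvd_add (Nat.dvd_add (dvd_trans (dvd_mul_left n 2) h) (dvd_refl n))
          (dvd_refl n)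
        rwa [show j - n - n + n + n = j by omega] at h2
      rw [if_neg e1, mul_zero, mul_zero, add_zero]
      split_ifs with h3 h4
      · exact absurd ⟨h3, h4⟩ e2
      · rw [mul_zero, mul_zero]
      · rw [mul_zero]

theorem sg_C_mul (n : ℕ) (c r : S2) (F : PowerSeries S2) :
    sg n c (PowerSeries.C r * F) = PowerSeries.C r * sg n c F := by
  ext1 j
  rw [PowerSeries.coeff_C_mul, sg, sg, PowerSeries.coeff_mk, PowerSeries.coeff_mk]
  split_ifs
  · rw [PowerSeries.coeff_C_mul]
    ring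
  · rw [mul_zero]

theorem sg_Dh {n : ℕ} (hn : 1 ≤ n) (δ : ℕ → S2) :
    sg n ((zz : S2) ^ ce n) (Dh n δ) = PowerSeries.C (zz ^ (2 * n + 3)) * DY n δ := by
  ext1 j
  rw [PowerSeries.coeff_C_mul, sg, DY, PowerSeries.coeff_mk, PowerSeries.coeff_mk]
  split_ifs with h
  · obtain ⟨i, rfl⟩ := h
    rw [Nat.mul_div_cancel_left _ (by omega : 0 < 2 * n), Dh, PowerSeries.coeff_mk, ← mul_assoc,
      ← mul_assoc, ← pow_mul, ← pow_add, ← pow_add, ce]
    congr 2
    obtain ⟨n, rfl⟩ : ∃ n', n = n' + 1 := ⟨n - 1, by omega⟩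
    rw [show 2 * (n + 1) - 1 = 2 * n + 1 by omega]
    ring
  · rw [mul_zero]

theorem K_th {n : ℕ} (hn : 1 ≤ n) :
    K (th n) * PowerSeries.C (zz ^ (2 * n + 3)) =
      PowerSeries.C zz * K (YY n) * (K (YY n) + PowerSeries.C zz) * (1 + K (YY n)) *
        K (En n) := by
  have h1 : K (mo (1 + (2 * n + 3) * (n - 1)) n) * PowerSeries.C (zz ^ (2 * n + 3)) =
      PowerSeries.C zz * K (YY n) := by
    rw [K_mo, K_YY, mul_right_comm, ← map_mul, ← mul_assoc, ← map_mul, ← pow_add, ← pow_succ']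
    congr 3
    obtain ⟨n, rfl⟩ : ∃ n', n = n' + 1 := ⟨n - 1, by omega⟩
    rw [Nat.add_sub_cancel]
    ring
  have h2 : K (mo 1 0) = PowerSeries.C zz := by
    rw [K_mo, pow_one, pow_zero, mul_one]
  rw [th, map_mul, map_mul, map_mul, map_add, map_add, map_one, h2]
  linear_combination (K (YY n) + PowerSeries.C zz) * (1 + K (YY n)) * K (En n) * h1

theorem K_bphi (n : ℕ) : K (bphi n) =
    1 + PowerSeries.C zz * (1 + K (YY n)) * K (En n) + K (Tn n) := by
  have h2 : K (mo 1 0) = PowerSeries.C zz := by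
    rw [K_mo, pow_one, pow_zero, mul_one]
  rw [bphi, map_add, map_add, map_mul, map_mul, map_add, map_one, h2]

theorem K_bpsi (n : ℕ) (f : Fi n) : K (bpsi n f) =
    (1 + PowerSeries.C zz) * PowerSeries.C zz * K (En n) * K (Ps n f) +
      PowerSeries.C zz * (PowerSeries.C (PowerSeries.C (fl n f 1)) +
        PowerSeries.C (zz ^ (2 * n + 1)) * PowerSeries.C (PowerSeries.C (fl n f X))) *
          K (Tn n) := by
  have h2 : K (mo 1 0) = PowerSeries.C zz := by
    rw [K_mo, pow_one, pow_zero, mul_one]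
  have h3 : K (mo (2 * n + 1) 0) = PowerSeries.C (zz ^ (2 * n + 1)) := by
    rw [K_mo, pow_zero, mul_one]
  rw [bpsi, map_add, map_mul, map_mul, map_mul, map_mul, map_mul, map_add, map_add, map_mul,
    map_one, h2, h3, K_C, K_C, alg_C, alg_C]

/-- the algebra -/
theorem assemble {T : Type} [CommRing T] (y Z D d R E G GA GD Y Tn W Y' Ps th S A0 A1 : T)
    (hA : (1 + y) * D = d + Z * R) (hB : R = E * G + Y * (E * G) + W * Tn) (hC : G = GA + GD)
    (hP : (1 + Y) * GA = Ps) (hD : GD = d + Y * (Y * Y') + Y * (Z * Y'))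
    (hth : th * S = Z * Y * (Y + Z) * (1 + Y) * E)
    (hw : (1 + Z) * (Z * W) = Z * (A0 + A1) + (1 + Z) * d) :
    (1 + y) * ((1 + Z) * D) = th * ((1 + Z) * (S * Y')) +
      (((1 + Z) * Z * E * Ps + Z * (A0 + A1) * Tn) +
        (1 + Z) * d * (1 + Z * (1 + Y) * E + Tn)) := by
  linear_combination (1 + Z) * hA + (1 + Z) * Z * hB + (1 + Z) * Z * (E + Y * E) * hC +
    (1 + Z) * Z * E * hP + (1 + Z) * Z * E * (1 + Y) * hD - (1 + Z) * Y' * hth + Tn * hw

/-- the relation between `δ 0` and `w 1` -/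
theorem rel (n : ℕ) (hn : 1 ≤ n) (a : ℕ → ZMod 2) (δ : ℕ → S2) (h : RecD n a δ) :
    (1 + zz) * (zz * ((PowerSeries.C (a 1) + δ 1) * zz ^ (2 * n))) =
      zz * (PowerSeries.C (a 0) + zz ^ (2 * n + 1) * PowerSeries.C (a 1)) + (1 + zz) * δ 0 := by
  obtain ⟨h1, h2, -⟩ := h
  have h3 := h2 0 hn
  have h4 := h1 1 le_rfl
  have h5 := two_eq
  simp only [mul_zero, zero_add, Nat.sub_zero, mul_one] at h3 h4
  rw [show 2 - 1 = 1 by norm_num] at h4
  rw [h4] at h3 ⊢
  have h6 : (zz : S2) ^ (2 * n + 3) = zz ^ (2 * n) * zz ^ 3 := by rw [← pow_add]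
  have h7 : (zz : S2) ^ (2 * n + 1) = zz ^ (2 * n) * zz := by rw [← pow_succ]
  rw [h6] at h3
  rw [h7]
  generalize (zz : S2) ^ (2 * n) = w at *
  linear_combination h3 + (zz * w * PowerSeries.C (a 1) + zz ^ 2 * w * δ 2 - δ 0) * h5

end DHMAux

open DHMAux in
theorem specDHM : SpecDHM := by
  intro n hn f δ h
  have hrel := rel n hn _ δ h
  simp only [pow_zero, pow_one] at hrel
  constructor
  · have h1 := Dh_eq hn _ δ h
    have h2 := Rho_eq hn (fun j => PowerSeries.C (fl n f (X ^ j)) + δ j)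
    have h3 := GW_add n (fun j => PowerSeries.C (fl n f (X ^ j))) δ
    have h4 := GW_a hn f
    have h5 := GW_d hn δ h.1
    have h6 := K_th hn
    rw [SolS, sg_C_mul, sg_Dh hn, Polynomial.coe_add, Polynomial.coe_mul, Polynomial.coe_C,
      ← K_eq, ← K_eq, ← K_eq, K_bphi, K_bpsi, map_mul, map_add, map_one]
    refine assemble _ _ _ _ _ _ _ _ _ _ _ _ _ _ _ _ _ _ h1 h2 h3 h4 h5 h6 ?_
    have h7 := congrArg PowerSeries.C hrel
    simp only [pow_one]
    simp only [map_mul, map_add, map_one, pow_zero] at h7 ⊢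
    linear_combination h7
  · have h7 : (zz : S2) ^ (2 * n + 1) = zz ^ (2 * n) * zz := by rw [← pow_succ]
    rw [h7] at hrel ⊢
    linear_combination hrel + (zz * PowerSeries.C (fl n f 1)) * two_eq

end Pool.Agent.Lib.MPba1bba.TM
end

section
/-!
# Module DUM: the dual sequences (resolvent of a contraction)
-/
set_option autoImplicit false

namespace Pool.Agent.Lib.MPba1bba.TM.DUMAux

open Polynomial Finset TR

/-- series over `𝔽₂[u]` -/
abbrev W : Type := PowerSeries (ZMod 2)[X]

theorem two_S : (2 : S2) = 0 := by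
  have h0 : (2 : ZMod 2) = 0 := rfl
  rw [← map_ofNat (PowerSeries.C : ZMod 2 →+* S2) 2, h0, map_zero]

theorem add_self_S (x : S2) : x + x = 0 := by
  rw [← two_mul, two_S, zero_mul]

/-- the operator -/
noncomputable def TT (m : ℕ) (A : W) (G : W) : W := zz * LMm m (A * G)

theorem evf_add (ψ : (ZMod 2)[X] →ₗ[ZMod 2] ZMod 2) (F G : W) :
    evf ψ (F + G) = evf ψ F + evf ψ G := by
  ext k
  rw [map_add, evf, evf, evf, PowerSeries.coeff_mk, PowerSeries.coeff_mk, PowerSeries.coeff_mk,
    map_add, map_add]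

theorem evf_zz (ψ : (ZMod 2)[X] →ₗ[ZMod 2] ZMod 2) (F : W) : evf ψ (zz * F) = zz * evf ψ F := by
  ext k
  rw [evf, evf, PowerSeries.coeff_mk]
  rcases k with _ | k
  · rw [PowerSeries.coeff_zero_X_mul, PowerSeries.coeff_zero_X_mul, map_zero]
  · rw [PowerSeries.coeff_succ_X_mul, PowerSeries.coeff_succ_X_mul, PowerSeries.coeff_mk]

theorem coeff_evf_pow (ψ : (ZMod 2)[X] →ₗ[ZMod 2] ZMod 2) {k n : ℕ} (h : k < n) (S : W) :
    PowerSeries.coeff k (evf ψ (zz ^ n * S)) = 0 := by
  rw [evf, PowerSeries.coeff_mk, PowerSeries.coeff_X_pow_mul', if_neg (by omega), map_zero]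

theorem evf_uu (ψ : (ZMod 2)[X] →ₗ[ZMod 2] ZMod 2) (j : ℕ) :
    evf ψ ((uu : W) ^ j) = PowerSeries.C (ψ (X ^ j)) := by
  ext k
  rw [evf, PowerSeries.coeff_mk, uu, ← map_pow, PowerSeries.coeff_C, PowerSeries.coeff_C]
  split_ifs
  · rfl
  · exact map_zero _

section

variable {m : ℕ} (hm : 1 ≤ m) (hEV : SpecEVM) (A : W) (ψ : (ZMod 2)[X] →ₗ[ZMod 2] ZMod 2)

include hm hEV

theorem TT_add (F G : W) : TT m A (F + G) = TT m A F + TT m A G := by
  rw [TT, TT, TT, mul_add, (hEV (ZMod 2) m hm).1, mul_add]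

theorem TT_zz (F : W) : TT m A (zz * F) = zz * TT m A F := by
  rw [TT, TT, mul_left_comm, (hEV (ZMod 2) m hm).2.1]

theorem TT_iter_add (n : ℕ) (F G : W) :
    (TT m A)^[n] (F + G) = (TT m A)^[n] F + (TT m A)^[n] G := by
  induction n generalizing F G with
  | zero => rfl
  | succ n ih => rw [Function.iterate_succ_apply, Function.iterate_succ_apply,
      Function.iterate_succ_apply, TT_add hm hEV, ih]

theorem TT_iter_zz (n : ℕ) (F : W) : (TT m A)^[n] (zz * F) = zz * (TT m A)^[n] F := by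
  induction n generalizing F with
  | zero => rfl
  | succ n ih => rw [Function.iterate_succ_apply, Function.iterate_succ_apply,
      TT_zz hm hEV, ih]

theorem TT_pow (n : ℕ) (F : W) : TT m A (zz ^ n * F) = zz ^ n * TT m A F := by
  induction n with
  | zero => rw [pow_zero, one_mul, one_mul]
  | succ n ih => rw [pow_succ', mul_assoc, TT_zz hm hEV, ih, mul_assoc]

theorem TT_dvd (n : ℕ) (F : W) : ∃ S : W, (TT m A)^[n] F = zz ^ n * S := by
  induction n with
  | zero => exact ⟨F, by rw [pow_zero, one_mul]; rfl⟩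
  | succ n ih =>
    obtain ⟨S, hS⟩ := ih
    refine ⟨LMm m (A * S), ?_⟩
    rw [Function.iterate_succ_apply', hS, TT_pow hm hEV, TT, pow_succ, mul_assoc]

omit hm hEV

/-- the resolvent -/
noncomputable def LL (m : ℕ) (A : W) (ψ : (ZMod 2)[X] →ₗ[ZMod 2] ZMod 2) (G : W) : S2 :=
  PowerSeries.mk fun k => ∑ n ∈ range (k + 1), PowerSeries.coeff k (evf ψ ((TT m A)^[n] G))

theorem coeff_LL (G : W) (k : ℕ) : PowerSeries.coeff k (LL m A ψ G) =
    ∑ n ∈ range (k + 1), PowerSeries.coeff k (evf ψ ((TT m A)^[n] G)) := by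
  rw [LL, PowerSeries.coeff_mk]

include hm hEV

theorem coeff_evf_iter {k n : ℕ} (h : k < n) (G : W) :
    PowerSeries.coeff k (evf ψ ((TT m A)^[n] G)) = 0 := by
  obtain ⟨S, hS⟩ := TT_dvd hm hEV A n G
  rw [hS]
  exact coeff_evf_pow ψ h S

theorem LL_add (F G : W) : LL m A ψ (F + G) = LL m A ψ F + LL m A ψ G := by
  ext k
  rw [map_add, coeff_LL, coeff_LL, coeff_LL, ← Finset.sum_add_distrib]
  refine Finset.sum_congr rfl fun n _ => ?_
  rw [TT_iter_add hm hEV, evf_add, map_add]

theorem LL_zz (G : W) : LL m A ψ (zz * G) = zz * LL m A ψ G := by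
  ext k
  rw [coeff_LL]
  rcases k with _ | k
  · rw [PowerSeries.coeff_zero_X_mul, Finset.sum_range_one, Function.iterate_zero, id, evf_zz,
      PowerSeries.coeff_zero_X_mul]
  · rw [PowerSeries.coeff_succ_X_mul, coeff_LL, Finset.sum_range_succ]
    have h1 : ∀ n, PowerSeries.coeff (k + 1) (evf ψ ((TT m A)^[n] (zz * G))) =
        PowerSeries.coeff k (evf ψ ((TT m A)^[n] G)) := by
      intro n
      rw [TT_iter_zz hm hEV, evf_zz, PowerSeries.coeff_succ_X_mul]
    rw [h1, coeff_evf_iter hm hEV A ψ (by omega), add_zero]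
    exact Finset.sum_congr rfl fun n _ => h1 n

theorem LL_pow (n : ℕ) (G : W) : LL m A ψ (zz ^ n * G) = zz ^ n * LL m A ψ G := by
  induction n with
  | zero => rw [pow_zero, one_mul, pow_zero, one_mul]
  | succ n ih => rw [pow_succ', mul_assoc, LL_zz hm hEV, ih, pow_succ', mul_assoc]

theorem LL_eq (G : W) : LL m A ψ G = evf ψ G + LL m A ψ (TT m A G) := by
  ext k
  rw [map_add, coeff_LL, coeff_LL, Finset.sum_range_succ', Finset.sum_range_succ]
  have h1 : PowerSeries.coeff k (evf ψ ((TT m A)^[k] (TT m A G))) = 0 := by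
    rw [← Function.iterate_succ_apply]
    exact coeff_evf_iter hm hEV A ψ (by omega) G
  rw [h1, add_zero, add_comm]
  rfl

theorem LL_zero : LL m A ψ 0 = 0 := by
  have h := LL_add hm hEV A ψ 0 0
  rw [add_zero] at h
  exact left_eq_add.1 h

end

end Pool.Agent.Lib.MPba1bba.TM.DUMAux

namespace Pool.Agent.Lib.MPba1bba.TM

open Polynomial TR DUMAux

theorem specDUM (hEV : SpecEVM) (hPA : SpecPAM) : SpecDUM := by
  intro n hn A H hA hH ψ
  have hm : 1 ≤ 2 * n := by omega
  obtain ⟨eAdd, eZ, -, -, -⟩ := hEV (ZMod 2) (2 * n) hm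
  obtain ⟨-, pLow, pHigh, pOdd⟩ := hPA n hn
  let δ : ℕ → S2 := fun j => LL (2 * n) A ψ (TT (2 * n) A (uu ^ j))
  have hδ : ∀ j, δ j = LL (2 * n) A ψ (TT (2 * n) A (uu ^ j)) := fun _ => rfl
  have hw : ∀ j, LL (2 * n) A ψ (uu ^ j) = PowerSeries.C (ψ (X ^ j)) + δ j := fun j => by
    rw [LL_eq hm hEV, evf_uu]
  have hT : ∀ j, TT (2 * n) A (uu ^ j) + zz ^ (2 * n + 3) * TT (2 * n) A (uu ^ (j + 2)) =
      zz * (LMm (2 * n) (uu ^ j) + zz * LMm (2 * n) (uu ^ (j + 1))) := by
    intro j
    have e : A * (uu ^ j + zz ^ (2 * n + 3) * uu ^ (j + 2)) = uu ^ j + zz * uu ^ (j + 1) := by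
      have : A * (uu ^ j + zz ^ (2 * n + 3) * uu ^ (j + 2)) =
        ((1 + zz ^ (2 * n + 3) * uu ^ 2) * A) * uu ^ j := by ring
      rw [this, hA]
      ring
    rw [← TT_pow hm hEV, ← TT_add hm hEV, TT, e, eAdd, eZ]
  have hrec : ∀ j, δ j + zz ^ (2 * n + 3) * δ (j + 2) =
      zz * (LL (2 * n) A ψ (LMm (2 * n) (uu ^ j)) +
        zz * LL (2 * n) A ψ (LMm (2 * n) (uu ^ (j + 1)))) := by
    intro j
    rw [hδ, hδ, ← LL_pow hm hEV, ← LL_add hm hEV, hT, LL_zz hm hEV, LL_add hm hEV, LL_zz hm hEV]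
  -- even and odd indices
  have h1 : ∀ i, δ (2 * i) + zz ^ (2 * n + 3) * δ (2 * i + 2) =
      zz * LL (2 * n) A ψ (LMm (2 * n) (uu ^ (2 * i))) := by
    intro i
    rw [hrec, pOdd (2 * i + 1) (odd_two_mul_add_one i), LL_zero hm hEV, mul_zero, add_zero]
  have h2 : ∀ i, 1 ≤ i → δ (2 * i - 1) + zz ^ (2 * n + 3) * δ (2 * i + 1) =
      zz ^ 2 * LL (2 * n) A ψ (LMm (2 * n) (uu ^ (2 * i))) := by
    intro i hi
    have h3 := hrec (2 * i - 1)
    rw [show 2 * i - 1 + 2 = 2 * i + 1 by omega, show 2 * i - 1 + 1 = 2 * i by omega,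
      pOdd (2 * i - 1) ⟨i - 1, by omega⟩, LL_zero hm hEV, zero_add] at h3
    rw [h3]
    ring
  -- the relation between neighbours
  have hg : ∀ i, 1 ≤ i → δ (2 * i - 1) = zz * δ (2 * i) := by
    intro i hi
    let g : ℕ → S2 := fun i => zz * δ (2 * i) + δ (2 * i - 1)
    have hgr : ∀ i, 1 ≤ i → g i = zz ^ (2 * n + 3) * g (i + 1) := by
      intro i hi
      have h3 : g i + zz ^ (2 * n + 3) * g (i + 1) = 0 := by
        change zz * δ (2 * i) + δ (2 * i - 1) + zz ^ (2 * n + 3) * (zz * δ (2 * (i + 1)) +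
          δ (2 * (i + 1) - 1)) = 0
        rw [show 2 * (i + 1) = 2 * i + 2 by ring, show 2 * i + 2 - 1 = 2 * i + 1 by omega]
        have h4 : zz * δ (2 * i) + δ (2 * i - 1) +
            zz ^ (2 * n + 3) * (zz * δ (2 * i + 2) + δ (2 * i + 1)) =
            zz * (δ (2 * i) + zz ^ (2 * n + 3) * δ (2 * i + 2)) +
              (δ (2 * i - 1) + zz ^ (2 * n + 3) * δ (2 * i + 1)) := by ring
        rw [h4, h1 i, h2 i hi]
        generalize LL (2 * n) A ψ (LMm (2 * n) (uu ^ (2 * i))) = L
        have h5 : zz * (zz * L) + zz ^ 2 * L = zz ^ 2 * L + zz ^ 2 * L := by ring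
        rw [h5, add_self_S]
      have h6 := add_self_S (zz ^ (2 * n + 3) * g (i + 1))
      exact add_right_cancel (h3.trans h6.symm)
    have hdvd : ∀ k i, 1 ≤ i → (zz : S2) ^ k ∣ g i := by
      intro k
      induction k with
      | zero =>
        intro i _
        rw [pow_zero]
        exact one_dvd _
      | succ k ih =>
        intro i hi
        rw [hgr i hi]
        obtain ⟨q, hq⟩ := ih (i + 1) (by omega)
        refine ⟨zz ^ (2 * n + 2) * q, ?_⟩
        rw [hq]
        ring
    have hz : g i = 0 := by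
      ext k
      have h3 := PowerSeries.X_pow_dvd_iff.1 (hdvd (k + 1) i hi) k (by omega)
      rw [h3, map_zero]
    have h6 := add_self_S (zz * δ (2 * i))
    exact add_left_cancel (hz.trans h6.symm)
  have w0 : LL (2 * n) A ψ 1 = PowerSeries.C (ψ (X ^ 0)) + δ 0 := by
    rw [← hw 0, pow_zero]
  have w1 : LL (2 * n) A ψ uu = PowerSeries.C (ψ (X ^ 1)) + δ 1 := by
    rw [← hw 1, pow_one]
  refine ⟨δ, ⟨hg, fun i hi => ?_, fun i hi => ?_⟩, ?_⟩
  · rw [h1, pLow i hi, LL_add hm hEV, LL_pow hm hEV, w0, w1]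
  · rw [h1, pHigh i hi, LL_add hm hEV, hw, hw]
  · have h3 : evf ψ H = LL (2 * n) A ψ (zz * 1 + zz ^ (2 * n + 1) * uu) := by
      have h4 := LL_eq hm hEV A ψ H
      have h5 : LL (2 * n) A ψ H = LL (2 * n) A ψ (TT (2 * n) A H) +
          LL (2 * n) A ψ (zz * 1 + zz ^ (2 * n + 1) * uu) := by
        rw [← LL_add hm hEV]
        congr 1
        rw [TT, mul_one, ← add_assoc]
        exact hH
      rw [h5, add_comm] at h4
      exact (add_right_cancel h4).symm
    rw [h3, LL_add hm hEV, LL_zz hm hEV, LL_pow hm hEV, w0, w1, pow_zero, pow_one]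

end Pool.Agent.Lib.MPba1bba.TM
end

section
/-!
# EMM: the system modulo 2, for `m = 2 n`
-/
namespace Pool.Agent.Lib.MPba1bba.TM

open Polynomial TR

namespace EMMAux

theorem two_zero : (2 : PowerSeries (ZMod 2)[X]) = 0 := by
  have h : (2 : ZMod 2) = 0 := by decide
  have : (2 : PowerSeries (ZMod 2)[X]) = PowerSeries.C (Polynomial.C (2 : ZMod 2)) := by
    rw [map_ofNat, map_ofNat]
  rw [this, h, map_zero, map_zero]

theorem LM_pow (m : ℕ)
    (Lz : ∀ F : PowerSeries (ZMod 2)[X], LMm m (zz * F) = zz * LMm m F)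
    (k : ℕ) (F : PowerSeries (ZMod 2)[X]) :
    LMm m (zz ^ k * F) = zz ^ k * LMm m F := by
  induction k with
  | zero => simp
  | succ k ih => rw [pow_succ', mul_assoc, Lz, ih, mul_assoc]

theorem isUnit_aux (F : PowerSeries (ZMod 2)[X]) : IsUnit (1 + zz * F) := by
  rw [PowerSeries.isUnit_iff_constantCoeff]
  simp

theorem eq_zero_of_dvd (F : PowerSeries (ZMod 2)[X]) (h : ∀ k : ℕ, zz ^ k ∣ F) : F = 0 := by
  ext1 k
  have := (PowerSeries.X_pow_dvd_iff.1 (h (k + 1))) k (Nat.lt_succ_self k)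
  simpa using this

end EMMAux

open EMMAux in
theorem specEMM (hEVM : SpecEVM) (hBAM : SpecBAM) (hPAM : SpecPAM) (hBA : TR.SpecBA)
    (hPA : TR.SpecPA) : SpecEMM := by
  intro n hn Q E H hS
  obtain ⟨hQ, hE, hH⟩ := hS
  obtain ⟨badd, b1, bz, bu, -, -, -, -⟩ := hBA
  obtain ⟨bLM, -, -⟩ := hBAM
  obtain ⟨hpar, hsq, ev1', evz, ou, -, hdiv⟩ := hPA
  obtain ⟨Ladd, Lz, Lneg, -, -⟩ := hEVM (ZMod 2) (2 * n) (by omega)
  obtain ⟨hkill, hsmall, -, -⟩ := hPAM n hn
  have L1 : LMm (2 * n) (1 : PowerSeries (ZMod 2)[X]) = 1 + zz ^ (2 * n) * uu := by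
    have := hsmall 0 (by omega)
    simpa using this
  have t0 := two_zero
  have bsub : ∀ F G : PowerSeries ℤ[X], bar (F - G) = bar F - bar G := fun F G => map_sub _ F G
  have bpow : ∀ (F : PowerSeries ℤ[X]) (k : ℕ), bar (F ^ k) = bar F ^ k := fun F k => map_pow _ F k
  have bm : ∀ F G : PowerSeries ℤ[X], bar (F * G) = bar F * bar G := fun F G => (badd F G).2
  have ba : ∀ F G : PowerSeries ℤ[X], bar (F + G) = bar F + bar G := fun F G => (badd F G).1
  have b2 : bar (2 : PowerSeries ℤ[X]) = 0 := by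
    have : bar (2 : PowerSeries ℤ[X]) = 2 := map_ofNat _ 2
    rw [this, t0]
  have q0 : bar Q = zz * uu + zz * uu * bar E * bar Q := by
    have := congrArg bar hQ
    simpa only [ba, bm, bz, bu] using this
  have e0 : bar E = zz ^ 2 * (LMm (2 * n) (1 + bar E + bar Q * (1 + bar E) ^ 2) - 1) := by
    have := congrArg bar hE
    simpa only [ba, bm, bz, bu, bsub, bpow, bLM, b1] using this
  have h0 : bar H = zz * LMm (2 * n) ((1 + bar Q * (1 + bar E)) * (1 + bar E + bar H)) := by
    have := congrArg bar hH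
    simpa only [ba, bm, bz, bu, bsub, bpow, bLM, b1] using this
  have f0 : bar (FF2 Q E H) = 1 + bar E + bar Q * (1 + bar E + bar H) ^ 2 := by
    simp only [FF2, ba, bm, bpow, b1, b2, zero_mul, add_zero]
  rw [f0]
  clear f0 hQ hE hH
  generalize bar Q = q at *
  generalize bar E = e at *
  generalize bar H = h at *
  -- the solution modulo 2
  obtain ⟨v, hv⟩ : ∃ v : ℕ, 2 * n + 2 = v := ⟨_, rfl⟩
  have hv1 : (zz ^ (2 * n + 3) : PowerSeries (ZMod 2)[X]) = zz * zz ^ v := by
    rw [← hv]; ring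
  have hv2 : (zz ^ 2 * zz ^ (2 * n) : PowerSeries (ZMod 2)[X]) = zz ^ v := by
    rw [← hv]; ring
  have hv3 : (zz ^ (2 * n + 1) : PowerSeries (ZMod 2)[X]) = zz * zz ^ (2 * n) := by
    ring
  rw [hv1, hv3, hv]
  obtain ⟨w, hw⟩ := (isUnit_aux (zz ^ v * uu ^ 2)).exists_right_inv
  have hw' : (1 + zz * zz ^ v * uu ^ 2) * w = 1 := by linear_combination hw
  set q' : PowerSeries (ZMod 2)[X] := w * (zz * uu) with hq'
  have q1 : (1 + zz * zz ^ v * uu ^ 2) * q' = zz * uu := by
    rw [hq', ← mul_assoc, hw', one_mul]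
  have evzp : ∀ k : ℕ, EvenU (zz ^ k) := by
    intro k
    induction k with
    | zero => simpa using ev1'
    | succ k ih => rw [pow_succ]; exact ((hpar _ _).1 ih evz).2
  have oe' : OddU (zz ^ v * uu) := by
    rw [mul_comm]
    exact (hpar _ _).2.2 ou (evzp v)
  have ozu : OddU (zz * uu) := by
    rw [mul_comm]
    exact (hpar _ _).2.2 ou evz
  have ed : EvenU (1 + zz * zz ^ v * uu ^ 2) :=
    ((hpar _ _).1 ev1' (((hpar _ _).1 ((hpar _ _).1 evz (evzp v)).2 (hsq _))).2).1
  have oq : ∀ x : PowerSeries (ZMod 2)[X], (1 + zz * zz ^ v * uu ^ 2) * x = zz * uu → OddU x := by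
    intro x hx
    refine hdiv (1 + zz * zz ^ v * uu ^ 2) x ed ?_ ?_
    · simp
    · rw [hx]; exact ozu
  have key : ∀ x : PowerSeries (ZMod 2)[X], OddU x →
      LMm (2 * n) (1 + zz ^ v * uu + x * (1 + zz ^ v * uu) ^ 2) = 1 + zz ^ (2 * n) * uu := by
    intro x hx
    rw [add_assoc, Ladd, L1, hkill _ ((hpar _ _).2.1 oe' ((hpar _ _).2.2 hx (hsq _))).1, add_zero]
  have e1 : (zz ^ v * uu : PowerSeries (ZMod 2)[X]) =
      zz ^ 2 * (LMm (2 * n) (1 + zz ^ v * uu + q' * (1 + zz ^ v * uu) ^ 2) - 1) := by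
    rw [key q' (oq q' q1)]
    linear_combination (-uu : PowerSeries (ZMod 2)[X]) * hv2
  have hdv : ∀ k : ℕ, zz ^ k ∣ e - zz ^ v * uu := by
    intro k
    induction k with
    | zero => simp
    | succ k ih =>
      have hqq : zz ^ k ∣ q - q' := by
        have h1 : (1 + zz * (-(uu * e))) * (q - q') = zz * uu * (e - zz ^ v * uu) * q' := by
          have : (1 + zz * zz ^ v * uu ^ 2 : PowerSeries (ZMod 2)[X]) =
              1 - zz * zz ^ v * uu ^ 2 := by
            linear_combination (zz * zz ^ v * uu ^ 2) * t0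
          rw [this] at q1
          linear_combination q0 - q1
        have h2 : zz ^ k ∣ (1 + zz * (-(uu * e))) * (q - q') := by
          rw [h1]
          exact Dvd.dvd.mul_right (Dvd.dvd.mul_left ih _) _
        exact (IsUnit.dvd_mul_left (isUnit_aux _)).1 h2
      have h3 : zz ^ k ∣ (1 + e + q * (1 + e) ^ 2) -
          (1 + zz ^ v * uu + q' * (1 + zz ^ v * uu) ^ 2) := by
        have : (1 + e + q * (1 + e) ^ 2) - (1 + zz ^ v * uu + q' * (1 + zz ^ v * uu) ^ 2) =
            (e - zz ^ v * uu) * (1 + q * ((1 + e) + (1 + zz ^ v * uu))) +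
            (q - q') * (1 + zz ^ v * uu) ^ 2 := by ring
        rw [this]
        exact dvd_add (Dvd.dvd.mul_right ih _) (Dvd.dvd.mul_right hqq _)
      obtain ⟨g, hg⟩ := h3
      have h4 : LMm (2 * n) (1 + e + q * (1 + e) ^ 2) -
          LMm (2 * n) (1 + zz ^ v * uu + q' * (1 + zz ^ v * uu) ^ 2) =
            zz ^ k * LMm (2 * n) g := by
        have h5 : 1 + e + q * (1 + e) ^ 2 =
            (1 + zz ^ v * uu + q' * (1 + zz ^ v * uu) ^ 2) + zz ^ k * g := by
          linear_combination hg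
        rw [h5, Ladd (1 + zz ^ v * uu + q' * (1 + zz ^ v * uu) ^ 2) (zz ^ k * g),
          LM_pow (2 * n) Lz]
        ring
      refine ⟨zz * LMm (2 * n) g, ?_⟩
      rw [e0, e1]
      linear_combination zz ^ 2 * h4
  have he : e = zz ^ v * uu := sub_eq_zero.1 (eq_zero_of_dvd _ hdv)
  subst he
  have q2 : (1 + zz * zz ^ v * uu ^ 2) * q = zz * uu := by
    linear_combination q0 + (zz * zz ^ v * uu ^ 2) * q * t0
  have o2 := oq q q2
  refine ⟨rfl, q2, ?_, ?_, ?_, ?_⟩
  · linear_combination (1 + zz ^ v * uu) * q2 + zz * zz ^ v * uu ^ 2 * t0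
  · have h5 : (1 + q * (1 + zz ^ v * uu)) * (1 + zz ^ v * uu + h) =
        (1 + q * (1 + zz ^ v * uu)) * h + (1 + zz ^ v * uu + q * (1 + zz ^ v * uu) ^ 2) := by
      ring
    rw [h5, Ladd, key q o2] at h0
    linear_combination h0
  · have : (1 + zz ^ v * uu + q * (1 + zz ^ v * uu + h) ^ 2 - 1 : PowerSeries (ZMod 2)[X]) =
        zz ^ v * uu + q * (1 + zz ^ v * uu + h) ^ 2 := by ring
    rw [this]
    exact ((hpar _ _).2.1 oe' ((hpar _ _).2.2 o2 (hsq _))).1
  · linear_combination (1 + zz ^ v * uu + h) ^ 2 * q2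

end Pool.Agent.Lib.MPba1bba.TM
end

section
/-!
# TM, module EVM: facts on the section operator
-/
namespace Pool.Agent.Lib.MPba1bba.TM

open Polynomial TR

namespace EVM

variable {R : Type} [CommRing R]

theorem coeff_LMm (m : ℕ) (F : PowerSeries R[X]) (N : ℕ) :
    PowerSeries.coeff N (LMm m F) = ∑ ij ∈ Finset.HasAntidiagonal.antidiagonal N,
      (PowerSeries.coeff ij.1 F).sum fun v a => C a * PowerSeries.coeff ij.2 (im R m v) := by
  rw [LMm, PowerSeries.coeff_mk]

theorem sum_zero_fn (h : ℕ → R[X]) : (0 : R[X]).sum (fun v a => C a * h v) = 0 := by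
  simp [Polynomial.sum]

theorem sum_add_fn (h : ℕ → R[X]) (p q : R[X]) :
    (p + q).sum (fun v a => C a * h v) =
      p.sum (fun v a => C a * h v) + q.sum (fun v a => C a * h v) := by
  apply Polynomial.sum_add_index
  · intro i; simp
  · intro i a b; simp [add_mul]

theorem LMm_add (m : ℕ) (F G : PowerSeries R[X]) : LMm m (F + G) = LMm m F + LMm m G := by
  ext1 N
  rw [map_add, coeff_LMm, coeff_LMm, coeff_LMm, ← Finset.sum_add_distrib]
  refine Finset.sum_congr rfl fun ij _ => ?_
  rw [map_add, sum_add_fn]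

theorem LMm_zero (m : ℕ) : LMm m (0 : PowerSeries R[X]) = 0 := by
  have h := LMm_add m (0 : PowerSeries R[X]) 0
  rw [add_zero] at h
  exact left_eq_add.mp h

theorem LMm_neg (m : ℕ) (F : PowerSeries R[X]) : LMm m (-F) = -LMm m F := by
  have h := LMm_add m F (-F)
  rw [add_neg_cancel, LMm_zero] at h
  exact (neg_eq_of_add_eq_zero_right h.symm).symm

theorem LMm_zz (m : ℕ) (F : PowerSeries R[X]) : LMm m (zz * F) = zz * LMm m F := by
  ext1 N
  cases N with
  | zero =>
    rw [coeff_LMm]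
    simp
  | succ N =>
    rw [coeff_LMm, PowerSeries.coeff_succ_X_mul, coeff_LMm, Finset.Nat.sum_antidiagonal_succ]
    simp only [PowerSeries.coeff_succ_X_mul]
    rw [PowerSeries.coeff_zero_X_mul, sum_zero_fn, zero_add]

theorem uu_pow (v : ℕ) : (uu ^ v : PowerSeries R[X]) = PowerSeries.C (X ^ v) := by
  rw [uu, ← map_pow]

theorem LMm_uu (m v : ℕ) : LMm m (uu ^ v : PowerSeries R[X]) = im R m v := by
  ext1 N
  rw [coeff_LMm, uu_pow, Finset.Nat.sum_antidiagonal_eq_sum_range_succ_mk,
    Finset.sum_range_succ']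
  have h0 : ∑ k ∈ Finset.range N, (PowerSeries.coeff (k + 1, N - (k + 1)).1
      (PowerSeries.C (X ^ v : R[X]))).sum
        (fun w a => C a * PowerSeries.coeff (k + 1, N - (k + 1)).2 (im R m w)) = 0 := by
    refine Finset.sum_eq_zero fun k _ => ?_
    rw [PowerSeries.coeff_C, if_neg (Nat.succ_ne_zero k), sum_zero_fn]
  rw [h0, zero_add]
  simp only [PowerSeries.coeff_zero_C, Nat.sub_zero]
  rw [← monomial_one_right_eq_X_pow, Polynomial.sum_monomial_index]
  · simp
  · simp

/-! ## The value and the derivative at `1` -/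

/-- `p ↦ p(1) + p'(1)`. -/
noncomputable def phi : R[X] →ₗ[R] R := Polynomial.leval 1 + (Polynomial.leval 1).comp derivative

theorem phi_apply (p : R[X]) : phi p = p.eval 1 + (derivative p).eval 1 := rfl

theorem phi_X_pow (v : ℕ) : phi (X ^ v : R[X]) = v + 1 := by
  rw [phi_apply, derivative_X_pow]
  simp
  ring

/-- `phi` applied coefficientwise. -/
noncomputable def Ph (F : PowerSeries R[X]) : PowerSeries R :=
  PowerSeries.mk fun k => phi (PowerSeries.coeff k F)

theorem Ph_eq (F : PowerSeries R[X]) : Ph F = ev1 F + dv1 F := by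
  ext k
  simp [Ph, ev1, dv1, phi_apply]

theorem coeff_Ph (F : PowerSeries R[X]) (k : ℕ) :
    PowerSeries.coeff k (Ph F) = phi (PowerSeries.coeff k F) := by
  simp [Ph]

theorem Ph_sum (s : Finset ℕ) (f : ℕ → PowerSeries R[X]) :
    Ph (∑ r ∈ s, f r) = ∑ r ∈ s, Ph (f r) := by
  ext k
  rw [coeff_Ph, map_sum, map_sum, map_sum]
  simp [coeff_Ph]

theorem Ph_zz_uu (c w : ℕ) : Ph (zz ^ c * uu ^ w : PowerSeries R[X]) =
    zz ^ c * ((w : PowerSeries R) + 1) := by
  ext k
  rw [coeff_Ph, uu_pow, PowerSeries.coeff_mul_C, PowerSeries.coeff_X_pow]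
  have h1 : ((w : PowerSeries R) + 1) = PowerSeries.C ((w : R) + 1) := by simp
  rw [h1, PowerSeries.coeff_mul_C, PowerSeries.coeff_X_pow]
  split_ifs with h
  · rw [one_mul, one_mul, phi_X_pow]
  · simp

theorem cnt (m v : ℕ) (hm : 1 ≤ m) :
    ∑ r ∈ Finset.range m, (if r ≤ v then (v - r) / m + 1 else 0) = v + 1 := by
  induction v using Nat.strong_induction_on with
  | _ v ih =>
    by_cases hv : v < m
    · have h1 : ∀ r ∈ Finset.range m, (if r ≤ v then (v - r) / m + 1 else 0) =
          if r ∈ Finset.range (v + 1) then 1 else 0 := by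
        intro r _
        by_cases hr : r ≤ v
        · rw [if_pos hr, if_pos (by simpa [Nat.lt_succ_iff] using hr), Nat.div_eq_of_lt (by omega)]
        · rw [if_neg hr, if_neg (by simpa [Nat.lt_succ_iff] using hr)]
      rw [Finset.sum_congr rfl h1, Finset.sum_ite_mem, Finset.inter_eq_right.mpr]
      · simp
      · intro r hr
        simp only [Finset.mem_range] at hr ⊢
        omega
    · have h1 : ∀ r ∈ Finset.range m, (if r ≤ v then (v - r) / m + 1 else 0) =
          (if r ≤ v - m then (v - m - r) / m + 1 else 0) + 1 := by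
        intro r hr
        simp only [Finset.mem_range] at hr
        rw [if_pos (by omega)]
        by_cases h2 : r ≤ v - m
        · rw [if_pos h2]
          have : v - r = (v - m - r) + m := by omega
          rw [this, Nat.add_div_right _ (by omega)]
        · rw [if_neg h2]
          rw [Nat.div_eq_of_lt (by omega)]
      rw [Finset.sum_congr rfl h1, Finset.sum_add_distrib, ih (v - m) (by omega)]
      simp
      omega

theorem far (m v : ℕ) : ∑ r ∈ Finset.range m, (if r ≤ v then (0 : PowerSeries R) else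
    zz ^ cc m v r * ((ww m v r : PowerSeries R) + 1)) = 2 * ch R m v := by
  by_cases hv : m ≤ v
  · have h1 : ch R m v = 0 := by
      rw [ch, Nat.sub_eq_zero_of_le hv]
      simp
    rw [h1, mul_zero]
    refine Finset.sum_eq_zero fun r hr => ?_
    simp only [Finset.mem_range] at hr
    rw [if_pos (by omega)]
  · obtain ⟨L, rfl⟩ : ∃ L, m = (v + 1) + L := ⟨m - (v + 1), by omega⟩
    rw [Finset.sum_range_add]
    have h1 : ∑ r ∈ Finset.range (v + 1), (if r ≤ v then (0 : PowerSeries R) else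
        zz ^ cc (v + 1 + L) v r * ((ww (v + 1 + L) v r : PowerSeries R) + 1)) = 0 := by
      refine Finset.sum_eq_zero fun r hr => ?_
      simp only [Finset.mem_range] at hr
      rw [if_pos (by omega)]
    rw [h1, zero_add]
    set f : ℕ → PowerSeries R := fun s => if 2 * (s + 1) ≤ L + 1 then zz ^ (2 * (s + 1)) else 0
      with hf
    have h2 : ∀ s ∈ Finset.range L, (if v + 1 + s ≤ v then (0 : PowerSeries R) else
        zz ^ cc (v + 1 + L) v (v + 1 + s) *
          ((ww (v + 1 + L) v (v + 1 + s) : PowerSeries R) + 1)) = f s + f (L - 1 - s) := by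
      intro s hs
      simp only [Finset.mem_range] at hs
      rw [if_neg (by omega), cc, if_neg (by omega), ww, if_neg (by omega)]
      have e1 : v + 1 + L - (v + 1 + s) = L - s := by omega
      have e2 : v + 1 + s - v = s + 1 := by omega
      have e3 : L - 1 - s + 1 = L - s := by omega
      rw [e1, e2]
      simp only [hf, e3]
      rcases lt_trichotomy (s + 1) (L - s) with h | h | h
      · rw [min_eq_right h.le, if_neg (by omega), if_pos (by omega), if_neg (by omega)]
        simp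
      · rw [min_eq_right h.le, if_pos (by omega), if_pos (by omega), if_pos (by omega), ← h]
        simp
        ring
      · rw [min_eq_left h.le, if_neg (by omega), if_neg (by omega), if_pos (by omega)]
        simp
    rw [Finset.sum_congr rfl h2, Finset.sum_add_distrib, Finset.sum_range_reflect, ← two_mul]
    congr 1
    rw [ch]
    have e4 : v + 1 + L - v = L + 1 := by omega
    rw [e4]
    have h3 : Finset.range ((L + 1) / 2) =
        (Finset.range L).filter (fun s => 2 * (s + 1) ≤ L + 1) := by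
      ext s
      simp only [Finset.mem_range, Finset.mem_filter]
      omega
    rw [h3, Finset.sum_filter]

theorem Ph_im (m v : ℕ) (hm : 1 ≤ m) :
    Ph (im R m v) = ((v : PowerSeries R) + 1) + 2 * ch R m v := by
  rw [im, Ph_sum, ← far m v]
  have h1 : ((v : PowerSeries R) + 1) =
      ∑ r ∈ Finset.range m, (if r ≤ v then (((v - r) / m : ℕ) : PowerSeries R) + 1 else 0) := by
    have h := congrArg (Nat.cast : ℕ → PowerSeries R) (cnt m v hm)
    push_cast at h
    exact h.symm
  rw [h1, ← Finset.sum_add_distrib]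
  refine Finset.sum_congr rfl fun r _ => ?_
  rw [Ph_zz_uu]
  by_cases hr : r ≤ v
  · rw [if_pos hr, if_pos hr, cc, if_pos hr, ww, if_pos hr]
    simp
  · rw [if_neg hr, if_neg hr, zero_add]

theorem phi_sum (p : R[X]) (h : ℕ → R[X]) :
    phi (p.sum fun v a => C a * h v) = p.sum fun v a => a * phi (h v) := by
  rw [Polynomial.sum_def, Polynomial.sum_def, map_sum]
  refine Finset.sum_congr rfl fun v _ => ?_
  rw [← smul_eq_C_mul, map_smul, smul_eq_mul]

theorem one_poly (m j : ℕ) (p : R[X]) :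
    (p.sum fun v a => a * PowerSeries.coeff j (((v : PowerSeries R) + 1) + 2 * ch R m v)) =
      (if j = 0 then phi p else 0) +
        2 * ∑ v ∈ Finset.range m, p.coeff v * PowerSeries.coeff j (ch R m v) := by
  induction p using Polynomial.induction_on' with
  | add p q hp hq =>
    rw [Polynomial.sum_add_index, hp, hq]
    · simp only [coeff_add, add_mul, Finset.sum_add_distrib, map_add]
      split_ifs <;> ring
    · intro i; simp
    · intro i a b; ring
  | monomial v a =>
    rw [Polynomial.sum_monomial_index _ _ (by simp)]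
    have h1 : ((v : PowerSeries R) + 1) = PowerSeries.C ((v : R) + 1) := by simp
    have h2 : ∀ x : PowerSeries R, PowerSeries.coeff j (2 * x) = 2 * PowerSeries.coeff j x := by
      intro x
      rw [two_mul, map_add, two_mul]
    rw [map_add, h2, h1, PowerSeries.coeff_C]
    have h3 : phi (monomial v a) = a * ((v : R) + 1) := by
      rw [← C_mul_X_pow_eq_monomial, ← smul_eq_C_mul, map_smul, phi_X_pow, smul_eq_mul]
    have h4 : ∑ w ∈ Finset.range m, (monomial v a : R[X]).coeff w *
        PowerSeries.coeff j (ch R m w) = a * PowerSeries.coeff j (ch R m v) := by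
      simp only [coeff_monomial, ite_mul, zero_mul]
      rw [Finset.sum_ite_eq]
      split_ifs with h
      · rfl
      · simp only [Finset.mem_range, not_lt] at h
        have : ch R m v = 0 := by
          rw [ch, Nat.sub_eq_zero_of_le h]
          simp
        rw [this]
        simp
    rw [h4, h3]
    split_ifs <;> ring

theorem coeff_ev_dv (m : ℕ) (hm : 1 ≤ m) (F : PowerSeries R[X]) :
    ev1 (LMm m F) + dv1 (LMm m F) =
      ev1 F + dv1 F + 2 * ∑ v ∈ Finset.range m, ch R m v * cf v F := by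
  rw [← Ph_eq, ← Ph_eq]
  ext N
  rw [coeff_Ph, coeff_LMm, map_sum]
  have h1 : ∀ ij ∈ Finset.HasAntidiagonal.antidiagonal N,
      phi ((PowerSeries.coeff ij.1 F).sum fun v a => C a * PowerSeries.coeff ij.2 (im R m v)) =
      (if ij.2 = 0 then phi (PowerSeries.coeff ij.1 F) else 0) +
        2 * ∑ v ∈ Finset.range m,
          (PowerSeries.coeff ij.1 F).coeff v * PowerSeries.coeff ij.2 (ch R m v) := by
    intro ij _
    rw [phi_sum, ← one_poly m ij.2]
    congr 1
    funext v a
    rw [← coeff_Ph, Ph_im m v hm]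
  rw [Finset.sum_congr rfl h1, Finset.sum_add_distrib]
  have h2 : ∀ x y : PowerSeries R, PowerSeries.coeff N (x + 2 * y) =
      PowerSeries.coeff N x + 2 * PowerSeries.coeff N y := by
    intro x y
    rw [two_mul, map_add, map_add, two_mul]
  rw [h2, coeff_Ph, map_sum]
  congr 1
  · rw [Finset.Nat.sum_antidiagonal_eq_sum_range_succ_mk, Finset.sum_range_succ]
    simp only [Nat.sub_self, if_true]
    rw [Finset.sum_eq_zero, zero_add]
    intro k hk
    simp only [Finset.mem_range] at hk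
    rw [if_neg (by omega)]
  · rw [← Finset.mul_sum, Finset.sum_comm]
    congr 1
    refine Finset.sum_congr rfl fun v _ => ?_
    rw [mul_comm (ch R m v), PowerSeries.coeff_mul]
    refine Finset.sum_congr rfl fun ij _ => ?_
    rw [cf, PowerSeries.coeff_mk]

end EVM

theorem specEVM : SpecEVM := fun _ _ m hm =>
  ⟨EVM.LMm_add m, EVM.LMm_zz m, EVM.LMm_neg m, EVM.LMm_uu m, EVM.coeff_ev_dv m hm⟩

end Pool.Agent.Lib.MPba1bba.TM
end

section
/-!
# Module FNM: assembly
-/
namespace Pool.Agent.Lib.MPba1bba.TM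

open Polynomial TR

namespace FNMAux

theorem alg_inj : Function.Injective (algebraMap P2 S2) := by
  intro a b h
  have h1 : (a : PowerSeries (ZMod 2)) = (b : PowerSeries (ZMod 2)) := by
    have e : ∀ p : P2, algebraMap P2 S2 p = (p : PowerSeries (ZMod 2)) := by
      intro p
      simp [PowerSeries.algebraMap_apply']
    rw [← e, ← e, h]
  exact Polynomial.coe_injective _ h1

theorem two_S : (2 : S2) = 0 := by
  have e : (2 : S2) = PowerSeries.C (2 : ZMod 2) := by rw [map_ofNat]
  have h2 : (2 : ZMod 2) = 0 := rfl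
  rw [e, h2, map_zero]

theorem evf_none (n : ℕ) (F : PowerSeries (ZMod 2)[X]) : evf (fl n none) F = ev1 F := by
  ext k
  simp [evf, fl, ev1]

theorem evf_some (n : ℕ) (i : Fin (n - 1)) (F : PowerSeries (ZMod 2)[X]) :
    evf (fl n (some i)) F = cf (i : ℕ) F := by
  ext k
  simp [evf, fl, cf]

/-- The relation between a value of `H` and the values `F`. -/
theorem value_rel (n : ℕ) (hHG : ∀ G : Option (Fi n) → PowerSeries P2,
      (∀ i, Sol n (bet n i) (G i)) → HasOrd (Fv n G none) 1 ∧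
      ∀ (f : Fi n) (δ : ℕ → S2), RecD n (fun j => fl n f (X ^ j)) δ →
        PowerSeries.C (1 + zz) * Dh n δ =
          toS (G (some f)) + PowerSeries.C ((1 + zz) * δ 0) * toS (G none) ∧
        Fv n G (some f) + (1 + zz) * δ 0 * Fv n G none = 0 ∧
        Res n (PowerSeries.C (1 + zz) * Dh n δ)
          (pS (bpsi n f) + Polynomial.C ((1 + zz) * δ 0) * pS (bphi n)) = 0)
    (G : Option (Fi n) → PowerSeries P2) (hG : ∀ i, Sol n (bet n i) (G i)) (f : Fi n) (δ : ℕ → S2)
    (hδ : RecD n (fun j => fl n f (X ^ j)) δ)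
    (hd : (1 + zz) * (zz * (PowerSeries.C (fl n f 1) + δ 0) +
      zz ^ (2 * n + 1) * (PowerSeries.C (fl n f X) + δ 1)) =
      (1 + zz) ^ 2 * δ 0 +
        zz ^ 2 * (PowerSeries.C (fl n f 1) + zz ^ (2 * n) * PowerSeries.C (fl n f X)))
    (v : S2) (hv : v = zz * (PowerSeries.C (fl n f 1) + δ 0) +
      zz ^ (2 * n + 1) * (PowerSeries.C (fl n f X) + δ 1)) :
    (1 + zz) * Fv n G none * v = (1 + zz) * Fv n G (some f) +
      zz ^ 2 * (PowerSeries.C (fl n f 1) + zz ^ (2 * n) * PowerSeries.C (fl n f X)) *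
        Fv n G none := by
  obtain ⟨-, h2⟩ := hHG G hG
  obtain ⟨-, h3, -⟩ := h2 f δ hδ
  have h4 : (1 + zz) * v = (1 + zz) ^ 2 * δ 0 +
      zz ^ 2 * (PowerSeries.C (fl n f 1) + zz ^ (2 * n) * PowerSeries.C (fl n f X)) := by
    rw [hv, hd]
  linear_combination (Fv n G none) * h4 + (1 + zz) * h3 - (1 + zz) * Fv n G (some f) * two_S

theorem C_alg (a : ZMod 2) : (PowerSeries.C a : S2) = algebraMap P2 S2 (Polynomial.C a) := by
  simp [PowerSeries.algebraMap_apply']

theorem alg_X : algebraMap P2 S2 X = zz := by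
  simp [PowerSeries.algebraMap_apply']

end FNMAux

open FNMAux

theorem specFNM (hMain : Pool.Agent.Lib.MPba1bba.MainStatement) (hZSM : SpecZSM) (hPVM : SpecPVM)
    (hEMM : SpecEMM) (hQUM : SpecQUM) (hDUM : SpecDUM) (hSGM : SpecSGM) (hDHM : SpecDHM)
    (hHGM : SpecHGM) (hLIB : SpecLIB) (hFRB : SpecFRB) (hNHM : SpecNHM) (hVAL : SpecVAL)
    (hTRS : SpecTRS) : SpecFNM := by
  intro n hn
  have hm : 2 ≤ 2 * n := by omega
  obtain ⟨Q, E, H, hSys, _, hsp⟩ := hMain 2 (2 * n) le_rfl hm
  obtain ⟨Q', E', H', hS2, hpsi⟩ := hZSM (2 * n) hm Q E H hSys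
  obtain ⟨A, B, C₂, D, Ci, hB, hD, hq⟩ := hQUM n hn
  obtain ⟨S₁, hS₁, hrel⟩ := hq _ Q' E' H' (hPVM (2 * n) hm) hS2
  refine ⟨S₁, ?_, ?_⟩
  · rw [← hS₁, ← hpsi]
    ext k
    rw [PowerSeries.coeff_mk, ← hsp k, show 2 * (2 * n) = 4 * n by ring]
  obtain ⟨_, _, m3, m4, _, _⟩ := hEMM n hn Q' E' H' hS2
  have hdu := hDUM n hn _ (bar H') m3 m4
  -- the dual sequences
  have hδ : ∀ f : Fi n, ∃ δ : ℕ → S2, RecD n (fun j => fl n f (X ^ j)) δ ∧
      evf (fl n f) (bar H') = zz * (PowerSeries.C (fl n f 1) + δ 0) +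
        zz ^ (2 * n + 1) * (PowerSeries.C (fl n f X) + δ 1) := fun f => hdu (fl n f)
  choose δ hδ1 hδ2 using hδ
  -- the solutions
  obtain ⟨-, -, -, -, hex, -, hSS⟩ := hSGM n hn
  have hG : ∀ i : Option (Fi n), ∃ g : PowerSeries P2, Sol n (bet n i) g := fun i => hex _
  choose G hG using hG
  have hrelv : ∀ f : Fi n, (1 + zz) * Fv n G none * evf (fl n f) (bar H') =
      (1 + zz) * Fv n G (some f) +
      zz ^ 2 * (PowerSeries.C (fl n f 1) + zz ^ (2 * n) * PowerSeries.C (fl n f X)) *
        Fv n G none := fun f =>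
    value_rel n (hHGM n hn) G hG f (δ f) (hδ1 f) (hDHM n hn f (δ f) (hδ1 f)).2 _ (hδ2 f)
  -- algebraic independence of the functions
  have hlin := hLIB n hn G hG (fun f => ⟨δ f, hδ1 f⟩)
  have hfr := hFRB (Option (Fi n)) (fun i => toS (G i)) hlin
  have hAI := hNHM n hn (Option (Fi n)) (fun i => toS (G i)) (fun i => pS (bet n i))
    (fun i => hSS _ _ (hG i)) hfr
  -- algebraic independence of the values
  have hV := hVAL n hn (Option (Fi n)) G (bet n) hG hAI
  -- the quadratic relation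
  set κ : Fi n → P2 := fun f => X ^ 2 * (Polynomial.C (fl n f 1) +
    X ^ (2 * n) * Polynomial.C (fl n f X)) with hκ
  have hκS : ∀ f : Fi n, algebraMap P2 S2 (κ f) =
      zz ^ 2 * (PowerSeries.C (fl n f 1) + zz ^ (2 * n) * PowerSeries.C (fl n f X)) := by
    intro f
    rw [hκ, C_alg, C_alg, ← alg_X]
    simp only [map_mul, map_add, map_pow]
  have hval : ∀ f : Fi n, (1 + zz) * Fv n G none * evf (fl n f) (bar H') =
      (1 + zz) * Fv n G (some f) + algebraMap P2 S2 (κ f) * Fv n G none := by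
    intro f
    rw [hκS]
    exact hrelv f
  -- sum over the coefficients
  let cs : Option (Fi n) → P2 := fun i => match i with
    | none => 0
    | some none => 0
    | some (some j) => (1 + X) ^ 2 * Ci (j : ℕ)
  have h1X : (1 + X : P2) ≠ 0 := by
    intro h0
    have := congrArg (fun p : P2 => p.coeff 1) h0
    simp [Polynomial.coeff_one] at this
  have haX : algebraMap P2 S2 (1 + X) = 1 + zz := by
    rw [map_add, map_one, alg_X]
  refine hTRS (Option (Fi n)) (fun i => Fv n G i) hV none (some none) (by simp)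
    ((1 + X) ^ 2 * A + (1 + X) * B * κ none + C₂ * κ none ^ 2 +
      ∑ j : Fin (n - 1), Ci (j : ℕ) * κ (some j) ^ 2) ((1 + X) ^ 2 * B) ((1 + X) ^ 2 * C₂)
    ((1 + X) ^ 2 * D) cs (mul_ne_zero (pow_ne_zero _ h1X) hB) (mul_ne_zero (pow_ne_zero _ h1X) hD)
    (bar0 S₁) ?_
  set F0 := Fv n G none with hF0
  set F1 := Fv n G (some none) with hF1
  have hη := hval none
  rw [evf_none] at hη
  have hHi : ∀ j : Fin (n - 1), ((1 + zz) * F0 * cf (j : ℕ) (bar H')) ^ 2 =
      (1 + zz) ^ 2 * Fv n G (some (some j)) ^ 2 + algebraMap P2 S2 (κ (some j)) ^ 2 * F0 ^ 2 := by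
    intro j
    have h := hval (some j)
    rw [evf_some] at h
    rw [h]
    linear_combination ((1 + zz) * Fv n G (some (some j)) * algebraMap P2 S2 (κ (some j)) * F0) *
      two_S
  have hη2 : ((1 + zz) * F0 * ev1 (bar H')) ^ 2 =
      (1 + zz) ^ 2 * F1 ^ 2 + algebraMap P2 S2 (κ none) ^ 2 * F0 ^ 2 := by
    rw [hη]
    linear_combination ((1 + zz) * F1 * algebraMap P2 S2 (κ none) * F0) * two_S
  -- the sum of squares
  have hsum : ∑ i ∈ Finset.range (n - 1), algebraMap P2 S2 (Ci i) * cf i (bar H') ^ 2 =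
      ∑ j : Fin (n - 1), algebraMap P2 S2 (Ci (j : ℕ)) * cf (j : ℕ) (bar H') ^ 2 :=
    (Fin.sum_univ_eq_sum_range (fun i => algebraMap P2 S2 (Ci i) * cf i (bar H') ^ 2) (n - 1)).symm
  have hsum2 : ((1 + zz) * F0) ^ 2 * (∑ j : Fin (n - 1),
        algebraMap P2 S2 (Ci (j : ℕ)) * cf (j : ℕ) (bar H') ^ 2) =
      (∑ j : Fin (n - 1), (1 + zz) ^ 2 * algebraMap P2 S2 (Ci (j : ℕ)) *
        Fv n G (some (some j)) ^ 2) +
      (∑ j : Fin (n - 1), algebraMap P2 S2 (Ci (j : ℕ)) * algebraMap P2 S2 (κ (some j)) ^ 2) *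
        F0 ^ 2 := by
    rw [Finset.mul_sum, Finset.sum_mul, ← Finset.sum_add_distrib]
    refine Finset.sum_congr rfl fun j _ => ?_
    linear_combination (algebraMap P2 S2 (Ci (j : ℕ))) * hHi j
  have hcs : ∑ i : Option (Fi n), algebraMap P2 S2 (cs i) * Fv n G i ^ 2 =
      ∑ j : Fin (n - 1), (1 + zz) ^ 2 * algebraMap P2 S2 (Ci (j : ℕ)) *
        Fv n G (some (some j)) ^ 2 := by
    rw [Fintype.sum_option, Fintype.sum_option]
    simp only [cs, map_zero, zero_mul, zero_add, map_mul, map_pow, haX]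
  rw [hcs]
  simp only [map_add, map_mul, map_pow, map_sum, alg_X, map_one]
  rw [hsum] at hrel
  linear_combination ((1 + zz) * F0) ^ 2 * hrel +
    (algebraMap P2 S2 B) * ((1 + zz) * F0) * hη + (algebraMap P2 S2 C₂) * hη2 + hsum2
end Pool.Agent.Lib.MPba1bba.TM
end

section
/-!
# Module FRB: Frobenius powers
-/
set_option autoImplicit false

namespace Pool.Agent.Lib.MPba1bba.TM

open Polynomial TR

namespace FRBAux

theorem ps_two {R : Type} [CommRing R] (h2 : (2 : R) = 0) : (2 : PowerSeries R) = 0 := by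
  have e : (2 : PowerSeries R) = PowerSeries.C (2 : R) := by rw [map_ofNat]
  rw [e, h2, map_zero]

/-- The coefficients of a square in characteristic `2`. -/
theorem coeff_sq {R : Type} [CommRing R] (h2 : (2 : R) = 0) (n : ℕ) : ∀ f : PowerSeries R,
    PowerSeries.coeff n (f ^ 2) = if Even n then (PowerSeries.coeff (n / 2) f) ^ 2 else 0 := by
  induction n using Nat.strong_induction_on with
  | _ n ih =>
    intro f
    have hf := PowerSeries.eq_X_mul_shift_add_const f
    set g : PowerSeries R := PowerSeries.mk fun i => PowerSeries.coeff (i + 1) f with hg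
    set a := PowerSeries.constantCoeff f with ha
    have h1 : f ^ 2 = PowerSeries.X ^ 2 * g ^ 2 + PowerSeries.C (a ^ 2) := by
      rw [map_pow]
      conv_lhs => rw [hf]
      linear_combination (PowerSeries.X * g * PowerSeries.C a) * ps_two h2
    rw [h1, map_add, PowerSeries.coeff_X_pow_mul', PowerSeries.coeff_C]
    rcases n with _ | _ | n
    · simp [ha]
    · simp
    · rw [if_pos (by omega), if_neg (by omega), add_zero, show n + 1 + 1 - 2 = n by omega,
        ih n (by omega) g]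
      have h3 : Even (n + 1 + 1) ↔ Even n := by
        rw [show n + 1 + 1 = n + 2 by omega, Nat.even_add]
        simp
      simp only [h3]
      split_ifs
      · rw [hg, PowerSeries.coeff_mk, show (n + 1 + 1) / 2 = n / 2 + 1 by omega]
      · rfl

/-- The coefficient of `y^(2l)` of `h₀² + a h₁²`. -/
theorem coeff_even {R : Type} [CommRing R] (h2 : (2 : R) = 0) (a : R) (f g : PowerSeries R) (l : ℕ) :
    PowerSeries.coeff (2 * l) (f ^ 2 + PowerSeries.C a * g ^ 2) =
      (PowerSeries.coeff l f) ^ 2 + a * (PowerSeries.coeff l g) ^ 2 := by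
  rw [map_add, PowerSeries.coeff_C_mul, coeff_sq h2, coeff_sq h2, if_pos (even_two_mul l),
    if_pos (even_two_mul l), Nat.mul_div_cancel_left _ two_pos]

/-- Every series is `c'² + z c''²`. -/
theorem split (c : S2) : ∃ c' c'' : S2, c = c' ^ 2 + zz * c'' ^ 2 := by
  refine ⟨PowerSeries.mk fun k => PowerSeries.coeff (2 * k) c,
    PowerSeries.mk fun k => PowerSeries.coeff (2 * k + 1) c, ?_⟩
  ext1 n
  rw [map_add, INM.coeff_sq]
  rcases n with _ | n
  · simp
  · rw [PowerSeries.coeff_succ_X_mul, INM.coeff_sq]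
    by_cases hn : Even n
    · have h1 : ¬ Even (n + 1) := by rw [Nat.even_add_one]; exact fun h => h hn
      rw [if_neg h1, if_pos hn, zero_add, PowerSeries.coeff_mk,
        Nat.two_mul_div_two_of_even hn]
    · have h1 : Even (n + 1) := by rw [Nat.even_add_one]; exact hn
      rw [if_pos h1, if_neg hn, add_zero, PowerSeries.coeff_mk,
        Nat.two_mul_div_two_of_even h1]

/-- `x² + z y² = 0` only for `x = y = 0`. -/
theorem unsplit (x y : S2) (h : x ^ 2 + zz * y ^ 2 = 0) : x = 0 ∧ y = 0 := by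
  constructor
  · ext1 k
    have h1 := congrArg (PowerSeries.coeff (2 * k)) h
    rw [map_add, INM.coeff_sq, if_pos (even_two_mul k), Nat.mul_div_cancel_left _ two_pos,
      map_zero] at h1
    rcases k with _ | k
    · simpa using h1
    · rw [show 2 * (k + 1) = (2 * k + 1) + 1 by ring, PowerSeries.coeff_succ_X_mul, INM.coeff_sq,
        if_neg (by rw [Nat.even_add_one]; exact fun h => h (even_two_mul k)), add_zero] at h1
      rw [h1, map_zero]
  · ext1 k
    have h1 := congrArg (PowerSeries.coeff (2 * k + 1)) h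
    rw [map_add, INM.coeff_sq, if_neg (by rw [Nat.even_add_one]; exact fun h => h (even_two_mul k)),
      PowerSeries.coeff_succ_X_mul, INM.coeff_sq, if_pos (even_two_mul k),
      Nat.mul_div_cancel_left _ two_pos, map_zero, zero_add] at h1
    rw [h1, map_zero]

/-- A series with finitely many coefficients is a polynomial. -/
theorem eq_trunc {R : Type} [CommRing R] (f : PowerSeries R) (M : ℕ)
    (h : ∀ l, M < l → PowerSeries.coeff l f = 0) : f = (PowerSeries.trunc (M + 1) f : Polynomial R) := by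
  ext1 l
  rw [Polynomial.coeff_coe, PowerSeries.coeff_trunc]
  split_ifs with hl
  · rfl
  · exact h l (by omega)

end FRBAux

open FRBAux

/-- Module FRB. -/
theorem specFRB : SpecFRB := by
  intro ι _ g hg r
  induction r with
  | zero =>
    intro c D N hD h
    refine hg c D N hD ?_
    simpa using h
  | succ r ih =>
    intro c D N hD h
    have h2 : (2 : S2) = 0 := INM.two_zero
    have := MAM.charP_S2
    have : Fact (Nat.Prime 2) := ⟨Nat.prime_two⟩
    have : CharP (PowerSeries S2) 2 :=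
      charP_of_injective_ringHom (PowerSeries.C_injective (R := S2)) 2
    choose c' c'' hc using fun i => split (c i)
    set h₀ : PowerSeries S2 := (D : PowerSeries S2) * ∑ i, PowerSeries.C (c' i) * g i ^ 2 ^ r with hh0
    set h₁ : PowerSeries S2 := (D : PowerSeries S2) * ∑ i, PowerSeries.C (c'' i) * g i ^ 2 ^ r with hh1
    have key : h₀ ^ 2 + PowerSeries.C (zz : S2) * h₁ ^ 2 = ((D * N : Polynomial S2) : PowerSeries S2) := by
      rw [Polynomial.coe_mul, ← h, hh0, hh1, mul_pow, mul_pow, sum_pow_char 2, sum_pow_char 2]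
      have e : ∑ i, PowerSeries.C (c i) * g i ^ 2 ^ (r + 1) =
          ∑ i, (PowerSeries.C (c' i) * g i ^ 2 ^ r) ^ 2 +
          PowerSeries.C (zz : S2) * ∑ i, (PowerSeries.C (c'' i) * g i ^ 2 ^ r) ^ 2 := by
        rw [Finset.mul_sum, ← Finset.sum_add_distrib]
        refine Finset.sum_congr rfl fun i _ => ?_
        rw [hc i, map_add, map_mul, map_pow, map_pow, pow_succ 2 r, pow_mul]
        ring
      rw [e]
      ring
    have hz : ∀ l, (D * N).natDegree < l → PowerSeries.coeff l h₀ = 0 ∧ PowerSeries.coeff l h₁ = 0 := by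
      intro l hl
      refine unsplit _ _ ?_
      rw [← coeff_even h2, key, Polynomial.coeff_coe]
      exact Polynomial.coeff_eq_zero_of_natDegree_lt (by omega)
    have e0 := ih c' D _ hD (eq_trunc h₀ _ fun l hl => (hz l hl).1)
    have e1 := ih c'' D _ hD (eq_trunc h₁ _ fun l hl => (hz l hl).2)
    intro i
    rw [hc i, e0 i, e1 i]
    ring

end Pool.Agent.Lib.MPba1bba.TM
end
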