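import Pool.Agent.Lib.MP_ba1bba_al.TM.Spec

/-!
# Module HGM: the values `F_i`; the residue of a dual sequence is `0`
-/

namespace Pool.Agent.Lib.MPba1bba.TM

open Polynomial TR

namespace HGMAux

instance charS2 : CharP S2 2 :=
  charP_of_injective_ringHom (f := (PowerSeries.C : ZMod 2 →+* S2)) PowerSeries.C_injective 2

theorem alg_X : algebraMap P2 S2 X = zz := by
  simp [PowerSeries.algebraMap_apply']

/-- Evaluation of a polynomial. -/
theorem ev_poly (hE : SpecEC) {N : ℕ} (hN : 1 ≤ N) (p : Polynomial S2) :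
    ev N (p : PowerSeries S2) = p.eval (zz ^ N) := by
  obtain ⟨h1, hC, hX, -, -⟩ := hE.1 N hN
  have hpow : ∀ k : ℕ, ev N ((PowerSeries.X : PowerSeries S2) ^ k) = (zz ^ N) ^ k := by
    intro k
    induction k with
    | zero =>
      rw [pow_zero, pow_zero]
      have := hC (1 : S2)
      rwa [map_one] at this
    | succ k ih => rw [pow_succ, pow_succ, (h1 _ _).2, ih, hX]
  induction p using Polynomial.induction_on' with
  | add p q hp hq => rw [Polynomial.coe_add, (h1 _ _).1, hp, hq, Polynomial.eval_add]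
  | monomial k a =>
    rw [← Polynomial.C_mul_X_pow_eq_monomial, Polynomial.coe_mul, Polynomial.coe_C,
      Polynomial.coe_pow, Polynomial.coe_X, (h1 _ _).2, hC, hpow, Polynomial.eval_mul,
      Polynomial.eval_C, Polynomial.eval_pow, Polynomial.eval_X]

/-- Divisibility by all powers of `z`. -/
theorem eq_zero_of_dvd (f : S2) (h : ∀ K : ℕ, zz ^ K ∣ f) : f = 0 := by
  ext K
  have := (PowerSeries.X_pow_dvd_iff.1 (h (K + 1))) K (by omega)
  rw [this, map_zero]

theorem exists_C_mul (c : S2) (F : PowerSeries S2) (h : ∀ i, c ∣ PowerSeries.coeff i F) :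
    ∃ F' : PowerSeries S2, F = PowerSeries.C c * F' := by
  choose g hg using h
  refine ⟨PowerSeries.mk g, ?_⟩
  ext1 i
  rw [PowerSeries.coeff_C_mul, PowerSeries.coeff_mk, hg i]

/-- A solution which converges at `y = 1` has residue `0`. -/
theorem res_zero (hS : SpecSGM) (hE : SpecEC) {n : ℕ} (hn : 1 ≤ n) (x : PowerSeries S2)
    (β : Polynomial S2) (hx : SolS n β x)
    (hc : ∀ K i : ℕ, K ≤ i → zz ^ K ∣ PowerSeries.coeff i x) : Res n x β = 0 := by
  have hce : 1 ≤ ce n := by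
    unfold ce
    have h1 : 1 ≤ 2 * n + 3 := by omega
    have h2 : 1 ≤ 2 * n - 1 := by omega
    exact Nat.mul_le_mul h1 h2
  obtain ⟨φ, hφ, hφC, hφX, hφp⟩ := (hS n hn).1 S2 ((zz : S2) ^ ce n)
  obtain ⟨h1, hC, hX, -, -⟩ := hE.1 (ce n) hce
  refine eq_zero_of_dvd _ fun K => ?_
  -- truncation
  set xK : Polynomial S2 := PowerSeries.trunc K x with hxK
  obtain ⟨x', hx'⟩ := exists_C_mul ((zz : S2) ^ K) (x - (xK : PowerSeries S2)) (by
    intro i
    rw [map_sub, Polynomial.coeff_coe, hxK, PowerSeries.coeff_trunc]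
    split_ifs with hi
    · rw [sub_self]; exact dvd_zero _
    · rw [sub_zero]; exact hc K i (by omega))
  have ex : x = (xK : PowerSeries S2) + PowerSeries.C ((zz : S2) ^ K) * x' := by
    rw [← hx']; ring
  -- the polynomial
  set P : Polynomial S2 := (1 + X) * xK - (pS (th n) * xK.comp (C ((zz : S2) ^ ce n) * X ^ (2 * n))
    + β) with hP
  have hPc : (P : PowerSeries S2) = PowerSeries.C ((zz : S2) ^ K) *
      ((pS (th n) : PowerSeries S2) * sg n ((zz : S2) ^ ce n) x' - (1 + PowerSeries.X) * x') := by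
    have h2 : (1 + PowerSeries.X) * x =
      (pS (th n) : PowerSeries S2) * sg n ((zz : S2) ^ ce n) x + (β : PowerSeries S2) := hx
    rw [← hφ, ex, map_add, map_mul, hφ, hφ, hφ, hφC, hφp] at h2
    rw [hP, Polynomial.coe_sub, Polynomial.coe_mul, Polynomial.coe_add, Polynomial.coe_add,
      Polynomial.coe_one, Polynomial.coe_X, Polynomial.coe_mul]
    linear_combination h2
  have hPd : Polynomial.C ((zz : S2) ^ K) ∣ P := by
    rw [Polynomial.C_dvd_iff_dvd_coeff]
    intro i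
    rw [← Polynomial.coeff_coe, hPc, PowerSeries.coeff_C_mul]
    exact dvd_mul_right _ _
  have hPe : (zz : S2) ^ K ∣ P.eval 1 := by
    obtain ⟨P', hP'⟩ := hPd
    rw [hP', Polynomial.eval_mul, Polynomial.eval_C]
    exact dvd_mul_right _ _
  have hP1 : P.eval 1 = -((pS (th n)).eval 1 * xK.eval ((zz : S2) ^ ce n) + β.eval 1) := by
    rw [hP]
    simp only [Polynomial.eval_sub, Polynomial.eval_mul, Polynomial.eval_add, Polynomial.eval_one,
      Polynomial.eval_X, Polynomial.eval_comp, Polynomial.eval_C, Polynomial.eval_pow, one_pow,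
      mul_one]
    rw [CharTwo.add_self_eq_zero (1 : S2)]
    ring
  have hR : Res n x β = -P.eval 1 + zz ^ K * ((pS (th n)).eval 1 * ev (ce n) x') := by
    unfold Res
    rw [hP1, ex, (h1 _ _).1, (h1 _ _).2, hC, ev_poly hE hce]
    ring
  rw [hR]
  exact dvd_add ((dvd_neg).2 hPe) (dvd_mul_right _ _)

theorem pS_mo (k l : ℕ) : (pS (mo k l)).eval 1 = zz ^ k := by
  unfold pS mo
  rw [Polynomial.map_mul, Polynomial.map_C, Polynomial.map_pow, Polynomial.map_X, map_pow, alg_X]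
  simp

theorem pS_add (p q : Polynomial P2) : (pS (p + q)).eval 1 = (pS p).eval 1 + (pS q).eval 1 := by
  unfold pS
  rw [Polynomial.map_add, Polynomial.eval_add]

theorem pS_mul (p q : Polynomial P2) : (pS (p * q)).eval 1 = (pS p).eval 1 * (pS q).eval 1 := by
  unfold pS
  rw [Polynomial.map_mul, Polynomial.eval_mul]

theorem pS_one : (pS 1).eval 1 = 1 := by
  unfold pS
  rw [Polynomial.map_one, Polynomial.eval_one]

theorem pS_sum (s : Finset ℕ) (p : ℕ → Polynomial P2) :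
    (pS (∑ i ∈ s, p i)).eval 1 = ∑ i ∈ s, (pS (p i)).eval 1 := by
  unfold pS
  rw [Polynomial.map_sum, Polynomial.eval_finset_sum]

theorem geo {n : ℕ} (hn : 1 ≤ n) (a : ℕ) (ha : 1 ≤ a) :
    ∃ t : S2, ∑ i ∈ Finset.range n, (zz : S2) ^ (a * i) = 1 + zz ^ a * t := by
  obtain ⟨m, rfl⟩ : ∃ m, n = m + 1 := ⟨n - 1, by omega⟩
  rw [Finset.sum_range_succ']
  refine ⟨∑ i ∈ Finset.range m, zz ^ (a * i), ?_⟩
  rw [Finset.mul_sum, mul_zero, pow_zero, add_comm]
  congr 1
  refine Finset.sum_congr rfl fun i _ => ?_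
  rw [← pow_add]
  congr 1
  ring

theorem th_dvd {n : ℕ} (hn : 1 ≤ n) : (zz : S2) ^ 2 ∣ (pS (th n)).eval 1 := by
  have e : (2 * n + 3) * n = ((2 * n + 3) * n - 1) + 1 := by
    have : 1 ≤ (2 * n + 3) * n := Nat.mul_le_mul (by omega : 1 ≤ 2 * n + 3) hn
    omega
  unfold th YY
  rw [pS_mul, pS_mul, pS_mul, pS_add, pS_mo, pS_mo, pS_mo, e]
  refine Dvd.dvd.mul_right (Dvd.dvd.mul_right ?_ _) _
  rw [sq (zz : S2)]
  refine mul_dvd_mul ?_ ?_
  · rw [pow_add, pow_one]; exact dvd_mul_right _ _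
  · rw [pow_succ, pow_one]
    exact dvd_add (dvd_mul_left _ _) (dvd_refl _)

theorem bphi_val {n : ℕ} (hn : 1 ≤ n) : ∃ t : S2, (pS (bphi n)).eval 1 = zz * (1 + zz * t) := by
  have e : (2 * n + 3) * n = ((2 * n + 3) * n - 1) + 1 := by
    have : 1 ≤ (2 * n + 3) * n := Nat.mul_le_mul (by omega : 1 ≤ 2 * n + 3) hn
    omega
  obtain ⟨t₁, h₁⟩ := geo hn (2 * n + 3) (by omega)
  obtain ⟨t₂, h₂⟩ := geo hn (2 * n + 1) (by omega)
  have hEn : (pS (En n)).eval 1 = 1 + zz ^ (2 * n + 3) * t₁ := by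
    unfold En
    rw [pS_sum, ← h₁]
    exact Finset.sum_congr rfl fun i _ => pS_mo _ _
  have hTn : (pS (Tn n)).eval 1 = 1 + zz ^ (2 * n + 1) * t₂ := by
    unfold Tn
    rw [pS_sum, ← h₂]
    exact Finset.sum_congr rfl fun i _ => pS_mo _ _
  refine ⟨zz ^ ((2 * n + 3) * n - 1) + (1 + zz ^ ((2 * n + 3) * n)) * zz ^ (2 * n + 2) * t₁ +
    zz ^ (2 * n - 1) * t₂, ?_⟩
  unfold bphi YY
  rw [pS_add, pS_add, pS_mul, pS_mul, pS_add, pS_one, pS_mo, pS_mo, hEn, hTn]
  have e1 : (zz : S2) ^ ((2 * n + 3) * n) = zz * zz ^ ((2 * n + 3) * n - 1) := by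
    rw [← pow_succ', ← e]
  have e2 : (zz : S2) ^ (2 * n + 3) = zz * zz ^ (2 * n + 2) := by rw [← pow_succ']
  have e3 : (zz : S2) ^ (2 * n + 1) = zz * (zz * zz ^ (2 * n - 1)) := by
    rw [← pow_succ', ← pow_succ']
    congr 1
    omega
  rw [e1, e2, e3]
  have h2 : (1 : S2) + 1 = 0 := CharTwo.add_self_eq_zero 1
  linear_combination h2

end HGMAux

open HGMAux in
theorem specHGM (hS : SpecSGM) (hD : SpecDHM) (hE : SpecEC) : SpecHGM := by
  intro n hn G hG
  have hce : 1 ≤ ce n := by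
    unfold ce
    have h1 : 1 ≤ 2 * n + 3 := by omega
    have h2 : 1 ≤ 2 * n - 1 := by omega
    exact Nat.mul_le_mul h1 h2
  obtain ⟨h1, hC, hX, -, -⟩ := hE.1 (ce n) hce
  obtain ⟨hS1, -, -, -, -, hS6, hS7⟩ := hS n hn
  constructor
  · obtain ⟨u, hu⟩ := th_dvd hn
    obtain ⟨t, ht⟩ := bphi_val hn
    refine ⟨u * ev (ce n) (toS (G none)) + t, ?_⟩
    change (pS (th n)).eval 1 * ev (ce n) (toS (G none)) + (pS (bphi n)).eval 1 = _
    rw [hu, ht]
    ring
  · intro f δ hδ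
    have hx := (hD n hn f δ hδ).1
    obtain ⟨φ, hφ, hφC, hφX, hφp⟩ := hS1 S2 ((zz : S2) ^ ce n)
    have hfn : SolS n (pS (bphi n)) (toS (G none)) := hS7 _ _ (hG none)
    have hfs : SolS n (pS (bpsi n f)) (toS (G (some f))) := hS7 _ _ (hG (some f))
    have e : PowerSeries.C (1 + zz) * Dh n δ =
        toS (G (some f)) + PowerSeries.C ((1 + zz) * δ 0) * toS (G none) := by
      refine hS6 _ _ _ hx ?_
      unfold SolS at hfn hfs ⊢
      rw [← hφ] at hfn hfs ⊢
      have ea : φ (toS (G (some f)) + PowerSeries.C ((1 + zz) * δ 0) * toS (G none)) =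
          φ (toS (G (some f))) + PowerSeries.C ((1 + zz) * δ 0) * φ (toS (G none)) := by
        rw [φ.map_add, φ.map_mul, hφ (PowerSeries.C _), hφC]
      rw [ea, Polynomial.coe_add, Polynomial.coe_mul, Polynomial.coe_C]
      linear_combination hfs + PowerSeries.C ((1 + zz) * δ 0) * hfn
    have hr : Res n (PowerSeries.C (1 + zz) * Dh n δ)
        (pS (bpsi n f) + Polynomial.C ((1 + zz) * δ 0) * pS (bphi n)) = 0 := by
      refine res_zero hS hE hn _ _ hx fun K i hi => ?_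
      rw [PowerSeries.coeff_C_mul]
      refine Dvd.dvd.mul_left ?_ _
      unfold Dh
      rw [PowerSeries.coeff_mk]
      refine Dvd.dvd.mul_right (pow_dvd_pow _ ?_) _
      calc K ≤ i := hi
        _ ≤ 1 * (i + 1) := by omega
        _ ≤ (2 * n + 3) * (i + 1) := Nat.mul_le_mul_right _ (by omega)
    refine ⟨e, ?_, hr⟩
    rw [← hr, e]
    unfold Fv Res
    rw [(h1 _ _).1, (h1 _ _).2, hC, Polynomial.eval_add, Polynomial.eval_mul, Polynomial.eval_C]
    change (pS (th n)).eval 1 * ev (ce n) (toS (G (some f))) + (pS (bpsi n f)).eval 1 + _ * _ *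
      ((pS (th n)).eval 1 * ev (ce n) (toS (G none)) + (pS (bphi n)).eval 1) = _
    ring

end Pool.Agent.Lib.MPba1bba.TM
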