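import Pool.Agent.Lib.MP_ba1bba_al.TM.Spec
import Pool.Agent.Lib.MP_ba1bba_al.TR.KA

/-!
# MP_ba1bba_al, TM, module KAM: the summation series modulo 4
-/

set_option autoImplicit false

namespace Pool.Agent.Lib.MPba1bba.TM

open Polynomial TR

namespace KAMAux

open TR.KAM

section Gen

variable {R : Type} [CommRing R]

theorem coeff_mon (n c w : ℕ) : PowerSeries.coeff n (zz ^ c * uu ^ w : PowerSeries R[X]) =
    if n = c then X ^ w else 0 := by
  have e : (uu ^ w : PowerSeries R[X]) = PowerSeries.C (X ^ w) := by rw [uu, ← map_pow]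
  rw [e, PowerSeries.coeff_X_pow_mul', PowerSeries.coeff_C]
  by_cases h : n = c
  · rw [if_pos h, if_pos (by omega), if_pos (by omega)]
  · rw [if_neg h]
    split_ifs with h1 h2
    · omega
    · rfl
    · rfl

theorem ev1_mon (c w : ℕ) : ev1 (zz ^ c * uu ^ w : PowerSeries R[X]) = zz ^ c := by
  ext n
  rw [ev1, PowerSeries.coeff_mk, coeff_mon, PowerSeries.coeff_X_pow]
  split_ifs
  · simp
  · simp

theorem dv1_mon (c w : ℕ) : dv1 (zz ^ c * uu ^ w : PowerSeries R[X]) =
    (w : PowerSeries R) * zz ^ c := by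
  ext n
  have e : ((w : PowerSeries R) * zz ^ c) = PowerSeries.C (w : R) * zz ^ c := by simp
  rw [dv1, PowerSeries.coeff_mk, coeff_mon, e, PowerSeries.coeff_C_mul, PowerSeries.coeff_X_pow]
  split_ifs
  · rw [derivative_X_pow, eval_mul, eval_pow, eval_X, one_pow, mul_one, mul_one, eval_C]
  · simp

theorem ev1_sum {ι : Type} (s : Finset ι) (F : ι → PowerSeries R[X]) :
    ev1 (∑ i ∈ s, F i) = ∑ i ∈ s, ev1 (F i) := by
  ext n
  rw [ev1, PowerSeries.coeff_mk, map_sum, map_sum, eval_finsetSum]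
  refine Finset.sum_congr rfl fun i _ => ?_
  rw [ev1, PowerSeries.coeff_mk]

theorem dv1_sum {ι : Type} (s : Finset ι) (F : ι → PowerSeries R[X]) :
    dv1 (∑ i ∈ s, F i) = ∑ i ∈ s, dv1 (F i) := by
  ext n
  rw [dv1, PowerSeries.coeff_mk, map_sum, map_sum, map_sum, eval_finsetSum]
  refine Finset.sum_congr rfl fun i _ => ?_
  rw [dv1, PowerSeries.coeff_mk]

theorem uu_pow (v : ℕ) : (uu ^ v : PowerSeries R[X]) = zz ^ 0 * uu ^ v := by
  rw [pow_zero, one_mul]

theorem cf_mon (v c w : ℕ) : cf v (zz ^ c * uu ^ w : PowerSeries R[X]) =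
    if v = w then zz ^ c else 0 := by
  ext n
  rw [cf, PowerSeries.coeff_mk, coeff_mon]
  by_cases h : v = w
  · rw [if_pos h, PowerSeries.coeff_X_pow]
    split_ifs
    · rw [coeff_X_pow, if_pos h]
    · simp
  · rw [if_neg h]
    split_ifs
    · rw [coeff_X_pow, if_neg h, map_zero]
    · simp

/-- the identity for the residues -/
theorem key (hE : SpecEVM) (m : ℕ) (hm : 1 ≤ m) (v : ℕ) :
    ∑ r ∈ Finset.range m, (zz ^ cc m v r : PowerSeries R) * ((ww m v r : PowerSeries R) + 1) =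
      (v : PowerSeries R) + 1 + 2 * ch R m v := by
  obtain ⟨-, -, -, h4, h5⟩ := hE R m hm
  have h := h5 (uu ^ v)
  rw [h4, im, ev1_sum, dv1_sum] at h
  simp only [ev1_mon, dv1_mon] at h
  rw [uu_pow, ev1_mon, dv1_mon, pow_zero, mul_one] at h
  have h6 : ∑ w ∈ Finset.range m, ch R m w * cf w (zz ^ 0 * uu ^ v : PowerSeries R[X]) =
      ch R m v := by
    have h7 : ∀ w, ch R m w * cf w (zz ^ 0 * uu ^ v : PowerSeries R[X]) =
        if w = v then ch R m w else 0 := by
      intro w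
      rw [cf_mon, pow_zero, mul_ite, mul_one, mul_zero]
    rw [Finset.sum_congr rfl fun w _ => h7 w, Finset.sum_ite_eq']
    split_ifs with h8
    · rfl
    · have : (m - v) / 2 = 0 := by
        have := mt Finset.mem_range.2 h8
        omega
      rw [ch, this, Finset.sum_range_zero]
  rw [h6, ← Finset.sum_add_distrib] at h
  have h9 : ∑ r ∈ Finset.range m, (zz ^ cc m v r : PowerSeries R) *
      ((ww m v r : PowerSeries R) + 1) = ∑ r ∈ Finset.range m,
        ((zz ^ cc m v r : PowerSeries R) + (ww m v r : PowerSeries R) * zz ^ cc m v r) :=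
    Finset.sum_congr rfl fun r _ => by ring
  rw [h9, h]
  ring

end Gen

/-! ### the series `T_v` -/

/-- `ρ_v` -/
noncomputable def rho (m v : ℕ) : PowerSeries ℤ :=
  zz ^ 2 * ch ℤ m v + zz ^ 2 - zz ^ (2 * xx m v + 2)

/-- `T_v` -/
noncomputable def T (P : ℕ → PowerSeries ℤ) (v : ℕ) : PowerSeries ℤ := P v - ((v : PowerSeries ℤ) + 1)

theorem T_rec (hE : SpecEVM) {m : ℕ} (hm : 1 ≤ m) {P : ℕ → PowerSeries ℤ} (hP : RecPM m P) (v : ℕ) :
    T P v = zz ^ 2 * (∑ r ∈ Finset.range m, zz ^ cc m v r * T P (ww m v r)) + 2 * rho m v := by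
  have h1 := key (R := ℤ) hE m hm v
  have h2 := hP v
  have h3 : ∑ r ∈ Finset.range m, zz ^ cc m v r * T P (ww m v r) =
      ∑ r ∈ Finset.range m, zz ^ cc m v r * P (ww m v r) -
        ∑ r ∈ Finset.range m, (zz ^ cc m v r : PowerSeries ℤ) *
          ((ww m v r : PowerSeries ℤ) + 1) := by
    rw [← Finset.sum_sub_distrib]
    refine Finset.sum_congr rfl fun r _ => ?_
    rw [T]
    ring
  rw [h3, h1, T, rho]
  linear_combination h2

theorem coeff_two (n : ℕ) (f : PowerSeries ℤ) :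
    PowerSeries.coeff n (2 * f) = 2 * PowerSeries.coeff n f := by
  have e : (2 * f : PowerSeries ℤ) = PowerSeries.C (2 : ℤ) * f := by rw [map_ofNat]
  rw [e, PowerSeries.coeff_C_mul]

theorem T_coeff (hE : SpecEVM) {m : ℕ} (hm : 1 ≤ m) {P : ℕ → PowerSeries ℤ} (hP : RecPM m P)
    (n : ℕ) : ∀ v : ℕ, (2 : ℤ) ∣ PowerSeries.coeff n (T P v) := by
  induction n using Nat.strong_induction_on with
  | _ n ih =>
    intro v
    rw [T_rec hE hm hP v, map_add, coeff_two, coeff_z2]
    refine dvd_add ?_ (dvd_mul_right _ _)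
    split_ifs with h
    · rw [map_sum]
      refine Finset.dvd_sum fun r _ => ?_
      rw [coeff_z2]
      split_ifs with h'
      · exact ih _ (by omega) _
      · exact dvd_zero _
    · exact dvd_zero _

/-- `κ_v` -/
noncomputable def ka (P : ℕ → PowerSeries ℤ) (v : ℕ) : PowerSeries ℤ :=
  PowerSeries.mk fun n => PowerSeries.coeff n (T P v) / 2

theorem T_eq (hE : SpecEVM) {m : ℕ} (hm : 1 ≤ m) {P : ℕ → PowerSeries ℤ} (hP : RecPM m P) (v : ℕ) :
    T P v = 2 * ka P v := by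
  ext n
  rw [coeff_two, ka, PowerSeries.coeff_mk]
  have := T_coeff hE hm hP n v
  omega

theorem ka_rec (hE : SpecEVM) {m : ℕ} (hm : 1 ≤ m) {P : ℕ → PowerSeries ℤ} (hP : RecPM m P) (v : ℕ) :
    ka P v = zz ^ 2 * (∑ r ∈ Finset.range m, zz ^ cc m v r * ka P (ww m v r)) + rho m v := by
  have h := T_rec hE hm hP v
  have h2 : (2 : PowerSeries ℤ) ≠ 0 := by
    intro h
    have := congrArg (PowerSeries.coeff 0) h
    have e : (2 : PowerSeries ℤ) = PowerSeries.C (2 : ℤ) := by rw [map_ofNat]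
    rw [e, PowerSeries.coeff_zero_C, map_zero] at this
    omega
  refine mul_left_cancel₀ h2 ?_
  rw [← T_eq hE hm hP v, h, mul_add]
  congr 1
  have h3 : ∑ r ∈ Finset.range m, zz ^ cc m v r * T P (ww m v r) =
      2 * ∑ r ∈ Finset.range m, zz ^ cc m v r * ka P (ww m v r) := by
    rw [Finset.mul_sum]
    refine Finset.sum_congr rfl fun r _ => ?_
    rw [T_eq hE hm hP]
    ring
  rw [h3]
  ring

theorem P_eq (hE : SpecEVM) {m : ℕ} (hm : 1 ≤ m) {P : ℕ → PowerSeries ℤ} (hP : RecPM m P) (v : ℕ) :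
    P v = ((v : PowerSeries ℤ) + 1) + 2 * ka P v := by
  have h := T_eq hE hm hP v
  rw [T] at h
  linear_combination h

/-! ### modulo 2 -/

/-- `∑ F_v κ_v` over `𝔽₂` -/
noncomputable def ps (κ : ℕ → S2) (F : PowerSeries (ZMod 2)[X]) : S2 :=
  PowerSeries.mk fun n => ∑ ij ∈ Finset.HasAntidiagonal.antidiagonal n,
    (PowerSeries.coeff ij.1 F).sum fun v a => a * PowerSeries.coeff ij.2 (κ v)

theorem sum_eq (p : (ZMod 2)[X]) (g : ℕ → ZMod 2) (N : ℕ) (hN : p.natDegree < N) :
    (p.sum fun v a => a * g v) = ∑ v ∈ Finset.range N, p.coeff v * g v :=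
  Polynomial.sum_over_range' p (f := fun v a => a * g v) (fun v => zero_mul _) N hN

theorem ps_add (κ : ℕ → S2) (F G : PowerSeries (ZMod 2)[X]) :
    ps κ (F + G) = ps κ F + ps κ G := by
  ext n
  rw [map_add, ps, ps, ps, PowerSeries.coeff_mk, PowerSeries.coeff_mk, PowerSeries.coeff_mk,
    ← Finset.sum_add_distrib]
  refine Finset.sum_congr rfl fun ij _ => ?_
  rw [map_add]
  exact Polynomial.sum_add_index _ _ _ (fun v => zero_mul _) fun v a b => add_mul _ _ _

theorem ps_zero (κ : ℕ → S2) : ps κ 0 = 0 := by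
  ext n
  rw [ps, PowerSeries.coeff_mk]
  simp

theorem ps_sum (κ : ℕ → S2) {ι : Type} (s : Finset ι) (F : ι → PowerSeries (ZMod 2)[X]) :
    ps κ (∑ i ∈ s, F i) = ∑ i ∈ s, ps κ (F i) := by
  classical
  induction s using Finset.induction_on with
  | empty => rw [Finset.sum_empty, Finset.sum_empty, ps_zero]
  | insert a s ha ih => rw [Finset.sum_insert ha, Finset.sum_insert ha, ps_add, ih]

theorem ps_mon (κ : ℕ → S2) (c w : ℕ) : ps κ (zz ^ c * uu ^ w) = zz ^ c * κ w := by
  ext n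
  rw [ps, PowerSeries.coeff_mk, PowerSeries.coeff_X_pow_mul']
  have h : ∀ ij : ℕ × ℕ, ((PowerSeries.coeff ij.1 (zz ^ c * uu ^ w : PowerSeries (ZMod 2)[X])).sum
      fun v a => a * PowerSeries.coeff ij.2 (κ v)) =
      if ij.1 = c then PowerSeries.coeff ij.2 (κ w) else 0 := by
    intro ij
    rw [coeff_mon]
    split_ifs
    · rw [← monomial_one_right_eq_X_pow]
      exact (Polynomial.sum_monomial_index (n := w) (1 : ZMod 2)
        (fun (v : ℕ) (a : ZMod 2) => a * PowerSeries.coeff ij.2 (κ v))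
        (zero_mul _)).trans (one_mul _)
    · rw [Polynomial.sum_zero_index]
  rw [Finset.sum_congr rfl fun ij _ => h ij,
    Finset.Nat.sum_antidiagonal_eq_sum_range_succ_mk, Finset.sum_ite_eq']
  by_cases hc : c ≤ n
  · rw [if_pos (Finset.mem_range.2 (by omega)), if_pos hc]
  · rw [if_neg (fun h => hc (by have := Finset.mem_range.1 h; omega)), if_neg hc]

theorem ps_im (κ : ℕ → S2) (m v : ℕ) : ps κ (im (ZMod 2) m v) =
    ∑ r ∈ Finset.range m, zz ^ cc m v r * κ (ww m v r) := by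
  rw [im, ps_sum]
  exact Finset.sum_congr rfl fun r _ => ps_mon κ _ _

theorem ps_add' (κ κ' : ℕ → S2) (F : PowerSeries (ZMod 2)[X]) :
    ps (fun v => κ v + κ' v) F = ps κ F + ps κ' F := by
  ext n
  rw [map_add, ps, ps, ps, PowerSeries.coeff_mk, PowerSeries.coeff_mk, PowerSeries.coeff_mk,
    ← Finset.sum_add_distrib]
  refine Finset.sum_congr rfl fun ij _ => ?_
  rw [Polynomial.sum_def, Polynomial.sum_def, Polynomial.sum_def, ← Finset.sum_add_distrib]
  refine Finset.sum_congr rfl fun v _ => ?_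
  rw [map_add, mul_add]

theorem ps_zero' (F : PowerSeries (ZMod 2)[X]) : ps (fun _ => 0) F = 0 := by
  ext n
  rw [ps, PowerSeries.coeff_mk]
  simp [Polynomial.sum_def]

theorem ps_sum' {ι : Type} (s : Finset ι) (κ : ι → ℕ → S2) (F : PowerSeries (ZMod 2)[X]) :
    ps (fun v => ∑ i ∈ s, κ i v) F = ∑ i ∈ s, ps (κ i) F := by
  classical
  induction s using Finset.induction_on with
  | empty =>
    simp only [Finset.sum_empty]
    exact ps_zero' F
  | insert a s ha ih =>
    simp only [Finset.sum_insert ha]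
    rw [ps_add', ih]

theorem ps_const (A : S2) (F : PowerSeries (ZMod 2)[X]) : ps (fun _ => A) F = A * ev1 F := by
  rw [mul_comm]
  ext n
  rw [ps, PowerSeries.coeff_mk, PowerSeries.coeff_mul]
  refine Finset.sum_congr rfl fun ij _ => ?_
  rw [ev1, PowerSeries.coeff_mk, eval_eq_sum, Polynomial.sum_def, Polynomial.sum_def,
    Finset.sum_mul]
  refine Finset.sum_congr rfl fun v _ => ?_
  rw [one_pow, mul_one]

theorem ps_single (A : S2) (w : ℕ) (F : PowerSeries (ZMod 2)[X]) :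
    ps (fun v => if v = w then A else 0) F = A * cf w F := by
  rw [mul_comm]
  ext n
  rw [ps, PowerSeries.coeff_mk, PowerSeries.coeff_mul]
  refine Finset.sum_congr rfl fun ij _ => ?_
  rw [cf, PowerSeries.coeff_mk, Polynomial.sum_def]
  have h : ∀ v, (PowerSeries.coeff ij.1 F).coeff v *
      PowerSeries.coeff ij.2 (if v = w then A else 0) =
      if v = w then (PowerSeries.coeff ij.1 F).coeff w * PowerSeries.coeff ij.2 A else 0 := by
    intro v
    split_ifs with h
    · rw [h]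
    · rw [map_zero, mul_zero]
  rw [Finset.sum_congr rfl fun v _ => h v, Finset.sum_ite_eq']
  split_ifs with h1
  · rfl
  · rw [notMem_support_iff.1 h1, zero_mul]

theorem ps_odd (κ κ' : ℕ → S2) (G : PowerSeries (ZMod 2)[X]) (hG : OddU G)
    (h : ∀ v, Odd v → κ v = κ' v) : ps κ G = ps κ' G := by
  ext n
  rw [ps, ps, PowerSeries.coeff_mk, PowerSeries.coeff_mk]
  refine Finset.sum_congr rfl fun ij _ => ?_
  rw [Polynomial.sum_def, Polynomial.sum_def]
  refine Finset.sum_congr rfl fun v _ => ?_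
  rcases Nat.even_or_odd v with hv | hv
  · rw [hG _ _ hv, zero_mul, zero_mul]
  · rw [h v hv]

theorem bar0_psi2 (κ : ℕ → PowerSeries ℤ) (F : PowerSeries ℤ[X]) :
    bar0 (psi2 κ F) = ps (fun v => bar0 (κ v)) (bar F) := by
  ext n
  rw [ps, PowerSeries.coeff_mk, bar0, PowerSeries.coeff_map, psi2, PowerSeries.coeff_mk, map_sum]
  refine Finset.sum_congr rfl fun ij _ => ?_
  rw [sum_eq _ _ ((PowerSeries.coeff ij.1 F).natDegree + 1), Polynomial.sum_over_range' _
    (f := fun v a => a * PowerSeries.coeff ij.2 (κ v)) (fun v => zero_mul _)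
    ((PowerSeries.coeff ij.1 F).natDegree + 1) (Nat.lt_succ_self _), map_sum]
  · refine Finset.sum_congr rfl fun v _ => ?_
    rw [map_mul, bar, PowerSeries.coeff_map, coe_mapRingHom, coeff_map, bar0,
      PowerSeries.coeff_map]
  · rw [bar, PowerSeries.coeff_map, coe_mapRingHom]
    exact Nat.lt_succ_of_le natDegree_map_le

theorem two0 : (2 : S2) = 0 := two_zero

theorem add_self (x : S2) : x + x = 0 := by rw [← two_mul, two0, zero_mul]

/-- `ρ_v` modulo `2`, a polynomial -/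
noncomputable def rhoP (m v : ℕ) : P2 :=
  X ^ 2 * (∑ t ∈ Finset.range ((m - v) / 2), X ^ (2 * (t + 1))) + X ^ 2 + X ^ (2 * xx m v + 2)

theorem aX : algebraMap P2 S2 X = zz := Polynomial.coe_X

theorem rhoP_eq (m v : ℕ) : algebraMap P2 S2 (rhoP m v) = bar0 (rho m v) := by
  have hs : bar0 (ch ℤ m v) = ∑ t ∈ Finset.range ((m - v) / 2), (zz ^ (2 * (t + 1)) : S2) := by
    rw [bar0, ch, map_sum]
    refine Finset.sum_congr rfl fun t _ => ?_
    rw [map_pow, PowerSeries.map_X]
  have h : bar0 (rho m v) = bar0 (zz ^ 2) * bar0 (ch ℤ m v) + bar0 (zz ^ 2) -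
      bar0 (zz ^ (2 * xx m v + 2)) := by
    rw [rho, bar0, map_sub, map_add, map_mul]
    rfl
  rw [h, hs, bar0_z, bar0_z, rhoP, map_add, map_add, map_mul, map_pow, map_pow, map_sum, aX]
  simp only [map_pow, aX]
  linear_combination (zz ^ (2 * xx m v + 2) : S2) * two0

theorem kb_rec (hE : SpecEVM) {m : ℕ} (hm : 1 ≤ m) {P : ℕ → PowerSeries ℤ} (hP : RecPM m P)
    (v : ℕ) : bar0 (ka P v) = zz ^ 2 * ps (fun w => bar0 (ka P w)) (im (ZMod 2) m v) +
      bar0 (rho m v) := by
  rw [ps_im]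
  conv_lhs => rw [ka_rec hE hm hP v]
  rw [bar0_add, bar0_mul, bar0_z]
  congr 2
  rw [bar0, map_sum]
  refine Finset.sum_congr rfl fun r _ => ?_
  rw [map_mul, map_pow, PowerSeries.map_X]
  rfl

theorem kb_odd (hE : SpecEVM) (hA : SpecPAM) {n : ℕ} (hn : 1 ≤ n) {P : ℕ → PowerSeries ℤ}
    (hP : RecPM (2 * n) P) (v : ℕ) (hv : Odd v) : bar0 (ka P v) = bar0 (rho (2 * n) v) := by
  have h1 := (hA n hn).2.2.2 v hv
  have h2 := (hE (ZMod 2) (2 * n) (by omega)).2.2.2.1 v
  rw [h1] at h2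
  rw [kb_rec hE (by omega) hP, ← h2, ps_zero, mul_zero, zero_add]

theorem kb_zero (hE : SpecEVM) (hA : SpecPAM) {n : ℕ} (hn : 1 ≤ n) {P : ℕ → PowerSeries ℤ}
    (hP : RecPM (2 * n) P) : (1 + zz ^ 2) * bar0 (ka P 0) =
      algebraMap P2 S2 (X ^ (2 * n + 2) * rhoP (2 * n) 1 + rhoP (2 * n) 0) := by
  have h1 := (hA n hn).2.1 0 (by omega)
  have h2 := (hE (ZMod 2) (2 * n) (by omega)).2.2.2.1 0
  rw [mul_zero] at h1
  rw [h1] at h2
  have h3 := kb_rec hE (show 1 ≤ 2 * n by omega) hP 0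
  have e : (1 + zz ^ (2 * n - 0) * uu : PowerSeries (ZMod 2)[X]) =
      zz ^ 0 * uu ^ 0 + zz ^ (2 * n) * uu ^ 1 := by
    rw [pow_zero, pow_zero, pow_one, one_mul, Nat.sub_zero]
  rw [← h2, e, ps_add, ps_mon, ps_mon] at h3
  have h4 := kb_odd hE hA hn hP 1 odd_one
  simp only [h4] at h3
  rw [map_add, map_mul, map_pow, aX, rhoP_eq, rhoP_eq]
  have e2 : (zz ^ (2 * n + 2) : S2) = zz ^ 2 * zz ^ (2 * n) := by rw [← pow_add, add_comm]
  rw [e2]
  linear_combination h3 + zz ^ 2 * bar0 (ka P 0) * two0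

theorem rho_large (n j : ℕ) (hn : 1 ≤ n) (hj : n - 1 ≤ j) :
    bar0 (rho (2 * n) (2 * j + 1)) = zz ^ 2 + zz ^ 4 := by
  have h1 : (2 * n - (2 * j + 1)) / 2 = 0 := by omega
  have h2 : xx (2 * n) (2 * j + 1) = 1 := by
    rw [xx]
    have : (2 * n - (2 * j + 1) + 1) / 2 ≤ 1 := by omega
    omega
  rw [← rhoP_eq, rhoP, h1, h2, Finset.sum_range_zero, mul_zero, zero_add, map_add, map_pow,
    map_pow, aX]

end KAMAux

open KAMAux

/-- **KAM** -/
theorem specKAM (hE : SpecEVM) (hA : SpecPAM) : SpecKAM := by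
  intro n hn
  refine ⟨X ^ (2 * n + 2) * rhoP (2 * n) 1 + rhoP (2 * n) 0,
    fun j => rhoP (2 * n) (2 * j + 1) + X ^ 2 + X ^ 4, fun P hP F => ?_⟩
  refine ⟨psi2 (ka P) F, ?_, fun hF => ?_⟩
  · have h1 : P = fun v : ℕ => ((v : PowerSeries ℤ) + 1) + 2 * ka P v :=
      funext fun v => P_eq hE (by omega) hP v
    conv_lhs => rw [h1]
    rw [TR.KAM.psi2_add, TR.KAM.psi2_add, TR.KAM.psi2_mul, TR.KAM.psi2_one, TR.KAM.psi2_nat]
    ring
  · have h0 := kb_zero hE hA hn hP
    have h1 : bar F = zz ^ 0 * uu ^ 0 + (bar F - 1) := by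
      rw [pow_zero, pow_zero, one_mul]
      ring
    have h2 : bar0 (psi2 (ka P) F) = bar0 (ka P 0) +
        ps (fun v => bar0 (ka P v)) (bar F - 1) := by
      rw [bar0_psi2]
      conv_lhs => rw [h1]
      rw [ps_add, ps_mon, pow_zero, one_mul]
    set rh : ℕ → P2 := fun j => rhoP (2 * n) (2 * j + 1) + X ^ 2 + X ^ 4 with hrh
    have h3 : ps (fun v => bar0 (ka P v)) (bar F - 1) = ps (fun v => (zz ^ 2 + zz ^ 4) +
        ∑ j ∈ Finset.range (n - 1), if v = 2 * j + 1 then algebraMap P2 S2 (rh j) else 0)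
        (bar F - 1) := by
      refine ps_odd _ _ _ hF fun v hv => ?_
      rw [kb_odd hE hA hn hP v hv]
      obtain ⟨j, rfl⟩ := hv
      have h4 : ∀ i, (if 2 * j + 1 = 2 * i + 1 then algebraMap P2 S2 (rh i) else 0) =
          if j = i then algebraMap P2 S2 (rh i) else 0 := by
        intro i
        by_cases h : j = i
        · rw [if_pos h, if_pos (by omega)]
        · rw [if_neg h, if_neg (by omega)]
      rw [Finset.sum_congr rfl fun i _ => h4 i, Finset.sum_ite_eq]
      by_cases hj : j < n - 1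
      · rw [if_pos (Finset.mem_range.2 hj)]
        simp only [hrh]
        rw [map_add, map_add, map_pow, map_pow, aX, rhoP_eq]
        linear_combination -(zz ^ 2 + zz ^ 4 : S2) * two0
      · rw [if_neg (fun h => hj (Finset.mem_range.1 h)), add_zero]
        exact rho_large n j hn (by omega)
    rw [h2, h3, ps_add', ps_const, ps_sum']
    have h5 : ∀ j, ps (fun v => if v = 2 * j + 1 then algebraMap P2 S2 (rh j) else 0)
        (bar F - 1) = algebraMap P2 S2 (rh j) * cf (2 * j + 1) (bar F) := by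
      intro j
      rw [ps_single]
      congr 1
      ext k
      rw [cf, cf, PowerSeries.coeff_mk, PowerSeries.coeff_mk, map_sub, coeff_sub,
        PowerSeries.coeff_one]
      have : (if k = 0 then (1 : (ZMod 2)[X]) else 0).coeff (2 * j + 1) = 0 := by
        split_ifs
        · rw [coeff_one, if_neg (by omega)]
        · rw [coeff_zero]
      rw [this, sub_zero]
    have h6 : ev1 (bar F - 1) = ev1 (bar F) - 1 := by
      ext k
      rw [ev1, map_sub, ev1, PowerSeries.coeff_mk, PowerSeries.coeff_mk, map_sub, eval_sub,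
        PowerSeries.coeff_one, PowerSeries.coeff_one]
      congr 1
      split_ifs
      · exact eval_one
      · exact eval_zero
    rw [Finset.sum_congr rfl fun j _ => h5 j, h6, mul_add, h0]

end Pool.Agent.Lib.MPba1bba.TM
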