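import Pool.Agent.Lib.MP_ba1bba_al.TM.Spec
import Pool.Agent.Lib.MP_ba1bba_al.TR.Zer

section
/-!
# Module LZM: the section operator on the states with `v` zeros, general `m`
-/
set_option autoImplicit false

namespace Pool.Agent.Lib.MPba1bba.TM

open Polynomial TR

namespace LZMAux

open Pool.Agent.Lib.MPba1bba.ZerM (zs b_zs)

theorem mul_nonneg' (m : ℕ) {j : ℤ} (hj : 0 ≤ j) : 0 ≤ (m : ℤ) * j :=
  mul_nonneg (Int.natCast_nonneg m) hj

theorem mul_neg' (m : ℕ) {j : ℤ} (hj : j ≤ -1) : (m : ℤ) * j ≤ -m := by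
  have h := mul_le_mul_of_nonneg_left hj (Int.natCast_nonneg m)
  linarith

theorem cmin_eq (m : ℕ) (s : Multiset ℤ) (r : ℕ) (c : ℕ) (j0 : ℤ)
    (h0 : bfun 2 s (r + m * j0) = c) (h1 : ∀ j : ℤ, c ≤ bfun 2 s (r + m * j)) :
    cmin 2 m s r = c := by
  unfold cmin
  apply le_antisymm
  · rw [← h0]
    exact ciInf_le (OrderBot.bddBelow _) j0
  · exact le_ciInf h1

theorem cmin_cc (m v r : ℕ) (hr : r < m) : cmin 2 m (zs v) r = cc m v r := by
  unfold cc
  split_ifs with h
  · apply cmin_eq _ _ _ _ 0
    · rw [b_zs, mul_zero]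
      omega
    · intro j
      exact Nat.zero_le _
  · have key : ∀ j : ℤ, 2 * min (m - r) (r - v) ≤ bfun 2 (zs v) (r + m * j) := by
      intro j
      rw [b_zs]
      rcases le_or_gt 0 j with hj | hj
      · have h1 := mul_nonneg' m hj
        omega
      · have h1 := mul_neg' m (by omega : j ≤ -1)
        omega
    rcases le_total (m - r) (r - v) with h2 | h2
    · apply cmin_eq _ _ _ _ (-1)
      · rw [b_zs]
        have e1 : (r : ℤ) + (m : ℤ) * (-1) = r - m := by ring
        rw [e1]
        omega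
      · exact key
    · apply cmin_eq _ _ _ _ 0
      · rw [b_zs, mul_zero]
        omega
      · exact key

theorem sml_eq (m v r w : ℕ) (h : {j : ℤ | (bfun 2 (zs v) (r + m * (j + 1)) : ℤ) -
    bfun 2 (zs v) (r + m * j) = 0}.ncard = w) : sml 2 m (zs v) r = zs w := by
  unfold sml
  have hI : Finset.Ioo (-((2 : ℕ) : ℤ)) ((2 : ℕ) : ℤ) = {-1, 0, 1} := by
    ext x
    simp only [Finset.mem_Ioo, Finset.mem_insert, Finset.mem_singleton]
    omega
  rw [hI]
  have hodd : ∀ x : ℤ, x = -1 ∨ x = 1 → {j : ℤ | (bfun 2 (zs v) (r + m * (j + 1)) : ℤ) -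
      bfun 2 (zs v) (r + m * j) = x} = ∅ := by
    intro x hx
    apply Set.eq_empty_iff_forall_notMem.2
    intro j hj
    have hj' : (bfun 2 (zs v) (r + m * (j + 1)) : ℤ) -
      bfun 2 (zs v) (r + m * j) = x := hj
    rw [b_zs, b_zs] at hj'
    push_cast at hj'
    omega
  rw [Finset.sum_insert (by decide), Finset.sum_insert (by decide), Finset.sum_singleton,
    hodd (-1) (Or.inl rfl), hodd 1 (Or.inr rfl), h]
  simp only [Set.ncard_empty, zero_smul, zero_add, add_zero]
  unfold zs
  rw [Multiset.nsmul_singleton]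

theorem lt_div_iff' {m a i : ℕ} (hm : 0 < m) : i < a / m ↔ m * i + m ≤ a := by
  rw [Nat.lt_iff_add_one_le, Nat.le_div_iff_mul_le hm]
  have : (i + 1) * m = m * i + m := by ring
  rw [this]

theorem sml_ww (m v r : ℕ) (hm : 2 ≤ m) (hr : r < m) : sml 2 m (zs v) r = zs (ww m v r) := by
  apply sml_eq
  unfold ww
  split_ifs with h h2
  · have : {j : ℤ | (bfun 2 (zs v) (r + m * (j + 1)) : ℤ) - bfun 2 (zs v) (r + m * j) = 0} =
        (fun i : ℕ => (i : ℤ)) '' {i : ℕ | i < (v - r) / m} := by
      ext j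
      simp only [Set.mem_ofPred_eq, Set.mem_image, b_zs]
      have e1 : (m : ℤ) * (j + 1) = m * j + m := by ring
      rw [e1]
      constructor
      · intro h3
        have hj : 0 ≤ j := by
          by_contra hc
          have h4 := mul_neg' m (by omega : j ≤ -1)
          by_cases h5 : j = -1
          · subst h5
            push_cast at h3
            omega
          · have h6 : (m : ℤ) * (j + 1) ≤ -m := mul_neg' m (by omega)
            push_cast at h3
            omega
        have h4 := mul_nonneg' m hj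
        obtain ⟨i, rfl⟩ := Int.eq_ofNat_of_zero_le hj
        refine ⟨i, ?_, rfl⟩
        rw [lt_div_iff' (by omega)]
        have e2 : (m : ℤ) * (i : ℤ) = ((m * i : ℕ) : ℤ) := by push_cast; ring
        rw [e2] at h3
        push_cast at h3
        rw [← Nat.cast_mul] at h3
        omega
      · rintro ⟨i, hi, rfl⟩
        rw [lt_div_iff' (by omega)] at hi
        have e2 : (m : ℤ) * (i : ℤ) = ((m * i : ℕ) : ℤ) := by push_cast; ring
        rw [e2]
        omega
    rw [this, Set.ncard_image_of_injective _ Nat.cast_injective]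
    have h2 : {i : ℕ | i < (v - r) / m} = ((Finset.range ((v - r) / m) : Finset ℕ) : Set ℕ) := by
      ext i; simp
    rw [h2, Set.ncard_coe_finset, Finset.card_range]
  · have : {j : ℤ | (bfun 2 (zs v) (r + m * (j + 1)) : ℤ) - bfun 2 (zs v) (r + m * j) = 0} =
        {-1} := by
      ext j
      simp only [Set.mem_ofPred_eq, Set.mem_singleton_iff, b_zs]
      have e1 : (m : ℤ) * (j + 1) = m * j + m := by ring
      rw [e1]
      constructor
      · intro h3
        by_contra hc
        rcases le_or_gt 0 j with hj | hj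
        · have h4 := mul_nonneg' m hj
          push_cast at h3
          omega
        · have h4 := mul_neg' m (by omega : j ≤ -1)
          have h6 : (m : ℤ) * (j + 1) ≤ -m := mul_neg' m (by omega)
          push_cast at h3
          omega
      · rintro rfl
        push_cast
        omega
    rw [this, Set.ncard_singleton]
  · have : {j : ℤ | (bfun 2 (zs v) (r + m * (j + 1)) : ℤ) - bfun 2 (zs v) (r + m * j) = 0} =
        ∅ := by
      apply Set.eq_empty_iff_forall_notMem.2
      intro j h3
      simp only [Set.mem_ofPred_eq, b_zs] at h3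
      have e1 : (m : ℤ) * (j + 1) = m * j + m := by ring
      rw [e1] at h3
      rcases le_or_gt 0 j with hj | hj
      · have h4 := mul_nonneg' m hj
        push_cast at h3
        omega
      · have h4 := mul_neg' m (by omega : j ≤ -1)
        by_cases h5 : j = -1
        · subst h5
          push_cast at h3
          omega
        · have h6 : (m : ℤ) * (j + 1) ≤ -m := mul_neg' m (by omega)
          push_cast at h3
          omega
    rw [this, Set.ncard_empty]

end LZMAux

open LZMAux in
theorem specLZM : SpecLZM := by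
  intro m hm
  refine ⟨fun v => ?_, ?_⟩
  · unfold lamB
    refine Finset.sum_congr rfl fun r hr => ?_
    rw [Finset.mem_range] at hr
    have h1 := cmin_cc m v r hr
    have h2 := sml_ww m v r hm hr
    unfold ZerM.zs at h1 h2
    rw [h1, h2]
  · unfold serY
    have hI : Finset.Ioo 0 2 = ({1} : Finset ℕ) := by decide
    rw [hI, Finset.sum_singleton]
    norm_num

end Pool.Agent.Lib.MPba1bba.TM
end

section
/-!
# PVM: the recursion of the series `P_v` for `p = 2` and all `m`
-/
namespace Pool.Agent.Lib.MPba1bba.TM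

open TR

namespace PVMAux

open ZerM

/-! ### Minimum and zero increments of `b_v` on a residue class -/

theorem cmin_zs (m v r : ℕ) (hr : r < m) : cmin 2 m (zs v) r = cc m v r := by
  have hlow : ∀ j : ℤ, cc m v r ≤ bfun 2 (zs v) (r + m * j) := by
    intro j
    rw [b_zs]
    unfold cc
    split_ifs with h
    · exact Nat.zero_le _
    · rcases lt_trichotomy j 0 with hj | hj | hj
      · have h1 : (m : ℤ) * j ≤ -m := by nlinarith
        omega
      · subst hj
        omega
      · have h1 : (m : ℤ) ≤ m * j := by nlinarith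
        omega
  have hex : ∃ j : ℤ, bfun 2 (zs v) (r + m * j) = cc m v r := by
    unfold cc
    by_cases h : r ≤ v
    · refine ⟨0, ?_⟩
      rw [b_zs, if_pos h]
      omega
    · rw [if_neg h]
      rcases le_total (m - r) (r - v) with h1 | h1
      · refine ⟨-1, ?_⟩
        rw [b_zs]
        omega
      · refine ⟨0, ?_⟩
        rw [b_zs]
        omega
  obtain ⟨j, hj⟩ := hex
  unfold cmin
  refine le_antisymm ?_ (le_ciInf hlow)
  rw [← hj]
  exact ciInf_le (OrderBot.bddBelow _) j

theorem sml_eq (m v r w : ℕ) (h : {j : ℤ | (bfun 2 (zs v) (r + m * (j + 1)) : ℤ) -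
    bfun 2 (zs v) (r + m * j) = 0}.ncard = w) : sml 2 m (zs v) r = zs w := by
  unfold sml
  have hI : Finset.Ioo (-((2 : ℕ) : ℤ)) ((2 : ℕ) : ℤ) = {-1, 0, 1} := by
    ext x
    simp only [Finset.mem_Ioo, Finset.mem_insert, Finset.mem_singleton]
    omega
  rw [hI]
  have hodd : ∀ x : ℤ, x = -1 ∨ x = 1 → {j : ℤ | (bfun 2 (zs v) (r + m * (j + 1)) : ℤ) -
      bfun 2 (zs v) (r + m * j) = x} = ∅ := by
    intro x hx
    apply Set.eq_empty_iff_forall_notMem.2
    intro j hj
    have hj' : (bfun 2 (zs v) (r + m * (j + 1)) : ℤ) - bfun 2 (zs v) (r + m * j) = x := hj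
    rw [b_zs, b_zs] at hj'
    push_cast at hj'
    omega
  rw [Finset.sum_insert (by decide), Finset.sum_insert (by decide), Finset.sum_singleton,
    hodd (-1) (Or.inl rfl), hodd 1 (Or.inr rfl), h]
  simp only [Set.ncard_empty, zero_smul, zero_add, add_zero]
  unfold zs
  rw [Multiset.nsmul_singleton]

theorem sml_zs (m v r : ℕ) (hr : r < m) : sml 2 m (zs v) r = zs (ww m v r) := by
  apply sml_eq
  by_cases h : r ≤ v
  · have hs : {j : ℤ | (bfun 2 (zs v) (r + m * (j + 1)) : ℤ) - bfun 2 (zs v) (r + m * j) = 0} =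
        (fun i : ℕ => (i : ℤ)) '' {i : ℕ | i < (v - r) / m} := by
      ext j
      simp only [Set.mem_ofPred_eq, Set.mem_image, b_zs, mul_add, mul_one]
      constructor
      · intro hj
        rcases lt_or_ge j 0 with h0 | h0
        · have h1 : (m : ℤ) * j ≤ -m := by nlinarith
          omega
        · have h1 : (0 : ℤ) ≤ m * j := by positivity
          refine ⟨j.toNat, ?_, by omega⟩
          have h2 : (r : ℤ) + m * j + m ≤ v := by omega
          have h3 : j.toNat + 1 ≤ (v - r) / m := by
            rw [Nat.le_div_iff_mul_le (by omega)]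
            have h4 : ((j.toNat : ℕ) : ℤ) = j := Int.toNat_of_nonneg h0
            zify [h]
            rw [h4]
            linarith [mul_comm j (m : ℤ)]
          omega
      · rintro ⟨i, hi, rfl⟩
        have h3 : i + 1 ≤ (v - r) / m := hi
        rw [Nat.le_div_iff_mul_le (by omega)] at h3
        zify [h] at h3
        have h4 : (0 : ℤ) ≤ m * i := by positivity
        have h5 : (m : ℤ) * i + m ≤ v - r := by linarith [mul_comm (i : ℤ) (m : ℤ)]
        omega
    rw [hs, Set.ncard_image_of_injective _ Nat.cast_injective]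
    have h2 : {i : ℕ | i < (v - r) / m} = ((Finset.range ((v - r) / m) : Finset ℕ) : Set ℕ) := by
      ext i; simp
    rw [h2, Set.ncard_coe_finset, Finset.card_range]
    unfold ww
    rw [if_pos h]
  · have key : ∀ j : ℤ, (bfun 2 (zs v) (r + m * (j + 1)) : ℤ) - bfun 2 (zs v) (r + m * j) = 0 →
        j = -1 ∧ m - r = r - v := by
      intro j hj
      have e : (m : ℤ) * (j + 1) = m * j + m := by ring
      rw [e, b_zs, b_zs] at hj
      rcases lt_trichotomy j (-1) with h0 | h0 | h0
      · have h1 : (m : ℤ) * j ≤ -m - m := by nlinarith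
        omega
      · subst h0
        refine ⟨rfl, ?_⟩
        omega
      · have h1 : (0 : ℤ) ≤ m * j := by
          have : 0 ≤ j := by omega
          positivity
        omega
    unfold ww
    rw [if_neg h]
    split_ifs with h1
    · have hs : {j : ℤ | (bfun 2 (zs v) (r + m * (j + 1)) : ℤ) -
          bfun 2 (zs v) (r + m * j) = 0} = {-1} := by
        ext j
        simp only [Set.mem_ofPred_eq, Set.mem_singleton_iff]
        constructor
        · intro hj
          exact (key j hj).1
        · rintro rfl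
          rw [b_zs, b_zs]
          omega
      rw [hs, Set.ncard_singleton]
    · have hs : {j : ℤ | (bfun 2 (zs v) (r + m * (j + 1)) : ℤ) -
          bfun 2 (zs v) (r + m * j) = 0} = ∅ := by
        apply Set.eq_empty_iff_forall_notMem.2
        intro j hj
        exact h1 (key j hj).2
      rw [hs, Set.ncard_empty]

/-! ### The function `e` -/

theorem e_split (m : ℕ) (hm : 1 ≤ m) (k : ℤ) : efun 2 m k = 2 * k.natAbs ∨
    ∃ l : ℤ, 2 * (k - m * l).natAbs + 2 + efun 2 m l ≤ efun 2 m k := by
  obtain ⟨d, hd, he⟩ := (specEFN 2 m (by norm_num) hm).2.2.2.2.2.2.2.1 k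
  cases d with
  | nil =>
    left
    simp [dval] at hd
    subst hd
    rw [he]
    simp [dcost]
  | cons x rest =>
    cases rest with
    | nil =>
      left
      simp [dval] at hd
      subst hd
      rw [he]
      simp [dcost]
    | cons y rest =>
      right
      refine ⟨dval m (y :: rest), ?_⟩
      have h1 := (specEFN 2 m (by norm_num) hm).2.2.2.2.2.2.2.2 (y :: rest)
      have h2 : k - m * dval m (y :: rest) = x := by
        rw [← hd]
        simp only [dval, List.foldr_cons]
        ring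
      rw [h2, he]
      simp only [dcost, List.map_cons, List.sum_cons, List.length_cons] at h1 ⊢
      omega

theorem e_le (m : ℕ) (hm : 1 ≤ m) (k l : ℤ) :
    efun 2 m k ≤ 2 * (k - m * l).natAbs + 2 + efun 2 m l := by
  obtain ⟨-, hsub, -, hlin, hmul, -⟩ := specEFN 2 m (by norm_num) hm
  have h1 := hsub (k - m * l) (m * l)
  have h2 := hlin (k - m * l)
  have h3 := hmul l
  have h4 : k - m * l + m * l = k := by ring
  rw [h4] at h1
  omega

theorem e_zero (m : ℕ) (hm : 1 ≤ m) : efun 2 m 0 = 0 := (specEFN 2 m (by norm_num) hm).1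

theorem e_ge (m : ℕ) (hm : 1 ≤ m) (l : ℤ) (hl : l ≠ 0) : 2 ≤ efun 2 m l := by
  obtain ⟨d, hd, he⟩ := (specEFN 2 m (by norm_num) hm).2.2.2.2.2.2.2.1 l
  rw [he]
  by_contra hc
  push Not at hc
  unfold dcost at hc
  have h1 : (d.map Int.natAbs).sum = 0 := by omega
  rw [List.sum_eq_zero_iff] at h1
  apply hl
  rw [← hd]
  clear hd he hc
  induction d with
  | nil => rfl
  | cons x d ih =>
    simp only [dval, List.foldr_cons]
    have hx : x.natAbs = 0 := h1 _ (by simp)
    have hd : dval m d = 0 := ih (fun n hn => h1 n (by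
      simp only [List.map_cons, List.mem_cons]; right; exact hn))
    unfold dval at hd
    rw [hd]
    omega

/-! ### The functions `G` and `T` -/

/-- `G_v = b_v □ e` -/
noncomputable def GG (m v : ℕ) : ℤ → ℕ := ic (bfun 2 (zs v)) (efun 2 m)

/-- `T_v(k) = min_l b_v(k - m l) + e(l)` -/
noncomputable def TT (m v : ℕ) (k : ℤ) : ℕ := ⨅ l : ℤ, (bfun 2 (zs v) (k - m * l) + efun 2 m l)

theorem TT_le (m v : ℕ) (k l : ℤ) : TT m v k ≤ bfun 2 (zs v) (k - m * l) + efun 2 m l :=
  ciInf_le (OrderBot.bddBelow _) l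

theorem TT_ex (m v : ℕ) (k : ℤ) : ∃ l : ℤ, TT m v k = bfun 2 (zs v) (k - m * l) + efun 2 m l := by
  have := Nat.sInf_mem (Set.range_nonempty
    (fun l : ℤ => bfun 2 (zs v) (k - m * l) + efun 2 m l))
  obtain ⟨l, hl⟩ := this
  exact ⟨l, hl.symm⟩

theorem b_lip (v : ℕ) (k l : ℤ) :
    bfun 2 (zs v) k ≤ bfun 2 (zs v) l + 2 * (k - l).natAbs :=
  (specBFN 2).2.2.2.2.1 (zs v) k l

theorem GG_eq (m : ℕ) (hm : 1 ≤ m) (v : ℕ) (k : ℤ) :
    GG m v k = min (bfun 2 (zs v) k) (2 + TT m v k) := by
  obtain ⟨hex, hle, -⟩ := specIC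
  apply le_antisymm
  · refine le_min ?_ ?_
    · have := hle (bfun 2 (zs v)) (efun 2 m) k k
      rw [sub_self, e_zero m hm] at this
      exact this
    · obtain ⟨l, hl⟩ := TT_ex m v k
      have h1 := hle (bfun 2 (zs v)) (efun 2 m) k (k - m * l)
      have h2 := e_le m hm (m * l) l
      have h3 : k - (k - m * l) = m * l := by ring
      rw [h3] at h1
      simp only [sub_self, Int.natAbs_zero] at h2
      unfold GG
      omega
  · obtain ⟨j, hj⟩ := hex (bfun 2 (zs v)) (efun 2 m) k
    unfold GG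
    rw [hj]
    rcases e_split m hm (k - j) with h | ⟨l, h⟩
    · refine (min_le_left _ _).trans ?_
      rw [h]
      exact b_lip v k j
    · refine (min_le_right _ _).trans ?_
      have h1 := TT_le m v k l
      have h2 := b_lip v (k - m * l) j
      have h3 : (k - m * l - j).natAbs = (k - j - m * l).natAbs := by
        congr 1; ring
      omega

/-- On the exceptional interval `T = b`. -/
theorem TT_in (m : ℕ) (hm : 1 ≤ m) (v : ℕ) (k : ℤ) (h0 : -(xx m v : ℤ) ≤ k)
    (h1 : k ≤ v + xx m v) : TT m v k = bfun 2 (zs v) k := by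
  apply le_antisymm
  · have := TT_le m v k 0
    rw [e_zero m hm, mul_zero, sub_zero] at this
    exact this
  · obtain ⟨l, hl⟩ := TT_ex m v k
    rw [hl]
    unfold xx at h0 h1
    rcases lt_trichotomy l 0 with h | h | h
    · have h2 := e_ge m hm l h.ne
      have h3 : (m : ℤ) * l ≤ -m := by nlinarith
      rw [b_zs, b_zs]
      omega
    · subst h
      rw [mul_zero, sub_zero]
      omega
    · have h2 := e_ge m hm l h.ne'
      have h3 : (m : ℤ) ≤ m * l := by nlinarith
      rw [b_zs, b_zs]
      omega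

/-- Outside the exceptional interval `2 + T ≤ b`. -/
theorem TT_out (m : ℕ) (hm : 2 ≤ m) (v : ℕ) (k : ℤ) (h : k < -(xx m v : ℤ) ∨
    (v : ℤ) + xx m v < k) : 2 + TT m v k ≤ bfun 2 (zs v) k := by
  have he1 : efun 2 m 1 ≤ 2 := by
    have := (specEFN 2 m (by norm_num) (by omega)).2.2.2.1 1
    simpa using this
  have he2 : efun 2 m (-1) ≤ 2 := by
    have := (specEFN 2 m (by norm_num) (by omega)).2.2.2.1 (-1)
    simpa using this
  unfold xx at h
  rcases h with h | h
  · have := TT_le m v k (-1)
    rw [b_zs] at this ⊢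
    omega
  · have := TT_le m v k 1
    rw [b_zs] at this ⊢
    omega

theorem GG_fin (m : ℕ) (hm : 1 ≤ m) (v n : ℕ) : {k : ℤ | GG m v k = n}.Finite :=
  (specEFF 2 m (by norm_num) hm (zs v) n).subset (fun _ hk => le_of_eq hk)

/-- the exceptional set -/
noncomputable def exc (m v : ℕ) : Finset ℤ := Finset.Icc (-(xx m v : ℤ)) (v + xx m v)

theorem GG_exc (m : ℕ) (hm : 1 ≤ m) (v : ℕ) (k : ℤ) (hk : k ∈ exc m v) :
    GG m v k = bfun 2 (zs v) k := by
  unfold exc at hk
  rw [Finset.mem_Icc] at hk
  rw [GG_eq m hm, TT_in m hm v k hk.1 hk.2]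
  exact min_eq_left (by omega)

theorem TT_exc (m : ℕ) (hm : 1 ≤ m) (v : ℕ) (k : ℤ) (hk : k ∈ exc m v) :
    TT m v k = bfun 2 (zs v) k := by
  unfold exc at hk
  rw [Finset.mem_Icc] at hk
  exact TT_in m hm v k hk.1 hk.2

theorem diff_eq (m : ℕ) (hm : 2 ≤ m) (v n : ℕ) :
    {k : ℤ | GG m v k = n} \ (exc m v : Set ℤ) = {k : ℤ | 2 + TT m v k = n} \ (exc m v : Set ℤ) := by
  ext k
  simp only [Set.mem_sdiff, Set.mem_ofPred_eq]
  refine and_congr_left ?_
  intro hk
  have hk' : ¬ (-(xx m v : ℤ) ≤ k ∧ k ≤ v + xx m v) := fun h => hk (by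
    rw [Finset.mem_coe, exc, Finset.mem_Icc]
    exact h)
  have h := TT_out m hm v k (by omega)
  rw [GG_eq m (by omega), min_eq_right h]

theorem TT_fin (m : ℕ) (hm : 2 ≤ m) (v n : ℕ) : {k : ℤ | 2 + TT m v k = n}.Finite := by
  have h1 : {k : ℤ | 2 + TT m v k = n} ⊆
      ({k : ℤ | GG m v k = n} \ (exc m v : Set ℤ)) ∪ (exc m v : Set ℤ) := by
    rw [diff_eq m hm]
    intro k hk
    by_cases h : k ∈ (exc m v : Set ℤ)
    · right; exact h
    · left; exact ⟨hk, h⟩
  exact Set.Finite.subset ((GG_fin m (by omega) v n).sdiff.union (Finset.finite_toSet _)) h1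

theorem count_rel (m : ℕ) (hm : 2 ≤ m) (v n : ℕ) : {k : ℤ | GG m v k = n}.ncard +
    ((exc m v).filter fun k => 2 + bfun 2 (zs v) k = n).card = {k : ℤ | 2 + TT m v k = n}.ncard +
    ((exc m v).filter fun k => bfun 2 (zs v) k = n).card := by
  have e1 : {k : ℤ | GG m v k = n} ∩ (exc m v : Set ℤ) =
      (((exc m v).filter fun k => bfun 2 (zs v) k = n : Finset ℤ) : Set ℤ) := by
    ext k
    simp only [Set.mem_inter_iff, Set.mem_ofPred_eq, Finset.coe_filter, Finset.mem_coe]
    constructor
    · rintro ⟨h1, h2⟩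
      rw [GG_exc m (by omega) v k h2] at h1
      exact ⟨h2, h1⟩
    · rintro ⟨h1, h2⟩
      rw [GG_exc m (by omega) v k h1]
      exact ⟨h2, h1⟩
  have e2 : {k : ℤ | 2 + TT m v k = n} ∩ (exc m v : Set ℤ) =
      (((exc m v).filter fun k => 2 + bfun 2 (zs v) k = n : Finset ℤ) : Set ℤ) := by
    ext k
    simp only [Set.mem_inter_iff, Set.mem_ofPred_eq, Finset.coe_filter, Finset.mem_coe]
    constructor
    · rintro ⟨h1, h2⟩
      rw [TT_exc m (by omega) v k h2] at h1
      exact ⟨h2, h1⟩
    · rintro ⟨h1, h2⟩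
      rw [TT_exc m (by omega) v k h1]
      exact ⟨h2, h1⟩
  have h1 := Set.ncard_inter_add_ncard_sdiff_eq_ncard {k : ℤ | GG m v k = n}
    (exc m v : Set ℤ) (GG_fin m (by omega) v n)
  have h2 := Set.ncard_inter_add_ncard_sdiff_eq_ncard {k : ℤ | 2 + TT m v k = n}
    (exc m v : Set ℤ) (TT_fin m hm v n)
  rw [diff_eq m hm, e1, Set.ncard_coe_finset] at h1
  rw [e2, Set.ncard_coe_finset] at h2
  omega

/-- `T_v` on a residue class -/
theorem TT_sec (m : ℕ) (hm : 1 ≤ m) (v r : ℕ) : ∃ y : ℤ, ∀ k : ℤ, ∀ w : ℕ,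
    sml 2 m (zs v) r = zs w → TT m v (r + m * k) = cmin 2 m (zs v) r + GG m w (k - y) := by
  obtain ⟨y, hy⟩ := specSTR (specSRT specBFN) (specCVX specBFN (specSRT specBFN)) 2 m
    (by norm_num) hm (zs v) (by
      intro x hx
      rw [Multiset.eq_of_mem_replicate hx]
      norm_num) r
  refine ⟨y, fun k w hw => ?_⟩
  obtain ⟨hex, hle, hcomm, hassoc, hadd, hsh⟩ := specIC
  have hrad := specRAD specIC specEFN specBFN 2 m (by norm_num) hm
  have he : ic (bfun 2 0) (efun 2 m) = efun 2 m := by
    have := hrad.2.2.1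
    funext k
    have h := congrFun this k
    unfold rlz at h
    simpa using h
  have hb0 : bfun 2 (0 : Multiset ℤ) = fun j => 2 * j.natAbs := by
    funext j
    exact (specBFN 2).2.2.1 j
  have h1 : TT m v (r + m * k) = ic (fun j => bfun 2 (zs v) (r + m * j)) (efun 2 m) k := by
    rw [hcomm]
    unfold TT ic
    apply iInf_congr
    intro l
    rw [add_comm]
    congr 2
    ring
  rw [h1]
  have h2 : ic (fun j => bfun 2 (zs v) (r + m * j)) (efun 2 m) =
      ic (fun k => cmin 2 m (zs v) r + bfun 2 (zs w) (k - y)) (efun 2 m) := by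
    conv_lhs => rw [← he]
    rw [← hassoc, hb0]
    congr 1
    funext k
    rw [hy k, hw]
  rw [h2, hadd, hsh]
  rfl

theorem TT_count (m : ℕ) (hm : 2 ≤ m) (v n : ℕ) : {k : ℤ | 2 + TT m v k = n}.ncard =
    ∑ r ∈ Finset.range m, {k : ℤ | 2 + cc m v r + GG m (ww m v r) k = n}.ncard := by
  have hm0 : (0 : ℤ) < m := by exact_mod_cast (by omega : 0 < m)
  rw [Set.ncard_eq_toFinset_card _ (TT_fin m hm v n),
    Finset.card_eq_sum_card_fiberwise (f := fun k : ℤ => (k % m).toNat) (t := Finset.range m)]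
  · refine Finset.sum_congr rfl fun r hr => ?_
    have hrm : r < m := Finset.mem_range.1 hr
    obtain ⟨y, hy⟩ := TT_sec m (by omega) v r
    have hy' : ∀ k : ℤ, TT m v (r + m * k) = cc m v r + GG m (ww m v r) (k - y) := fun k => by
      rw [hy k _ (sml_zs m v r hrm), cmin_zs m v r hrm]
    have e1 : ((((TT_fin m hm v n).toFinset).filter fun k : ℤ => (k % m).toNat = r :
        Finset ℤ) : Set ℤ) = (fun k : ℤ => (r : ℤ) + m * (k + y)) ''
        {k : ℤ | 2 + cc m v r + GG m (ww m v r) k = n} := by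
      ext k
      simp only [Finset.coe_filter, Set.Finite.mem_toFinset, Set.mem_ofPred_eq, Set.mem_image]
      constructor
      · rintro ⟨h1, h2⟩
        have h3 := Int.emod_nonneg k hm0.ne'
        have h4 := Int.emod_add_mul_ediv k m
        refine ⟨k / m - y, ?_, ?_⟩
        · have h5 := hy' (k / m)
          have h6 : (r : ℤ) + m * (k / m) = k := by
            have : (r : ℤ) = k % m := by omega
            rw [this]
            exact h4
          rw [h6] at h5
          omega
        · have : (r : ℤ) = k % m := by omega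
          rw [this]
          have h7 : k / (m : ℤ) - y + y = k / m := by ring
          rw [h7]
          exact h4
      · rintro ⟨j, hj, rfl⟩
        rw [hy' (j + y)]
        have h7 : j + y - y = j := by ring
        rw [h7]
        refine ⟨by omega, ?_⟩
        rw [Int.add_mul_emod_self_left, Int.emod_eq_of_lt (by omega) (by omega)]
        omega
    rw [← Set.ncard_coe_finset, e1, Set.ncard_image_of_injective]
    intro i j hij
    have h1 : (r : ℤ) + m * (i + y) = r + m * (j + y) := hij
    have h2 : (m : ℤ) * (i + y) = m * (j + y) := by linarith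
    have h3 := mul_left_cancel₀ hm0.ne' h2
    linarith
  · intro k _
    rw [Finset.mem_coe, Finset.mem_range]
    have h3 := Int.emod_nonneg k hm0.ne'
    have h4 := Int.emod_lt_of_pos k hm0
    show (k % (m : ℤ)).toNat < m
    omega

/-! ### Series -/

/-- the series `P_v` -/
noncomputable def Pv (m v : ℕ) : PowerSeries ℤ := PowerSeries.mk fun n => (pcoef 2 m (zs v) n : ℤ)

theorem pcoef_eq (m v n : ℕ) : pcoef 2 m (zs v) n = {k : ℤ | GG m v k = n}.ncard := rfl

theorem shift_count (m w a n : ℕ) : {k : ℤ | a + GG m w k = n}.ncard =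
    if a ≤ n then pcoef 2 m (zs w) (n - a) else 0 := by
  split_ifs with h
  · rw [pcoef_eq]
    congr 1
    ext k
    simp only [Set.mem_ofPred_eq]
    omega
  · have : {k : ℤ | a + GG m w k = n} = ∅ := by
      apply Set.eq_empty_iff_forall_notMem.2
      intro k hk
      have hk' : a + GG m w k = n := hk
      omega
    rw [this, Set.ncard_empty]

theorem coeff_XP (m a v n : ℕ) : PowerSeries.coeff n (PowerSeries.X ^ a * Pv m v) =
    (({k : ℤ | a + GG m v k = n}.ncard : ℕ) : ℤ) := by
  rw [PowerSeries.coeff_X_pow_mul', shift_count]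
  split_ifs
  · unfold Pv; rw [PowerSeries.coeff_mk]
  · rfl

/-- The sum over the exceptional interval of radius `x`. -/
noncomputable def SX (v x : ℕ) : PowerSeries ℤ :=
  ∑ k ∈ Finset.Icc (-(x : ℤ)) (v + x), PowerSeries.X ^ bfun 2 (zs v) k

theorem SX_eq (v x : ℕ) : (1 - PowerSeries.X ^ 2) * SX v x =
    ((v : PowerSeries ℤ) + 1) * (1 - PowerSeries.X ^ 2) +
      2 * (PowerSeries.X ^ 2 - PowerSeries.X ^ (2 * x + 2)) := by
  induction x with
  | zero =>
    have : SX v 0 = (v : PowerSeries ℤ) + 1 := by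
      unfold SX
      have h1 : ∀ k ∈ Finset.Icc (-((0 : ℕ) : ℤ)) (v + (0 : ℕ)),
          (PowerSeries.X : PowerSeries ℤ) ^ bfun 2 (zs v) k = 1 := by
        intro k hk
        rw [Finset.mem_Icc] at hk
        have : bfun 2 (zs v) k = 0 := by
          rw [b_zs]
          omega
        rw [this, pow_zero]
      rw [Finset.sum_congr rfl h1]
      simp
    rw [this]
    ring
  | succ x ih =>
    have hs : Finset.Icc (-((x + 1 : ℕ) : ℤ)) (v + (x + 1 : ℕ)) =
        insert (-((x + 1 : ℕ) : ℤ)) (insert ((v : ℤ) + (x + 1 : ℕ))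
          (Finset.Icc (-(x : ℤ)) (v + x))) := by
      ext k
      simp only [Finset.mem_insert, Finset.mem_Icc]
      omega
    have h1 : SX v (x + 1) = SX v x + 2 * PowerSeries.X ^ (2 * (x + 1)) := by
      unfold SX
      rw [hs, Finset.sum_insert, Finset.sum_insert]
      · have e1 : bfun 2 (zs v) (-((x + 1 : ℕ) : ℤ)) = 2 * (x + 1) := by
          rw [b_zs]
          omega
        have e2 : bfun 2 (zs v) ((v : ℤ) + (x + 1 : ℕ)) = 2 * (x + 1) := by
          rw [b_zs]
          omega
        rw [e1, e2]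
        ring
      · simp only [Finset.mem_Icc]
        omega
      · simp only [Finset.mem_insert, Finset.mem_Icc]
        omega
    rw [h1, mul_add, ih]
    ring

theorem coeff_SX (m v a n : ℕ) : PowerSeries.coeff n (PowerSeries.X ^ a * SX v (xx m v)) =
    ((((exc m v).filter fun k => a + bfun 2 (zs v) k = n).card : ℕ) : ℤ) := by
  unfold SX
  rw [Finset.mul_sum, map_sum, Finset.card_filter]
  push_cast
  refine Finset.sum_congr rfl fun k _ => ?_
  rw [← pow_add, PowerSeries.coeff_X_pow]
  simp only [eq_comm]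

theorem Pv_rel (m : ℕ) (hm : 2 ≤ m) (v : ℕ) :
    Pv m v + PowerSeries.X ^ 2 * SX v (xx m v) =
      PowerSeries.X ^ 2 * (∑ r ∈ Finset.range m, PowerSeries.X ^ cc m v r * Pv m (ww m v r)) +
        SX v (xx m v) := by
  ext n
  have h := count_rel m hm v n
  rw [TT_count m hm] at h
  rw [map_add, map_add, coeff_SX]
  have e1 : PowerSeries.coeff n (Pv m v) = (({k : ℤ | GG m v k = n}.ncard : ℕ) : ℤ) := by
    unfold Pv
    rw [PowerSeries.coeff_mk, pcoef_eq]
  have e2 : PowerSeries.coeff n (SX v (xx m v)) =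
      ((((exc m v).filter fun k => bfun 2 (zs v) k = n).card : ℕ) : ℤ) := by
    have := coeff_SX m v 0 n
    simpa only [pow_zero, one_mul, zero_add] using this
  have e3 : PowerSeries.coeff n (PowerSeries.X ^ 2 *
      (∑ r ∈ Finset.range m, PowerSeries.X ^ cc m v r * Pv m (ww m v r))) =
      ((∑ r ∈ Finset.range m, {k : ℤ | 2 + cc m v r + GG m (ww m v r) k = n}.ncard : ℕ) : ℤ) := by
    rw [Finset.mul_sum, map_sum]
    push_cast
    refine Finset.sum_congr rfl fun r _ => ?_
    rw [← mul_assoc, ← pow_add, coeff_XP]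
  rw [e1, e2, e3]
  exact_mod_cast h

end PVMAux

open PVMAux in
/-- **PVM.** -/
theorem specPVM : SpecPVM := by
  intro m hm v
  have h := Pv_rel m hm v
  have h2 := SX_eq v (xx m v)
  show Pv m v = zz ^ 2 * (∑ r ∈ Finset.range m, zz ^ cc m v r * Pv m (ww m v r)) +
    ((v : PowerSeries ℤ) + 1) * (1 - zz ^ 2) + 2 * (zz ^ 2 - zz ^ (2 * xx m v + 2))
  linear_combination h + h2

end Pool.Agent.Lib.MPba1bba.TM
end
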