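import Pool.Agent.Lib.MP_ba1bba_al.TM.Spec
import Pool.Agent.Lib.MP_ba1bba_al.TR.EC

section
/-!
# Module GRM: growth of the dual sequences
-/
namespace Pool.Agent.Lib.MPba1bba.TM

open Polynomial TR

namespace GRMAux

/-- The coefficient sequence of a product with a power of `z`. -/
theorem coeff_zz_pow_mul (a k : ℕ) (F : S2) :
    PowerSeries.coeff k ((zz : S2) ^ a * F) = if a ≤ k then PowerSeries.coeff (k - a) F else 0 := by
  rw [show (zz : S2) = PowerSeries.X from rfl]
  exact PowerSeries.coeff_X_pow_mul' F a k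

theorem coeff_succ_zz_mul (k : ℕ) (F : S2) :
    PowerSeries.coeff (k + 1) ((zz : S2) * F) = PowerSeries.coeff k F := by
  rw [show (zz : S2) = PowerSeries.X from rfl]
  exact PowerSeries.coeff_succ_X_mul k F

theorem coeff_zero_zz_mul (F : S2) : PowerSeries.coeff 0 ((zz : S2) * F) = 0 := by
  rw [show (zz : S2) = PowerSeries.X from rfl]
  simp

theorem cC0 (x : ZMod 2) : PowerSeries.coeff 0 (PowerSeries.C x : S2) = x := by simp

theorem cCs (k : ℕ) (x : ZMod 2) : PowerSeries.coeff (k + 1) (PowerSeries.C x : S2) = 0 := by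
  rw [PowerSeries.coeff_C]; simp

variable {n : ℕ} {a : ℕ → ZMod 2} {δ : ℕ → S2}

theorem zero_coeff (h : RecD n a δ) (j : ℕ) : PowerSeries.coeff 0 (δ j) = 0 := by
  obtain ⟨h1, h2, h3⟩ := h
  rcases Nat.even_or_odd' j with ⟨i, rfl | rfl⟩
  · have key : PowerSeries.coeff 0 (δ (2 * i) + zz ^ (2 * n + 3) * δ (2 * i + 2)) = 0 := by
      rcases lt_or_ge i n with hi | hi
      · rw [h2 i hi, coeff_zero_zz_mul]
      · rw [h3 i hi, coeff_zero_zz_mul]
    rw [map_add, coeff_zz_pow_mul, if_neg (by omega), add_zero] at key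
    exact key
  · have := h1 (i + 1) (by omega)
    rw [show 2 * (i + 1) - 1 = 2 * i + 1 by omega] at this
    rw [this, coeff_zero_zz_mul]

/-- Even index, `i ≥ n`. -/
theorem even_ge (h : RecD n a δ) (k i : ℕ) (hi : n ≤ i)
    (hv : ∀ k' ≤ k, PowerSeries.coeff k' (δ (2 * i + 2)) = 0) :
    PowerSeries.coeff (k + 1) (δ (2 * i)) =
      PowerSeries.coeff k (PowerSeries.C (a (i / n)) + δ (i / n) +
        (PowerSeries.C (a (i / n - 1)) + δ (i / n - 1))) := by
  obtain ⟨h1, h2, h3⟩ := h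
  have := congrArg (PowerSeries.coeff (k + 1)) (h3 i hi)
  rw [coeff_succ_zz_mul, map_add, coeff_zz_pow_mul] at this
  rw [← this]
  split_ifs with hc
  · rw [hv _ (by omega), add_zero]
  · rw [add_zero]

/-- Even index, `i < n`. -/
theorem even_lt (h : RecD n a δ) (k i : ℕ) (hi : i < n)
    (hv : ∀ k' ≤ k, PowerSeries.coeff k' (δ (2 * i + 2)) = 0) :
    PowerSeries.coeff (k + 1) (δ (2 * i)) =
      PowerSeries.coeff k (PowerSeries.C (a 0) + δ 0 + zz ^ (2 * n - 2 * i) *
        (PowerSeries.C (a 1) + δ 1)) := by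
  obtain ⟨h1, h2, h3⟩ := h
  have := congrArg (PowerSeries.coeff (k + 1)) (h2 i hi)
  rw [coeff_succ_zz_mul, map_add, coeff_zz_pow_mul] at this
  rw [← this]
  split_ifs with hc
  · rw [hv _ (by omega), add_zero]
  · rw [add_zero]

/-- Odd index. -/
theorem odd_eq (h : RecD n a δ) (k i : ℕ) :
    PowerSeries.coeff (k + 1) (δ (2 * i + 1)) = PowerSeries.coeff k (δ (2 * (i + 1))) := by
  have := h.1 (i + 1) (by omega)
  rw [show 2 * (i + 1) - 1 = 2 * i + 1 by omega] at this
  rw [this, coeff_succ_zz_mul]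

theorem fl_none (j : ℕ) : fl n none (X ^ j) = 1 := by
  simp [fl, Polynomial.leval]

theorem fl_some (i₀ : Fin (n - 1)) (j : ℕ) :
    fl n (some i₀) (X ^ j) = if (i₀ : ℕ) = j then 1 else 0 := by
  simp [fl, Polynomial.lcoeff_apply, Polynomial.coeff_X_pow]

theorem gg_pos (f : Fi n) : 1 ≤ gg n f := by
  cases f with
  | none => exact le_refl _
  | some i => simp only [gg]; omega

theorem two_le (hn : 1 ≤ n) (f : Fi n) (k : ℕ) (hk : 1 ≤ k) : 2 ≤ (2 * n) ^ k * gg n f := by
  have h1 : 2 * n ≤ (2 * n) ^ k := Nat.le_self_pow (by omega) _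
  have h2 := gg_pos f
  calc 2 ≤ 2 * n := by omega
    _ ≤ (2 * n) ^ k := h1
    _ ≤ (2 * n) ^ k * gg n f := Nat.le_mul_of_pos_right _ h2

theorem mono (hn : 1 ≤ n) (f : Fi n) {k' k : ℕ} (h : k' ≤ k) :
    (2 * n) ^ k' * gg n f ≤ (2 * n) ^ k * gg n f :=
  Nat.mul_le_mul_right _ (Nat.pow_le_pow_right (by omega) h)

end GRMAux

open GRMAux

theorem specGRM : SpecGRM := by
  intro n hn f δ h
  have h0 := zero_coeff h
  refine ⟨h0, ?_⟩
  intro k
  induction k using Nat.strong_induction_on with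
  | _ k ih =>
    intro hk
    obtain ⟨k, rfl⟩ : ∃ k', k = k' + 1 := ⟨k - 1, by omega⟩
    -- vanishing of all lower coefficients beyond the bound
    have low : ∀ j : ℕ, (2 * n) ^ (k + 1) * gg n f - 2 < j →
        ∀ k' ≤ k, PowerSeries.coeff k' (δ j) = 0 := by
      intro j hj k' hk'
      rcases Nat.eq_zero_or_pos k' with rfl | hpos
      · exact h0 j
      · refine (ih k' (by omega) hpos).1 j ?_
        have := mono hn f (show k' ≤ k + 1 by omega)
        omega
    have h2le := two_le hn f (k + 1) hk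
    have hpow : (2 * n) ^ (k + 1) * gg n f = 2 * (n * ((2 * n) ^ k * gg n f)) := by ring
    set M := (2 * n) ^ k * gg n f with hM
    have hMpos : 1 ≤ M := Nat.mul_pos (Nat.pow_pos (by omega)) (gg_pos f)
    have hnM : n ≤ n * M := Nat.le_mul_of_pos_right _ hMpos
    -- quotient facts
    have q1 : ∀ i, n * M ≤ i → M ≤ i / n := by
      intro i hi
      rw [Nat.le_div_iff_mul_le (by omega)]
      rw [mul_comm]; exact hi
    have q2 : (n * M - 1) / n = M - 1 := by
      obtain ⟨M', hM'⟩ : ∃ M', M = M' + 1 := ⟨M - 1, by omega⟩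
      rw [hM', Nat.mul_succ, Nat.add_sub_cancel]
      have : n * M' + n - 1 = (n - 1) + n * M' := by omega
      rw [this, Nat.add_mul_div_left _ _ (by omega), Nat.div_eq_of_lt (by omega), Nat.zero_add]
    have evenbig : ∀ i, n * M ≤ i → PowerSeries.coeff (k + 1) (δ (2 * i)) = 0 := by
      intro i hi
      rw [even_ge h k i (le_trans hnM hi) (fun k' hk' => low _ (by rw [hpow]; omega) k' hk')]
      have hq := q1 i hi
      rcases Nat.eq_zero_or_pos k with rfl | hkpos
      · simp only [map_add, cC0, h0, add_zero]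
        rw [pow_zero, one_mul] at hM
        cases f with
        | none => simp only [fl_none]; decide
        | some i₀ =>
          have hg : M = (i₀ : ℕ) + 2 := hM
          rw [fl_some, fl_some, if_neg (by omega), if_neg (by omega), add_zero]
      · obtain ⟨k₁, rfl⟩ : ∃ k₁, k = k₁ + 1 := ⟨k - 1, by omega⟩
        have A := (ih (k₁ + 1) (by omega) hkpos).1
        have h2M : 2 ≤ M := two_le hn f (k₁ + 1) hkpos
        simp only [map_add, cCs, zero_add]
        rw [A _ (by rw [← hM]; omega), A _ (by rw [← hM]; omega), add_zero]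
    constructor
    · intro j hj
      rcases Nat.even_or_odd' j with ⟨i, rfl | rfl⟩
      · have hj' : 2 * (n * M) - 2 < 2 * i := by rw [← hpow]; exact hj
        have hnM1 : 1 ≤ n * M := le_trans hn hnM
        exact evenbig i (by omega)
      · rw [odd_eq h k i]
        exact low _ (by omega) k le_rfl
    · have hidx : (2 * n) ^ (k + 1) * gg n f - 2 = 2 * (n * M - 1) := by rw [hpow]; omega
      have hlow : ∀ k' ≤ k, PowerSeries.coeff k' (δ (2 * (n * M - 1) + 2)) = 0 :=
        fun k' hk' => low _ (by rw [hidx]; omega) k' hk'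
      rw [hidx]
      rcases Nat.eq_zero_or_pos k with rfl | hkpos
      · have hM' : M = gg n f := by rw [hM, pow_zero, one_mul]
        cases f with
        | none =>
          have hg : M = 1 := hM'
          have hlt : n * M - 1 < n := by rw [hg]; omega
          rw [even_lt h 0 _ hlt hlow, map_add, map_add, cC0, h0, coeff_zz_pow_mul,
            if_neg (by omega)]
          simp only [fl_none]; decide
        | some i₀ =>
          have hg : M = (i₀ : ℕ) + 2 := hM'
          have hge : n ≤ n * M - 1 := by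
            rw [hg]
            have : n * ((i₀ : ℕ) + 2) = n * (i₀ : ℕ) + 2 * n := by ring
            have := Nat.zero_le (n * (i₀ : ℕ))
            omega
          rw [even_ge h 0 _ hge hlow]
          simp only [map_add, cC0, h0, add_zero]
          rw [q2, fl_some, fl_some, if_neg (by omega), if_pos (by omega), zero_add]
      · obtain ⟨k₁, rfl⟩ : ∃ k₁, k = k₁ + 1 := ⟨k - 1, by omega⟩
        have h2M : 2 * n ≤ M := by
          rw [hM]
          calc 2 * n ≤ (2 * n) ^ (k₁ + 1) := Nat.le_self_pow (by omega) _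
            _ ≤ _ := Nat.le_mul_of_pos_right _ (gg_pos f)
        have hge : n ≤ n * M - 1 := by
          have : n * 2 ≤ n * M := Nat.mul_le_mul_left _ (by omega)
          omega
        obtain ⟨A, B⟩ := ih (k₁ + 1) (by omega) hkpos
        rw [even_ge h (k₁ + 1) _ hge hlow]
        simp only [map_add, cCs, zero_add]
        rw [q2, A _ (by rw [← hM]; omega), zero_add]
        rw [← hM] at B
        rw [show M - 1 - 1 = M - 2 by omega]
        exact B

end Pool.Agent.Lib.MPba1bba.TM
end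

section
/-!
# The growth series of `B(2,4n)` is transcendental: module LIA
-/
namespace Pool.Agent.Lib.MPba1bba.TM

open Polynomial TR

namespace LIAAux

theorem coeff_mul_of_dvd {a b : ℕ} {p q : S2} (hp : (PowerSeries.X : S2) ^ a ∣ p)
    (hq : (PowerSeries.X : S2) ^ b ∣ q) :
    PowerSeries.coeff (a + b) (p * q) = PowerSeries.coeff a p * PowerSeries.coeff b q := by
  obtain ⟨p', rfl⟩ := hp
  obtain ⟨q', rfl⟩ := hq
  have h : (PowerSeries.X ^ a * p' * (PowerSeries.X ^ b * q') : S2) =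
      PowerSeries.X ^ (a + b) * (p' * q') := by ring
  rw [h, PowerSeries.coeff_X_pow_mul', PowerSeries.coeff_X_pow_mul', PowerSeries.coeff_X_pow_mul',
    if_pos le_rfl, if_pos le_rfl, if_pos le_rfl, Nat.sub_self, Nat.sub_self, Nat.sub_self]
  simp

theorem key (d : ℕ) (D' W : ℕ → S2) (hD : ∃ l, l ≤ d ∧ D' l ≠ 0)
    (h : ∀ B : ℕ, ∃ m i, B ≤ i ∧ (∀ j, i ≤ j + d → (PowerSeries.X : S2) ^ m ∣ W j) ∧
      (∀ j, i < j → PowerSeries.coeff m (W j) = 0) ∧ PowerSeries.coeff m (W i) ≠ 0)
    (B : ℕ) (hrel : ∀ i ≥ B, ∑ l ∈ Finset.range (d + 1), D' l * W (i - l) = 0) : False := by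
  classical
  have hv : ∃ v, ∃ l, l ≤ d ∧ PowerSeries.coeff v (D' l) ≠ 0 := by
    obtain ⟨l, hl, hne⟩ := hD
    by_contra hcon
    push Not at hcon
    apply hne
    ext v
    rw [hcon v l hl]
    simp
  set v := Nat.find hv with hvdef
  have hv1 : ∃ l, l ≤ d ∧ PowerSeries.coeff v (D' l) ≠ 0 := Nat.find_spec hv
  have hv2 : ∀ l, l ≤ d → (PowerSeries.X : S2) ^ v ∣ D' l := by
    intro l hl
    rw [PowerSeries.X_pow_dvd_iff]
    intro w hw
    by_contra hne
    exact Nat.find_min hv hw ⟨l, hl, hne⟩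
  -- the largest such `l`
  obtain ⟨l0, hl0, hl0max⟩ : ∃ l0, (l0 ≤ d ∧ PowerSeries.coeff v (D' l0) ≠ 0) ∧
      ∀ l, l ≤ d → l0 < l → PowerSeries.coeff v (D' l) = 0 := by
    have hne : ((Finset.range (d + 1)).filter
        fun l => PowerSeries.coeff v (D' l) ≠ 0).Nonempty := by
      obtain ⟨l, hl, hne⟩ := hv1
      exact ⟨l, by simp only [Finset.mem_filter, Finset.mem_range]; exact ⟨by omega, hne⟩⟩
    refine ⟨Finset.max' _ hne, ?_, ?_⟩
    · have := Finset.max'_mem _ hne
      simp only [Finset.mem_filter, Finset.mem_range] at this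
      exact ⟨by omega, this.2⟩
    · intro l hl hlt
      by_contra hc
      have : l ≤ Finset.max' _ hne := Finset.le_max' _ _ (by
        simp only [Finset.mem_filter, Finset.mem_range]; exact ⟨by omega, hc⟩)
      omega
  obtain ⟨m, i, hBi, hX, hgt, hi⟩ := h (B + d)
  have hr := hrel (i + l0) (by omega)
  have hr2 := congrArg (PowerSeries.coeff (v + m)) hr
  rw [map_sum, map_zero] at hr2
  have hterm : ∀ l ∈ Finset.range (d + 1), PowerSeries.coeff (v + m) (D' l * W (i + l0 - l)) =
      PowerSeries.coeff v (D' l) * PowerSeries.coeff m (W (i + l0 - l)) := by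
    intro l hl
    rw [Finset.mem_range] at hl
    exact coeff_mul_of_dvd (hv2 l (by omega)) (hX _ (by omega))
  rw [Finset.sum_congr rfl hterm, Finset.sum_eq_single l0] at hr2
  · rw [Nat.add_sub_cancel] at hr2
    exact mul_ne_zero hl0.2 hi hr2
  · intro l hl hne
    rw [Finset.mem_range] at hl
    rcases lt_or_gt_of_ne hne with hlt | hlt
    · rw [hgt _ (by omega), mul_zero]
    · rw [hl0max l (by omega) hlt, zero_mul]
  · intro hn
    exact absurd (Finset.mem_range.2 (by omega)) hn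

theorem gg_pos (n : ℕ) (f : Fi n) : 1 ≤ gg n f := by
  cases f <;> simp [gg]

theorem gg_le (n : ℕ) (hn : 1 ≤ n) (f : Fi n) : gg n f ≤ n := by
  cases f with
  | none => simpa [gg] using hn
  | some i =>
    have := i.2
    simp only [gg]
    omega

theorem gg_inj (n : ℕ) : Function.Injective (gg n) := by
  intro f f' h
  cases f with
  | none =>
    cases f' with
    | none => rfl
    | some i => simp only [gg] at h; omega
  | some i =>
    cases f' with
    | none => simp only [gg] at h; omega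
    | some j =>
      simp only [gg] at h
      congr 1
      exact Fin.ext (by omega)

end LIAAux

open LIAAux

theorem specLIA (hGRM : SpecGRM) : SpecLIA := by
  classical
  intro n hn δ hδ c D N hD hDN
  by_contra hcon
  push Not at hcon
  have hG := fun f => hGRM n hn f (δ f) (hδ f)
  set s := 2 * n + 3 with hs
  set d := D.natDegree with hd
  set W : ℕ → S2 := fun i => ∑ f, c f * δ f (2 * i + 2) with hW
  set D' : ℕ → S2 := fun l => D.coeff l * zz ^ (s * (d - l)) with hD'
  have hzz : ∀ k : ℕ, (zz : S2) ^ k ≠ 0 := fun k => pow_ne_zero _ PowerSeries.X_ne_zero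
  -- coefficients of the combination
  have hcoef : ∀ i, PowerSeries.coeff i (∑ f, PowerSeries.C (c f) * Dh n (δ f)) =
      zz ^ (s * (i + 1)) * W i := by
    intro i
    rw [map_sum, hW, Finset.mul_sum]
    refine Finset.sum_congr rfl fun f _ => ?_
    rw [PowerSeries.coeff_C_mul, Dh, PowerSeries.coeff_mk]
    ring
  -- the relation
  have hrel : ∀ i ≥ d + N.natDegree + 1,
      ∑ l ∈ Finset.range (d + 1), D' l * W (i - l) = 0 := by
    intro i hi
    have h1 := congrArg (PowerSeries.coeff i) hDN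
    rw [PowerSeries.coeff_mul, Polynomial.coeff_coe,
      Polynomial.coeff_eq_zero_of_natDegree_lt (by omega),
      Finset.Nat.sum_antidiagonal_eq_sum_range_succ
        (fun a b => PowerSeries.coeff a (D : PowerSeries S2) *
          PowerSeries.coeff b (∑ f, PowerSeries.C (c f) * Dh n (δ f)))] at h1
    have h2 : ∑ l ∈ Finset.range (d + 1), PowerSeries.coeff l (D : PowerSeries S2) *
        PowerSeries.coeff (i - l) (∑ f, PowerSeries.C (c f) * Dh n (δ f)) = 0 := by
      rw [← h1]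
      refine Finset.sum_subset ?_ ?_
      · intro l hl
        rw [Finset.mem_range] at hl ⊢
        omega
      · intro l _ hl
        rw [Finset.mem_range] at hl
        rw [Polynomial.coeff_coe, Polynomial.coeff_eq_zero_of_natDegree_lt (by omega), zero_mul]
    have h3 : zz ^ (s * (i - d + 1)) * ∑ l ∈ Finset.range (d + 1), D' l * W (i - l) = 0 := by
      rw [← h2, Finset.mul_sum]
      refine Finset.sum_congr rfl fun l hl => ?_
      rw [Finset.mem_range] at hl
      rw [hcoef, Polynomial.coeff_coe, hD']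
      have h4 : s * (i - l + 1) = s * (i - d + 1) + s * (d - l) := by
        rw [← Nat.mul_add]
        congr 1
        omega
      rw [h4, pow_add]
      ring
    exact (mul_eq_zero.1 h3).resolve_left (hzz _)
  refine key d D' W ⟨d, le_rfl, ?_⟩ ?_ _ hrel
  · rw [hD']
    simp only [Nat.sub_self, Nat.mul_zero, pow_zero, mul_one]
    exact Polynomial.leadingCoeff_ne_zero.2 hD
  · -- the orders of `W`
    intro B
    have he : ∃ e, ∃ f, PowerSeries.coeff e (c f) ≠ 0 := by
      obtain ⟨f, hf⟩ := hcon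
      by_contra hc
      push Not at hc
      apply hf
      ext e
      rw [hc e f]
      simp
    set e := Nat.find he with hedef
    have he1 : ∃ f, PowerSeries.coeff e (c f) ≠ 0 := Nat.find_spec he
    have he2 : ∀ f, (PowerSeries.X : S2) ^ e ∣ c f := by
      intro f
      rw [PowerSeries.X_pow_dvd_iff]
      intro w hw
      by_contra hne
      exact Nat.find_min he hw ⟨f, hne⟩
    obtain ⟨f0, hf0, hmax⟩ : ∃ f0, PowerSeries.coeff e (c f0) ≠ 0 ∧
        ∀ f, PowerSeries.coeff e (c f) ≠ 0 → gg n f ≤ gg n f0 := by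
      have hne : (Finset.univ.filter fun f => PowerSeries.coeff e (c f) ≠ 0).Nonempty := by
        obtain ⟨f, hf⟩ := he1
        exact ⟨f, by simpa using hf⟩
      obtain ⟨f0, hf0, hmax⟩ := Finset.exists_max_image _ (gg n) hne
      refine ⟨f0, by simpa using hf0, fun f hf => hmax f (by simpa using hf)⟩
    set g0 := gg n f0 with hg0
    have hg0pos : 1 ≤ g0 := gg_pos n f0
    -- `k` large
    set k := B + 2 * d + 5 with hk
    have hkB : k ≤ (2 * n) ^ (k - 1) := by
      have h1 : k - 1 < 2 ^ (k - 1) := Nat.lt_two_pow_self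
      have h2 : 2 ^ (k - 1) ≤ (2 * n) ^ (k - 1) := Nat.pow_le_pow_left (by omega) _
      omega
    have hpow : (2 * n) ^ k = 2 * n * (2 * n) ^ (k - 1) := by
      rw [← pow_succ']
      congr 1
    set A := (2 * n) ^ (k - 1) with hA
    -- `i = n A g0 - 2`
    have hnAg : A ≤ n * A * g0 := by
      calc A = 1 * A * 1 := by ring
        _ ≤ n * A * g0 := Nat.mul_le_mul (Nat.mul_le_mul hn le_rfl) hg0pos
    have h2i : 2 * (n * A * g0 - 2) + 2 = (2 * n) ^ k * g0 - 2 := by
      rw [hpow]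
      have : 2 * n * A * g0 = 2 * (n * A * g0) := by ring
      rw [this]
      omega
    -- divisibility of `δ`
    have hdiv : ∀ f j, n * A * g0 - 2 ≤ j + d → (PowerSeries.X : S2) ^ k ∣ δ f (2 * j + 2) := by
      intro f j hj
      rw [PowerSeries.X_pow_dvd_iff]
      intro l hl
      rcases Nat.eq_zero_or_pos l with rfl | hlpos
      · exact (hG f).1 _
      · refine ((hG f).2 l hlpos).1 _ ?_
        have h1 : (2 * n) ^ l ≤ A := Nat.pow_le_pow_right (by omega) (by omega)
        have h2 : (2 * n) ^ l * gg n f ≤ A * n := Nat.mul_le_mul h1 (gg_le n hn f)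
        have h3 : A * n ≤ n * A * g0 := by
          calc A * n = n * A * 1 := by ring
            _ ≤ n * A * g0 := Nat.mul_le_mul le_rfl hg0pos
        omega
    refine ⟨e + k, n * A * g0 - 2, by omega, ?_, ?_, ?_⟩
    · intro j hj
      rw [hW]
      refine Finset.dvd_sum fun f _ => ?_
      rw [pow_add]
      exact mul_dvd_mul (he2 f) (hdiv f j hj)
    · intro j hj
      rw [hW, map_sum]
      refine Finset.sum_eq_zero fun f _ => ?_
      rw [coeff_mul_of_dvd (he2 f) (hdiv f j (by omega))]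
      by_cases hf : PowerSeries.coeff e (c f) = 0
      · rw [hf, zero_mul]
      · have h1 : (2 * n) ^ k * gg n f ≤ (2 * n) ^ k * g0 := Nat.mul_le_mul le_rfl (hmax f hf)
        rw [((hG f).2 k (by omega)).1 _ (by omega), mul_zero]
    · rw [hW, map_sum]
      rw [Finset.sum_eq_single f0]
      · rw [coeff_mul_of_dvd (he2 f0) (hdiv f0 _ (by omega)), h2i, hg0,
          ((hG f0).2 k (by omega)).2, mul_one]
        exact hf0
      · intro f _ hne
        rw [coeff_mul_of_dvd (he2 f) (hdiv f _ (by omega))]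
        by_cases hf : PowerSeries.coeff e (c f) = 0
        · rw [hf, zero_mul]
        · have h0 : gg n f < g0 := lt_of_le_of_ne (hmax f hf) fun h => hne (gg_inj n h)
          have hAp : 4 ≤ (2 * n) ^ k := by
            rw [hpow]
            calc 4 ≤ A := by omega
              _ = 1 * A := by ring
              _ ≤ 2 * n * A := Nat.mul_le_mul (by omega) le_rfl
          have h1 : (2 * n) ^ k * (gg n f + 1) ≤ (2 * n) ^ k * g0 := Nat.mul_le_mul le_rfl h0
          have h2 : (2 * n) ^ k * (gg n f + 1) = (2 * n) ^ k * gg n f + (2 * n) ^ k := by ring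
          rw [h2i, ((hG f).2 k (by omega)).1 _ (by omega), mul_zero]
      · intro h
        exact absurd (Finset.mem_univ _) h

end Pool.Agent.Lib.MPba1bba.TM
end

section
/-!
# The growth series of `B(2,4n)` is transcendental: module LIB
-/
namespace Pool.Agent.Lib.MPba1bba.TM

open Polynomial TR

namespace LIBAux

theorem one_add_zz_ne : (1 + zz : S2) ≠ 0 := by
  intro h
  have := congrArg (PowerSeries.coeff 0) h
  simp at this

theorem hasOrd_ne {x : S2} {o : ℕ} (h : HasOrd x o) : x ≠ 0 := by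
  obtain ⟨t, rfl⟩ := h
  refine mul_ne_zero (pow_ne_zero _ PowerSeries.X_ne_zero) ?_
  intro h
  have := congrArg (PowerSeries.coeff 0) h
  simp at this

theorem ce_pos (n : ℕ) (hn : 1 ≤ n) : 1 ≤ ce n := by
  unfold ce
  exact Nat.mul_pos (by omega) (by omega)

theorem ev_add (n : ℕ) (hn : 1 ≤ n) (F G : PowerSeries S2) : ev n (F + G) = ev n F + ev n G :=
  ((specEC.1 n hn).1 F G).1

theorem ev_zero (n : ℕ) (hn : 1 ≤ n) : ev n (0 : PowerSeries S2) = 0 := by
  have h := ev_add n hn 0 0
  rw [add_zero] at h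
  exact (left_eq_add.1 h)

theorem ev_C_mul (n : ℕ) (hn : 1 ≤ n) (a : S2) (F : PowerSeries S2) :
    ev n (PowerSeries.C a * F) = a * ev n F := by
  rw [((specEC.1 n hn).1 _ F).2, (specEC.1 n hn).2.1]

theorem ev_sum (n : ℕ) (hn : 1 ≤ n) {ι : Type} (s : Finset ι) (F : ι → PowerSeries S2) :
    ev n (∑ i ∈ s, F i) = ∑ i ∈ s, ev n (F i) := by
  classical
  induction s using Finset.induction_on with
  | empty => simpa using ev_zero n hn
  | insert a s ha ih => rw [Finset.sum_insert ha, Finset.sum_insert ha, ev_add n hn, ih]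

theorem res_sum (n : ℕ) (hn : 1 ≤ n) {ι : Type} [Fintype ι] (c : ι → S2)
    (g : ι → PowerSeries S2) (β : ι → Polynomial S2) :
    Res n (∑ i, PowerSeries.C (c i) * g i) (∑ i, Polynomial.C (c i) * β i) =
      ∑ i, c i * Res n (g i) (β i) := by
  unfold Res
  rw [ev_sum _ (ce_pos n hn), Polynomial.eval_finset_sum, Finset.mul_sum,
    ← Finset.sum_add_distrib]
  refine Finset.sum_congr rfl fun i _ => ?_
  rw [ev_C_mul _ (ce_pos n hn), Polynomial.eval_mul, Polynomial.eval_C]
  ring

theorem solS_sum (n : ℕ) (hSGM : ∃ φ : PowerSeries S2 →+* PowerSeries S2,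
      (∀ F, φ F = sg n ((zz : S2) ^ ce n) F) ∧
      (∀ r : S2, sg n ((zz : S2) ^ ce n) (PowerSeries.C r) = PowerSeries.C r))
    {ι : Type} [Fintype ι] (c : ι → S2)
    (g : ι → PowerSeries S2) (β : ι → Polynomial S2) (h : ∀ i, SolS n (β i) (g i)) :
    SolS n (∑ i, Polynomial.C (c i) * β i) (∑ i, PowerSeries.C (c i) * g i) := by
  obtain ⟨φ, hφ, hC⟩ := hSGM
  unfold SolS at h ⊢
  rw [← hφ, map_sum]
  have hβ : ((∑ i, Polynomial.C (c i) * β i : Polynomial S2) : PowerSeries S2) =
      ∑ i, PowerSeries.C (c i) * (β i : PowerSeries S2) := by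
    rw [← Polynomial.coeToPowerSeries.ringHom_apply, map_sum]
    refine Finset.sum_congr rfl fun i _ => ?_
    rw [Polynomial.coeToPowerSeries.ringHom_apply, Polynomial.coe_mul, Polynomial.coe_C]
  rw [hβ, Finset.mul_sum, Finset.mul_sum, ← Finset.sum_add_distrib]
  refine Finset.sum_congr rfl fun i _ => ?_
  rw [map_mul, hφ, hφ, hC]
  have := h i
  calc (1 + PowerSeries.X) * (PowerSeries.C (c i) * g i)
      = PowerSeries.C (c i) * ((1 + PowerSeries.X) * g i) := by ring
    _ = _ := by rw [this]; ring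

end LIBAux

open LIBAux

theorem specLIB (hLIA : SpecLIA) (hRAT : SpecRAT) (hHGM : SpecHGM) (hSGM : SpecSGM) :
    SpecLIB := by
  classical
  intro n hn G hG hδ' c D N hD hDN
  choose δ hδ using hδ'
  obtain ⟨hord, hH⟩ := hHGM n hn G hG
  have hS := hSGM n hn
  obtain ⟨φ, hφ, hφC, -, -⟩ := hS.1 S2 ((zz : S2) ^ ce n)
  have hsol : ∀ i, SolS n (pS (bet n i)) (toS (G i)) := fun i =>
    hS.2.2.2.2.2.2 _ _ (hG i)
  have hsum := solS_sum n ⟨φ, hφ, hφC⟩ c (fun i => toS (G i)) (fun i => pS (bet n i)) hsol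
  have hres := hRAT n hn _ _ hsum D N hD hDN
  rw [res_sum n hn] at hres
  -- the constant `c'`
  set c' : S2 := c none - ∑ f, c (some f) * ((1 + zz) * δ f 0) with hc'
  have hres2 : c' * Fv n G none = 0 := by
    rw [← hres, Fintype.sum_option, hc', sub_mul, Finset.sum_mul, sub_eq_add_neg,
      ← Finset.sum_neg_distrib]
    congr 1
    refine Finset.sum_congr rfl fun f _ => ?_
    have h1 := (hH f (δ f) (hδ f)).2.1
    have h2 : Res n (toS (G (some f))) (pS (bet n (some f))) =
        -((1 + zz) * δ f 0 * Fv n G none) := by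
      rw [eq_neg_iff_add_eq_zero]
      exact h1
    rw [h2]
    ring
  have hc'0 : c' = 0 := (mul_eq_zero.1 hres2).resolve_right (hasOrd_ne hord)
  -- the combination of the dual series
  have hcomb : ∑ i, PowerSeries.C (c i) * toS (G i) =
      ∑ f, PowerSeries.C (c (some f) * (1 + zz)) * Dh n (δ f) := by
    have h1 : ∀ f, PowerSeries.C (c (some f) * (1 + zz)) * Dh n (δ f) =
        PowerSeries.C (c (some f)) * toS (G (some f)) +
          PowerSeries.C (c (some f) * ((1 + zz) * δ f 0)) * toS (G none) := by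
      intro f
      rw [map_mul, mul_assoc, (hH f (δ f) (hδ f)).1, map_mul (PowerSeries.C) (c (some f))]
      ring
    rw [Finset.sum_congr rfl fun f _ => h1 f, Finset.sum_add_distrib, ← Finset.sum_mul,
      ← map_sum, Fintype.sum_option]
    have h2 : c none = ∑ f, c (some f) * ((1 + zz) * δ f 0) := by
      rw [hc', sub_eq_zero] at hc'0
      exact hc'0
    rw [← h2]
    ring
  rw [hcomb] at hDN
  have hz := hLIA n hn δ hδ (fun f => c (some f) * (1 + zz)) D N hD hDN
  have hz' : ∀ f, c (some f) = 0 := fun f =>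
    (mul_eq_zero.1 (hz f)).resolve_right one_add_zz_ne
  intro i
  cases i with
  | none =>
    rw [hc', sub_eq_zero] at hc'0
    rw [hc'0]
    refine Finset.sum_eq_zero fun f _ => ?_
    rw [hz' f, zero_mul]
  | some f => exact hz' f

end Pool.Agent.Lib.MPba1bba.TM
end

section
/-!
# Module MOM: the value modulo 4
-/
namespace Pool.Agent.Lib.MPba1bba.TM

open Polynomial TR

namespace MOMAux

/-- reduction modulo `2` as a ring homomorphism -/
noncomputable def φ : PowerSeries ℤ →+* S2 := PowerSeries.map (Int.castRingHom (ZMod 2))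

theorem φ_eq (f : PowerSeries ℤ) : bar0 f = φ f := rfl

theorem φ_z : φ zz = zz := PowerSeries.map_X _

theorem two_eq : (2 : S2) = 0 := by
  have : ((2 : ZMod 2)) = 0 := rfl
  have h2 : (2 : S2) = PowerSeries.C (2 : ZMod 2) := (map_ofNat PowerSeries.C 2).symm
  rw [h2, this, map_zero]

theorem two_ne : (2 : PowerSeries ℤ) ≠ 0 := by
  intro h
  have h1 := congrArg (PowerSeries.coeff 0) h
  have h2 : (2 : PowerSeries ℤ) = PowerSeries.C (2 : ℤ) := (map_ofNat PowerSeries.C 2).symm
  rw [h2, PowerSeries.coeff_zero_C, map_zero] at h1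
  exact two_ne_zero h1

theorem T_ne (w : S2) : (1 + zz * w : S2) ≠ 0 := by
  intro h
  have h1 := congrArg (PowerSeries.coeff 0) h
  simp at h1

theorem alg_X : algebraMap P2 S2 X = zz := by
  simp [PowerSeries.algebraMap_apply']

/-- The coefficients of `R - 1` modulo 2. -/
noncomputable def px (n : ℕ) : ℕ → P2
  | 0 => 0
  | 1 => X + X ^ (2 * n + 2)
  | (v + 2) => X ^ (2 * n + 3) * px n v

theorem cf_add {R : Type} [CommRing R] (v : ℕ) (F G : PowerSeries R[X]) :
    cf v (F + G) = cf v F + cf v G := by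
  ext k
  simp [cf]

theorem cf_zz {R : Type} [CommRing R] (v : ℕ) (F : PowerSeries R[X]) :
    cf v (zz * F) = zz * cf v F := by
  ext k
  cases k with
  | zero => simp [cf]
  | succ k => simp [cf, PowerSeries.coeff_succ_X_mul]

theorem cf_zz_pow {R : Type} [CommRing R] (v e : ℕ) (F : PowerSeries R[X]) :
    cf v (zz ^ e * F) = zz ^ e * cf v F := by
  induction e with
  | zero => simp
  | succ e ih =>
    rw [pow_succ', mul_assoc, cf_zz, ih, pow_succ', mul_assoc]

theorem cf_uu {R : Type} [CommRing R] (v : ℕ) (F : PowerSeries R[X]) :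
    cf (v + 1) (uu * F) = cf v F := by
  ext k
  simp [cf, uu, PowerSeries.coeff_C_mul]

theorem cf_uu_zero {R : Type} [CommRing R] (F : PowerSeries R[X]) :
    cf 0 (uu * F) = 0 := by
  ext k
  simp [cf, uu, PowerSeries.coeff_C_mul]

theorem cf_one {R : Type} [CommRing R] (v : ℕ) :
    cf v (1 : PowerSeries R[X]) = if v = 0 then 1 else 0 := by
  ext k
  by_cases hv : v = 0
  · subst hv
    by_cases hk : k = 0
    · subst hk; simp [cf]
    · simp [cf, PowerSeries.coeff_one, hk]
  · by_cases hk : k = 0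
    · subst hk; simp [cf, hv, Polynomial.coeff_one]
    · simp [cf, PowerSeries.coeff_one, hk, hv]

/-- `R` modulo `2` has polynomial coefficients. -/
theorem cf_R (n : ℕ) (x : PowerSeries (ZMod 2)[X])
    (hx : x + zz ^ (2 * n + 3) * (uu * (uu * x)) = (zz + zz ^ (2 * n + 2)) * uu) :
    ∀ v, cf v x = algebraMap P2 S2 (px n v) := by
  have hz : ∀ v, cf v ((zz + zz ^ (2 * n + 2)) * uu : PowerSeries (ZMod 2)[X]) =
      if v = 1 then zz + zz ^ (2 * n + 2) else 0 := by
    intro v
    rw [add_mul, cf_add, show (zz * uu : PowerSeries (ZMod 2)[X]) = zz * (uu * 1) by ring,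
      show (zz ^ (2 * n + 2) * uu : PowerSeries (ZMod 2)[X]) = zz ^ (2 * n + 2) * (uu * 1) by ring,
      cf_zz, cf_zz_pow]
    cases v with
    | zero => rw [cf_uu_zero, if_neg (by omega)]; ring
    | succ v =>
      rw [cf_uu, cf_one]
      by_cases h : v = 0
      · subst h; simp
      · rw [if_neg h, if_neg (by omega)]; ring
  intro v
  induction v using Nat.strong_induction_on with
  | _ v ih =>
    have h := congrArg (cf v) hx
    rw [cf_add, cf_zz_pow, hz] at h
    match v, ih, h with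
    | 0, _, h =>
      rw [cf_uu_zero] at h
      simp only [px, map_zero]
      simpa using h
    | 1, _, h =>
      rw [show (1 : ℕ) = 0 + 1 from rfl, cf_uu, cf_uu_zero] at h
      simp only [px, map_add, map_pow, alg_X]
      simpa using h
    | (v + 2), ih, h =>
      rw [show v + 2 = (v + 1) + 1 from rfl, cf_uu, cf_uu, ih v (by omega)] at h
      simp only [px, map_mul, map_pow, alg_X]
      have h2 : (if v + 1 + 1 = 1 then (zz : S2) + zz ^ (2 * n + 2) else 0) = 0 := by
        rw [if_neg (by omega)]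
      rw [h2] at h
      linear_combination h - zz ^ (2 * n + 3) * algebraMap P2 S2 (px n v) * two_eq

/-- `X` modulo 2 as a polynomial. -/
noncomputable def pX (n : ℕ) : P2 := ∑ v ∈ Finset.range (2 * n),
  (∑ t ∈ Finset.range ((2 * n - v) / 2), (X : P2) ^ (2 * (t + 1))) *
    (px n v + if v = 0 then 1 else 0)

end MOMAux

open MOMAux in
theorem specMOM (hEVM : SpecEVM) (hBAM : SpecBAM) (hEMM : SpecEMM) (hEV : SpecEV) (hBA : SpecBA) :
    SpecMOM := by
  intro n hn
  refine ⟨X ^ 3 * (1 + X ^ (2 * n + 2)) * (1 + X ^ (2 * n + 3)) +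
    X ^ 2 * (1 + X ^ (2 * n + 3)) ^ 2 * pX n, ?_⟩
  intro Q E H hS
  obtain ⟨-, -, -, -, -, -, -, hm, ⟨e11, e01, d11, e1z, e0z, d1z, e1u, e0u, d1u⟩⟩ := hEV ℤ
  obtain ⟨-, -, -, -, -, -, -, hm', ⟨e11', e01', d11', e1z', e0z', d1z', e1u', e0u', d1u'⟩⟩ :=
    hEV (ZMod 2)
  have e1a := fun F G => (hm F G).1
  have e1m := fun F G => (hm F G).2.1
  have d1a := fun F G => (hm F G).2.2.2.2.1
  have d1m := fun F G => (hm F G).2.2.2.2.2
  have e1a' := fun F G => (hm' F G).1
  have e1m' := fun F G => (hm' F G).2.1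
  have d1a' := fun F G => (hm' F G).2.2.2.2.1
  have d1m' := fun F G => (hm' F G).2.2.2.2.2
  obtain ⟨bE, bQ, bA, bH, -, -⟩ := hEMM n hn Q E H hS
  obtain ⟨bmul, b1, bz, bu, -, bev, -, bdiv⟩ := hBA
  obtain ⟨hQ, hE, -⟩ := hS
  have hL := (hEVM ℤ (2 * n) (by omega)).2.2.2.2
  have hL2 := (hEVM (ZMod 2) (2 * n) (by omega)).2.2.2.2
  -- powers of `z`
  have e1p : ∀ k : ℕ, ev1 (zz ^ k : PowerSeries (ZMod 2)[X]) = zz ^ k := by
    intro k
    induction k with
    | zero => simpa using e11'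
    | succ k ih => rw [pow_succ, e1m', ih, e1z', pow_succ]
  have d1p : ∀ k : ℕ, dv1 (zz ^ k : PowerSeries (ZMod 2)[X]) = 0 := by
    intro k
    induction k with
    | zero => simpa using d11'
    | succ k ih => rw [pow_succ, d1m', ih, d1z']; ring
  -- values at `u = 1` over `ℤ`
  have q1 : ev1 Q = zz + zz * ev1 E * ev1 Q := by
    have h := congrArg ev1 hQ
    simp only [e1a, e1m, e1z, e1u] at h
    linear_combination h
  have q2 : dv1 Q = zz + zz * ev1 E * ev1 Q + zz * dv1 E * ev1 Q + zz * ev1 E * dv1 Q := by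
    have h := congrArg dv1 hQ
    simp only [e1a, e1m, e1z, e1u, d1a, d1m, d1z, d1u] at h
    linear_combination h
  have neg1 : ∀ F G : PowerSeries ℤ[X], ev1 (F - G) = ev1 F - ev1 G := by
    intro F G
    have := e1a (F - G) G
    rw [sub_add_cancel] at this
    linear_combination -this
  have negd : ∀ F G : PowerSeries ℤ[X], dv1 (F - G) = dv1 F - dv1 G := by
    intro F G
    have := d1a (F - G) G
    rw [sub_add_cancel] at this
    linear_combination -this
  set R : PowerSeries ℤ[X] := 1 + E + Q * (1 + E) ^ 2 with hR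
  set XX : PowerSeries ℤ := ∑ v ∈ Finset.range (2 * n), ch ℤ (2 * n) v * cf v R with hXX
  have r1 : ev1 R = 1 + ev1 E + ev1 Q * (1 + ev1 E) ^ 2 := by
    rw [hR, pow_two]
    simp only [e1a, e1m, e11]
    ring
  have r2 : dv1 R = dv1 E + dv1 Q * (1 + ev1 E) ^ 2 + 2 * ev1 Q * (1 + ev1 E) * dv1 E := by
    rw [hR, pow_two]
    simp only [e1a, e1m, e11, d1a, d1m, d11]
    ring
  have aa : ev1 E + dv1 E = zz ^ 2 * (ev1 R + dv1 R + 2 * XX - 1) := by
    have h := congrArg ev1 hE
    have h' := congrArg dv1 hE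
    rw [pow_two zz] at h h'
    simp only [e1m, neg1, e1z, e11, d1m, negd, d1z, d11] at h h'
    have h3 := hL R
    rw [← hXX] at h3
    linear_combination h + h' + zz ^ 2 * h3
  have f1 : ev1 (FF2 Q E H) = 1 + ev1 E + 2 * ev1 H + ev1 Q * (1 + ev1 E + ev1 H) ^ 2 := by
    unfold FF2
    rw [pow_two, two_mul]
    simp only [e1a, e1m, e11]
    ring
  have f2 : dv1 (FF2 Q E H) = dv1 E + 2 * dv1 H + dv1 Q * (1 + ev1 E + ev1 H) ^ 2 +
      2 * ev1 Q * (1 + ev1 E + ev1 H) * (dv1 E + dv1 H) := by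
    unfold FF2
    rw [pow_two, two_mul]
    simp only [e1a, e1m, e11, d1a, d1m, d11]
    ring
  -- reductions
  set w : S2 := zz ^ (2 * n + 2) with hw
  have hzw : (zz : S2) ^ (2 * n + 3) = zz * w := by rw [hw]; ring
  have rE1 : φ (ev1 E) = w := by
    rw [← φ_eq, (bev E).2.1, bE]
    simp only [e1m', e1p, e1u']
    rw [mul_one]
  have rE2 : φ (dv1 E) = w := by
    rw [← φ_eq, (bev E).2.2, bE]
    simp only [d1m', e1p, d1p, e1u', d1u']
    ring
  have bQ' : (1 + zz ^ (2 * n + 3) * (uu * uu)) * bar Q = zz * uu := by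
    rw [← bQ]
    ring
  have rQ1 : (1 + zz * w) * φ (ev1 Q) = zz := by
    rw [← φ_eq, (bev Q).2.1, ← hzw]
    have h := congrArg ev1 bQ'
    simp only [e1a', e1m', e11', e1z', e1u', e1p] at h
    linear_combination h
  have rQ2 : (1 + zz * w) * φ (dv1 Q) = zz := by
    rw [← φ_eq, (bev Q).2.2, ← hzw]
    have h := congrArg dv1 bQ'
    simp only [e1a', e1m', e11', e1z', e1u', d1a', d1m', d11', d1z', d1u', e1p, d1p] at h
    linear_combination h - zz ^ (2 * n + 3) * ev1 (bar Q) * two_eq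
  have rQ : φ (dv1 Q) = φ (ev1 Q) := mul_left_cancel₀ (T_ne w) (rQ2.trans rQ1.symm)
  obtain ⟨σ, hσ⟩ := bdiv (ev1 E + dv1 E) (by
    rw [φ_eq, map_add, rE1, rE2]
    linear_combination w * two_eq)
  obtain ⟨y, hy⟩ := bdiv (ev1 Q + dv1 Q) (by
    rw [φ_eq, map_add, rQ]
    linear_combination φ (ev1 Q) * two_eq)
  have two_c := two_ne
  -- the equations divided by `2`
  have hy' : (1 - zz * ev1 E) * y = zz + zz * ev1 Q * σ := by
    refine mul_left_cancel₀ two_c ?_
    linear_combination (-(1 - zz * ev1 E)) * hy + q1 + q2 + zz * ev1 Q * hσ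
  have hσ' : σ = zz ^ 2 * (σ + y * (1 + ev1 E) ^ 2 + ev1 Q * (1 + ev1 E) * dv1 E + XX) := by
    refine mul_left_cancel₀ two_c ?_
    linear_combination (-1) * hσ + aa + zz ^ 2 * r1 + zz ^ 2 * r2 + zz ^ 2 * hσ +
      zz ^ 2 * (1 + ev1 E) ^ 2 * hy
  -- the polynomial `X`
  have hXp : φ XX = algebraMap P2 S2 (pX n) := by
    have hbR : bar R = (1 + bar E) * (1 + bar Q * (1 + bar E)) := by
      rw [hR, pow_two]
      simp only [(bmul _ _).1, (bmul _ _).2, b1]
      ring
    have two_W : (2 : PowerSeries (ZMod 2)[X]) = 0 := by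
      have : ((2 : (ZMod 2)[X])) = 0 := by
        have h2 : (2 : (ZMod 2)[X]) = C (2 : ZMod 2) := (map_ofNat C 2).symm
        rw [h2, show (2 : ZMod 2) = 0 from rfl, map_zero]
      have h2 : (2 : PowerSeries (ZMod 2)[X]) = PowerSeries.C (2 : (ZMod 2)[X]) :=
        (map_ofNat PowerSeries.C 2).symm
      rw [h2, this, map_zero]
    have hx : (bar R - 1) + zz ^ (2 * n + 3) * (uu * (uu * (bar R - 1))) =
        (zz + zz ^ (2 * n + 2)) * uu := by
      rw [hbR]
      have h1 := bA
      rw [bE] at h1 ⊢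
      have h2 : (zz : PowerSeries (ZMod 2)[X]) ^ (2 * n + 3) = zz * zz ^ (2 * n + 2) := by ring
      rw [h2] at h1 ⊢
      linear_combination (1 + zz ^ (2 * n + 2) * uu) * h1
    have hc := cf_R n _ hx
    have hc2 : ∀ v, cf v (bar R) = algebraMap P2 S2 (px n v + if v = 0 then 1 else 0) := by
      intro v
      have : bar R = (bar R - 1) + 1 := by ring
      rw [this, cf_add, hc, cf_one, map_add]
      congr 1
      split_ifs <;> simp
    rw [← φ_eq, hXX]
    have hs : bar0 (∑ v ∈ Finset.range (2 * n), ch ℤ (2 * n) v * cf v R) =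
        ∑ v ∈ Finset.range (2 * n), bar0 (ch ℤ (2 * n) v) * bar0 (cf v R) := by
      rw [φ_eq, map_sum]
      refine Finset.sum_congr rfl fun v _ => ?_
      rw [map_mul]
      rfl
    rw [hs, pX, map_sum]
    refine Finset.sum_congr rfl fun v _ => ?_
    rw [map_mul, hBAM.2.1, hBAM.2.2, hc2]
    congr 1
    unfold ch
    rw [map_sum]
    refine Finset.sum_congr rfl fun t _ => ?_
    rw [map_pow, alg_X]
  -- the value of `H`
  set A : PowerSeries (ZMod 2)[X] := 1 + bar Q * (1 + bar E) with hA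
  have A1 : (1 + zz * w) * ev1 A = 1 + zz := by
    have h := congrArg ev1 bA
    rw [pow_two] at h
    simp only [e1a', e1m', e11', e1z', e1u', e1p, hzw] at h
    linear_combination h
  have A2 : (1 + zz * w) * dv1 A = zz := by
    have h := congrArg dv1 bA
    rw [pow_two] at h
    simp only [e1a', e1m', e11', e1z', e1u', d1a', d1m', d11', d1z', d1u', e1p, d1p, hzw] at h
    linear_combination h - zz * w * ev1 A * two_eq
  have hh : ev1 (bar H) + dv1 (bar H) = zz * (ev1 A * ev1 (bar H) + dv1 A * ev1 (bar H) +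
      ev1 A * dv1 (bar H)) + zz := by
    have h := congrArg ev1 bH
    have h' := congrArg dv1 bH
    simp only [e1a', e1m', e1z', e1u', d1a', d1m', d1z', d1u', e1p, d1p] at h h'
    have h3 := hL2 (A * bar H)
    rw [e1m', d1m'] at h3
    linear_combination h + h' + zz * h3 + (zz ^ (2 * n + 1) +
      zz * ∑ v ∈ Finset.range (2 * n), ch (ZMod 2) (2 * n) v * cf v (A * bar H)) * two_eq
  have e2 := congrArg φ hy'
  have e1 := congrArg φ hσ'
  simp only [map_mul, map_sub, map_add, map_one, map_pow, φ_z, rE1, rE2, hXp] at e1 e2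
  have e3 : (1 + zz * w) ^ 2 * φ y = zz * (1 + zz * w) + zz ^ 2 * φ σ := by
    linear_combination (1 + zz * w) * e2 + zz * φ σ * rQ1 + (1 + zz * w) * (zz * w) * φ y * two_eq
  refine ⟨σ + (ev1 H + dv1 H) + y * (1 + ev1 E + ev1 H) ^ 2 +
    ev1 Q * (1 + ev1 E + ev1 H) * (dv1 E + dv1 H), ?_, φ σ, φ (dv1 H), ?_, ?_, ?_⟩
  · rw [f1, f2]
    linear_combination hσ + (1 + ev1 E + ev1 H) ^ 2 * hy
  · rw [hzw]
    simp only [map_add, map_mul, map_one, map_pow, alg_X]
    rw [← hw, hzw]
    clear_value w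
    generalize φ σ = σ' at *
    generalize φ y = y' at *
    generalize φ (ev1 Q) = q at *
    generalize algebraMap P2 S2 (pX n) = x at *
    clear e2 hh A1 A2
    linear_combination (1 + zz * w) ^ 2 * e1 + zz ^ 2 * (1 + w) ^ 2 * e3 +
      zz ^ 2 * (1 + zz * w) * (1 + w) * w * rQ1 + (σ' * zz + σ' * zz ^ 2 * 2 + σ' * zz ^ 2 * w +
      σ' * zz ^ 3 + σ' * zz ^ 3 * w * 2 + σ' * zz ^ 4 + σ' * zz ^ 4 * w + σ' * zz ^ 4 * w ^ 2 +
      zz ^ 3 * w + zz ^ 3 * w ^ 2 + zz ^ 4 * w ^ 2 + zz ^ 4 * w ^ 3) * two_eq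
  · rw [hzw, ← (bev H).2.1, φ_eq]
    have hh' : φ (ev1 H) + φ (dv1 H) = zz * (ev1 A * φ (ev1 H) + dv1 A * φ (ev1 H) +
      ev1 A * φ (dv1 H)) + zz := by
      rw [← φ_eq, ← φ_eq, (bev H).2.1, (bev H).2.2]
      exact hh
    generalize φ (ev1 H) = h at *
    generalize φ (dv1 H) = h' at *
    generalize ev1 A = a at *
    generalize dv1 A = a' at *
    linear_combination (1 + zz * w) * hh' + (zz * h + zz * h') * A1 + zz * h * A2 +
      (h' * zz + h' * zz ^ 2 + zz ^ 2 * h - zz * w * h - h) * two_eq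
  · rw [φ_eq, hzw, ← (bev H).2.1, φ_eq]
    simp only [map_mul, map_sub, map_add, map_one, map_pow, φ_z, rE1, rE2]
    generalize φ (ev1 H) = h at *
    generalize φ (dv1 H) = h' at *
    generalize φ σ = σ' at *
    generalize φ y = y' at *
    generalize φ (ev1 Q) = q at *
    linear_combination (1 + w + h) ^ 2 * e3 + (1 + zz * w) * (1 + w + h) * (w + h') * rQ1

end Pool.Agent.Lib.MPba1bba.TM
end

section
/-!
# Module NVM: nonvanishing on the orbit
-/
namespace Pool.Agent.Lib.MPba1bba.TM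

open Polynomial TR

namespace NVMAux

/-! ## Exact orders -/

theorem hasOrd_one : HasOrd 1 0 := ⟨0, by simp⟩

theorem hasOrd_mul {x y : S2} {a b : ℕ} (hx : HasOrd x a) (hy : HasOrd y b) :
    HasOrd (x * y) (a + b) := by
  obtain ⟨s, rfl⟩ := hx
  obtain ⟨t, rfl⟩ := hy
  exact ⟨s + t + zz * s * t, by ring⟩

theorem hasOrd_pow {x : S2} {a : ℕ} (hx : HasOrd x a) (j : ℕ) : HasOrd (x ^ j) (j * a) := by
  induction j with
  | zero => simpa using hasOrd_one
  | succ j ih =>
    rw [pow_succ, Nat.succ_mul]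
    exact hasOrd_mul ih hx

/-- Every nonzero series has an exact order. -/
theorem exists_hasOrd {x : S2} (hx : x ≠ 0) : ∃ o, HasOrd x o := by
  classical
  have hex : ∃ m, PowerSeries.coeff m x ≠ 0 := by
    by_contra hcon
    push Not at hcon
    exact hx (by ext1 m; rw [hcon m, map_zero])
  set m := Nat.find hex with hm
  have hm1 : PowerSeries.coeff m x ≠ 0 := Nat.find_spec hex
  have hm2 : ∀ j < m, PowerSeries.coeff j x = 0 := fun j hj => by
    have := Nat.find_min hex hj
    push Not at this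
    exact this
  obtain ⟨r, hr⟩ := PowerSeries.X_pow_dvd_iff.2 hm2
  have hr0 : PowerSeries.coeff 0 r ≠ 0 := by
    rw [hr, PowerSeries.coeff_X_pow_mul', if_pos le_rfl, Nat.sub_self] at hm1
    exact hm1
  have hr1 : PowerSeries.coeff 0 r = 1 := by
    generalize PowerSeries.coeff 0 r = c at hr0
    revert c
    decide
  have h1 : PowerSeries.X ∣ r - 1 := by
    rw [PowerSeries.X_dvd_iff, map_sub, map_one, ← PowerSeries.coeff_zero_eq_constantCoeff_apply,
      hr1, sub_self]
  obtain ⟨t, ht⟩ := h1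
  exact ⟨m, t, by rw [hr, ← ht]; ring⟩

theorem coeff_hasOrd {x : S2} {a : ℕ} (hx : HasOrd x a) : PowerSeries.coeff a x = 1 := by
  obtain ⟨t, rfl⟩ := hx
  rw [PowerSeries.coeff_X_pow_mul', if_pos le_rfl, Nat.sub_self, map_add,
    PowerSeries.coeff_one, if_pos rfl]
  simp

theorem coeff_hasOrd_lt {x : S2} {a : ℕ} (hx : HasOrd x a) {k : ℕ} (hk : k < a) :
    PowerSeries.coeff k x = 0 := by
  obtain ⟨t, rfl⟩ := hx
  rw [PowerSeries.coeff_X_pow_mul', if_neg (by omega)]

/-- A nonempty sum of elements of pairwise different orders is not `0`. -/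
theorem sum_ne_zero {s : Finset ℕ} (hs : s.Nonempty) (x : ℕ → S2) (f : ℕ → ℕ)
    (hx : ∀ j ∈ s, HasOrd (x j) (f j)) (hf : ∀ i ∈ s, ∀ j ∈ s, i ≠ j → f i ≠ f j) :
    ∑ j ∈ s, x j ≠ 0 := by
  obtain ⟨j₀, hj₀, hmin⟩ := Finset.exists_min_image s f hs
  intro h0
  have h1 := congrArg (PowerSeries.coeff (f j₀)) h0
  rw [map_sum, Finset.sum_eq_single_of_mem j₀ hj₀, coeff_hasOrd (hx _ hj₀), map_zero] at h1
  · exact one_ne_zero h1
  · intro j hj hne
    refine coeff_hasOrd_lt (hx _ hj) ?_
    have h2 := hmin j hj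
    have h3 := hf j hj j₀ hj₀ hne
    omega

/-! ## Evaluation -/

/-- Evaluation at `y = z ^ N` as a ring homomorphism. -/
noncomputable def evH (N : ℕ) (hN : 1 ≤ N) : PowerSeries S2 →+* S2 where
  toFun := ev N
  map_one' := by have := ECM.ev_C N (1 : S2); rwa [map_one] at this
  map_mul' := ECM.ev_mul hN
  map_zero' := by have := ECM.ev_C N (0 : S2); rwa [map_zero] at this
  map_add' := ECM.ev_add N

theorem evH_apply (N : ℕ) (hN : 1 ≤ N) (F : PowerSeries S2) : evH N hN F = ev N F := rfl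

/-- The order of a value at `z ^ N`, `N` large. -/
theorem ord_ev (q : PowerSeries S2) (hq : q ≠ 0) :
    ∃ e o N₀ : ℕ, ∀ N ≥ N₀, HasOrd (ev N q) (N * e + o) := by
  classical
  have hex : ∃ m, PowerSeries.coeff m q ≠ 0 := by
    by_contra hcon
    push Not at hcon
    exact hq (by ext1 m; rw [hcon m, map_zero])
  set m := Nat.find hex with hm
  have hm1 : PowerSeries.coeff m q ≠ 0 := Nat.find_spec hex
  have hm2 : ∀ j < m, PowerSeries.coeff j q = 0 := fun j hj => by
    have := Nat.find_min hex hj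
    push Not at this
    exact this
  obtain ⟨r, hr⟩ := PowerSeries.X_pow_dvd_iff.2 hm2
  have hr0 : PowerSeries.coeff 0 r ≠ 0 := by
    rw [hr, PowerSeries.coeff_X_pow_mul', if_pos le_rfl, Nat.sub_self] at hm1
    exact hm1
  obtain ⟨o, t, ht⟩ := exists_hasOrd hr0
  have h1 : PowerSeries.X ∣ r - PowerSeries.C (PowerSeries.coeff 0 r) := by
    rw [PowerSeries.X_dvd_iff, map_sub, PowerSeries.constantCoeff_C,
      ← PowerSeries.coeff_zero_eq_constantCoeff_apply, sub_self]
  obtain ⟨w, hw⟩ := h1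
  have hrw : r = PowerSeries.C (PowerSeries.coeff 0 r) + PowerSeries.X * w := by
    rw [← hw]; ring
  refine ⟨m, o, o + 1, fun N hN => ?_⟩
  have hN1 : 1 ≤ N := by omega
  rw [hr, ECM.ev_mul hN1, ECM.ev_pow hN1, ECM.ev_X hN1, ← pow_mul]
  refine hasOrd_mul ⟨0, by simp⟩ ?_
  rw [hrw, ECM.ev_add, ECM.ev_C, ECM.ev_mul hN1, ECM.ev_X hN1, ht]
  obtain ⟨d, rfl⟩ := Nat.exists_eq_add_of_le hN
  exact ⟨t + zz ^ d * ev (o + 1 + d) w, by ring⟩

/-! ## The exponents -/

theorem Nk_pos {n : ℕ} (hn : 1 ≤ n) (k : ℕ) : 1 ≤ Nk n k := by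
  unfold Nk
  have h1 : 2 ^ 1 ≤ (2 * n) ^ (k + 1) :=
    (Nat.pow_le_pow_right (by norm_num) (by omega)).trans
      (Nat.pow_le_pow_left (by omega : 2 ≤ 2 * n) (k + 1))
  exact Nat.mul_pos (by omega) (by omega)

theorem sq_le (m : ℕ) : m ^ 2 + 5 ≤ 5 * 2 ^ m := by
  induction m with
  | zero => norm_num
  | succ m ih =>
    have h : (m + 1) ^ 2 + 5 ≤ 2 * (m ^ 2 + 5) := by
      rcases m with _ | _ | m
      · norm_num
      · norm_num
      · nlinarith
    rw [pow_succ 2 m]
    omega

theorem Nk_ge {n : ℕ} (hn : 1 ≤ n) (k : ℕ) : (k + 1) ^ 2 ≤ Nk n k := by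
  unfold Nk
  have h1 : 2 ^ (k + 1) ≤ (2 * n) ^ (k + 1) := Nat.pow_le_pow_left (by omega : 2 ≤ 2 * n) (k + 1)
  have h2 := sq_le (k + 1)
  have h3 : 5 * (2 ^ (k + 1) - 1) ≤ (2 * n + 3) * ((2 * n) ^ (k + 1) - 1) :=
    Nat.mul_le_mul (by omega) (by omega)
  omega

theorem al_Nk {n : ℕ} (hn : 1 ≤ n) (k : ℕ) :
    (2 * n - 1 : ℤ) * (al n k : ℤ) + (2 * n - 1) * (2 * n + 1) * (k + 1) = n * (Nk n k : ℤ) := by
  have hN : ∀ k, (Nk n k : ℤ) = (2 * n + 3) * ((2 * n) ^ (k + 1) - 1) := by
    intro k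
    unfold Nk
    have : 1 ≤ (2 * n) ^ (k + 1) := Nat.one_le_pow _ _ (by omega)
    push_cast [Nat.cast_sub this]
    ring
  have hs : ∀ l : ℕ, ((n * (2 * n + 3) * (2 * n) ^ l - (2 * n + 1) : ℕ) : ℤ) =
      n * (2 * n + 3) * (2 * n) ^ l - (2 * n + 1) := by
    intro l
    have h1 : 1 ≤ (2 * n) ^ l := Nat.one_le_pow _ _ (by omega)
    have h2 : 2 * n + 1 ≤ n * (2 * n + 3) * (2 * n) ^ l := by
      calc 2 * n + 1 ≤ n * (2 * n + 3) * 1 := by nlinarith
        _ ≤ _ := Nat.mul_le_mul_left _ h1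
    push_cast [Nat.cast_sub h2]
    ring
  induction k with
  | zero =>
    unfold al
    rw [Finset.sum_range_one, hs, hN]
    push_cast
    ring
  | succ k ih =>
    have h1 : (al n (k + 1) : ℤ) = al n k + (n * (2 * n + 3) * (2 * n) ^ (k + 1) - (2 * n + 1)) := by
      unfold al
      rw [Finset.sum_range_succ _ (k + 1), Nat.cast_add, hs]
    rw [hN] at ih
    rw [h1, hN]
    push_cast
    linear_combination ih

/-- The orders of different terms are different for large `k`. -/
theorem orders_ne {n : ℕ} (hn : 1 ≤ n) (j j' e e' o o' : ℕ) (hj : j ≠ j') :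
    ∃ K : ℕ, ∀ k ≥ K, Nk n k * e + o + j * al n k ≠ Nk n k * e' + o' + j' * al n k := by
  set A : ℤ := ((j : ℤ) - j') * n + (2 * n - 1) * ((e : ℤ) - e') with hA
  set B : ℤ := (2 * n - 1) * (2 * n + 1) * ((j : ℤ) - j') with hB
  set Cc : ℤ := (2 * n - 1) * ((o : ℤ) - o') with hC
  have hn1 : (1 : ℤ) ≤ n := by exact_mod_cast hn
  have hB0 : B ≠ 0 := by
    have : (j : ℤ) - j' ≠ 0 := sub_ne_zero.2 (by exact_mod_cast hj)
    exact mul_ne_zero (mul_ne_zero (by omega) (by omega)) this
  refine ⟨B.natAbs + Cc.natAbs + 1, fun k hk heq => ?_⟩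
  have h1 : (Nk n k : ℤ) * e + o + j * al n k = Nk n k * e' + o' + j' * al n k := by
    exact_mod_cast heq
  have h2 := al_Nk hn k
  have h3 : (Nk n k : ℤ) * A = (k + 1) * B - Cc := by
    rw [hA, hB, hC]
    linear_combination (2 * n - 1 : ℤ) * h1 - ((j : ℤ) - j') * h2
  have hk2 : (B.natAbs : ℤ) + Cc.natAbs + 1 ≤ k := by exact_mod_cast hk
  rw [Int.natCast_natAbs, Int.natCast_natAbs] at hk2
  have hk0 : (0 : ℤ) ≤ k := by positivity
  have hBp : (1 : ℤ) ≤ |B| := Int.one_le_abs hB0
  by_cases hA0 : A = 0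
  · rw [hA0, mul_zero] at h3
    have h4 : (k + 1 : ℤ) * |B| = |Cc| := by
      rw [← abs_of_nonneg (by omega : (0 : ℤ) ≤ k + 1), ← abs_mul]
      congr 1
      linarith
    nlinarith
  · have hAp : (1 : ℤ) ≤ |A| := Int.one_le_abs hA0
    have h5 : ((k : ℤ) + 1) ^ 2 ≤ Nk n k := by exact_mod_cast Nk_ge hn k
    have h6 : (Nk n k : ℤ) * |A| ≤ (k + 1) * |B| + |Cc| := by
      calc (Nk n k : ℤ) * |A| = |(Nk n k : ℤ) * A| := by
            rw [abs_mul, Nat.abs_cast]
        _ = |(k + 1) * B - Cc| := by rw [h3]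
        _ ≤ |(k + 1) * B| + |Cc| := abs_sub _ _
        _ = (k + 1) * |B| + |Cc| := by
            rw [abs_mul, abs_of_nonneg (by omega : (0 : ℤ) ≤ k + 1)]
    have h7 : (Nk n k : ℤ) ≤ Nk n k * |A| := by
      have : (0 : ℤ) ≤ Nk n k := by positivity
      nlinarith
    have h8 : (0 : ℤ) ≤ |Cc| := abs_nonneg _
    nlinarith

/-! ## The substitution -/

section Subst

variable {ι : Type}

/-- The images of `a` and `b_i`. -/
noncomputable def tv (F : ι → S2) : Option ι → Polynomial (MvPolynomial ι (Polynomial S2))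
  | none => Polynomial.X
  | some i => Polynomial.C (MvPolynomial.C (Polynomial.C (F i))) +
      Polynomial.X * Polynomial.C (MvPolynomial.X i)

/-- The substitution `y ↦ y`, `a ↦ T`, `b_i ↦ F_i + T X_i` (the characteristic is `2`). -/
noncomputable def Th (F : ι → S2) :
    Polynomial (MvPolynomial (Option ι) P2) →+* Polynomial (MvPolynomial ι (Polynomial S2)) :=
  Polynomial.eval₂RingHom (MvPolynomial.eval₂Hom
    ((Polynomial.C.comp MvPolynomial.C).comp (Polynomial.C.comp (algebraMap P2 S2))) (tv F))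
    (Polynomial.C (MvPolynomial.C Polynomial.X))

/-- The polynomial ring over `S2`. -/
abbrev R1 (ι : Type) : Type := Polynomial (MvPolynomial (Option ι) S2)

/-- Its fraction field. -/
abbrev LL (ι : Type) : Type := FractionRing (R1 ι)

/-- The inverse substitution. -/
noncomputable def Bk (F : ι → S2) : Polynomial (MvPolynomial ι (Polynomial S2)) →+* LL ι :=
  Polynomial.eval₂RingHom (MvPolynomial.eval₂Hom
    (Polynomial.eval₂RingHom
      ((algebraMap (R1 ι) (LL ι)).comp (Polynomial.C.comp MvPolynomial.C))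
      (algebraMap (R1 ι) (LL ι) Polynomial.X))
    (fun i => (algebraMap (R1 ι) (LL ι) (Polynomial.C (MvPolynomial.X (some i))) -
      algebraMap (R1 ι) (LL ι) (Polynomial.C (MvPolynomial.C (F i)))) /
      algebraMap (R1 ι) (LL ι) (Polynomial.C (MvPolynomial.X none))))
    (algebraMap (R1 ι) (LL ι) (Polynomial.C (MvPolynomial.X none)))

theorem algP2_injective : Function.Injective (algebraMap P2 S2) := by
  intro a b h
  have h2 : ((a : PowerSeries (ZMod 2))) = b := by
    simpa [PowerSeries.algebraMap_apply'] using h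
  exact Polynomial.coe_injective _ h2

theorem none_ne : algebraMap (R1 ι) (LL ι) (Polynomial.C (MvPolynomial.X none)) ≠ 0 := by
  intro h
  rw [← map_zero (algebraMap (R1 ι) (LL ι))] at h
  have h2 := IsFractionRing.injective (R1 ι) (LL ι) h
  rw [← map_zero Polynomial.C] at h2
  exact MvPolynomial.X_ne_zero _ (Polynomial.C_injective h2)

theorem Bk_Th (F : ι → S2) : (Bk F).comp (Th F) = (algebraMap (R1 ι) (LL ι)).comp
    (Polynomial.mapRingHom (MvPolynomial.map (algebraMap P2 S2))) := by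
  refine Polynomial.ringHom_ext' (MvPolynomial.ringHom_ext (fun r => ?_) fun v => ?_) ?_
  · simp [Bk, Th]
  · rcases v with _ | i
    · simp [Bk, Th, tv]
    · have h := none_ne (ι := ι)
      simp only [Bk, Th, tv, RingHom.comp_apply, Polynomial.coe_eval₂RingHom, Polynomial.eval₂_C,
        MvPolynomial.coe_eval₂Hom, MvPolynomial.eval₂_X, Polynomial.eval₂_add, Polynomial.eval₂_mul,
        Polynomial.eval₂_X, MvPolynomial.eval₂_C, Polynomial.coe_mapRingHom, Polynomial.map_C,
        MvPolynomial.map_X]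
      rw [mul_div_cancel₀ _ h]
      ring
  · simp [Bk, Th]

theorem Th_injective (F : ι → S2) : Function.Injective (Th F) := by
  have h : Function.Injective ((Bk F).comp (Th F)) := by
    rw [Bk_Th]
    exact (IsFractionRing.injective (R1 ι) (LL ι)).comp
      (Polynomial.map_injective _ (MvPolynomial.map_injective _ algP2_injective))
  intro a b hab
  refine h ?_
  rw [RingHom.comp_apply, RingHom.comp_apply, hab]

/-- The value at `X = g`. -/
noncomputable def evg (g : ι → PowerSeries S2) :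
    MvPolynomial ι (Polynomial S2) →+* PowerSeries S2 :=
  MvPolynomial.eval₂Hom (Polynomial.coeToPowerSeries.ringHom : Polynomial S2 →+* PowerSeries S2) g

theorem Ev_eq {n : ℕ} (hn : 1 ≤ n) {g : ι → PowerSeries S2} {F : ι → S2} (O : Orb n g F) (k : ℕ) :
    Ev n O k = (Polynomial.eval₂RingHom (evH (Nk n k) (Nk_pos hn k)) (O.a k)).comp
      ((Polynomial.mapRingHom (evg g)).comp (Th F)) := by
  refine Polynomial.ringHom_ext' (MvPolynomial.ringHom_ext (fun r => ?_) fun v => ?_) ?_
  · simp [Ev, Th, evg, evH_apply, ECM.ev_C]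
  · rcases v with _ | i
    · simp [Ev, Th, tv, evg]
    · have h := O.hF i k
      simp only [Ev, Th, tv, evg, RingHom.comp_apply, Polynomial.coe_eval₂RingHom,
        Polynomial.eval₂_C, MvPolynomial.coe_eval₂Hom, MvPolynomial.eval₂_X, Polynomial.coe_mapRingHom,
        Polynomial.map_add, Polynomial.map_mul, Polynomial.map_C, Polynomial.map_X,
        Polynomial.eval₂_add, Polynomial.eval₂_mul, Polynomial.eval₂_X, MvPolynomial.eval₂_C,
        Polynomial.coeToPowerSeries.ringHom_apply, Polynomial.coe_C, evH_apply, ECM.ev_C]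
      rw [h, add_right_comm, CharTwo.add_self_eq_zero, zero_add]
  · simp [Ev, Th, evg, evH_apply, ECM.ev_X (Nk_pos hn k)]

end Subst

theorem Nk_tendsto {n : ℕ} (hn : 1 ≤ n) (k : ℕ) : k ≤ Nk n k := by
  have := Nk_ge hn k
  nlinarith

/-- The values of a nonzero polynomial in `T` over `S2⟦y⟧`. -/
theorem eval_ne {n : ℕ} (hn : 1 ≤ n) (a : ℕ → S2) (ha : ∀ k, HasOrd (a k) (al n k))
    (Q : Polynomial (PowerSeries S2)) (hQ : Q ≠ 0) : ∃ K₀ : ℕ, ∀ k ≥ K₀,
      Polynomial.eval₂ (evH (Nk n k) (Nk_pos hn k)) (a k) Q ≠ 0 := by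
  classical
  have h1 : ∀ j : ℕ, ∃ e o N₀ : ℕ, j ∈ Q.support → ∀ N ≥ N₀, HasOrd (ev N (Q.coeff j)) (N * e + o) := by
    intro j
    by_cases hj : j ∈ Q.support
    · obtain ⟨e, o, N₀, h⟩ := ord_ev (Q.coeff j) (Polynomial.mem_support_iff.1 hj)
      exact ⟨e, o, N₀, fun _ => h⟩
    · exact ⟨0, 0, 0, fun h => absurd h hj⟩
  choose e o N₀ hN₀ using h1
  have h2 : ∀ i j : ℕ, ∃ K : ℕ, i ≠ j → ∀ k ≥ K,
      Nk n k * e i + o i + i * al n k ≠ Nk n k * e j + o j + j * al n k := by
    intro i j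
    by_cases hij : i = j
    · exact ⟨0, fun h => absurd hij h⟩
    · obtain ⟨K, hK⟩ := orders_ne hn i j (e i) (e j) (o i) (o j) hij
      exact ⟨K, fun _ => hK⟩
  choose K hK using h2
  refine ⟨Q.support.sup N₀ + Q.support.sup (fun i => Q.support.sup (K i)), fun k hk => ?_⟩
  rw [Polynomial.eval₂_eq_sum, Polynomial.sum_def]
  refine sum_ne_zero (Polynomial.support_nonempty.2 hQ) _
    (fun j => Nk n k * e j + o j + j * al n k) (fun j hj => ?_) fun i hi j hj hij => ?_
  · refine hasOrd_mul ?_ (hasOrd_pow (ha k) j)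
    rw [evH_apply]
    refine hN₀ j hj _ ?_
    have h3 : N₀ j ≤ Q.support.sup N₀ := Finset.le_sup hj
    have h4 := Nk_tendsto hn k
    omega
  · refine hK i j hij k ?_
    have h3 : K i j ≤ Q.support.sup (K i) := Finset.le_sup hj
    have h4 : Q.support.sup (K i) ≤ Q.support.sup (fun i => Q.support.sup (K i)) :=
      Finset.le_sup (f := fun i => Q.support.sup (K i)) hi
    omega

end NVMAux

theorem specNVM : SpecNVM := by
  intro n hn ι _ g F O hAI P hP
  have hinj : Function.Injective (NVMAux.evg g) :=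
    (injective_iff_map_eq_zero _).2 fun P hP => hAI P hP
  have hQ : Polynomial.map (NVMAux.evg g) (NVMAux.Th F P) ≠ 0 := by
    intro h0
    rw [← Polynomial.map_zero (NVMAux.evg g)] at h0
    have h1 := Polynomial.map_injective _ hinj h0
    rw [← map_zero (NVMAux.Th F)] at h1
    exact hP (NVMAux.Th_injective F h1)
  obtain ⟨K₀, hK₀⟩ := NVMAux.eval_ne hn O.a O.ha _ hQ
  refine ⟨K₀, fun k hk => ?_⟩
  rw [NVMAux.Ev_eq hn O k]
  exact hK₀ k hk

end Pool.Agent.Lib.MPba1bba.TM
end

section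
/-!
# Module RAT: a rational solution has residue `0`
-/
namespace Pool.Agent.Lib.MPba1bba.TM

set_option linter.unusedSectionVars false

open Polynomial TR

namespace RATAux

section field

variable {L : Type} [Field L] [CharP L 2]

/-- `ϑ` over a field. -/
noncomputable def tL (n : ℕ) (z : L) : L[X] :=
  C (z ^ (1 + (2 * n + 3) * (n - 1))) * X ^ n *
    (C (z ^ ((2 * n + 3) * n)) * X ^ n + C z) * (1 + C (z ^ ((2 * n + 3) * n)) * X ^ n) *
    ∑ t ∈ Finset.range n, C (z ^ ((2 * n + 3) * t)) * X ^ t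

theorem cop {P F Q : L[X]} {a b : L} (hb : b ≠ 0) (h : C a * P = C b + F * Q) : IsCoprime P F := by
  refine ⟨C (b⁻¹ * a), -(C b⁻¹ * Q), ?_⟩
  rw [C_mul, mul_assoc, h, mul_add, ← C_mul, inv_mul_cancel₀ hb, C_1]
  ring

theorem geom (n : ℕ) (z : L) :
    (∑ t ∈ Finset.range n, C (z ^ ((2 * n + 3) * t)) * X ^ t : L[X]) ∣
      1 + C (z ^ ((2 * n + 3) * n)) * X ^ n := by
  refine ⟨C (z ^ (2 * n + 3)) * X - 1, ?_⟩
  have h1 : (∑ t ∈ Finset.range n, C (z ^ ((2 * n + 3) * t)) * X ^ t : L[X]) =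
      ∑ t ∈ Finset.range n, (C (z ^ (2 * n + 3)) * X) ^ t := by
    refine Finset.sum_congr rfl fun t _ => ?_
    rw [mul_pow, ← C_pow, pow_mul]
  rw [h1, geom_sum_mul, mul_pow, ← C_pow, ← pow_mul, CharTwo.sub_eq_add, add_comm]

theorem swap (a b w : L[X]) : a + b = (a + w) + (b + w) := by
  rw [add_add_add_comm, CharTwo.add_self_eq_zero, add_zero]

/-- coprime to `ϑ` -/
theorem cop_tL {n : ℕ} {z : L} (hz : z ≠ 0) {P : L[X]} (hX : IsCoprime P X)
    (h1 : IsCoprime P (C (z ^ ((2 * n + 3) * n)) * X ^ n + C z))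
    (h2 : IsCoprime P (1 + C (z ^ ((2 * n + 3) * n)) * X ^ n)) : IsCoprime P (tL n z) := by
  unfold tL
  have h3 : IsCoprime P (C (z ^ (1 + (2 * n + 3) * (n - 1)))) :=
    (isCoprime_one_right (x := P)).of_isCoprime_of_dvd_right
      (isUnit_iff_dvd_one.1 (isUnit_C.2 (pow_ne_zero _ hz).isUnit))
  exact (((h3.mul_right hX.pow_right).mul_right h1).mul_right h2).mul_right
    (h2.of_isCoprime_of_dvd_right (geom n z))

theorem natDegree_tL (n : ℕ) (hn : 1 ≤ n) (z : L) : (tL n z).natDegree ≤ 4 * n - 1 := by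
  unfold tL
  have h1 : (C (z ^ (1 + (2 * n + 3) * (n - 1))) * X ^ n : L[X]).natDegree ≤ n :=
    natDegree_C_mul_X_pow_le _ _
  have h2 : (C (z ^ ((2 * n + 3) * n)) * X ^ n + C z : L[X]).natDegree ≤ n :=
    (natDegree_add_le _ _).trans (max_le (natDegree_C_mul_X_pow_le _ _) (by simp))
  have h3 : (1 + C (z ^ ((2 * n + 3) * n)) * X ^ n : L[X]).natDegree ≤ n :=
    (natDegree_add_le _ _).trans (max_le (by simp) (natDegree_C_mul_X_pow_le _ _))
  have h4 : (∑ t ∈ Finset.range n, C (z ^ ((2 * n + 3) * t)) * X ^ t : L[X]).natDegree ≤ n - 1 :=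
    natDegree_sum_le_of_forall_le _ _ fun t ht =>
      (natDegree_C_mul_X_pow_le _ _).trans (by have := Finset.mem_range.1 ht; omega)
  refine natDegree_mul_le.trans ?_
  have h5 := natDegree_mul_le (p := C (z ^ (1 + (2 * n + 3) * (n - 1))) * X ^ n *
    (C (z ^ ((2 * n + 3) * n)) * X ^ n + C z)) (q := 1 + C (z ^ ((2 * n + 3) * n)) * X ^ n)
  have h6 := natDegree_mul_le (p := C (z ^ (1 + (2 * n + 3) * (n - 1))) * X ^ n)
    (q := C (z ^ ((2 * n + 3) * n)) * X ^ n + C z)
  omega

/-- the substitution -/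
noncomputable def sc (n : ℕ) (z : L) : L[X] := C (z ^ ce n) * X ^ (2 * n)

theorem eval_tL {n : ℕ} (hn : 1 ≤ n) {z : L} (hz : ∀ a b : ℕ, a ≠ b → z ^ a + z ^ b ≠ 0) :
    (tL n z).eval 1 ≠ 0 := by
  have hz0 : z ≠ 0 := by
    intro h
    apply hz 1 2 (by norm_num)
    rw [h]
    simp
  have hN : 0 < (2 * n + 3) * n := by positivity
  have h1 : 1 + z ^ ((2 * n + 3) * n) ≠ 0 := by
    have := hz 0 ((2 * n + 3) * n) (by omega)
    rwa [pow_zero] at this
  have h2 : z ^ ((2 * n + 3) * n) + z ≠ 0 := by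
    have := hz ((2 * n + 3) * n) 1 (by nlinarith)
    rwa [pow_one] at this
  unfold tL
  rw [eval_mul, eval_mul, eval_mul, eval_mul]
  refine mul_ne_zero (mul_ne_zero (mul_ne_zero (mul_ne_zero ?_ ?_) ?_) ?_) ?_
  · rw [eval_C]
    exact pow_ne_zero _ hz0
  · simp
  · simpa using h2
  · simpa using h1
  · intro h
    obtain ⟨Q, hQ⟩ := geom n z
    have h3 := congrArg (eval 1) hQ
    rw [eval_mul, h, zero_mul] at h3
    apply h1
    simpa using h3

theorem caseB {n : ℕ} (hn : 1 ≤ n) {z : L} (hz : ∀ a b : ℕ, a ≠ b → z ^ a + z ^ b ≠ 0) {D : L[X]}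
    (hD : D ≠ 0) (h1 : D.eval 1 = 0) (hdvd : D.comp (sc n z) ∣ tL n z * D) : False := by
  have hz0 : z ≠ 0 := by
    intro h
    apply hz 1 2 (by norm_num)
    rw [h]
    simp
  have hX1 : (1 + X : L[X]) ∣ D := by
    have := dvd_iff_isRoot.2 h1
    rwa [C_1, CharTwo.sub_eq_add, add_comm] at this
  obtain ⟨k, rfl⟩ : ∃ k, n = k + 1 := ⟨n - 1, by omega⟩
  set n := k + 1 with hnk
  have hce : 2 * n + 3 + ce n = (2 * n + 3) * (2 * n) := by
    unfold ce
    have h : 2 * n - 1 = 2 * k + 1 := by omega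
    rw [h, hnk]
    ring
  -- the first factor
  have hA : (1 + sc n z : L[X]) ∣ D := by
    have e1 : (1 + sc n z : L[X]) = (1 + X : L[X]).comp (sc n z) := by simp
    have e2 : (1 + sc n z : L[X]) ∣ tL n z * D := by
      rw [e1]
      exact (_root_.map_dvd (compRingHom (sc n z)) hX1).trans hdvd
    refine IsCoprime.dvd_of_dvd_mul_left ?_ e2
    have e3 : C (z ^ (2 * n + 3)) * (1 + sc n z) =
        C (z ^ (2 * n + 3)) + (C (z ^ ((2 * n + 3) * n)) * X ^ n) ^ 2 := by
      unfold sc
      rw [mul_add, mul_one, ← mul_assoc, ← C_mul, ← pow_add, hce, mul_pow, ← C_pow, ← pow_mul,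
        ← pow_mul]
      congr 3
      · ring_nf
      · ring_nf
    refine cop_tL hz0 ?_ ?_ ?_
    · refine cop (Q := C (z ^ ce n) * X ^ (2 * n - 1)) (a := 1) (b := 1) one_ne_zero ?_
      unfold sc
      have : 2 * n = (2 * n - 1) + 1 := by omega
      conv_lhs => rw [this, pow_succ]
      rw [C_1]
      ring
    · refine cop (a := z ^ (2 * n + 3)) (b := z ^ (2 * n + 3) + z ^ 2)
        (Q := C (z ^ ((2 * n + 3) * n)) * X ^ n + C z) (hz _ _ (by omega)) ?_
      rw [e3, C_add, ← pow_two, CharTwo.add_sq, ← C_pow, add_assoc, add_comm (C (z ^ 2)), add_assoc,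
        CharTwo.add_self_eq_zero, add_zero]
    · refine cop (a := z ^ (2 * n + 3)) (b := z ^ (2 * n + 3) + z ^ 0)
        (Q := 1 + C (z ^ ((2 * n + 3) * n)) * X ^ n) (hz _ _ (by omega)) ?_
      rw [e3, C_add, ← pow_two, CharTwo.add_sq, pow_zero, C_1, one_pow, add_assoc,
        ← add_assoc (1 : L[X]) 1, CharTwo.add_self_eq_zero, zero_add]
  -- the second factor
  have hB : (1 + sc n z : L[X]).comp (sc n z) ∣ D := by
    have e2 : (1 + sc n z : L[X]).comp (sc n z) ∣ tL n z * D :=
      (_root_.map_dvd (compRingHom (sc n z)) hA).trans hdvd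
    refine IsCoprime.dvd_of_dvd_mul_left ?_ e2
    have e0 : (1 + sc n z : L[X]).comp (sc n z) = 1 + C (z ^ ce n) * (sc n z) ^ (2 * n) := by
      have h : (1 + C (z ^ ce n) * X ^ (2 * n) : L[X]).comp (sc n z) =
          1 + C (z ^ ce n) * (sc n z) ^ (2 * n) := by
        simp only [add_comp, one_comp, mul_comp, C_comp, pow_comp, X_comp]
      exact h
    have e3 : C (z ^ (2 * n + 3)) * (1 + sc n z : L[X]).comp (sc n z) =
        C (z ^ (2 * n + 3)) + ((C (z ^ ((2 * n + 3) * n)) * X ^ n) ^ 2) ^ (2 * n) := by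
      rw [e0, sc, mul_add, mul_one, mul_pow, ← C_pow, ← mul_assoc, ← mul_assoc, ← C_mul, ← C_mul,
        ← pow_mul, ← pow_mul, ← pow_add, ← pow_add, hce, mul_pow, mul_pow, ← C_pow, ← C_pow,
        ← pow_mul, ← pow_mul, ← pow_mul, ← pow_mul]
      congr 3
      · have h : (2 * n + 3) * (2 * n) + ce n * (2 * n) = (2 * n + 3 + ce n) * (2 * n) := by ring
        rw [h, hce]
        ring_nf
      · ring_nf
    have key : ∀ w : L[X], w ^ 2 = w ^ 2 → ((C (z ^ ((2 * n + 3) * n)) * X ^ n : L[X]) + w) ∣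
        ((C (z ^ ((2 * n + 3) * n)) * X ^ n) ^ 2) ^ (2 * n) + (w ^ 2) ^ (2 * n) := by
      intro w _
      have h := sub_dvd_pow_sub_pow ((C (z ^ ((2 * n + 3) * n)) * X ^ n : L[X]) ^ 2) (w ^ 2) (2 * n)
      rw [CharTwo.sub_eq_add, CharTwo.sub_eq_add] at h
      refine dvd_trans ?_ h
      rw [← CharTwo.add_sq]
      exact dvd_pow_self _ two_ne_zero
    refine cop_tL hz0 ?_ ?_ ?_
    · have : 2 * n = (2 * n - 1) + 1 := by omega
      refine cop (Q := C (z ^ ce n) * (C (z ^ ce n) ^ (2 * n) * (X ^ (2 * n)) ^ (2 * n - 1) *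
        X ^ (2 * n - 1))) (a := 1) (b := 1) one_ne_zero ?_
      rw [e0, sc, C_1, one_mul]
      have h2 : (X ^ (2 * n) : L[X]) ^ (2 * n) = X * ((X ^ (2 * n)) ^ (2 * n - 1) *
        X ^ (2 * n - 1)) := by
        rw [← pow_mul, ← pow_mul, ← pow_add, ← pow_succ']
        congr 1
      rw [mul_pow, h2]
      ring
    · obtain ⟨Q, hQ⟩ := key (C z) rfl
      refine cop (a := z ^ (2 * n + 3)) (b := z ^ (2 * n + 3) + z ^ (2 * (2 * n))) (Q := Q)
        (hz _ _ (by omega)) ?_
      have hw : (C (z ^ (2 * (2 * n))) : L[X]) = (C z ^ 2) ^ (2 * n) := by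
        rw [← C_pow, ← C_pow, pow_mul]
      rw [← hQ, e3, C_add, hw]
      exact swap _ _ _
    · obtain ⟨Q, hQ⟩ := key 1 rfl
      refine cop (a := z ^ (2 * n + 3)) (b := z ^ (2 * n + 3) + z ^ 0) (Q := Q)
        (hz _ _ (by omega)) ?_
      rw [one_pow, one_pow] at hQ
      rw [e3, C_add, pow_zero, C_1, add_comm 1 (C (z ^ ((2 * n + 3) * n)) * X ^ n), ← hQ]
      exact swap _ _ _
  -- degrees
  have hsc : (sc n z).natDegree = 2 * n := natDegree_C_mul_X_pow _ _ (pow_ne_zero _ hz0)
  have h1sc : (1 + sc n z : L[X]).natDegree = 2 * n := by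
    rw [add_comm, natDegree_add_eq_left_of_natDegree_lt, hsc]
    rw [hsc, natDegree_one]
    omega
  have d1 := natDegree_le_of_dvd hB hD
  rw [natDegree_comp, h1sc, hsc] at d1
  have ht : tL n z ≠ 0 := by
    intro h
    apply eval_tL hn hz
    rw [h, eval_zero]
  have d2 := natDegree_le_of_dvd hdvd (mul_ne_zero ht hD)
  rw [natDegree_comp, hsc, natDegree_mul ht hD] at d2
  have d3 := natDegree_tL n hn z
  have d4 : D.natDegree * (2 * n) = D.natDegree * (2 * k + 1) + D.natDegree := by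
    rw [hnk]
    ring
  have d5 : D.natDegree ≤ D.natDegree * (2 * k + 1) := Nat.le_mul_of_pos_right _ (by omega)
  have d6 : 2 * n * 2 ≤ 2 * n * (2 * n) := Nat.mul_le_mul_left _ (by omega)
  omega

/-- the algebraic core over a field -/
theorem core {n : ℕ} (hn : 1 ≤ n) {z : L} (hz : ∀ a b : ℕ, a ≠ b → z ^ a + z ^ b ≠ 0)
    {D N β : L[X]} (hD : D ≠ 0) (hco : IsCoprime D N)
    (hE : (1 + X) * N * D.comp (sc n z) = tL n z * N.comp (sc n z) * D + β * D * D.comp (sc n z))
    {v : L} (hv : D.eval (z ^ ce n) * v = N.eval (z ^ ce n)) :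
    (tL n z).eval 1 * v + β.eval 1 = 0 := by
  have hco' : IsCoprime (D.comp (sc n z)) (N.comp (sc n z)) := hco.map (compRingHom (sc n z))
  have hdvd : D.comp (sc n z) ∣ tL n z * D := by
    refine hco'.dvd_of_dvd_mul_right ?_
    refine ⟨(1 + X) * N - β * D, ?_⟩
    linear_combination -hE
  by_cases h1 : D.eval 1 = 0
  · exact (caseB hn hz hD h1 hdvd).elim
  have e1 : ∀ P : L[X], (P.comp (sc n z)).eval 1 = P.eval (z ^ ce n) := by
    intro P
    rw [eval_comp]
    simp [sc]
  have h2 : D.eval (z ^ ce n) ≠ 0 := by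
    intro h
    obtain ⟨Q, hQ⟩ := hdvd
    have h3 := congrArg (eval 1) hQ
    rw [eval_mul, eval_mul, e1, h, zero_mul] at h3
    exact (mul_ne_zero (eval_tL hn hz) h1) h3
  have h3 := congrArg (eval 1) hE
  simp only [eval_mul, eval_add, e1, eval_one, eval_X, CharTwo.add_self_eq_zero, zero_mul] at h3
  rw [← hv] at h3
  have h4 : D.eval 1 * D.eval (z ^ ce n) * ((tL n z).eval 1 * v + β.eval 1) = 0 := by
    linear_combination -h3
  exact (mul_eq_zero.1 h4).resolve_left (mul_ne_zero h1 h2)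

end field

theorem alg_inj : Function.Injective (algebraMap P2 S2) := by
  intro a b h
  have : (a : PowerSeries (ZMod 2)) = b := h
  exact Polynomial.coe_injective _ this

theorem alg_X : algebraMap P2 S2 X = zz := by
  simp [zz, PowerSeries.algebraMap_apply']

/-- The fraction field. -/
abbrev LL : Type := FractionRing S2

/-- The embedding. -/
noncomputable abbrev io : S2 →+* LL := algebraMap S2 LL

theorem io_inj : Function.Injective io := IsFractionRing.injective S2 LL

instance : CharP LL 2 := by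
  have h1 : CharP S2 2 := charP_of_injective_algebraMap alg_inj 2
  exact charP_of_injective_algebraMap io_inj 2

theorem hzz (a b : ℕ) (h : a ≠ b) : (io zz) ^ a + (io zz) ^ b ≠ 0 := by
  rw [← map_pow, ← map_pow, ← map_add]
  intro h1
  have h2 := io_inj (h1.trans (map_zero io).symm)
  have h3 := congrArg (PowerSeries.coeff a) h2
  rw [map_add, PowerSeries.coeff_X_pow, PowerSeries.coeff_X_pow, if_pos rfl, if_neg h, add_zero,
    map_zero] at h3
  exact one_ne_zero h3

theorem map_th (n : ℕ) : (pS (th n)).map io = tL n (io zz) := by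
  unfold pS th YY En mo tL
  simp only [Polynomial.map_mul, Polynomial.map_add, Polynomial.map_one, Polynomial.map_pow,
    Polynomial.map_X, Polynomial.map_C, Polynomial.map_sum, map_pow, alg_X, pow_zero, mul_one,
    pow_one]

theorem map_sg (n : ℕ) (c : S2) (x : PowerSeries S2) :
    PowerSeries.map io (sg n c x) = sg n (io c) (PowerSeries.map io x) := by
  ext1 j
  unfold sg
  rw [PowerSeries.coeff_map, PowerSeries.coeff_mk, PowerSeries.coeff_mk]
  split_ifs
  · rw [map_mul, map_pow, PowerSeries.coeff_map]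
  · rw [map_zero]

theorem map_inj : Function.Injective (PowerSeries.map io) := by
  intro a b h
  ext1 j
  have h1 := congrArg (PowerSeries.coeff j) h
  rw [PowerSeries.coeff_map, PowerSeries.coeff_map] at h1
  exact io_inj h1

/-- a common denominator -/
theorem denom (P Q : LL[X]) : ∃ (d : S2) (P' Q' : S2[X]), d ≠ 0 ∧ P'.map io = C (io d) * P ∧
    Q'.map io = C (io d) * Q := by
  obtain ⟨b, hb, hb'⟩ := IsLocalization.integerNormalization_spec (nonZeroDivisors S2) P
  obtain ⟨c, hc, hc'⟩ := IsLocalization.integerNormalization_spec (nonZeroDivisors S2) Q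
  have h1 : ∀ (d : S2) (P : LL[X]), d • P = C (io d) * P := by
    intro d P
    ext i
    rw [coeff_smul, coeff_C_mul, Algebra.smul_def]
  refine ⟨b * c, C c * IsLocalization.integerNormalization (nonZeroDivisors S2) P,
    C b * IsLocalization.integerNormalization (nonZeroDivisors S2) Q,
    mul_ne_zero (nonZeroDivisors.ne_zero hb) (nonZeroDivisors.ne_zero hc), ?_, ?_⟩
  · rw [Polynomial.map_mul, Polynomial.map_C, hb', h1, map_mul, C_mul]
    ring
  · rw [Polynomial.map_mul, Polynomial.map_C, hc', h1, map_mul, C_mul]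
    ring

/-- division by the greatest common divisor -/
theorem exists_coprime (D N : LL[X]) (hD : D ≠ 0) : ∃ g D' N' : LL[X], g ≠ 0 ∧ D = g * D' ∧
    N = g * N' ∧ IsCoprime D' N' := by
  classical
  obtain ⟨D', hD'⟩ := EuclideanDomain.gcd_dvd_left D N
  obtain ⟨N', hN'⟩ := EuclideanDomain.gcd_dvd_right D N
  have hg : EuclideanDomain.gcd D N ≠ 0 := by
    intro h
    rw [h, zero_mul] at hD'
    exact hD hD'
  refine ⟨EuclideanDomain.gcd D N, D', N', hg, hD', hN', EuclideanDomain.gcdA D N,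
    EuclideanDomain.gcdB D N, ?_⟩
  have h := EuclideanDomain.gcd_eq_gcd_ab D N
  apply mul_left_cancel₀ hg
  calc EuclideanDomain.gcd D N * (EuclideanDomain.gcdA D N * D' + EuclideanDomain.gcdB D N * N') =
      (EuclideanDomain.gcd D N * D') * EuclideanDomain.gcdA D N +
        (EuclideanDomain.gcd D N * N') * EuclideanDomain.gcdB D N := by ring
    _ = D * EuclideanDomain.gcdA D N + N * EuclideanDomain.gcdB D N := by rw [← hD', ← hN']
    _ = EuclideanDomain.gcd D N * 1 := by rw [← h, mul_one]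

/-- evaluation at `z^N` of a quotient -/
theorem ev_quot {N : ℕ} (hN : 1 ≤ N) (x : PowerSeries S2) (P Q : LL[X])
    (h : (P : PowerSeries LL) * PowerSeries.map io x = (Q : PowerSeries LL)) :
    P.eval (io zz ^ N) * io (ev N x) = Q.eval (io zz ^ N) := by
  obtain ⟨d, P', Q', hd, hP, hQ⟩ := denom P Q
  have hd' : io d ≠ 0 := fun h0 => hd (io_inj (h0.trans (map_zero io).symm))
  have h1 : (P' : PowerSeries S2) * x = (Q' : PowerSeries S2) := by
    apply map_inj
    rw [map_mul, ← polynomial_map_coe, ← polynomial_map_coe, hP, hQ, Polynomial.coe_mul,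
      Polynomial.coe_mul, mul_assoc, h]
  obtain ⟨e1, e2, e3, -, -⟩ := specEC.1 N hN
  have e4 : ∀ P : S2[X], ev N (P : PowerSeries S2) = P.eval (zz ^ N) := by
    let φ : PowerSeries S2 →+* S2 :=
      { toFun := ev N
        map_one' := by
          have := e2 1
          rwa [map_one] at this
        map_mul' := fun F G => (e1 F G).2
        map_zero' := by
          have := e2 0
          rwa [map_zero] at this
        map_add' := fun F G => (e1 F G).1 }
    intro P
    have h5 : (φ.comp (Polynomial.coeToPowerSeries.ringHom : S2[X] →+* PowerSeries S2)) =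
        Polynomial.evalRingHom (zz ^ N) := by
      apply Polynomial.ringHom_ext
      · intro a
        show ev N ((C a : S2[X]) : PowerSeries S2) = eval (zz ^ N) (C a)
        rw [Polynomial.coe_C, e2, eval_C]
      · show ev N ((X : S2[X]) : PowerSeries S2) = eval (zz ^ N) X
        rw [Polynomial.coe_X, e3, eval_X]
    exact RingHom.congr_fun h5 P
  have h2 := congrArg (ev N) h1
  rw [(e1 _ _).2, e4, e4] at h2
  have h3 := congrArg io h2
  have h4 : ∀ P : S2[X], io (P.eval (zz ^ N)) = (P.map io).eval (io zz ^ N) := by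
    intro P
    rw [← map_pow, eval_map_apply]
  rw [map_mul, h4, h4, hP, hQ, eval_mul, eval_mul, eval_C] at h3
  apply mul_left_cancel₀ hd'
  rw [← mul_assoc, h3]

end RATAux

open RATAux in
/-- Module RAT. -/
theorem specRAT (hS : SpecSGM) : SpecRAT := by
  intro n hn x β hx D N hD hDN
  obtain ⟨φ, hφ, -, -, hφp⟩ := (hS n hn).1 LL (io zz ^ ce n)
  have hDL : D.map io ≠ 0 := (Polynomial.map_ne_zero_iff io_inj).2 hD
  obtain ⟨g, D', N', hg, hD', hN', hco⟩ := exists_coprime (D.map io) (N.map io) hDL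
  set xL : PowerSeries LL := PowerSeries.map io x with hxL
  have hD'0 : D' ≠ 0 := by
    intro h
    rw [h, mul_zero] at hD'
    exact hDL hD'
  -- `D' x = N'`
  have h1 : (D' : PowerSeries LL) * xL = (N' : PowerSeries LL) := by
    have h2 := congrArg (PowerSeries.map io) hDN
    rw [map_mul, ← polynomial_map_coe, ← polynomial_map_coe, hD', hN', Polynomial.coe_mul,
      Polynomial.coe_mul, mul_assoc] at h2
    exact mul_left_cancel₀ (fun h => hg (Polynomial.coe_injective _ (by simpa using h))) h2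
  -- the equation
  have h2 : (1 + PowerSeries.X) * xL = (tL n (io zz) : PowerSeries LL) * φ xL +
      ((β.map io : LL[X]) : PowerSeries LL) := by
    have h3 := congrArg (PowerSeries.map io) hx
    rw [map_mul, map_add, map_add, map_mul, map_one, PowerSeries.map_X, ← polynomial_map_coe,
      ← polynomial_map_coe, map_th, map_sg, map_pow] at h3
    rw [hφ]
    exact h3
  have h3 : ∀ P : LL[X], φ (P : PowerSeries LL) = ((P.comp (sc n (io zz)) : LL[X]) :
      PowerSeries LL) := by
    intro P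
    rw [hφ, hφp]
    rfl
  have h4 := congrArg φ h1
  rw [map_mul, h3, h3] at h4
  have hE : (1 + X) * N' * D'.comp (sc n (io zz)) = tL n (io zz) * N'.comp (sc n (io zz)) * D' +
      β.map io * D' * D'.comp (sc n (io zz)) := by
    apply Polynomial.coe_injective
    push_cast
    rw [← h1, ← h4]
    linear_combination (D' : PowerSeries LL) * ((D'.comp (sc n (io zz)) : LL[X]) :
      PowerSeries LL) * h2
  have hv := ev_quot (N := ce n) (by unfold ce; exact Nat.mul_pos (by omega) (by omega)) x D' N' h1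
  have h5 := core hn hzz hD'0 hco hE hv
  apply io_inj
  rw [map_zero, ← h5]
  unfold Res
  rw [map_add, map_mul, ← map_th]
  have h6 : ∀ P : S2[X], io (P.eval 1) = (P.map io).eval 1 := by
    intro P
    rw [← map_one io, eval_map_apply]
  rw [h6, h6]

end Pool.Agent.Lib.MPba1bba.TM
end
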