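import Pool.Agent.Lib.MP_ba1bba_al.TM.Spec
import Pool.Agent.Lib.MP_ba1bba_al.TR.RE
import Mathlib.RingTheory.PowerSeries.Expand

section
/-!
# Module NHM: application of the criterion ALG to the fraction field of `𝔽₂⟦z⟧⟦y⟧`
-/
set_option autoImplicit false

namespace Pool.Agent.Lib.MPba1bba.TM

open Polynomial TR

namespace NHMAux

/-- Power series in `y` over `𝔽₂⟦z⟧`. -/
abbrev AA : Type := PowerSeries S2

/-- A nonzero series is `y^v G`, `G(0) ≠ 0`. -/
theorem exists_ord (F : AA) (hF : F ≠ 0) : ∃ (v : ℕ) (G : AA), F = PowerSeries.X ^ v * G ∧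
    PowerSeries.constantCoeff G ≠ 0 := by
  classical
  have hex : ∃ v, PowerSeries.coeff v F ≠ 0 := by
    by_contra h
    push Not at h
    exact hF (PowerSeries.ext fun v => by rw [h v, map_zero])
  have h1 : PowerSeries.X ^ Nat.find hex ∣ F := by
    rw [PowerSeries.X_pow_dvd_iff]
    intro m hm
    exact not_not.1 (Nat.find_min hex hm)
  obtain ⟨G, hG⟩ := h1
  refine ⟨Nat.find hex, G, hG, ?_⟩
  have h2 := Nat.find_spec hex
  rw [show PowerSeries.coeff (Nat.find hex) F =
    PowerSeries.coeff (Nat.find hex) (PowerSeries.X ^ Nat.find hex * G) by rw [← hG],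
    PowerSeries.coeff_X_pow_mul', if_pos le_rfl, Nat.sub_self,
    PowerSeries.coeff_zero_eq_constantCoeff] at h2
  exact h2

theorem cancel (a b : ℕ) (U V : AA) (hU : PowerSeries.constantCoeff U ≠ 0)
    (hV : PowerSeries.constantCoeff V ≠ 0)
    (h : PowerSeries.X ^ a * U = PowerSeries.X ^ b * V) : a = b ∧ U = V := by
  have hX : ∀ m : ℕ, (PowerSeries.X : AA) ^ m ≠ 0 := fun m => pow_ne_zero _ PowerSeries.X_ne_zero
  rcases lt_trichotomy a b with hab | hab | hab
  · exfalso
    obtain ⟨k, rfl⟩ := Nat.exists_eq_add_of_lt hab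
    have h1 : U = PowerSeries.X ^ (k + 1) * V := by
      refine mul_left_cancel₀ (hX a) ?_
      rw [h]
      ring
    apply hU
    rw [h1]
    simp
  · subst hab
    exact ⟨rfl, mul_left_cancel₀ (hX a) h⟩
  · exfalso
    obtain ⟨k, rfl⟩ := Nat.exists_eq_add_of_lt hab
    have h1 : V = PowerSeries.X ^ (k + 1) * U := by
      refine mul_left_cancel₀ (hX b) ?_
      rw [← h]
      ring
    apply hV
    rw [h1]
    simp

theorem zpow_inj (a b : ℕ) (h : (zz : S2) ^ a = zz ^ b) : a = b := by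
  have h1 := congrArg (PowerSeries.coeff a) h
  rw [PowerSeries.coeff_X_pow_self, PowerSeries.coeff_X_pow] at h1
  by_contra h2
  rw [if_neg h2] at h1
  exact one_ne_zero h1

/-- Comparison of orders and lowest coefficients. -/
theorem key (n : ℕ) (φ : AA →+* AA)
    (hX : φ PowerSeries.X = PowerSeries.C ((zz : S2) ^ ce n) * PowerSeries.X ^ (2 * n))
    (h0 : ∀ G, PowerSeries.constantCoeff (φ G) = PowerSeries.constantCoeff G)
    (o j v w : ℕ) (Θ F G : AA) (hΘ : PowerSeries.constantCoeff Θ = zz ^ o)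
    (hF : PowerSeries.constantCoeff F ≠ 0) (hG : PowerSeries.constantCoeff G ≠ 0)
    (h : (PowerSeries.X ^ n * Θ) ^ j * φ (PowerSeries.X ^ v * F) * (PowerSeries.X ^ w * G) =
      (1 + PowerSeries.X) ^ j * (PowerSeries.X ^ v * F) * φ (PowerSeries.X ^ w * G)) :
    n * j + 2 * n * v + w = v + 2 * n * w ∧ o * j + ce n * v = ce n * w := by
  have hz : ∀ m : ℕ, (zz : S2) ^ m ≠ 0 := fun m => pow_ne_zero _ PowerSeries.X_ne_zero
  have e1 : PowerSeries.constantCoeff (Θ ^ j * PowerSeries.C ((zz : S2) ^ ce n) ^ v * φ F * G) =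
      zz ^ (o * j + ce n * v) * (PowerSeries.constantCoeff F * PowerSeries.constantCoeff G) := by
    rw [map_mul, map_mul, map_mul, map_pow, map_pow, hΘ, h0, PowerSeries.constantCoeff_C]
    ring
  have e2 : PowerSeries.constantCoeff ((1 + PowerSeries.X) ^ j * F *
      PowerSeries.C ((zz : S2) ^ ce n) ^ w * φ G) =
      zz ^ (ce n * w) * (PowerSeries.constantCoeff F * PowerSeries.constantCoeff G) := by
    rw [map_mul, map_mul, map_mul, map_pow, map_pow, map_add, map_one,
      PowerSeries.constantCoeff_X, h0, PowerSeries.constantCoeff_C]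
    ring
  have hFG := mul_ne_zero hF hG
  obtain ⟨h1, h2⟩ := cancel (n * j + 2 * n * v + w) (v + 2 * n * w)
    (Θ ^ j * PowerSeries.C ((zz : S2) ^ ce n) ^ v * φ F * G)
    ((1 + PowerSeries.X) ^ j * F * PowerSeries.C ((zz : S2) ^ ce n) ^ w * φ G)
    (by rw [e1]; exact mul_ne_zero (hz _) hFG) (by rw [e2]; exact mul_ne_zero (hz _) hFG) (by
      rw [map_mul, map_mul, map_pow, map_pow, hX] at h
      linear_combination h)
  refine ⟨h1, zpow_inj _ _ ?_⟩
  have h3 := congrArg PowerSeries.constantCoeff h2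
  rw [e1, e2] at h3
  exact mul_right_cancel₀ hFG h3

theorem const0 (n : ℕ) (hn : 1 ≤ n) (φ : AA →+* AA) (c : S2)
    (hX : φ PowerSeries.X = PowerSeries.C c * PowerSeries.X ^ (2 * n))
    (hC : ∀ r : S2, φ (PowerSeries.C r) = PowerSeries.C r) (G : AA) :
    PowerSeries.constantCoeff (φ G) = PowerSeries.constantCoeff G := by
  conv_lhs => rw [PowerSeries.eq_X_mul_shift_add_const G]
  rw [map_add, map_mul, hX, hC, map_add, map_mul, map_mul, map_pow, PowerSeries.constantCoeff_X,
    zero_pow (by omega), mul_zero, zero_mul, zero_add, PowerSeries.constantCoeff_C]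

/-- The multiplier is `y^n Θ`, `Θ(0) = z^(2+(2n+3)(n-1))`. -/
theorem th_eq (n : ℕ) (hn : 1 ≤ n) : ∃ Θ : AA, (pS (th n) : PowerSeries S2) = PowerSeries.X ^ n * Θ ∧
    PowerSeries.constantCoeff Θ = zz ^ (2 + (2 * n + 3) * (n - 1)) := by
  have hY : (YY n).coeff 0 = 0 := by
    rw [YY, mo, coeff_C_mul, coeff_X_pow, if_neg (by omega), mul_zero]
  have hE : (En n).coeff 0 = 1 := by
    rw [En, finsetSum_coeff, Finset.sum_eq_single 0]
    · simp [mo]
    · intro t _ ht
      rw [mo, coeff_C_mul, coeff_X_pow, if_neg (Ne.symm ht), mul_zero]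
    · intro h
      exact absurd (Finset.mem_range.2 (by omega)) h
  have hR : ((YY n + mo 1 0) * (1 + YY n) * En n).coeff 0 = X := by
    rw [mul_coeff_zero, mul_coeff_zero, coeff_add, coeff_add, hY, hE]
    simp [mo]
  refine ⟨PowerSeries.C ((zz : S2) ^ (1 + (2 * n + 3) * (n - 1))) *
    ((pS ((YY n + mo 1 0) * (1 + YY n) * En n) : Polynomial S2) : PowerSeries S2), ?_, ?_⟩
  · have e : th n = mo (1 + (2 * n + 3) * (n - 1)) n * ((YY n + mo 1 0) * (1 + YY n) * En n) := by
      rw [th]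
      ring
    have e2 : pS (mo (1 + (2 * n + 3) * (n - 1)) n) =
        C ((zz : S2) ^ (1 + (2 * n + 3) * (n - 1))) * X ^ n := by
      rw [mo, pS, Polynomial.map_mul, Polynomial.map_pow, map_X, map_C, map_pow, MAM.alg_X]
    rw [e, show pS (mo (1 + (2 * n + 3) * (n - 1)) n * ((YY n + mo 1 0) * (1 + YY n) * En n)) =
      pS (mo (1 + (2 * n + 3) * (n - 1)) n) * pS ((YY n + mo 1 0) * (1 + YY n) * En n) from
        Polynomial.map_mul _, e2, Polynomial.coe_mul, Polynomial.coe_mul, Polynomial.coe_pow,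
      Polynomial.coe_X, Polynomial.coe_C]
    ring
  · rw [map_mul, PowerSeries.constantCoeff_C, Polynomial.constantCoeff_coe, pS,
      Polynomial.coeff_map, hR, MAM.alg_X, ← pow_succ]
    congr 1
    omega

/-- Equal orders of a fixed quotient. -/
theorem fix_ord (n : ℕ) (hn : 1 ≤ n) (φ : AA →+* AA)
    (hX : φ PowerSeries.X = PowerSeries.C ((zz : S2) ^ ce n) * PowerSeries.X ^ (2 * n))
    (h0 : ∀ G, PowerSeries.constantCoeff (φ G) = PowerSeries.constantCoeff G)
    (v w : ℕ) (F' G' : AA)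
    (hF0 : PowerSeries.constantCoeff F' ≠ 0) (hG0 : PowerSeries.constantCoeff G' ≠ 0)
    (h : φ (PowerSeries.X ^ v * F') * (PowerSeries.X ^ w * G') =
      (PowerSeries.X ^ v * F') * φ (PowerSeries.X ^ w * G')) : v = w := by
  obtain ⟨Θ, -, hΘ0⟩ := th_eq n hn
  have h1 := (key n φ hX h0 _ 0 v w Θ F' G' hΘ0 hF0 hG0 (by
    rw [pow_zero, pow_zero, one_mul, one_mul]; exact h)).1
  obtain ⟨k, rfl⟩ : ∃ k, n = k + 1 := ⟨n - 1, by omega⟩
  have h2 : (2 * (k : ℤ) + 1) * ((v : ℤ) - w) = 0 := by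
    have h3 : (((k + 1) * 0 + 2 * (k + 1) * v + w : ℕ) : ℤ) = ((v + 2 * (k + 1) * w : ℕ) : ℤ) := by
      rw [h1]
    push_cast at h3
    linear_combination h3
  rcases mul_eq_zero.1 h2 with h4 | h4 <;> omega

/-- A fixed quotient is a quotient of constants. -/
theorem fix_const (n : ℕ) (hn : 1 ≤ n) (φ : AA →+* AA)
    (hX : φ PowerSeries.X = PowerSeries.C ((zz : S2) ^ ce n) * PowerSeries.X ^ (2 * n))
    (h0 : ∀ G, PowerSeries.constantCoeff (φ G) = PowerSeries.constantCoeff G)
    (hC : ∀ r : S2, φ (PowerSeries.C r) = PowerSeries.C r)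
    (F H : AA) (hF : F ≠ 0) (hH : H ≠ 0) (e1 : φ F * H = F * φ H) :
    ∃ p q : S2, q ≠ 0 ∧ PowerSeries.C q * F = PowerSeries.C p * H := by
  obtain ⟨v, F', hF', hF0⟩ := exists_ord F hF
  obtain ⟨w, H', hH', hH0⟩ := exists_ord H hH
  have hvw := fix_ord n hn φ hX h0 v w F' H' hF0 hH0 (by rw [← hF', ← hH']; exact e1)
  subst hvw
  refine ⟨PowerSeries.constantCoeff F', PowerSeries.constantCoeff H', hH0, ?_⟩
  set p := PowerSeries.constantCoeff F' with hpdef
  set q := PowerSeries.constantCoeff H' with hqdef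
  have e2 : PowerSeries.C q * F - PowerSeries.C p * H = 0 := by
    by_contra hne
    have e3 : φ (PowerSeries.C q * F - PowerSeries.C p * H) * H =
        (PowerSeries.C q * F - PowerSeries.C p * H) * φ H := by
      rw [map_sub, map_mul, map_mul, hC, hC]
      linear_combination PowerSeries.C q * e1
    obtain ⟨u, T, hT, hT0⟩ := exists_ord _ hne
    have huv := fix_ord n hn φ hX h0 u v T H' hT0 hH0 (by rw [← hT, ← hH']; exact e3)
    subst huv
    have e4 : PowerSeries.X ^ u * (PowerSeries.C q * F' - PowerSeries.C p * H') =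
        PowerSeries.X ^ u * T := by
      rw [← hT, hF', hH']
      ring
    have e5 := mul_left_cancel₀ (pow_ne_zero _ PowerSeries.X_ne_zero) e4
    apply hT0
    rw [← e5, map_sub, map_mul, map_mul, PowerSeries.constantCoeff_C,
      PowerSeries.constantCoeff_C, ← hpdef, ← hqdef]
    ring
  linear_combination e2

/-- The equation `ϑ^j σ(r) = (1+y)^j r` has no nonzero solution for `j ≥ 1`. -/
theorem no_sol (n : ℕ) (hn : 1 ≤ n) (φ : AA →+* AA)
    (hX : φ PowerSeries.X = PowerSeries.C ((zz : S2) ^ ce n) * PowerSeries.X ^ (2 * n))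
    (h0 : ∀ G, PowerSeries.constantCoeff (φ G) = PowerSeries.constantCoeff G)
    (j : ℕ) (hj : 1 ≤ j) (F H : AA) (hF : F ≠ 0) (hH : H ≠ 0)
    (e1 : (pS (th n) : PowerSeries S2) ^ j * φ F * H = (1 + PowerSeries.X) ^ j * F * φ H) :
    False := by
  obtain ⟨Θ, hΘ, hΘ0⟩ := th_eq n hn
  obtain ⟨v, F', hF', hF0⟩ := exists_ord F hF
  obtain ⟨w, H', hH', hH0⟩ := exists_ord H hH
  rw [hF', hH', hΘ] at e1
  obtain ⟨h1, h2⟩ := key n φ hX h0 _ j v w Θ F' H' hΘ0 hF0 hH0 e1
  obtain ⟨k, rfl⟩ : ∃ k, n = k + 1 := ⟨n - 1, by omega⟩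
  have h3 : (((k + 1) * j + 2 * (k + 1) * v + w : ℕ) : ℤ) = ((v + 2 * (k + 1) * w : ℕ) : ℤ) := by
    rw [h1]
  have hce : ce (k + 1) = (2 * k + 5) * (2 * k + 1) := by
    rw [ce]
    congr 1
  rw [hce, show k + 1 - 1 = k by omega] at h2
  have h4 : (((2 + (2 * (k + 1) + 3) * k) * j + (2 * k + 5) * (2 * k + 1) * v : ℕ) : ℤ) =
      (((2 * k + 5) * (2 * k + 1) * w : ℕ) : ℤ) := by
    rw [h2]
  push_cast at h3 h4
  have h5 : (j : ℤ) * (2 * k + 3) = 0 := by
    linear_combination (2 * (k : ℤ) + 5) * h3 - h4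
  rcases mul_eq_zero.1 h5 with h6 | h6 <;> omega

/-- A criterion for a subfield generated by the polynomials. -/
structure Fr (n : ℕ) (φ : AA →+* AA) (K : Type) [Field K] (al : AA →+* K) (σ : K →+* K)
    (M : Subfield K) : Prop where
  inj : Function.Injective al
  gen : ∀ G : K, ∃ F H : AA, H ≠ 0 ∧ al H * G = al F
  hσ : ∀ F : AA, σ (al F) = al (φ F)
  hM1 : ∀ x ∈ M, ∃ N D : Polynomial S2, D ≠ 0 ∧
    al (D : PowerSeries S2) * x = al (N : PowerSeries S2)
  hM2 : ∀ p : Polynomial S2, al (p : PowerSeries S2) ∈ M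

theorem exists_fr (n : ℕ) (φ : AA →+* AA) (hφ : Function.Injective φ) :
    ∃ (al : AA →+* FractionRing AA) (σ : FractionRing AA →+* FractionRing AA)
      (M : Subfield (FractionRing AA)), Fr n φ (FractionRing AA) al σ M := by
  have hal : Function.Injective (algebraMap AA (FractionRing AA)) := IsFractionRing.injective _ _
  have hc : Function.Injective ((algebraMap AA (FractionRing AA)).comp φ) := hal.comp hφ
  have hJ : Function.Injective ((algebraMap AA (FractionRing AA)).comp
      (Polynomial.coeToPowerSeries.ringHom : Polynomial S2 →+* PowerSeries S2)) :=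
    hal.comp fun p q h => Polynomial.coe_injective _ h
  refine ⟨algebraMap AA (FractionRing AA), IsFractionRing.lift hc,
    (IsFractionRing.lift hJ : FractionRing (Polynomial S2) →+* FractionRing AA).fieldRange,
    hal, ?_, ?_, ?_, ?_⟩
  · intro G
    obtain ⟨F, H, hH, rfl⟩ := IsFractionRing.div_surjective (A := AA) G
    have hH0 : H ≠ 0 := nonZeroDivisors.ne_zero hH
    have hH1 : algebraMap AA (FractionRing AA) H ≠ 0 := fun h => hH0 (hal (by rw [h, map_zero]))
    exact ⟨F, H, hH0, mul_div_cancel₀ _ hH1⟩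
  · intro F
    exact IsFractionRing.lift_algebraMap hc F
  · rintro x ⟨q, rfl⟩
    obtain ⟨N, D, hD, rfl⟩ := IsFractionRing.div_surjective (A := Polynomial S2) q
    have hD0 : D ≠ 0 := nonZeroDivisors.ne_zero hD
    refine ⟨N, D, hD0, ?_⟩
    rw [map_div₀, IsFractionRing.lift_algebraMap hJ, IsFractionRing.lift_algebraMap hJ]
    refine mul_div_cancel₀ _ fun h => hD0 (hJ ?_)
    exact h.trans (map_zero _).symm
  · intro p
    exact ⟨algebraMap _ _ p, IsFractionRing.lift_algebraMap hJ p⟩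

/-- The application of the criterion. -/
theorem core (hALG : SpecALG) (n : ℕ) (hn : 1 ≤ n) (φ : AA →+* AA)
    (hX : φ PowerSeries.X = PowerSeries.C ((zz : S2) ^ ce n) * PowerSeries.X ^ (2 * n))
    (h0 : ∀ G, PowerSeries.constantCoeff (φ G) = PowerSeries.constantCoeff G)
    (hC : ∀ r : S2, φ (PowerSeries.C r) = PowerSeries.C r)
    (hp : ∀ p : Polynomial S2, φ (p : PowerSeries S2) =
      ((p.comp (C ((zz : S2) ^ ce n) * X ^ (2 * n)) : Polynomial S2) : PowerSeries S2))
    (K : Type) [Field K] (al : AA →+* K) (σ : K →+* K) (M : Subfield K)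
    (hfr : Fr n φ K al σ M) (ι : Type) [Fintype ι] (g : ι → PowerSeries S2)
    (β : ι → Polynomial S2)
    (hg : ∀ i, (1 + PowerSeries.X) * g i =
      (pS (th n) : PowerSeries S2) * φ (g i) + (β i : PowerSeries S2))
    (hLI : ∀ (r : ℕ) (c : ι → S2) (D N : Polynomial S2), D ≠ 0 →
      (D : PowerSeries S2) * ∑ i, PowerSeries.C (c i) * g i ^ 2 ^ r = (N : PowerSeries S2) →
      ∀ i, c i = 0)
    (P : MvPolynomial ι (Polynomial S2))
    (hP : MvPolynomial.eval₂ (Polynomial.coeToPowerSeries.ringHom :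
      Polynomial S2 →+* PowerSeries S2) g P = 0) : P = 0 := by
  classical
  obtain ⟨hal, hgen, hσ, hM1, hM2⟩ := hfr
  have hal0 : ∀ F : AA, F ≠ 0 → al F ≠ 0 := fun F hF h => hF (hal (by rw [h, map_zero]))
  have hco : ∀ p : Polynomial S2, p ≠ 0 → (p : PowerSeries S2) ≠ 0 := fun p hp0 h =>
    hp0 (Polynomial.coe_injective _ (by rw [h, Polynomial.coe_zero]))
  have hchar : CharP K 2 := by
    have := MAM.charP_S2
    have : CharP (PowerSeries S2) 2 :=
      charP_of_injective_ringHom (PowerSeries.C_injective (R := S2)) 2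
    exact charP_of_injective_ringHom hal 2
  have h1X : (1 + PowerSeries.X : AA) ≠ 0 := by
    intro h
    have := congrArg PowerSeries.constantCoeff h
    simp at this
  have hJ1 : al (1 + PowerSeries.X) ≠ 0 := hal0 _ h1X
  have hM3 : al (1 + PowerSeries.X) ∈ M := by
    have := hM2 (1 + X)
    rwa [Polynomial.coe_add, Polynomial.coe_one, Polynomial.coe_X] at this
  have hPK : MvPolynomial.map (al.comp (Polynomial.coeToPowerSeries.ringHom :
      Polynomial S2 →+* PowerSeries S2)) P = 0 := by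
    refine hALG K ι σ M (al (pS (th n) : PowerSeries S2) / al (1 + PowerSeries.X))
      (fun i => al (g i)) (fun i => al (β i : PowerSeries S2) / al (1 + PowerSeries.X))
      (M.div_mem (hM2 _) hM3) (fun i => M.div_mem (hM2 _) hM3) ?_ ?_ ?_ ?_ ?_ _ ?_ ?_
    · -- `σ M ⊆ M`
      intro x hx
      obtain ⟨N, D, hD, h⟩ := hM1 x hx
      have h1 : σ (al (D : PowerSeries S2)) ≠ 0 := by
        rw [Ne, map_eq_zero]
        exact hal0 _ (hco D hD)
      have h2 : σ x = σ (al (N : PowerSeries S2)) / σ (al (D : PowerSeries S2)) := by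
        rw [eq_div_iff h1, ← map_mul, ← h, mul_comm]
      rw [h2, hσ, hσ, hp, hp]
      exact M.div_mem (hM2 _) (hM2 _)
    · -- the equations
      intro i
      have h1 := congrArg al (hg i)
      rw [map_mul, map_add al (_ * _) _, map_mul, ← hσ] at h1
      rw [div_mul_eq_mul_div, ← add_div, eq_div_iff hJ1]
      linear_combination h1
    · -- (NH)
      intro j r hj h
      by_contra hr
      obtain ⟨F, H, hH, hFH⟩ := hgen r
      have hF : F ≠ 0 := by
        rintro rfl
        rw [map_zero] at hFH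
        exact (mul_ne_zero (hal0 H hH) hr) hFH
      refine no_sol n hn φ hX h0 j hj F H hF hH (hal ?_)
      rw [map_mul, map_mul, map_mul, map_mul, map_pow, map_pow, ← hσ, ← hσ, ← hFH, map_mul]
      rw [div_pow, div_mul_eq_mul_div, div_eq_iff (pow_ne_zero _ hJ1)] at h
      linear_combination (σ (al H) * al H) * h
    · -- infinitely many constants
      refine Set.infinite_of_injective_forall_mem
        (f := fun k : ℕ => al (PowerSeries.C ((zz : S2) ^ k))) ?_ ?_
      · intro a b hab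
        exact zpow_inj a b (PowerSeries.C_injective (hal hab))
      · intro k
        refine ⟨?_, ?_⟩
        · have := hM2 (C ((zz : S2) ^ k))
          rwa [Polynomial.coe_C] at this
        · rw [hσ, hC]
    · -- (LI)
      intro r c hc hsum
      have hfix : ∀ i, ∃ p q : S2, q ≠ 0 ∧
          al (PowerSeries.C q) * c i = al (PowerSeries.C p) := by
        intro i
        by_cases hx0 : c i = 0
        · exact ⟨0, 1, one_ne_zero, by rw [hx0, mul_zero, map_zero, map_zero]⟩
        obtain ⟨F, H, hH, hFH⟩ := hgen (c i)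
        have hH1 := hal0 H hH
        have hF : F ≠ 0 := by
          rintro rfl
          rw [map_zero] at hFH
          exact (mul_ne_zero hH1 hx0) hFH
        have e1 : φ F * H = F * φ H := by
          apply hal
          rw [map_mul, map_mul, ← hσ, ← hσ, ← hFH, map_mul, hc i]
          ring
        obtain ⟨p, q, hq, e6⟩ := fix_const n hn φ hX h0 hC F H hF hH e1
        refine ⟨p, q, hq, mul_left_cancel₀ hH1 ?_⟩
        rw [show al H * (al (PowerSeries.C q) * c i) = al (PowerSeries.C q) * (al H * c i) by ring,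
          hFH, ← map_mul, e6, map_mul]
        ring
      choose p q hq hpq using hfix
      obtain ⟨N, D, hD, hND⟩ := hM1 _ hsum
      have hQ0 : (∏ i, q i) ≠ 0 := Finset.prod_ne_zero_iff.2 fun i _ => hq i
      have e1 : ∀ i, al (PowerSeries.C (∏ i, q i)) * c i =
          al (PowerSeries.C (p i * ∏ j ∈ Finset.univ.erase i, q j)) := by
        intro i
        rw [← Finset.mul_prod_erase Finset.univ q (Finset.mem_univ i), map_mul, map_mul, map_mul,
          map_mul, ← hpq i]
        ring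
      have e2 : (D : PowerSeries S2) *
          ∑ i, PowerSeries.C (p i * ∏ j ∈ Finset.univ.erase i, q j) * g i ^ 2 ^ r =
          ((C (∏ i, q i) * N : Polynomial S2) : PowerSeries S2) := by
        apply hal
        rw [Polynomial.coe_mul, map_mul, map_mul, Polynomial.coe_C, ← hND, map_sum,
          show al (PowerSeries.C (∏ i, q i)) * (al (D : PowerSeries S2) *
            ∑ i, c i * al (g i) ^ 2 ^ r) = al (D : PowerSeries S2) *
              ∑ i, (al (PowerSeries.C (∏ i, q i)) * c i) * al (g i) ^ 2 ^ r by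
            rw [Finset.mul_sum, Finset.mul_sum, Finset.mul_sum]
            refine Finset.sum_congr rfl fun i _ => ?_
            ring]
        congr 1
        refine Finset.sum_congr rfl fun i _ => ?_
        rw [e1 i, map_mul, map_pow]
      have e3 := hLI r _ D _ hD e2
      intro i
      have e4 := e1 i
      rw [e3 i, map_zero, map_zero] at e4
      rcases mul_eq_zero.1 e4 with h | h
      · exfalso
        have := hal (h.trans (map_zero al).symm)
        exact hQ0 (PowerSeries.C_injective (this.trans (map_zero _).symm))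
      · exact h
    · -- coefficients
      intro κ
      rw [MvPolynomial.coeff_map]
      exact hM2 _
    · rw [MvPolynomial.eval_map]
      have h1 := congrArg al hP
      rw [MvPolynomial.hom_eval₂, map_zero] at h1
      exact h1
  refine MvPolynomial.map_injective _ ?_ (hPK.trans (map_zero _).symm)
  exact hal.comp fun p q h => Polynomial.coe_injective _ h

end NHMAux

open NHMAux

/-- Module NHM. -/
theorem specNHM (hALG : SpecALG) (hSGM : SpecSGM) : SpecNHM := by
  intro n hn ι _ g β hg hLI P hP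
  obtain ⟨hS1, hS2, -, -, -, -, -⟩ := hSGM n hn
  obtain ⟨φ, hφ, hφC, hφX, hφp⟩ := hS1 S2 ((zz : S2) ^ ce n)
  have hφinj : Function.Injective φ := by
    rw [injective_iff_map_eq_zero]
    intro F hF
    exact hS2 S2 _ (pow_ne_zero _ PowerSeries.X_ne_zero) F (by rw [← hφ]; exact hF)
  have hC : ∀ r : S2, φ (PowerSeries.C r) = PowerSeries.C r := fun r => by rw [hφ, hφC]
  have hX : φ PowerSeries.X = PowerSeries.C ((zz : S2) ^ ce n) * PowerSeries.X ^ (2 * n) := by
    rw [hφ, hφX]
  have hp : ∀ p : Polynomial S2, φ (p : PowerSeries S2) =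
      ((p.comp (C ((zz : S2) ^ ce n) * X ^ (2 * n)) : Polynomial S2) : PowerSeries S2) :=
    fun p => by rw [hφ, hφp]
  obtain ⟨al, σ, M, hfr⟩ := exists_fr n φ hφinj
  exact core hALG n hn φ hX (const0 n hn φ _ hX hC) hC hp (FractionRing AA) al σ M hfr ι g β
    (fun i => by rw [hφ]; exact hg i) hLI P hP

end Pool.Agent.Lib.MPba1bba.TM
end

section
/-!
# Module PAM: the section operator modulo `2` for `m = 2 n`
-/
set_option autoImplicit false

namespace Pool.Agent.Lib.MPba1bba.TM.PAMAux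

open Polynomial TR

/-- the value of `Λ` at a power of `u` -/
theorem lmm_pow (R : Type) [CommRing R] [Nontrivial R] (m v : ℕ) :
    LMm m (uu ^ v : PowerSeries R[X]) = im R m v := by
  ext1 N
  rw [LMm, PowerSeries.coeff_mk]
  have hc : ∀ k : ℕ, PowerSeries.coeff k (uu ^ v : PowerSeries R[X]) =
      if k = 0 then (X : R[X]) ^ v else 0 := by
    intro k
    rw [uu, ← map_pow, PowerSeries.coeff_C]
  rw [Finset.sum_eq_single (0, N)]
  · rw [hc, if_pos rfl, Polynomial.sum_def]
    have hs : ((X : R[X]) ^ v).support = {v} := by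
      rw [Polynomial.support_X_pow]
    rw [hs, Finset.sum_singleton, coeff_X_pow, if_pos rfl, C_1, one_mul]
  · rintro ⟨i, j⟩ hij hne
    rw [Finset.HasAntidiagonal.mem_antidiagonal] at hij
    have hi : i ≠ 0 := by
      rintro rfl
      apply hne
      simp only at hij
      rw [zero_add] at hij
      rw [hij]
    rw [hc, if_neg hi, Polynomial.sum_def, Polynomial.support_zero, Finset.sum_empty]
  · intro h
    exact absurd (by rw [Finset.HasAntidiagonal.mem_antidiagonal, zero_add]) h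

theorem add_self (a : PowerSeries (ZMod 2)[X]) : a + a = 0 := by
  rw [← two_mul, TR.PAM.two_zero, zero_mul]

theorem nsm_even {j : ℕ} (hj : Even j) (a : PowerSeries (ZMod 2)[X]) : j • a = 0 := by
  obtain ⟨i, rfl⟩ := hj
  rw [add_smul, add_self]

theorem nsm_odd {j : ℕ} (hj : Odd j) (a : PowerSeries (ZMod 2)[X]) : j • a = a := by
  obtain ⟨i, rfl⟩ := hj
  rw [add_smul, one_smul, mul_smul, two_smul, add_self, zero_add]

/-- large `v` -/
theorem im_large {R : Type} [CommRing R] {m v : ℕ} (hm : 1 ≤ m) (hv : m - 1 ≤ v) :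
    im R m v = (v % m + 1) • (uu ^ (v / m) : PowerSeries R[X]) +
      (m - (v % m + 1)) • (uu ^ (v / m - 1) : PowerSeries R[X]) := by
  have hlt : v % m < m := Nat.mod_lt _ hm
  have hdm := Nat.div_add_mod v m
  rw [im, ← Finset.sum_range_add_sum_Ico _ (show v % m + 1 ≤ m by omega)]
  congr 1
  · rw [Finset.sum_congr rfl (g := fun _ => (uu ^ (v / m) : PowerSeries R[X]))]
    · rw [Finset.sum_const, Finset.card_range]
    · intro r hr
      rw [Finset.mem_range] at hr
      have hrv : r ≤ v := by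
        have := Nat.mod_le v m
        omega
      have h1 : cc m v r = 0 := by rw [cc, if_pos hrv]
      have h2 : ww m v r = v / m := by
        rw [ww, if_pos hrv]
        have h3 : v - r = (v % m - r) + m * (v / m) := by omega
        rw [h3, Nat.add_mul_div_left _ _ hm, Nat.div_eq_of_lt (by omega), zero_add]
      rw [h1, h2, pow_zero, one_mul]
  · rw [Finset.sum_congr rfl (g := fun _ => (uu ^ (v / m - 1) : PowerSeries R[X]))]
    · rw [Finset.sum_const, Nat.card_Ico]
    · intro r hr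
      rw [Finset.mem_Ico] at hr
      have hk : 1 ≤ v / m := by
        rcases Nat.eq_zero_or_pos (v / m) with h0 | h0
        · rw [h0, mul_zero, zero_add] at hdm
          omega
        · exact h0
      have hmk : m ≤ m * (v / m) := Nat.le_mul_of_pos_right _ hk
      have hrv : r ≤ v := by omega
      have h1 : cc m v r = 0 := by rw [cc, if_pos hrv]
      have h2 : ww m v r = v / m - 1 := by
        rw [ww, if_pos hrv]
        have h4 : m * (v / m) = m * (v / m - 1) + m := by
          rw [Nat.mul_sub_one]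
          omega
        have h3 : v - r = (m + v % m - r) + m * (v / m - 1) := by omega
        rw [h3, Nat.add_mul_div_left _ _ hm, Nat.div_eq_of_lt (by omega), zero_add]
      rw [h1, h2, pow_zero, one_mul]

/-- the terms with `r > v` -/
noncomputable def tt (m v r : ℕ) : PowerSeries (ZMod 2)[X] := zz ^ cc m v r * uu ^ ww m v r

theorem tt_symm {m v r : ℕ} (h1 : v < r) (h2 : r < m) : tt m v (m + v - r) = tt m v r := by
  have hc : cc m v (m + v - r) = cc m v r := by
    have e1 : ¬ (m + v - r ≤ v) := by omega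
    have e2 : ¬ (r ≤ v) := by omega
    have e3 : m - (m + v - r) = r - v := by omega
    have e4 : m + v - r - v = m - r := by omega
    unfold cc
    rw [if_neg e1, if_neg e2, e3, e4, min_comm]
  have hw : ww m v (m + v - r) = ww m v r := by
    have e1 : ¬ (m + v - r ≤ v) := by omega
    have e2 : ¬ (r ≤ v) := by omega
    have e3 : m - (m + v - r) = r - v := by omega
    have e4 : m + v - r - v = m - r := by omega
    unfold ww
    rw [if_neg e1, if_neg e2, e3, e4]
    split_ifs <;> omega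
  rw [tt, tt, hc, hw]

/-- small `v`: the sum of all terms but the middle one -/
theorem sum_tt {m v : ℕ} (s : Finset ℕ) (hs : ∀ r, r ∈ s ↔ (v < r ∧ r < m ∧ 2 * r ≠ m + v)) :
    ∑ r ∈ s, tt m v r = 0 := by
  refine Finset.sum_involution (fun r _ => m + v - r) ?_ ?_ ?_ ?_
  · intro r hr
    rw [hs] at hr
    rw [tt_symm hr.1 hr.2.1, add_self]
  · intro r hr _ h
    rw [hs] at hr
    omega
  · intro r hr
    rw [hs] at hr ⊢
    omega
  · intro r hr
    rw [hs] at hr
    omega

theorem im_small {m v : ℕ} (hv : v + 1 ≤ m) :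
    im (ZMod 2) m v = (v + 1) • (1 : PowerSeries (ZMod 2)[X]) +
      ∑ r ∈ Finset.Ico (v + 1) m, tt m v r := by
  rw [im, ← Finset.sum_range_add_sum_Ico _ hv]
  congr 1
  rw [Finset.sum_congr rfl (g := fun _ => (1 : PowerSeries (ZMod 2)[X]))]
  · rw [Finset.sum_const, Finset.card_range]
  · intro r hr
    rw [Finset.mem_range] at hr
    have h1 : cc m v r = 0 := by rw [cc, if_pos (by omega)]
    have h2 : ww m v r = 0 := by
      rw [ww, if_pos (by omega), Nat.div_eq_of_lt (by omega)]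
    rw [h1, h2, pow_zero, pow_zero, one_mul]

theorem im_odd {n v : ℕ} (hn : 1 ≤ n) (hv : Odd v) : im (ZMod 2) (2 * n) v = 0 := by
  rcases Nat.lt_or_ge v (2 * n - 1) with h | h
  · rw [im_small (by omega), nsm_even (by obtain ⟨i, rfl⟩ := hv; exact ⟨i + 1, by omega⟩), zero_add]
    refine sum_tt _ fun r => ?_
    rw [Finset.mem_Ico]
    obtain ⟨i, rfl⟩ := hv
    omega
  · rw [im_large (by omega) h]
    have h1 : Odd (v % (2 * n)) := by
      rw [Nat.odd_iff, Nat.mod_mul_right_mod]
      exact Nat.odd_iff.1 hv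
    have h2 : v % (2 * n) < 2 * n := Nat.mod_lt _ (by omega)
    obtain ⟨i, hi⟩ := h1
    rw [nsm_even ⟨i + 1, by omega⟩, nsm_even ⟨n - i - 1, by omega⟩, add_zero]

theorem im_even_small {n i : ℕ} (hi : i < n) :
    im (ZMod 2) (2 * n) (2 * i) = 1 + zz ^ (2 * n - 2 * i) * uu := by
  rw [im_small (by omega), nsm_odd ⟨i, rfl⟩]
  congr 1
  rw [← Finset.add_sum_erase _ _ (show n + i ∈ Finset.Ico (2 * i + 1) (2 * n) by
    rw [Finset.mem_Ico]; omega)]
  rw [sum_tt ((Finset.Ico (2 * i + 1) (2 * n)).erase (n + i)) (fun r => by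
    rw [Finset.mem_erase, Finset.mem_Ico]; omega), add_zero, tt, cc, ww, if_neg (by omega),
    if_neg (by omega), if_pos (by omega), pow_one]
  congr 2
  omega

theorem im_even_large {n i : ℕ} (hn : 1 ≤ n) (hi : n ≤ i) :
    im (ZMod 2) (2 * n) (2 * i) = uu ^ (i / n) + uu ^ (i / n - 1) := by
  rw [im_large (by omega) (by omega), Nat.mul_mod_mul_left, Nat.mul_div_mul_left _ _ (by omega)]
  have h2 : i % n < n := Nat.mod_lt _ (by omega)
  rw [nsm_odd ⟨i % n, rfl⟩, nsm_odd ⟨n - i % n - 1, by omega⟩]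

end Pool.Agent.Lib.MPba1bba.TM.PAMAux

namespace Pool.Agent.Lib.MPba1bba.TM

open Polynomial TR PAMAux

theorem specPAM : SpecPAM := by
  intro n hn
  refine ⟨fun F hF => ?_, fun i hi => ?_, fun i hi => ?_, fun v hv => ?_⟩
  · ext1 N
    rw [LMm, PowerSeries.coeff_mk, map_zero]
    refine Finset.sum_eq_zero fun ij _ => ?_
    rw [Polynomial.sum_def]
    refine Finset.sum_eq_zero fun v hv => ?_
    rcases Nat.even_or_odd v with h | h
    · exact absurd (hF ij.1 v h) (Polynomial.mem_support_iff.1 hv)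
    · rw [im_odd hn h, map_zero, mul_zero]
  · rw [lmm_pow, im_even_small hi]
  · rw [lmm_pow, im_even_large hn hi]
  · rw [lmm_pow, im_odd hn hv]

end Pool.Agent.Lib.MPba1bba.TM
end

section
/-!
# Module QUM: elimination

The identity `D S₁ = A + B h + C₂ h² + ∑ C_i H_i²` in characteristic `2`.
-/
namespace Pool.Agent.Lib.MPba1bba.TM

open Polynomial TR

namespace QUMAux

/-! ## The ring identity -/

theorem core {R : Type} [CommRing R] (two_eq : (2 : R) = 0)
    (z w T Δ h s h' cs k₀ κ S₀ e Z : R) (hT : T = 1 + z * w) (hD : Δ = T + z + z ^ 2)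
    (e1 : s * Δ ^ 2 = cs) (e2 : h' * Δ = z * T + h * (T + z))
    (e3 : T ^ 2 * S₀ = T ^ 2 * (s + h + h') + z * (T + z * s) * (1 + w + h) ^ 2 +
      z * T * (1 + w + h) * (w + h'))
    (e4 : (1 + z ^ 2) * κ = k₀ + (1 + z ^ 2) * ((z ^ 2 + z ^ 4) * e + Z))
    (e5 : T * (e - w) = z * (1 + w + h) ^ 2) :
    (1 + z ^ 2) * Δ ^ 2 * T ^ 2 * (S₀ + κ) =
      ((1 + z ^ 2) * (T ^ 2 * cs + T ^ 2 * Δ * (z * T) + z * (T * Δ ^ 2 + z * cs) * (1 + w ^ 2) +
          z * T * (1 + w) * (Δ ^ 2 * w + Δ * (z * T))) + T ^ 2 * Δ ^ 2 * k₀ +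
        (1 + z ^ 2) * Δ ^ 2 * (z ^ 2 + z ^ 4) * T * (T * w + z * (1 + w ^ 2))) +
      ((1 + z ^ 2) * T ^ 2 * Δ * (z * (1 + z))) * h +
      ((1 + z ^ 2) * (z * (T * Δ ^ 2 + z * cs) + z * T * (Δ * (T + z))) +
        (1 + z ^ 2) * Δ ^ 2 * (z ^ 2 + z ^ 4) * T * z) * h ^ 2 +
      (1 + z ^ 2) * Δ ^ 2 * T ^ 2 * Z := by
  have hin : T * Δ + T * (T + z) + z * ((1 + w) * (T + z) + Δ * w + z * T) - T * z * (1 + z) =
      2 * (T ^ 2 + T * z + z ^ 2 * T + w * z * T + w * z ^ 2) := by
    rw [hD]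
    linear_combination (-z ^ 2) * hT
  linear_combination (1 + z ^ 2) * Δ ^ 2 * e3 + T ^ 2 * Δ ^ 2 * e4 +
    (1 + z ^ 2) * (T ^ 2 + z ^ 2 * (1 + w + h) ^ 2) * e1 +
    (1 + z ^ 2) * Δ * (T ^ 2 + z * T * (1 + w + h)) * e2 +
    (1 + z ^ 2) * T * Δ ^ 2 * (z ^ 2 + z ^ 4) * e5 +
    h * (1 + z ^ 2) * T * Δ * hin +
    ((1 + z ^ 2) * (z * T * Δ ^ 2 + z ^ 2 * cs + Δ ^ 2 * T * (z ^ 2 + z ^ 4) * z) *
      (w + h + w * h) +
    h * (1 + z ^ 2) * T * Δ * (T ^ 2 + T * z + z ^ 2 * T + w * z * T + w * z ^ 2)) * two_eq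

theorem two_eq : (2 : S2) = 0 := by
  have : (2 : S2) = PowerSeries.C (2 : ZMod 2) := (map_ofNat _ 2).symm
  rw [this]
  have h2 : (2 : ZMod 2) = 0 := by decide
  rw [h2, map_zero]

/-! ## Values at `u = 1` -/

theorem ev1_eq {R : Type} [CommRing R] (F : PowerSeries R[X]) :
    ev1 F = PowerSeries.map (Polynomial.evalRingHom (1 : R)) F := by
  ext k
  simp [ev1]

theorem ev1_uu {R : Type} [CommRing R] : ev1 (uu : PowerSeries R[X]) = 1 := by
  rw [ev1_eq, uu, PowerSeries.map_C]
  simp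

theorem ev1_zz {R : Type} [CommRing R] : ev1 (zz : PowerSeries R[X]) = zz := by
  rw [ev1_eq, PowerSeries.map_X]

theorem map_X : algebraMap P2 S2 X = zz := by
  simp [PowerSeries.algebraMap_apply']

/-! ## The sum over the odd coefficients -/

theorem sum_swap {R : Type} [CommRing R] (N : ℕ) (f : ℕ → ℕ → R) :
    ∑ j ∈ Finset.range N, ∑ i ∈ Finset.range (j + 1), f j i =
      ∑ i ∈ Finset.range N, ∑ j ∈ Finset.range N, if i ≤ j then f j i else 0 := by
  rw [Finset.sum_comm]
  refine Finset.sum_congr rfl fun j hj => ?_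
  rw [← Finset.sum_filter]
  refine Finset.sum_congr ?_ fun _ _ => rfl
  ext i
  simp only [Finset.mem_filter, Finset.mem_range] at hj ⊢
  omega

theorem sum_cf (N : ℕ) (r : ℕ → S2) (a : ℕ → S2) (b : ℕ → ℕ → S2) (c y : ℕ → S2) :
    ∑ j ∈ Finset.range N, r j * (a j + ∑ i ∈ Finset.range (j + 1), b j i * (c i + y i)) =
      ∑ j ∈ Finset.range N, r j * (a j + ∑ i ∈ Finset.range (j + 1), b j i * c i) +
      ∑ i ∈ Finset.range N, (∑ j ∈ Finset.range N, if i ≤ j then r j * b j i else 0) * y i := by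
  have h1 : ∀ j, r j * (a j + ∑ i ∈ Finset.range (j + 1), b j i * (c i + y i)) =
      r j * (a j + ∑ i ∈ Finset.range (j + 1), b j i * c i) +
        ∑ i ∈ Finset.range (j + 1), r j * b j i * y i := by
    intro j
    have h2 : ∑ i ∈ Finset.range (j + 1), b j i * (c i + y i) =
        ∑ i ∈ Finset.range (j + 1), b j i * c i + ∑ i ∈ Finset.range (j + 1), b j i * y i := by
      rw [← Finset.sum_add_distrib]
      refine Finset.sum_congr rfl fun i _ => ?_
      ring
    rw [h2, ← add_assoc, mul_add, Finset.mul_sum]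
    congr 1
    refine Finset.sum_congr rfl fun i _ => ?_
    ring
  rw [Finset.sum_congr rfl fun j _ => h1 j, Finset.sum_add_distrib, sum_swap]
  congr 1
  refine Finset.sum_congr rfl fun i _ => ?_
  rw [Finset.sum_mul]
  refine Finset.sum_congr rfl fun j _ => ?_
  split_ifs <;> simp

/-! ## The polynomials -/

/-- `T₁`. -/
noncomputable def pT (n : ℕ) : P2 := 1 + X ^ (2 * n + 3)

/-- `Δ`. -/
noncomputable def pD (n : ℕ) : P2 := 1 + X ^ (2 * n + 3) + X + X ^ 2

theorem ne_of_eval {p : P2} (h : p.eval 0 = 1) : p ≠ 0 := by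
  rintro rfl
  simp at h

theorem pT_ne (n : ℕ) : pT n ≠ 0 := ne_of_eval (by simp [pT])

theorem pD_ne (n : ℕ) : pD n ≠ 0 := ne_of_eval (by simp [pD])

theorem one_add_ne : (1 + X : P2) ≠ 0 := ne_of_eval (by simp)

theorem one_add_sq_ne : (1 + X ^ 2 : P2) ≠ 0 := ne_of_eval (by simp)

/-- The polynomial part of `Z`. -/
noncomputable def pZ (n : ℕ) (rh : ℕ → P2) : P2 :=
  ∑ j ∈ Finset.range (n - 1), rh j * ((if j = 0 then X ^ (2 * n + 2) else 0) +
    ∑ i ∈ Finset.range (j + 1), X ^ ((2 * n + 3) * (j - i) + 1) *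
      ((if i = 0 then 1 else 0) + (if i = 1 then X ^ (4 * n + 4) else 0)))

/-- The coefficients of `Z`. -/
noncomputable def pzi (n : ℕ) (rh : ℕ → P2) (i : ℕ) : P2 :=
  ∑ j ∈ Finset.range (n - 1), if i ≤ j then rh j * X ^ ((2 * n + 3) * (j - i) + 1) else 0

theorem Z_eq (n : ℕ) (rh : ℕ → P2) (G H : PowerSeries (ZMod 2)[X])
    (hG : ∀ j : ℕ, cf (2 * j + 1) G = (if j = 0 then zz ^ (2 * n + 2) else 0) +
      ∑ i ∈ Finset.range (j + 1), zz ^ ((2 * n + 3) * (j - i) + 1) *
        ((if i = 0 then 1 else 0) + (if i = 1 then zz ^ (4 * n + 4) else 0) + cf i H ^ 2)) :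
    ∑ j ∈ Finset.range (n - 1), algebraMap P2 S2 (rh j) * cf (2 * j + 1) G =
      algebraMap P2 S2 (pZ n rh) +
        ∑ i ∈ Finset.range (n - 1), algebraMap P2 S2 (pzi n rh i) * cf i H ^ 2 := by
  rw [Finset.sum_congr rfl fun j _ => by rw [hG j]]
  rw [sum_cf]
  congr 1
  · simp only [pZ, map_sum, map_mul, map_add, map_pow, map_X, apply_ite (algebraMap P2 S2),
      map_zero, map_one]
  · refine Finset.sum_congr rfl fun i _ => ?_
    simp only [pzi, map_sum, map_mul, map_pow, map_X, apply_ite (algebraMap P2 S2), map_zero]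

end QUMAux

open QUMAux in
theorem specQUM (hKA : SpecKAM) (hMO : SpecMOM) (hCF : SpecCFM) (hEM : SpecEMM) : SpecQUM := by
  intro n hn
  obtain ⟨k₀, rh, hK⟩ := hKA n hn
  obtain ⟨cs, hM⟩ := hMO n hn
  refine ⟨(1 + X ^ 2) * (pT n ^ 2 * cs + pT n ^ 2 * pD n * (X * pT n) +
        X * (pT n * pD n ^ 2 + X * cs) * (1 + (X ^ (2 * n + 2)) ^ 2) +
          X * pT n * (1 + X ^ (2 * n + 2)) * (pD n ^ 2 * X ^ (2 * n + 2) +
            pD n * (X * pT n))) + pT n ^ 2 * pD n ^ 2 * k₀ +
        (1 + X ^ 2) * pD n ^ 2 * (X ^ 2 + X ^ 4) * pT n *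
          (pT n * X ^ (2 * n + 2) + X * (1 + (X ^ (2 * n + 2)) ^ 2)) +
        (1 + X ^ 2) * pD n ^ 2 * pT n ^ 2 * pZ n rh,
      (1 + X ^ 2) * pT n ^ 2 * pD n * (X * (1 + X)),
      (1 + X ^ 2) * (X * (pT n * pD n ^ 2 + X * cs) + X * pT n * (pD n * (pT n + X))) +
        (1 + X ^ 2) * pD n ^ 2 * (X ^ 2 + X ^ 4) * pT n * X,
      (1 + X ^ 2) * pD n ^ 2 * pT n ^ 2,
      fun i => (1 + X ^ 2) * pD n ^ 2 * pT n ^ 2 * pzi n rh i,
      mul_ne_zero (mul_ne_zero (mul_ne_zero one_add_sq_ne (pow_ne_zero _ (pT_ne n))) (pD_ne n))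
        (mul_ne_zero X_ne_zero one_add_ne),
      mul_ne_zero (mul_ne_zero one_add_sq_ne (pow_ne_zero _ (pD_ne n)))
        (pow_ne_zero _ (pT_ne n)), ?_⟩
  intro P Q E H hP hS
  obtain ⟨S₀, hS₀, s, h', m1, m2, m3⟩ := hM Q E H hS
  obtain ⟨κ, hκ, hκ'⟩ := hK P hP (FF2 Q E H)
  obtain ⟨q1, q2, q3, q4, q5, q6⟩ := hEM n hn Q E H hS
  have k1 := hκ' q5
  have c1 := hCF n hn Q E H hS
  refine ⟨S₀ + κ, by rw [hκ, hS₀]; ring, ?_⟩
  have hw : ev1 (bar E) = zz ^ (2 * n + 2) := by
    rw [q1, ev1_eq, map_mul, map_pow, ← ev1_eq, ← ev1_eq, ev1_zz, ev1_uu, mul_one]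
  have e5 : (1 + zz ^ (2 * n + 3)) * ((ev1 (bar (FF2 Q E H)) - 1) - zz ^ (2 * n + 2)) =
      zz * (1 + zz ^ (2 * n + 2) + ev1 (bar H)) ^ 2 := by
    have := congrArg ev1 q6
    simp only [ev1_eq, map_mul, map_add, map_sub, map_pow, map_one] at this
    simp only [← ev1_eq, ev1_zz, ev1_uu, hw, one_pow, mul_one] at this
    exact this
  have hZ := Z_eq n rh (bar (FF2 Q E H)) (bar H) c1
  have key := core two_eq (zz : S2) (zz ^ (2 * n + 2)) (1 + zz ^ (2 * n + 3))
    (1 + zz ^ (2 * n + 3) + zz + zz ^ 2) (ev1 (bar H)) s h' (algebraMap P2 S2 cs)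
    (algebraMap P2 S2 k₀) (bar0 κ) (bar0 S₀) (ev1 (bar (FF2 Q E H)) - 1)
    (∑ j ∈ Finset.range (n - 1), algebraMap P2 S2 (rh j) * cf (2 * j + 1) (bar (FF2 Q E H)))
    (by ring) rfl m1 m2 m3 k1 e5
  have hb : bar0 (S₀ + κ) = bar0 S₀ + bar0 κ := by simp only [bar0, map_add]
  rw [hb]
  simp only [map_mul, map_add, map_pow, map_one, map_X, pT, pD]
  rw [key, hZ]
  have hsum : ∑ i ∈ Finset.range (n - 1), (1 + zz ^ 2) * (1 + zz ^ (2 * n + 3) + zz + zz ^ 2) ^ 2 *
      (1 + zz ^ (2 * n + 3)) ^ 2 * algebraMap P2 S2 (pzi n rh i) * cf i (bar H) ^ 2 =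
      (1 + zz ^ 2) * (1 + zz ^ (2 * n + 3) + zz + zz ^ 2) ^ 2 *
      (1 + zz ^ (2 * n + 3)) ^ 2 *
        ∑ i ∈ Finset.range (n - 1), algebraMap P2 S2 (pzi n rh i) * cf i (bar H) ^ 2 := by
    rw [Finset.mul_sum]
    refine Finset.sum_congr rfl fun i _ => ?_
    ring
  rw [hsum]
  ring

end Pool.Agent.Lib.MPba1bba.TM
end

section
/-!
# Module SEQ: the orbit `y_k = z^(Nk n k)` and the sequences `a_k`, `b_(i,k)`
-/
namespace Pool.Agent.Lib.MPba1bba.TM

open Polynomial TR

namespace SEQM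

theorem alg_X : algebraMap P2 S2 X = zz := by
  simp [zz, PowerSeries.algebraMap_apply']

/-- The value at `y = z^N` of a polynomial over `𝔽₂[z]`. -/
noncomputable def pe (q : Polynomial P2) (N : ℕ) : P2 := q.eval (X ^ N)

theorem alg_pe (q : Polynomial P2) (N : ℕ) :
    algebraMap P2 S2 (pe q N) = (pS q).eval (zz ^ N) := by
  rw [pe, pS, Polynomial.eval_map, ← alg_X, ← map_pow, Polynomial.eval₂_at_apply]

theorem alg_pe_zero (q : Polynomial P2) : algebraMap P2 S2 (pe q 0) = (pS q).eval 1 := by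
  rw [alg_pe, pow_zero]

/-- The substitution as a ring homomorphism. -/
theorem exists_hom (hEC : SpecEC) (N : ℕ) (hN : 1 ≤ N) :
    ∃ φ : PowerSeries S2 →+* S2, (∀ F, φ F = ev N F) ∧
      ∀ q : Polynomial S2, φ (q : PowerSeries S2) = q.eval (zz ^ N) := by
  obtain ⟨h1, h2, h3, -⟩ := hEC.1 N hN
  let φ : PowerSeries S2 →+* S2 :=
    { toFun := ev N
      map_one' := by
        have := h2 1
        rwa [map_one] at this
      map_mul' := fun F G => (h1 F G).2
      map_zero' := by
        have := h2 0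
        rwa [map_zero] at this
      map_add' := fun F G => (h1 F G).1 }
  refine ⟨φ, fun F => rfl, fun q => ?_⟩
  have h4 : φ.comp (Polynomial.coeToPowerSeries.ringHom (R := S2)) =
      Polynomial.evalRingHom (zz ^ N) := by
    refine Polynomial.ringHom_ext (fun a => ?_) ?_
    · rw [RingHom.comp_apply, Polynomial.coeToPowerSeries.ringHom_apply, Polynomial.coe_C,
        Polynomial.coe_evalRingHom, Polynomial.eval_C]
      exact h2 a
    · rw [RingHom.comp_apply, Polynomial.coeToPowerSeries.ringHom_apply, Polynomial.coe_X,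
        Polynomial.coe_evalRingHom, Polynomial.eval_X]
      exact h3
  have h5 := RingHom.congr_fun h4 q
  rwa [RingHom.comp_apply, Polynomial.coeToPowerSeries.ringHom_apply,
    Polynomial.coe_evalRingHom] at h5

/-- The Mahler equation at a point. -/
theorem ev_eq (hEC : SpecEC) (hS : SpecSGM) (n : ℕ) (hn : 1 ≤ n) (β : Polynomial S2)
    (g : PowerSeries S2) (hg : SolS n β g) (N : ℕ) (hN : 1 ≤ N) :
    (1 + zz ^ N) * ev N g = (pS (th n)).eval (zz ^ N) * ev (ce n + 2 * n * N) g +
      β.eval (zz ^ N) := by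
  obtain ⟨φ, h1, h2⟩ := exists_hom hEC N hN
  have h3 := congrArg φ hg
  rw [map_mul, map_add, map_one, map_add, map_mul, h2, h2, h1, h1, h1, (hS n hn).2.2.2.1] at h3
  rwa [(hEC.1 N hN).2.2.1] at h3

/-! ## Orders -/

theorem ord_mul {x y : S2} {o p : ℕ} (hx : HasOrd x o) (hy : HasOrd y p) :
    HasOrd (x * y) (o + p) := by
  obtain ⟨t, rfl⟩ := hx
  obtain ⟨s, rfl⟩ := hy
  exact ⟨t + s + zz * t * s, by ring⟩

theorem ord_zpow (k : ℕ) : HasOrd (zz ^ k : S2) k := ⟨0, by ring⟩

theorem ord_one_add (k : ℕ) (hk : 1 ≤ k) : HasOrd (1 + zz ^ k : S2) 0 := by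
  obtain ⟨j, rfl⟩ := Nat.exists_eq_add_of_le hk
  exact ⟨zz ^ j, by ring⟩

theorem ord_add_z (k : ℕ) (hk : 2 ≤ k) : HasOrd (zz ^ k + zz : S2) 1 := by
  obtain ⟨j, rfl⟩ := Nat.exists_eq_add_of_le hk
  exact ⟨zz ^ j, by ring⟩

theorem ord_inv {x w : S2} (hx : HasOrd x 0) (h : x * w = 1) : HasOrd w 0 := by
  obtain ⟨t, rfl⟩ := hx
  refine ⟨-(t * w), ?_⟩
  linear_combination h

theorem ord_sum (n k : ℕ) (hn : 1 ≤ n) (hk : 1 ≤ k) :
    HasOrd (∑ t ∈ Finset.range n, (zz ^ k : S2) ^ t) 0 := by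
  obtain ⟨j, rfl⟩ := Nat.exists_eq_add_of_le hn
  obtain ⟨i, rfl⟩ := Nat.exists_eq_add_of_le hk
  rw [add_comm 1 j, Finset.sum_range_succ']
  refine ⟨zz ^ i * ∑ t ∈ Finset.range j, (zz ^ (1 + i) : S2) ^ t, ?_⟩
  rw [pow_zero, pow_zero, one_mul, add_comm, Finset.mul_sum, Finset.mul_sum]
  congr 1
  refine Finset.sum_congr rfl fun t _ => ?_
  ring

/-- The multiplier at `y = z^N`. -/
theorem th_eval (n N : ℕ) : (pS (th n)).eval (zz ^ N) =
    zz ^ (1 + (2 * n + 3) * (n - 1)) * (zz ^ N) ^ n *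
      (zz ^ ((2 * n + 3) * n + N * n) + zz) * (1 + zz ^ ((2 * n + 3) * n + N * n)) *
      ∑ t ∈ Finset.range n, (zz ^ ((2 * n + 3) + N) : S2) ^ t := by
  have h1 : ∀ k l : ℕ, (pS (mo k l)).eval (zz ^ N : S2) = zz ^ (k + N * l) := by
    intro k l
    rw [pS, mo, Polynomial.map_mul, Polynomial.map_C, Polynomial.map_pow, Polynomial.map_X,
      Polynomial.eval_mul, Polynomial.eval_C, Polynomial.eval_pow, Polynomial.eval_X, map_pow,
      alg_X, pow_add, pow_mul]
  have h2 : (pS (YY n)).eval (zz ^ N : S2) = zz ^ ((2 * n + 3) * n + N * n) := h1 _ _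
  have h3 : (pS (En n)).eval (zz ^ N : S2) =
      ∑ t ∈ Finset.range n, (zz ^ ((2 * n + 3) + N) : S2) ^ t := by
    rw [pS, En, Polynomial.map_sum, Polynomial.eval_finsetSum]
    refine Finset.sum_congr rfl fun t _ => ?_
    have := h1 ((2 * n + 3) * t) t
    rw [pS] at this
    rw [this, ← pow_mul]
    congr 1
    ring
  have h4 : pS (th n) = pS (mo (1 + (2 * n + 3) * (n - 1)) n) * (pS (YY n) + pS (mo 1 0)) *
      (1 + pS (YY n)) * pS (En n) := by
    simp only [pS, th, Polynomial.map_mul, Polynomial.map_add, Polynomial.map_one]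
  rw [h4, Polynomial.eval_mul, Polynomial.eval_mul, Polynomial.eval_mul, Polynomial.eval_add,
    Polynomial.eval_add, Polynomial.eval_one, h1, h1, h2, h3, pow_add, ← pow_mul, mul_zero,
    add_zero, pow_one]

theorem th_ord (n N : ℕ) (hn : 1 ≤ n) : HasOrd ((pS (th n)).eval (zz ^ N))
    (2 + (2 * n + 3) * (n - 1) + N * n) := by
  rw [th_eval]
  have h1 : 5 ≤ (2 * n + 3) * n := by nlinarith
  have h2 := ord_mul (ord_mul (ord_mul (ord_mul (ord_zpow (1 + (2 * n + 3) * (n - 1)))
    (ord_zpow (N * n))) (ord_add_z ((2 * n + 3) * n + N * n) (by omega)))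
    (ord_one_add ((2 * n + 3) * n + N * n) (by omega)))
    (ord_sum n ((2 * n + 3) + N) hn (by omega))
  rw [← pow_mul (zz : S2) N n]
  have h3 : 1 + (2 * n + 3) * (n - 1) + N * n + 1 + 0 + 0 = 2 + (2 * n + 3) * (n - 1) + N * n := by
    ring
  rwa [h3] at h2

/-! ## The exponents -/

theorem pow_pos' (n k : ℕ) (hn : 1 ≤ n) : 1 ≤ (2 * n) ^ k := Nat.one_le_pow _ _ (by omega)

theorem Nk_pos (n k : ℕ) (hn : 1 ≤ n) : 1 ≤ Nk n k := by
  rw [Nk]
  have h1 : 2 ≤ (2 * n) ^ (k + 1) := by
    rw [pow_succ]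
    have := pow_pos' n k hn
    nlinarith
  have h2 : 1 ≤ (2 * n) ^ (k + 1) - 1 := by omega
  nlinarith

theorem Nk_zero (n : ℕ) : Nk n 0 = ce n := by
  rw [Nk, ce, zero_add, pow_one]

theorem Nk_succ (n k : ℕ) (hn : 1 ≤ n) : ce n + 2 * n * Nk n k = Nk n (k + 1) := by
  rw [Nk, Nk, ce]
  have h1 := pow_pos' n (k + 1) hn
  have h2 := pow_pos' n (k + 1 + 1) hn
  zify [h1, h2, show 1 ≤ 2 * n by omega]
  ring

theorem al_zero (n : ℕ) (hn : 1 ≤ n) : 2 + (2 * n + 3) * (n - 1) + 0 * n = al n 0 := by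
  rw [al]
  simp only [zero_add, Finset.range_one, Finset.sum_singleton, pow_zero, mul_one, zero_mul,
    add_zero]
  have h1 : 2 * n + 1 ≤ n * (2 * n + 3) := by nlinarith
  zify [h1, hn]
  ring

theorem al_succ (n k : ℕ) (hn : 1 ≤ n) :
    al n k + (2 + (2 * n + 3) * (n - 1) + Nk n k * n) = al n (k + 1) := by
  rw [al, al, Finset.sum_range_succ _ (k + 1)]
  congr 1
  rw [Nk]
  have h0 := pow_pos' n (k + 1) hn
  have h1 : 2 * n + 1 ≤ n * (2 * n + 3) * (2 * n) ^ (k + 1) := by
    have h2 : 2 * n + 1 ≤ n * (2 * n + 3) := by nlinarith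
    calc 2 * n + 1 ≤ n * (2 * n + 3) * 1 := by omega
      _ ≤ _ := Nat.mul_le_mul_left _ h0
  zify [h0, h1, hn]
  ring

/-- The sum of the exponents. -/
theorem Nk_sum (n : ℕ) (hn : 1 ≤ n) (k : ℕ) :
    ∑ l ∈ Finset.range k, Nk n l ≤ 2 * (2 * n + 3) * (2 * n) ^ k := by
  induction k with
  | zero => simp
  | succ k ih =>
    rw [Finset.sum_range_succ]
    have h1 : Nk n k ≤ (2 * n + 3) * (2 * n) ^ (k + 1) := by
      rw [Nk]
      exact Nat.mul_le_mul_left _ (Nat.sub_le _ _)
    have h2 : 2 * (2 * n) ^ k ≤ (2 * n) ^ (k + 1) := by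
      rw [pow_succ, mul_comm]
      exact Nat.mul_le_mul_left _ (by omega)
    nlinarith

/-! ## Degrees of values -/

theorem natDegree_pe (q : Polynomial P2) : ∃ A : ℕ, ∀ N : ℕ,
    (pe q N).natDegree ≤ A + q.natDegree * N := by
  refine ⟨q.support.sup fun j => (q.coeff j).natDegree, fun N => ?_⟩
  rw [pe, Polynomial.eval_eq_sum, Polynomial.sum_def]
  refine Polynomial.natDegree_sum_le_of_forall_le _ _ fun j hj => ?_
  refine le_trans Polynomial.natDegree_mul_le ?_
  rw [← pow_mul, Polynomial.natDegree_X_pow, mul_comm N j]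
  exact Nat.add_le_add (Finset.le_sup (f := fun j => (q.coeff j).natDegree) hj)
    (Nat.mul_le_mul_right _ (Polynomial.le_natDegree_of_mem_supp _ hj))

/-! ## The sequences -/

/-- The denominators. -/
noncomputable def Cp (n : ℕ) : ℕ → P2
  | 0 => 1
  | k + 1 => Cp n k * (1 + X ^ Nk n k)

/-- The numerators of `a_k`. -/
noncomputable def Ap (n : ℕ) : ℕ → P2
  | 0 => pe (th n) 0
  | k + 1 => Ap n k * pe (th n) (Nk n k)

/-- The numerators of `b_k`. -/
noncomputable def Bp (n : ℕ) (β : Polynomial P2) : ℕ → P2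
  | 0 => pe β 0
  | k + 1 => (1 + X ^ Nk n k) * Bp n β k + Ap n k * pe β (Nk n k)

/-- The inverse of `1 + y_k`. -/
noncomputable def iv (n k : ℕ) : S2 := (1 + zz ^ Nk n k)⁻¹

theorem iv_mul (n k : ℕ) (hn : 1 ≤ n) : (1 + zz ^ Nk n k) * iv n k = 1 := by
  refine PowerSeries.mul_inv_cancel _ ?_
  have h := Nk_pos n k hn
  rw [map_add, map_one, map_pow, PowerSeries.constantCoeff_X, zero_pow (by omega), add_zero]
  exact one_ne_zero

/-- The sequence `a_k`. -/
noncomputable def aa (n : ℕ) : ℕ → S2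
  | 0 => (pS (th n)).eval 1
  | k + 1 => aa n k * ((pS (th n)).eval (zz ^ Nk n k) * iv n k)

/-- The sequence `b_k`. -/
noncomputable def bb (n : ℕ) (β : Polynomial P2) : ℕ → S2
  | 0 => (pS β).eval 1
  | k + 1 => bb n β k + aa n k * ((pS β).eval (zz ^ Nk n k) * iv n k)

theorem aa_ord (n : ℕ) (hn : 1 ≤ n) (k : ℕ) : HasOrd (aa n k) (al n k) := by
  induction k with
  | zero =>
    have h := th_ord n 0 hn
    rw [pow_zero, al_zero n hn] at h
    exact h
  | succ k ih =>
    have h1 : HasOrd (iv n k) 0 :=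
      ord_inv (ord_one_add (Nk n k) (Nk_pos n k hn)) (iv_mul n k hn)
    have h2 := ord_mul ih (ord_mul (th_ord n (Nk n k) hn) h1)
    rw [add_zero, al_succ n k hn] at h2
    exact h2

theorem Cp_ne (n : ℕ) (hn : 1 ≤ n) (k : ℕ) : Cp n k ≠ 0 := by
  induction k with
  | zero => exact one_ne_zero
  | succ k ih =>
    refine mul_ne_zero ih fun h => ?_
    have h1 := congrArg (fun p : P2 => p.coeff 0) h
    have h2 := Nk_pos n k hn
    simp only [Polynomial.coeff_add, Polynomial.coeff_one_zero, Polynomial.coeff_X_pow,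
      Polynomial.coeff_zero] at h1
    rw [if_neg (by omega), add_zero] at h1
    exact one_ne_zero h1

theorem alg_one_add (n k : ℕ) : algebraMap P2 S2 (1 + X ^ Nk n k) = 1 + zz ^ Nk n k := by
  rw [map_add, map_one, map_pow, alg_X]

theorem Cp_aa (n : ℕ) (hn : 1 ≤ n) (k : ℕ) :
    algebraMap P2 S2 (Cp n k) * aa n k = algebraMap P2 S2 (Ap n k) := by
  induction k with
  | zero => rw [Cp, Ap, aa, map_one, one_mul, alg_pe_zero]
  | succ k ih =>
    rw [Cp, Ap, aa, map_mul, map_mul, alg_pe, alg_one_add, ← ih]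
    have h := iv_mul n k hn
    linear_combination (algebraMap P2 S2 (Cp n k) * aa n k * (pS (th n)).eval (zz ^ Nk n k)) * h

theorem Cp_bb (n : ℕ) (hn : 1 ≤ n) (β : Polynomial P2) (k : ℕ) :
    algebraMap P2 S2 (Cp n k) * bb n β k = algebraMap P2 S2 (Bp n β k) := by
  induction k with
  | zero => rw [Cp, Bp, bb, map_one, one_mul, alg_pe_zero]
  | succ k ih =>
    rw [Cp, Bp, bb, map_mul, alg_one_add, map_add, map_mul, alg_one_add, map_mul, alg_pe, ← ih,
      ← Cp_aa n hn k]
    have h := iv_mul n k hn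
    linear_combination (algebraMap P2 S2 (Cp n k) * aa n k * (pS β).eval (zz ^ Nk n k)) * h

theorem main_eq (hEC : SpecEC) (hS : SpecSGM) (n : ℕ) (hn : 1 ≤ n) (β : Polynomial P2)
    (g : PowerSeries S2) (hg : SolS n (pS β) g) (k : ℕ) :
    Res n g (pS β) = aa n k * ev (Nk n k) g + bb n β k := by
  induction k with
  | zero => rw [Res, aa, bb, Nk_zero]
  | succ k ih =>
    rw [ih, aa, bb]
    have h1 := ev_eq hEC hS n hn (pS β) g hg (Nk n k) (Nk_pos n k hn)
    rw [Nk_succ n k hn] at h1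
    have h := iv_mul n k hn
    linear_combination (aa n k * iv n k) * h1 - (aa n k * ev (Nk n k) g) * h

/-- The common bound for the degrees. -/
def bd (n M D k : ℕ) : ℕ := (k + 1) * M + D * ∑ l ∈ Finset.range k, Nk n l

theorem bd_succ (n M D k : ℕ) : bd n M D (k + 1) = bd n M D k + M + D * Nk n k := by
  rw [bd, bd, Finset.sum_range_succ]
  ring

theorem bd_le (n M D k : ℕ) (hn : 1 ≤ n) :
    bd n M D k ≤ (2 * M + D * (2 * (2 * n + 3))) * (2 * n) ^ k := by
  have h1 := Nk_sum n hn k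
  have h2 : k + 1 ≤ 2 * (2 * n) ^ k := by
    have h3 : k < 2 ^ k := Nat.lt_two_pow_self
    have h4 : 2 ^ k ≤ (2 * n) ^ k := Nat.pow_le_pow_left (by omega) k
    omega
  rw [bd]
  calc (k + 1) * M + D * ∑ l ∈ Finset.range k, Nk n l
      ≤ 2 * (2 * n) ^ k * M + D * (2 * (2 * n + 3) * (2 * n) ^ k) :=
        Nat.add_le_add (Nat.mul_le_mul_right _ h2) (Nat.mul_le_mul_left _ h1)
    _ = _ := by ring

theorem deg_Cp (n M D : ℕ) (hD : 1 ≤ D) (k : ℕ) : (Cp n k).natDegree ≤ bd n M D k := by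
  induction k with
  | zero =>
    rw [Cp, Polynomial.natDegree_one]
    exact Nat.zero_le _
  | succ k ih =>
    rw [Cp, bd_succ]
    refine le_trans Polynomial.natDegree_mul_le ?_
    have h1 : (1 + X ^ Nk n k : P2).natDegree ≤ Nk n k := by
      refine le_trans (Polynomial.natDegree_add_le _ _) ?_
      rw [Polynomial.natDegree_one, Polynomial.natDegree_X_pow]
      simp
    nlinarith

theorem deg_Ap (n M D : ℕ) (hA : ∀ N, (pe (th n) N).natDegree ≤ M + D * N) (k : ℕ) :
    (Ap n k).natDegree ≤ bd n M D k := by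
  induction k with
  | zero =>
    rw [Ap, bd]
    have := hA 0
    simpa using this
  | succ k ih =>
    rw [Ap, bd_succ]
    refine le_trans Polynomial.natDegree_mul_le ?_
    have := hA (Nk n k)
    omega

theorem deg_Bp (n M D : ℕ) (hD : 1 ≤ D) (β : Polynomial P2)
    (hA : ∀ N, (pe (th n) N).natDegree ≤ M + D * N)
    (hB : ∀ N, (pe β N).natDegree ≤ M + D * N) (k : ℕ) :
    (Bp n β k).natDegree ≤ bd n M D k := by
  induction k with
  | zero =>
    rw [Bp, bd]
    have := hB 0
    simpa using this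
  | succ k ih =>
    rw [Bp, bd_succ]
    refine le_trans (Polynomial.natDegree_add_le _ _) (max_le ?_ ?_)
    · refine le_trans Polynomial.natDegree_mul_le ?_
      have h1 : (1 + X ^ Nk n k : P2).natDegree ≤ Nk n k := by
        refine le_trans (Polynomial.natDegree_add_le _ _) ?_
        rw [Polynomial.natDegree_one, Polynomial.natDegree_X_pow]
        simp
      nlinarith
    · refine le_trans Polynomial.natDegree_mul_le ?_
      have h1 := hB (Nk n k)
      have h2 := deg_Ap n M D hA k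
      omega

end SEQM

open SEQM in
theorem specSEQ (hS : SpecSGM) (hEC : SpecEC) : SpecSEQ := by
  intro n hn ι _ g β hg
  obtain ⟨A₀, hA₀⟩ := natDegree_pe (th n)
  choose A₁ hA₁ using fun i => natDegree_pe (β i)
  let M : ℕ := A₀ + ∑ i, A₁ i
  let D : ℕ := 1 + (th n).natDegree + ∑ i, (β i).natDegree
  have hD : 1 ≤ D := by
    simp only [D]
    omega
  have hA : ∀ N, (pe (th n) N).natDegree ≤ M + D * N := fun N => by
    refine le_trans (hA₀ N) (Nat.add_le_add ?_ (Nat.mul_le_mul_right _ ?_))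
    · exact Nat.le_add_right _ _
    · simp only [D]
      omega
  have hB : ∀ i N, (pe (β i) N).natDegree ≤ M + D * N := fun i N => by
    refine le_trans (hA₁ i N) (Nat.add_le_add ?_ (Nat.mul_le_mul_right _ ?_))
    · exact le_trans (Finset.single_le_sum (f := A₁) (fun _ _ => Nat.zero_le _)
        (Finset.mem_univ i)) (Nat.le_add_left _ _)
    · exact le_trans (Finset.single_le_sum (f := fun i => (β i).natDegree)
        (fun _ _ => Nat.zero_le _) (Finset.mem_univ i)) (Nat.le_add_left _ _)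
  refine ⟨⟨aa n, fun i => bb n (β i), fun i k => main_eq hEC hS n hn (β i) (g i) (hg i) k,
    aa_ord n hn⟩, Cp n, Ap n, fun i => Bp n (β i), 2 * M + D * (2 * (2 * n + 3)), fun k => ?_⟩
  have hk := bd_le n M D k hn
  exact ⟨Cp_ne n hn k, Cp_aa n hn k, fun i => Cp_bb n hn (β i) k,
    le_trans (deg_Cp n M D hD k) hk, le_trans (deg_Ap n M D hA k) hk,
    fun i => le_trans (deg_Bp n M D hD (β i) hA (hB i) k) hk⟩

end Pool.Agent.Lib.MPba1bba.TM
end

section
/-!
# SGM: the substitution `y ↦ c y^(2n)` and the Mahler equation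
-/
namespace Pool.Agent.Lib.MPba1bba.TM

open Polynomial TR

namespace SGMAux

/-- The substitution as a ring homomorphism. -/
noncomputable def sgHom (n : ℕ) (hn : 2 * n ≠ 0) (R : Type) [CommRing R] (c : R) :
    PowerSeries R →+* PowerSeries R :=
  ((PowerSeries.expand (2 * n) hn : PowerSeries R →ₐ[R] PowerSeries R) :
    PowerSeries R →+* PowerSeries R).comp (PowerSeries.rescale c)

theorem sgHom_apply (n : ℕ) (hn : 2 * n ≠ 0) (R : Type) [CommRing R] (c : R) (F : PowerSeries R) :
    sgHom n hn R c F = sg n c F := by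
  ext j
  have h1 : sgHom n hn R c F = PowerSeries.expand (2 * n) hn (PowerSeries.rescale c F) := rfl
  rw [h1, PowerSeries.coeff_expand, sg, PowerSeries.coeff_mk]
  split_ifs with h
  · rw [PowerSeries.coeff_rescale]
  · rfl

theorem coeff_sg (n : ℕ) {R : Type} [CommRing R] (c : R) (F : PowerSeries R) (j : ℕ) :
    PowerSeries.coeff j (sg n c F) =
      if 2 * n ∣ j then c ^ (j / (2 * n)) * PowerSeries.coeff (j / (2 * n)) F else 0 := by
  rw [sg, PowerSeries.coeff_mk]

theorem coeff_sg_mul (n : ℕ) (hn : 1 ≤ n) {R : Type} [CommRing R] (c : R) (F : PowerSeries R)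
    (i : ℕ) : PowerSeries.coeff (2 * n * i) (sg n c F) = c ^ i * PowerSeries.coeff i F := by
  rw [coeff_sg, if_pos (dvd_mul_right _ _), Nat.mul_div_cancel_left _ (by omega : 0 < 2 * n)]

theorem sg_sub (n : ℕ) {R : Type} [CommRing R] (c : R) (F G : PowerSeries R) :
    sg n c (F - G) = sg n c F - sg n c G := by
  ext j
  rw [map_sub, coeff_sg, coeff_sg, coeff_sg]
  split_ifs with h
  · rw [map_sub, mul_sub]
  · rw [sub_zero]

theorem dvd_sg (n : ℕ) {R : Type} [CommRing R] (c : R) (F : PowerSeries R) (k : ℕ)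
    (h : PowerSeries.X ^ k ∣ F) : PowerSeries.X ^ k ∣ sg n c F := by
  rw [PowerSeries.X_pow_dvd_iff] at h ⊢
  intro j hj
  rw [coeff_sg]
  split_ifs with h1
  · rw [h (j / (2 * n)) (lt_of_le_of_lt (Nat.div_le_self _ _) hj), mul_zero]
  · rfl

theorem eq_of_dvd {R : Type} [CommRing R] (F G : PowerSeries R)
    (h : ∀ k : ℕ, (PowerSeries.X : PowerSeries R) ^ k ∣ F - G) : F = G := by
  rw [← sub_eq_zero]
  ext k
  have := (PowerSeries.X_pow_dvd_iff.1 (h (k + 1))) k (by omega)
  rw [this, map_zero]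

/-- A contracting map has a fixed point. -/
theorem exists_fix {R : Type} [CommRing R] (T : PowerSeries R → PowerSeries R)
    (hT : ∀ (k : ℕ) (F G : PowerSeries R), (PowerSeries.X : PowerSeries R) ^ k ∣ F - G →
      (PowerSeries.X : PowerSeries R) ^ (k + 1) ∣ T F - T G) :
    ∃ g, T g = g := by
  have h1 : ∀ k : ℕ, (PowerSeries.X : PowerSeries R) ^ k ∣ T^[k + 1] 0 - T^[k] 0 := by
    intro k
    induction k with
    | zero => simp
    | succ k ih =>
      rw [Function.iterate_succ_apply' T (k + 1), Function.iterate_succ_apply' T k]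
      rw [Function.iterate_succ_apply' T k] at ih
      exact hT k _ _ ih
  have h2 : ∀ k l : ℕ, (PowerSeries.X : PowerSeries R) ^ k ∣ T^[k + l] 0 - T^[k] 0 := by
    intro k l
    induction l with
    | zero => simp
    | succ l ih =>
      have e : T^[k + (l + 1)] 0 - T^[k] 0 =
          (T^[k + l + 1] 0 - T^[k + l] 0) + (T^[k + l] 0 - T^[k] 0) := by
        rw [← add_assoc]; ring
      rw [e]
      exact dvd_add ((pow_dvd_pow _ (Nat.le_add_right k l)).trans (h1 (k + l))) ih
  set g : PowerSeries R := PowerSeries.mk fun j => PowerSeries.coeff j (T^[j + 1] 0) with hg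
  have h3 : ∀ k : ℕ, (PowerSeries.X : PowerSeries R) ^ k ∣ g - T^[k] 0 := by
    intro k
    rw [PowerSeries.X_pow_dvd_iff]
    intro j hj
    have h4 := (PowerSeries.X_pow_dvd_iff.1 (h2 (j + 1) (k - (j + 1)))) j (by omega)
    rw [show j + 1 + (k - (j + 1)) = k by omega, map_sub] at h4
    rw [map_sub, hg, PowerSeries.coeff_mk]
    linear_combination -h4
  refine ⟨g, eq_of_dvd _ _ fun k => ?_⟩
  have h5 := hT k _ _ (h3 k)
  have h6 := h3 (k + 1)
  rw [Function.iterate_succ_apply'] at h6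
  have e : T g - g = (T g - T (T^[k] 0)) - (g - T (T^[k] 0)) := by ring
  rw [e]
  exact (pow_dvd_pow _ (Nat.le_succ k)).trans (dvd_sub h5 h6)

theorem isUnit_aux {R : Type} [CommRing R] : IsUnit (1 + PowerSeries.X : PowerSeries R) := by
  rw [PowerSeries.isUnit_iff_constantCoeff]
  simp

theorem X_dvd_th (n : ℕ) (hn : 1 ≤ n) : (PowerSeries.X : PowerSeries P2) ∣ (th n : PowerSeries P2) := by
  have h : (X : Polynomial P2) ∣ th n := by
    have h1 : (X : Polynomial P2) ∣ mo (1 + (2 * n + 3) * (n - 1)) n := by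
      unfold mo
      exact Dvd.dvd.mul_left (dvd_pow_self _ (by omega)) _
    unfold th
    exact ((h1.mul_right _).mul_right _).mul_right _
  obtain ⟨q, hq⟩ := h
  refine ⟨(q : PowerSeries P2), ?_⟩
  rw [hq, Polynomial.coe_mul, Polynomial.coe_X]

theorem toS_coe (p : Polynomial P2) : toS (p : PowerSeries P2) = (pS p : PowerSeries S2) := by
  unfold toS pS
  rw [Polynomial.polynomial_map_coe]

theorem X_dvd_thS (n : ℕ) (hn : 1 ≤ n) :
    (PowerSeries.X : PowerSeries S2) ∣ (pS (th n) : PowerSeries S2) := by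
  obtain ⟨q, hq⟩ := X_dvd_th n hn
  refine ⟨toS q, ?_⟩
  rw [← toS_coe, hq]
  unfold toS
  rw [map_mul, PowerSeries.map_X]

theorem alg_X : algebraMap P2 S2 (X : P2) = (zz : S2) := by
  have h : algebraMap P2 S2 (X : P2) = ((X : P2) : PowerSeries (ZMod 2)) := by
    rw [PowerSeries.algebraMap_apply']
    simp
  rw [h, Polynomial.coe_X]

theorem ev_sg (n : ℕ) (hn : 1 ≤ n) (N : ℕ) (F : PowerSeries S2) :
    ev N (sg n ((zz : S2) ^ ce n) F) = ev (ce n + 2 * n * N) F := by
  have hce : 2 * n ≤ ce n := by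
    unfold ce
    have h1 : (2 * n + 3) * 1 ≤ (2 * n + 3) * (2 * n - 1) := Nat.mul_le_mul_left _ (by omega)
    omega
  ext m
  have hcoeff : ∀ i : ℕ, 2 * n * i ≤ m → N * (2 * n * i) ≤ m →
      PowerSeries.coeff (m - N * (2 * n * i))
        (PowerSeries.coeff (2 * n * i) (sg n ((zz : S2) ^ ce n) F)) =
      if (ce n + 2 * n * N) * i ≤ m then
        PowerSeries.coeff (m - (ce n + 2 * n * N) * i) (PowerSeries.coeff i F) else 0 := by
    intro i h1 h2
    rw [coeff_sg_mul n hn, ← pow_mul, PowerSeries.coeff_X_pow_mul']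
    have e : (ce n + 2 * n * N) * i = ce n * i + N * (2 * n * i) := by ring
    rw [e]
    generalize ce n * i = a at *
    generalize N * (2 * n * i) = b at *
    by_cases h3 : a ≤ m - b
    · rw [if_pos h3, if_pos (by omega), show m - b - a = m - (a + b) by omega]
    · rw [if_neg h3, if_neg (by omega)]
  rw [ev, PowerSeries.coeff_mk, ev, PowerSeries.coeff_mk]
  -- left: restrict to the multiples of `2 n`
  have hL : ∀ j ∈ Finset.range (m + 1), (if N * j ≤ m then PowerSeries.coeff (m - N * j)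
        (PowerSeries.coeff j (sg n ((zz : S2) ^ ce n) F)) else 0) ≠ 0 → 2 * n ∣ j ∧
          (ce n + 2 * n * N) * (j / (2 * n)) ≤ m := by
    intro j hj hne
    have hdvd : 2 * n ∣ j := by
      by_contra hnd
      apply hne
      rw [coeff_sg, if_neg hnd, map_zero]
      simp
    refine ⟨hdvd, ?_⟩
    obtain ⟨i, rfl⟩ := hdvd
    rw [Nat.mul_div_cancel_left _ (by omega : 0 < 2 * n)]
    rw [Finset.mem_range] at hj
    by_contra h3
    apply hne
    split_ifs with h4
    · rw [hcoeff i (by omega) h4, if_neg h3]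
    · rfl
  symm
  refine Finset.sum_bij_ne_zero (fun i _ _ => 2 * n * i) ?_ ?_ ?_ ?_
  · intro i hi hne
    have h3 : (ce n + 2 * n * N) * i ≤ m := by
      by_contra h3
      exact hne (if_neg h3)
    have h4 : 2 * n * i ≤ ce n * i := Nat.mul_le_mul_right i hce
    have e : (ce n + 2 * n * N) * i = ce n * i + N * (2 * n * i) := by ring
    rw [Finset.mem_range]
    omega
  · intro i _ _ i' _ _ h
    exact Nat.eq_of_mul_eq_mul_left (by omega : 0 < 2 * n) h
  · intro j hj hne
    obtain ⟨⟨i, hi⟩, h3⟩ := hL j hj hne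
    subst hi
    rw [Nat.mul_div_cancel_left _ (by omega : 0 < 2 * n)] at h3
    rw [Finset.mem_range] at hj
    have h5 : N * (2 * n * i) ≤ m := by
      by_contra h5
      exact hne (if_neg h5)
    have h6 : 1 * i ≤ 2 * n * i := Nat.mul_le_mul_right i (by omega)
    refine ⟨i, Finset.mem_range.2 (by omega), ?_, rfl⟩
    rw [if_pos h5, hcoeff i (by omega) h5] at hne
    exact hne
  · intro i hi hne
    have h3 : (ce n + 2 * n * N) * i ≤ m := by
      by_contra h3
      exact hne (if_neg h3)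
    have h4 : 2 * n * i ≤ ce n * i := Nat.mul_le_mul_right i hce
    have e : (ce n + 2 * n * N) * i = ce n * i + N * (2 * n * i) := by ring
    rw [if_pos (by omega : N * (2 * n * i) ≤ m), hcoeff i (by omega) (by omega)]

end SGMAux

open SGMAux in
theorem specSGM : SpecSGM := by
  intro n hn
  have hn2 : 2 * n ≠ 0 := by omega
  refine ⟨?_, ?_, ?_, ?_, ?_, ?_, ?_⟩
  · intro R _ c
    have hC : ∀ r : R, sg n c (PowerSeries.C r) = PowerSeries.C r := by
      intro r
      ext j
      rw [coeff_sg, PowerSeries.coeff_C, PowerSeries.coeff_C]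
      by_cases hj : j = 0
      · subst hj; simp
      · rw [if_neg hj]
        split_ifs with h h0
        · obtain ⟨i, rfl⟩ := h
          rw [Nat.mul_div_cancel_left _ (by omega : 0 < 2 * n)] at h0
          exact absurd (by rw [h0, mul_zero]) hj
        · rw [mul_zero]
        · rfl
    have hX : sg n c (PowerSeries.X : PowerSeries R) =
        PowerSeries.C c * PowerSeries.X ^ (2 * n) := by
      ext j
      rw [coeff_sg, PowerSeries.coeff_C_mul, PowerSeries.coeff_X_pow]
      split_ifs with h h2 h2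
      · rw [h2, Nat.div_self (by omega), PowerSeries.coeff_one_X, pow_one]
      · obtain ⟨i, rfl⟩ := h
        rw [Nat.mul_div_cancel_left _ (by omega : 0 < 2 * n), PowerSeries.coeff_X, if_neg, mul_zero,
          mul_zero]
        rintro rfl
        exact h2 (mul_one _)
      · exact absurd ⟨1, by omega⟩ h
      · rw [mul_zero]
    refine ⟨sgHom n hn2 R c, sgHom_apply n hn2 R c, hC, hX, ?_⟩
    intro p
    have h1 : (sgHom n hn2 R c).comp (Polynomial.coeToPowerSeries.ringHom) =
        (Polynomial.coeToPowerSeries.ringHom).comp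
          (Polynomial.compRingHom (Polynomial.C c * Polynomial.X ^ (2 * n))) := by
      refine Polynomial.ringHom_ext ?_ ?_
      · intro r
        rw [RingHom.comp_apply, RingHom.comp_apply, Polynomial.coeToPowerSeries.ringHom_apply,
          Polynomial.coe_C, sgHom_apply, hC, Polynomial.coe_compRingHom_apply, Polynomial.C_comp,
          Polynomial.coeToPowerSeries.ringHom_apply, Polynomial.coe_C]
      · rw [RingHom.comp_apply, RingHom.comp_apply, Polynomial.coeToPowerSeries.ringHom_apply,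
          Polynomial.coe_X, sgHom_apply, hX, Polynomial.coe_compRingHom_apply, Polynomial.X_comp,
          Polynomial.coeToPowerSeries.ringHom_apply, Polynomial.coe_mul, Polynomial.coe_pow,
          Polynomial.coe_C, Polynomial.coe_X]
    have h2 := congrArg (fun φ : R[X] →+* PowerSeries R => φ p) h1
    simp only [RingHom.comp_apply, Polynomial.coeToPowerSeries.ringHom_apply,
      Polynomial.coe_compRingHom_apply, sgHom_apply] at h2
    exact h2
  · intro R _ _ c hc F hF
    ext i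
    have h1 := congrArg (PowerSeries.coeff (2 * n * i)) hF
    rw [coeff_sg_mul n hn, map_zero] at h1
    rw [map_zero]
    exact (mul_eq_zero.1 h1).resolve_left (pow_ne_zero _ hc)
  · intro F
    ext1 j
    unfold toS
    rw [PowerSeries.coeff_map, coeff_sg, coeff_sg]
    split_ifs with h
    · rw [map_mul, map_pow, map_pow, alg_X, PowerSeries.coeff_map]
    · rw [map_zero]
  · exact fun N F => ev_sg n hn N F
  · intro β
    obtain ⟨w, hw⟩ := (isUnit_aux (R := P2)).exists_right_inv
    obtain ⟨q, hq⟩ := X_dvd_th n hn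
    obtain ⟨g, hg⟩ := exists_fix
      (fun F : PowerSeries P2 => w * ((th n : PowerSeries P2) * sg n ((X : P2) ^ ce n) F +
        (β : PowerSeries P2))) (by
        intro k F G hFG
        have e : w * ((th n : PowerSeries P2) * sg n ((X : P2) ^ ce n) F + (β : PowerSeries P2)) -
            w * ((th n : PowerSeries P2) * sg n ((X : P2) ^ ce n) G + (β : PowerSeries P2)) =
            (PowerSeries.X * sg n ((X : P2) ^ ce n) (F - G)) * (w * q) := by
          rw [sg_sub, hq]; ring
        simp only [e]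
        rw [pow_succ']
        exact (mul_dvd_mul_left _ (dvd_sg n _ _ k hFG)).mul_right _)
    refine ⟨g, ?_⟩
    unfold Sol
    have hg' : w * ((th n : PowerSeries P2) * sg n ((X : P2) ^ ce n) g + (β : PowerSeries P2)) = g := hg
    calc (1 + PowerSeries.X) * g
        = ((1 + PowerSeries.X) * w) *
          ((th n : PowerSeries P2) * sg n ((X : P2) ^ ce n) g + (β : PowerSeries P2)) := by
            rw [mul_assoc, hg']
      _ = _ := by rw [hw, one_mul]
  · intro β x x' hx hx'
    unfold SolS at hx hx'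
    obtain ⟨q, hq⟩ := X_dvd_thS n hn
    refine eq_of_dvd _ _ fun k => ?_
    induction k with
    | zero => simp
    | succ k ih =>
      have e : (1 + PowerSeries.X) * (x - x') =
          (PowerSeries.X * sg n ((zz : S2) ^ ce n) (x - x')) * q := by
        rw [sg_sub, mul_sub, hx, hx', hq]; ring
      have h1 : (PowerSeries.X : PowerSeries S2) ^ (k + 1) ∣ (1 + PowerSeries.X) * (x - x') := by
        rw [e, pow_succ']
        exact (mul_dvd_mul_left _ (dvd_sg n _ _ k ih)).mul_right _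
      exact (IsUnit.dvd_mul_left isUnit_aux).1 h1
  · intro β g hg
    unfold Sol at hg
    unfold SolS
    have h1 := congrArg toS hg
    have hm : ∀ F G : PowerSeries P2, toS (F * G) = toS F * toS G := fun F G => map_mul _ F G
    have ha : ∀ F G : PowerSeries P2, toS (F + G) = toS F + toS G := fun F G => map_add _ F G
    have h1' : toS (1 : PowerSeries P2) = 1 := map_one _
    have hX' : toS (PowerSeries.X : PowerSeries P2) = PowerSeries.X := PowerSeries.map_X _
    rw [hm, ha, ha, hm, h1', hX', toS_coe, toS_coe] at h1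
    rw [h1]
    congr 2
    ext1 j
    unfold toS
    rw [PowerSeries.coeff_map, coeff_sg, coeff_sg]
    split_ifs with h
    · rw [map_mul, map_pow, map_pow, alg_X, PowerSeries.coeff_map]
    · rw [map_zero]

end Pool.Agent.Lib.MPba1bba.TM
end

section
/-!
# Module TRS: transcendence from independence
-/
namespace Pool.Agent.Lib.MPba1bba.TM

open Polynomial TR

namespace TRSAux

/-- The homogenized evaluation of `μ`. -/
noncomputable def hom {R : Type} [CommRing R] (μ : Polynomial P2) (f : P2 →+* R) (a b : R) : R :=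
  ∑ j ∈ Finset.range (μ.natDegree + 1), f (μ.coeff j) * a ^ j * b ^ (μ.natDegree - j)

theorem hom_map {R S : Type} [CommRing R] [CommRing S] (μ : Polynomial P2) (f : P2 →+* R)
    (g : R →+* S) (a b : R) : g (hom μ f a b) = hom μ (g.comp f) (g a) (g b) := by
  unfold hom
  rw [map_sum]
  refine Finset.sum_congr rfl fun j _ => ?_
  rw [map_mul, map_mul, map_pow, map_pow, RingHom.comp_apply]

theorem hom_eval {R : Type} [CommRing R] (μ : Polynomial P2) (f : P2 →+* R) (x b : R) :
    hom μ f (b * x) b = b ^ μ.natDegree * μ.eval₂ f x := by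
  unfold hom
  rw [eval₂_eq_sum_range, Finset.mul_sum]
  refine Finset.sum_congr rfl fun j hj => ?_
  have hj' : j ≤ μ.natDegree := by
    have := Finset.mem_range.1 hj
    omega
  obtain ⟨k, hk⟩ := Nat.exists_eq_add_of_le hj'
  rw [hk, Nat.add_sub_cancel_left, mul_pow, pow_add]
  ring

/-- `∑ μ_j D^(d-j) T^j`. -/
noncomputable def tw (μ : Polynomial P2) (D : P2) : Polynomial P2 :=
  ∑ j ∈ Finset.range (μ.natDegree + 1), C (μ.coeff j * D ^ (μ.natDegree - j)) * X ^ j

theorem tw_comp (μ : Polynomial P2) (D : P2) (θ : Polynomial P2) :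
    (tw μ D).comp θ = hom μ (C : P2 →+* Polynomial P2) θ (C D) := by
  unfold tw hom
  rw [Polynomial.comp, eval₂_finsetSum]
  refine Finset.sum_congr rfl fun j _ => ?_
  rw [eval₂_mul, eval₂_C, eval₂_pow, eval₂_X, C_mul, C_pow]
  ring

theorem tw_ne (μ : Polynomial P2) (hμ : μ ≠ 0) (D : P2) : tw μ D ≠ 0 := by
  intro h
  have h1 : (tw μ D).coeff μ.natDegree = μ.leadingCoeff := by
    unfold tw
    rw [finsetSum_coeff, Finset.sum_eq_single μ.natDegree]
    · rw [coeff_C_mul, coeff_X_pow, if_pos rfl, Nat.sub_self, pow_zero, mul_one, mul_one]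
      rfl
    · intro j _ hj
      rw [coeff_C_mul, coeff_X_pow, if_neg (Ne.symm hj), mul_zero]
    · intro h
      exact absurd (Finset.mem_range.2 (Nat.lt_succ_self _)) h
  rw [h, coeff_zero] at h1
  exact leadingCoeff_ne_zero.2 hμ h1.symm

end TRSAux

open TRSAux in
/-- Module TRS. -/
theorem specTRS : SpecTRS := by
  classical
  intro ι _ F hF i₀ i₁ hi A B C₂ D c hB hD x hx halg
  obtain ⟨μ, hμ, hμx⟩ := halg
  set Θ : MvPolynomial ι P2 := MvPolynomial.C A * MvPolynomial.X i₀ ^ 2 +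
    MvPolynomial.C B * MvPolynomial.X i₀ * MvPolynomial.X i₁ +
    MvPolynomial.C C₂ * MvPolynomial.X i₁ ^ 2 +
    ∑ i, MvPolynomial.C (c i) * MvPolynomial.X i ^ 2 with hΘ
  set Δ : MvPolynomial ι P2 := MvPolynomial.C D * MvPolynomial.X i₀ ^ 2 with hΔ
  have h1 : MvPolynomial.eval₂Hom (algebraMap P2 S2) F (hom μ MvPolynomial.C Θ Δ) = 0 := by
    rw [hom_map]
    have e1 : MvPolynomial.eval₂Hom (algebraMap P2 S2) F Θ =
        MvPolynomial.eval₂Hom (algebraMap P2 S2) F Δ * x := by
      rw [hΘ, hΔ]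
      simp only [map_add, map_mul, map_pow, map_sum, MvPolynomial.eval₂Hom_C,
        MvPolynomial.eval₂Hom_X']
      exact hx.symm
    have e2 : (MvPolynomial.eval₂Hom (algebraMap P2 S2) F).comp MvPolynomial.C =
        algebraMap P2 S2 := by
      ext a <;> simp
    rw [e1, e2, hom_eval]
    have e3 : μ.eval₂ (algebraMap P2 S2) x = 0 := hμx
    rw [e3, mul_zero]
  have h2 := hF _ h1
  -- specialize
  set v : ι → Polynomial P2 := fun i => if i = i₀ then 1 else if i = i₁ then X else 0 with hv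
  have h3 := congrArg (MvPolynomial.eval₂Hom (C : P2 →+* Polynomial P2) v) h2
  rw [hom_map, map_zero] at h3
  have e2 : (MvPolynomial.eval₂Hom (C : P2 →+* Polynomial P2) v).comp MvPolynomial.C =
      (C : P2 →+* Polynomial P2) := by
    apply RingHom.ext
    intro a
    rw [RingHom.comp_apply, MvPolynomial.eval₂Hom_C]
  have hv0 : v i₀ = 1 := by rw [hv]; simp
  have hv1 : v i₁ = X := by rw [hv]; simp [Ne.symm hi]
  have e3 : MvPolynomial.eval₂Hom (C : P2 →+* Polynomial P2) v Δ = C D := by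
    rw [hΔ, map_mul, map_pow, MvPolynomial.eval₂Hom_C, MvPolynomial.eval₂Hom_X', hv0, one_pow,
      mul_one]
  have e4 : MvPolynomial.eval₂Hom (C : P2 →+* Polynomial P2) v Θ =
      C (A + c i₀) + C B * X + C (C₂ + c i₁) * X ^ 2 := by
    rw [hΘ]
    simp only [map_add, map_mul, map_pow, map_sum, MvPolynomial.eval₂Hom_C,
        MvPolynomial.eval₂Hom_X']
    have e5 : ∑ i, C (c i) * v i ^ 2 = C (c i₀) + C (c i₁) * X ^ 2 := by
      have e6 : ∀ i, i ∉ ({i₀, i₁} : Finset ι) → C (c i) * v i ^ 2 = 0 := by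
        intro i hi'
        rw [Finset.mem_insert, Finset.mem_singleton, not_or] at hi'
        rw [hv]
        simp [hi'.1, hi'.2]
      rw [← Finset.sum_subset (Finset.subset_univ ({i₀, i₁} : Finset ι)) fun i _ h => e6 i h,
        Finset.sum_pair hi, hv0, hv1]
      ring
    rw [e5, hv0, hv1]
    ring
  rw [e2, e3, e4, ← tw_comp, comp_eq_zero_iff] at h3
  rcases h3 with h3 | ⟨-, h3⟩
  · exact tw_ne μ hμ D h3
  · have h4 := congrArg (fun p => coeff p 1) h3
    have h5 : ((C C₂ + C (c i₁)) * X ^ 2 : Polynomial P2).coeff 1 = 0 := by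
      rw [← C_add, coeff_C_mul, coeff_X_pow, if_neg (by norm_num), mul_zero]
    simp [coeff_X, coeff_C, h5] at h4
    exact hB h4

end Pool.Agent.Lib.MPba1bba.TM
end

section
/-!
# Module VAL: algebraic independence of the values (Mahler's method)
-/
namespace Pool.Agent.Lib.MPba1bba.TM

open Polynomial TR

namespace VALAux

theorem alg_inj : Function.Injective (algebraMap P2 S2) := by
  intro a b h
  have : (a : PowerSeries (ZMod 2)) = b := h
  exact Polynomial.coe_injective _ this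

theorem alg_X : algebraMap P2 S2 X = zz := by
  simp [zz, PowerSeries.algebraMap_apply']

/-- The substitution as a ring homomorphism. -/
theorem exists_hom (hEC : SpecEC) (n : ℕ) (hn : 1 ≤ n) :
    ∃ φ : PowerSeries S2 →+* S2, ∀ F, φ F = ev n F := by
  obtain ⟨h1, h2, -⟩ := hEC.1 n hn
  refine ⟨{ toFun := ev n
            map_one' := ?_
            map_mul' := fun F G => (h1 F G).2
            map_zero' := ?_
            map_add' := fun F G => (h1 F G).1 }, fun F => rfl⟩
  · have := h2 1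
    rwa [map_one] at this
  · have := h2 0
    rwa [map_zero] at this

section Deg

variable {V : Type}

/-- All coefficients have degree at most `D` in each variable. -/
def PD (D : ℕ) (F : PowerSeries (MvPolynomial V P2)) : Prop :=
  ∀ l v, (PowerSeries.coeff l F).degreeOf v ≤ D

theorem pd_mono {D D' : ℕ} {F : PowerSeries (MvPolynomial V P2)} (h : PD D F) (hD : D ≤ D') :
    PD D' F := fun l v => (h l v).trans hD

theorem pd_add {D : ℕ} {F G : PowerSeries (MvPolynomial V P2)} (h : PD D F) (h' : PD D G) :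
    PD D (F + G) := by
  intro l v
  rw [map_add]
  exact (MvPolynomial.degreeOf_add_le _ _ _).trans (max_le (h l v) (h' l v))

theorem pd_mul {D D' : ℕ} {F G : PowerSeries (MvPolynomial V P2)} (h : PD D F) (h' : PD D' G) :
    PD (D + D') (F * G) := by
  intro l v
  rw [PowerSeries.coeff_mul]
  refine (MvPolynomial.degreeOf_sum_le _ _ _).trans (Finset.sup_le fun x _ => ?_)
  exact (MvPolynomial.degreeOf_mul_le _ _ _).trans (Nat.add_le_add (h _ v) (h' _ v))

theorem pd_C (r : MvPolynomial V P2) (D : ℕ) (h : ∀ v, r.degreeOf v ≤ D) :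
    PD D (PowerSeries.C r) := by
  intro l v
  rw [PowerSeries.coeff_C]
  split_ifs
  · exact h v
  · rw [MvPolynomial.degreeOf_zero]; exact Nat.zero_le _

theorem pd_one : PD (V := V) 0 1 := by
  have := pd_C (V := V) 1 0 (fun v => by
    rw [← MvPolynomial.C_1, MvPolynomial.degreeOf_C])
  rwa [map_one] at this

theorem pd_pow {D : ℕ} {F : PowerSeries (MvPolynomial V P2)} (h : PD D F) (e : ℕ) :
    PD (e * D) (F ^ e) := by
  induction e with
  | zero => rw [Nat.zero_mul, pow_zero]; exact pd_one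
  | succ e ih =>
    rw [pow_succ, Nat.succ_mul]
    exact pd_mul ih h

theorem pd_prod {ι : Type} (s : Finset ι) (D : ι → ℕ) (F : ι → PowerSeries (MvPolynomial V P2))
    (h : ∀ i ∈ s, PD (D i) (F i)) : PD (∑ i ∈ s, D i) (∏ i ∈ s, F i) := by
  classical
  induction s using Finset.induction_on with
  | empty => simpa using pd_one
  | insert a s ha ih =>
    rw [Finset.sum_insert ha, Finset.prod_insert ha]
    exact pd_mul (h a (Finset.mem_insert_self _ _))
      (ih fun i hi => h i (Finset.mem_insert_of_mem hi))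

theorem pd_sum {ι : Type} (s : Finset ι) (D : ℕ) (F : ι → PowerSeries (MvPolynomial V P2))
    (h : ∀ i ∈ s, PD D (F i)) : PD D (∑ i ∈ s, F i) := by
  intro l v
  rw [map_sum]
  exact (MvPolynomial.degreeOf_sum_le _ _ _).trans (Finset.sup_le fun i hi => h i hi l v)

theorem pd_map (G : PowerSeries P2) :
    PD (V := V) 0 (PowerSeries.map (MvPolynomial.C : P2 →+* MvPolynomial V P2) G) := by
  intro l v
  rw [PowerSeries.coeff_map, MvPolynomial.degreeOf_C]

end Deg

section Phi

variable {ι : Type}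

/-- The generic line `a g_i + b_i`. -/
noncomputable def line (G : ι → PowerSeries P2) (i : ι) :
    PowerSeries (MvPolynomial (Option ι) P2) :=
  PowerSeries.C (MvPolynomial.X none) *
    PowerSeries.map (MvPolynomial.C : P2 →+* MvPolynomial (Option ι) P2) (G i) +
    PowerSeries.C (MvPolynomial.X (some i))

/-- `Φ = Γ(a g_i + b_i)`. -/
noncomputable def Phi (G : ι → PowerSeries P2) (Γ : MvPolynomial ι P2) :
    PowerSeries (MvPolynomial (Option ι) P2) :=
  MvPolynomial.eval₂ ((PowerSeries.C : MvPolynomial (Option ι) P2 →+* _).comp MvPolynomial.C)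
    (line G) Γ

theorem deg_X_le (v w : Option ι) :
    (MvPolynomial.X v : MvPolynomial (Option ι) P2).degreeOf w ≤ 1 := by
  classical
  rw [MvPolynomial.degreeOf_X]
  split_ifs <;> omega

theorem pd_line (G : ι → PowerSeries P2) (i : ι) : PD 1 (line G i) := by
  refine pd_add ?_ (pd_C _ _ fun w => deg_X_le _ w)
  have := pd_mul (pd_C (MvPolynomial.X (none : Option ι)) 1 fun w => deg_X_le _ w)
    (pd_map (V := Option ι) (G i))
  simpa using this

theorem pd_Phi (G : ι → PowerSeries P2) (Γ : MvPolynomial ι P2) :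
    PD Γ.totalDegree (Phi G Γ) := by
  rw [Phi, MvPolynomial.eval₂_eq]
  refine pd_sum _ _ _ fun m hm => ?_
  have h1 : PD (V := Option ι) (0 + ∑ i ∈ m.support, m i * 1)
      (((PowerSeries.C : MvPolynomial (Option ι) P2 →+* _).comp MvPolynomial.C)
        (MvPolynomial.coeff m Γ) * ∏ i ∈ m.support, line G i ^ m i) := by
    refine pd_mul ?_ (pd_prod _ _ _ fun i _ => pd_pow (pd_line G i) _)
    refine pd_C _ _ fun v => ?_
    rw [MvPolynomial.degreeOf_C]
  refine pd_mono h1 ?_
  rw [Nat.zero_add]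
  simp only [mul_one]
  exact MvPolynomial.le_totalDegree hm

/-- The constant coefficient of `Φ` is not `0`. -/
theorem Phi_zero (G : ι → PowerSeries P2) (Γ : MvPolynomial ι P2) (hΓ : Γ ≠ 0) :
    PowerSeries.constantCoeff (Phi G Γ) ≠ 0 := by
  intro h
  apply hΓ
  have h1 := congrArg (MvPolynomial.eval₂Hom (MvPolynomial.C : P2 →+* MvPolynomial ι P2)
    (fun v : Option ι => match v with | none => 0 | some i => MvPolynomial.X i)) h
  rw [map_zero, Phi, MvPolynomial.hom_eval₂, MvPolynomial.hom_eval₂] at h1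
  have e1 : ((MvPolynomial.eval₂Hom (MvPolynomial.C : P2 →+* MvPolynomial ι P2)
      (fun v : Option ι => match v with | none => 0 | some i => MvPolynomial.X i)).comp
      ((PowerSeries.constantCoeff (R := MvPolynomial (Option ι) P2)).comp
        ((PowerSeries.C : MvPolynomial (Option ι) P2 →+* _).comp MvPolynomial.C))) =
      (MvPolynomial.C : P2 →+* MvPolynomial ι P2) := by
    ext x <;> simp
  have e2 : (fun i => (MvPolynomial.eval₂Hom (MvPolynomial.C : P2 →+* MvPolynomial ι P2)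
      (fun v : Option ι => match v with | none => 0 | some i => MvPolynomial.X i))
      (PowerSeries.constantCoeff (line G i))) = fun i => MvPolynomial.X i := by
    funext i
    simp [line]
  rw [e1] at h1
  rw [show (fun x => (MvPolynomial.eval₂Hom (MvPolynomial.C : P2 →+* MvPolynomial ι P2)
      (fun v : Option ι => match v with | none => 0 | some i => MvPolynomial.X i))
      (PowerSeries.constantCoeff (line G x))) = fun i => MvPolynomial.X i from e2,
    MvPolynomial.eval₂_eta] at h1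
  exact h1

end Phi

section Num

variable {V : Type} [Fintype V]

/-- Clearing denominators in the value of a polynomial in several variables. -/
theorem clear (x : V → S2) (Cp : P2) (num : V → P2)
    (hx : ∀ v, algebraMap P2 S2 Cp * x v = algebraMap P2 S2 (num v)) (p M c : ℕ)
    (hC : Cp.natDegree ≤ M) (hN : ∀ v, (num v).natDegree ≤ M)
    (r : MvPolynomial V P2) (hr : ∀ v, r.degreeOf v ≤ p) (hc : ∀ m, (r.coeff m).natDegree ≤ c) :
    ∃ q : P2, q.natDegree ≤ c + Fintype.card V * (p * M) ∧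
      algebraMap P2 S2 Cp ^ (p * Fintype.card V) * MvPolynomial.eval₂ (algebraMap P2 S2) x r =
        algebraMap P2 S2 q := by
  classical
  refine ⟨∑ m ∈ r.support, r.coeff m * ∏ v, (num v ^ m v * Cp ^ (p - m v)), ?_, ?_⟩
  · refine natDegree_sum_le_of_forall_le _ _ fun m hm => ?_
    refine natDegree_mul_le.trans (Nat.add_le_add (hc m) ?_)
    refine (natDegree_prod_le _ _).trans ?_
    refine (Finset.sum_le_card_nsmul _ _ (p * M) fun v _ => ?_).trans ?_
    · have h1 : m v ≤ p := (MvPolynomial.monomial_le_degreeOf v hm).trans (hr v)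
      refine natDegree_mul_le.trans ?_
      have h2 : (num v ^ m v).natDegree ≤ m v * M :=
        natDegree_pow_le.trans (Nat.mul_le_mul_left _ (hN v))
      have h3 : (Cp ^ (p - m v)).natDegree ≤ (p - m v) * M :=
        natDegree_pow_le.trans (Nat.mul_le_mul_left _ hC)
      calc _ ≤ m v * M + (p - m v) * M := Nat.add_le_add h2 h3
        _ = p * M := by rw [← Nat.add_mul]; congr 1; omega
    · rw [Finset.card_univ, smul_eq_mul]
  · rw [MvPolynomial.eval₂_eq', map_sum, Finset.mul_sum]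
    refine Finset.sum_congr rfl fun m hm => ?_
    rw [map_mul, map_prod]
    have h1 : algebraMap P2 S2 Cp ^ (p * Fintype.card V) = ∏ _v : V, algebraMap P2 S2 Cp ^ p := by
      rw [Finset.prod_const, Finset.card_univ, pow_mul]
    have h2 : ∏ v, algebraMap P2 S2 (num v ^ m v * Cp ^ (p - m v)) =
        (∏ _v : V, algebraMap P2 S2 Cp ^ p) * ∏ v, x v ^ m v := by
      rw [← Finset.prod_mul_distrib]
      refine Finset.prod_congr rfl fun v _ => ?_
      have h3 : m v ≤ p := (MvPolynomial.monomial_le_degreeOf v hm).trans (hr v)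
      rw [map_mul, map_pow, map_pow, ← hx v, mul_pow]
      calc _ = algebraMap P2 S2 Cp ^ (m v + (p - m v)) * x v ^ m v := by rw [pow_add]; ring
        _ = _ := by congr 2; omega
    rw [h2, h1]
    ring

end Num

theorem dvd_deg (q : P2) (hq : q ≠ 0) (N : ℕ) (h : (zz : S2) ^ N ∣ algebraMap P2 S2 q) :
    N ≤ q.natDegree := by
  have h1 : (X : P2) ^ N ∣ q := by
    rw [Polynomial.X_pow_dvd_iff]
    intro d hd
    have h2 := (PowerSeries.X_pow_dvd_iff (n := N)).1 h d hd
    have h3 : (algebraMap P2 S2 q) = (q : PowerSeries (ZMod 2)) := rfl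
    rw [h3, Polynomial.coeff_coe] at h2
    exact h2
  have h2 := natDegree_le_of_dvd h1 hq
  rwa [natDegree_X_pow] at h2

end VALAux

/-- Module VAL. -/
theorem specVAL (hAUX : SpecAUX) (hSEQ : SpecSEQ) (hNVM : SpecNVM) (hSGM : SpecSGM)
    (hEC : SpecEC) : SpecVAL := by
  classical
  intro n hn ι _ G β hG hAI Γ hΓF
  by_contra hΓ
  have hS : ∀ i, SolS n (pS (β i)) (toS (G i)) := fun i => (hSGM n hn).2.2.2.2.2.2 _ _ (hG i)
  obtain ⟨O, Cp, Ap, Bp, κ, hO⟩ := hSEQ n hn ι (fun i => toS (G i)) β hS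
  obtain ⟨d, hd⟩ : ∃ d, d = Γ.totalDegree := ⟨_, rfl⟩
  obtain ⟨W, hW⟩ : ∃ W, W = (1 + d) ^ Fintype.card (Option ι) := ⟨_, rfl⟩
  have hW1 : 1 ≤ W := by rw [hW]; exact Nat.one_le_pow _ _ (by omega)
  obtain ⟨nv, hnv⟩ : ∃ nv, nv = Fintype.card (Option ι) := ⟨_, rfl⟩
  obtain ⟨p, hp⟩ : ∃ p, p = W * (2 + nv * κ) := ⟨_, rfl⟩
  obtain ⟨I, hI⟩ : ∃ I, I = p * (1 + nv * κ) + 1 := ⟨_, rfl⟩
  have hpW : W ≤ p := by
    rw [hp]
    exact Nat.le_mul_of_pos_right _ (by omega)
  have hIW : I * W < (p + 1) ^ 2 := by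
    have h1 : I * W + (p - 1) * W ≤ p * p := by
      obtain ⟨p', rfl⟩ : ∃ p', p = p' + 1 := ⟨p - 1, by omega⟩
      rw [Nat.add_sub_cancel]
      have h2 : (p' + 1) * (p' + 1) = (p' + 1) * (W * (2 + nv * κ)) := by rw [← hp]
      rw [h2, hI]
      apply le_of_eq
      ring
    nlinarith
  obtain ⟨Pc, ⟨hh, hhp, hhne⟩, hPd, hPdvd⟩ := hAUX (Option ι) d p I (VALAux.Phi G Γ)
    (by rw [hd]; exact VALAux.pd_Phi G Γ) (by rw [← hW]; exact hIW)
  -- the first nonzero one
  have hex : ∃ h, Pc h ≠ 0 := ⟨hh, hhne⟩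
  obtain ⟨h₀, hh₀⟩ : ∃ h₀, h₀ = Nat.find hex := ⟨_, rfl⟩
  have hne : Pc h₀ ≠ 0 := by rw [hh₀]; exact Nat.find_spec hex
  have hmin : ∀ h < h₀, Pc h = 0 := by
    intro h hlt
    rw [hh₀] at hlt
    exact not_not.1 (Nat.find_min hex hlt)
  have hh₀p : h₀ ≤ p := by
    rw [hh₀]
    exact (Nat.find_min' hex hhne).trans hhp
  have hsplit : ∑ h ∈ Finset.range (p + 1), (Pc h : PowerSeries (MvPolynomial (Option ι) P2)) *
      VALAux.Phi G Γ ^ h = VALAux.Phi G Γ ^ h₀ * ∑ j ∈ Finset.range (p + 1 - h₀),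
        (Pc (h₀ + j) : PowerSeries (MvPolynomial (Option ι) P2)) * VALAux.Phi G Γ ^ j := by
    rw [Finset.range_eq_Ico, ← Finset.sum_Ico_consecutive _ (Nat.zero_le h₀) (by omega)]
    have e1 : ∑ h ∈ Finset.Ico 0 h₀, (Pc h : PowerSeries (MvPolynomial (Option ι) P2)) *
        VALAux.Phi G Γ ^ h = 0 := by
      apply Finset.sum_eq_zero
      intro h hh'
      rw [hmin h (Finset.mem_Ico.1 hh').2]
      simp
    rw [e1, zero_add, Finset.sum_Ico_eq_sum_range, Finset.mul_sum]
    apply Finset.sum_congr rfl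
    intro j _
    rw [pow_add]
    ring
  obtain ⟨E', hE'⟩ : ∃ E', E' = ∑ j ∈ Finset.range (p + 1 - h₀),
      (Pc (h₀ + j) : PowerSeries (MvPolynomial (Option ι) P2)) * VALAux.Phi G Γ ^ j := ⟨_, rfl⟩
  rw [hsplit, ← hE'] at hPdvd
  have hXdvd : PowerSeries.X ^ I ∣ E' := by
    have hXp : Prime (PowerSeries.X : PowerSeries (MvPolynomial (Option ι) P2)) :=
      PowerSeries.X_prime
    refine hXp.pow_dvd_of_dvd_mul_left I ?_ hPdvd
    intro h
    exact VALAux.Phi_zero G Γ hΓ (PowerSeries.X_dvd_iff.1 (hXp.dvd_of_dvd_pow h))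
  -- bounds of the coefficients
  obtain ⟨c, hc⟩ : ∃ c : ℕ, ∀ l m, (((Pc h₀).coeff l).coeff m).natDegree ≤ c := by
    refine ⟨(Pc h₀).support.sup fun l => ((Pc h₀).coeff l).support.sup fun m =>
      (((Pc h₀).coeff l).coeff m).natDegree, fun l m => ?_⟩
    by_cases hl : l ∈ (Pc h₀).support
    · by_cases hm : m ∈ ((Pc h₀).coeff l).support
      · exact (Finset.le_sup (f := fun m => (((Pc h₀).coeff l).coeff m).natDegree) hm).trans
          (Finset.le_sup (f := fun l => ((Pc h₀).coeff l).support.sup fun m =>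
            (((Pc h₀).coeff l).coeff m).natDegree) hl)
      · rw [MvPolynomial.notMem_support_iff.1 hm]; simp
    · rw [Polynomial.notMem_support_iff.1 hl]; simp
  obtain ⟨K₀, hK₀⟩ := hNVM n hn ι _ _ O hAI (Pc h₀) hne
  obtain ⟨k, hk⟩ : ∃ k, k = K₀ + c := ⟨_, rfl⟩
  obtain ⟨x, hx⟩ : ∃ x : Option ι → S2, x =
    fun v : Option ι => match v with | none => O.a k | some i => O.b i k := ⟨_, rfl⟩
  obtain ⟨num, hnum⟩ : ∃ num : Option ι → P2, num =
    fun v : Option ι => match v with | none => Ap k | some i => Bp i k := ⟨_, rfl⟩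
  have hxn : ∀ v, algebraMap P2 S2 (Cp k) * x v = algebraMap P2 S2 (num v) := by
    intro v
    rw [hx, hnum]
    cases v with
    | none => exact (hO k).2.1
    | some i => exact (hO k).2.2.1 i
  have hnumd : ∀ v, (num v).natDegree ≤ κ * (2 * n) ^ k := by
    intro v
    rw [hnum]
    cases v with
    | none => exact (hO k).2.2.2.2.1
    | some i => exact (hO k).2.2.2.2.2 i
  obtain ⟨ek, hek⟩ : ∃ ek : MvPolynomial (Option ι) P2 →+* S2, ek =
    MvPolynomial.eval₂Hom (algebraMap P2 S2) x := ⟨_, rfl⟩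
  have h2n : 2 ≤ 2 * n := by omega
  have hpk : k < (2 * n) ^ k := Nat.lt_pow_self (by omega)
  have hNk : (2 * n) ^ k ≤ Nk n k := by
    unfold Nk
    have h1 : 2 * (2 * n) ^ k ≤ (2 * n) ^ (k + 1) := by
      rw [pow_succ, Nat.mul_comm]
      exact Nat.mul_le_mul_left _ h2n
    have h2 : (2 * n) ^ k ≤ (2 * n) ^ (k + 1) - 1 := by omega
    exact h2.trans (Nat.le_mul_of_pos_left _ (by omega))
  have hN1 : 1 ≤ Nk n k := by omega
  obtain ⟨φ, hφ⟩ := VALAux.exists_hom hEC (Nk n k) hN1
  obtain ⟨-, hevC, hevX, -, hevd⟩ := hEC.1 (Nk n k) hN1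
  have hEv : ∀ P : Polynomial (MvPolynomial (Option ι) P2),
      φ (PowerSeries.map ek (P : PowerSeries (MvPolynomial (Option ι) P2))) = Ev n O k P := by
    intro P
    have h1 : (φ.comp ((PowerSeries.map ek).comp
        (Polynomial.coeToPowerSeries.ringHom :
          Polynomial (MvPolynomial (Option ι) P2) →+* _))) = Ev n O k := by
      apply Polynomial.ringHom_ext
      · intro r
        simp only [RingHom.comp_apply, Polynomial.coeToPowerSeries.ringHom_apply,
          Polynomial.coe_C, PowerSeries.map_C, Ev, Polynomial.coe_eval₂RingHom,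
          Polynomial.eval₂_C]
        rw [hφ, hevC, hek, hx]
        rfl
      · simp only [RingHom.comp_apply, Polynomial.coeToPowerSeries.ringHom_apply,
          Polynomial.coe_X, PowerSeries.map_X, Ev, Polynomial.coe_eval₂RingHom,
          Polynomial.eval₂_X]
        rw [hφ, hevX]
    have h2 := congrArg (fun f => f P) h1
    simpa using h2
  have hPhi : φ (PowerSeries.map ek (VALAux.Phi G Γ)) = 0 := by
    rw [VALAux.Phi, MvPolynomial.hom_eval₂, MvPolynomial.hom_eval₂]
    rw [← hΓF]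
    congr 1
    · refine RingHom.ext fun r => ?_
      simp only [RingHom.comp_apply, PowerSeries.map_C]
      rw [hφ, hevC, hek]
      simp
    · funext i
      simp only [VALAux.line, map_add, map_mul, PowerSeries.map_C]
      rw [O.hF i k, hφ, hφ, hφ, hevC, hevC, hek]
      simp only [MvPolynomial.coe_eval₂Hom, MvPolynomial.eval₂_X]
      have h3 : PowerSeries.map (MvPolynomial.eval₂Hom (algebraMap P2 S2) x)
          (PowerSeries.map (MvPolynomial.C : P2 →+* MvPolynomial (Option ι) P2) (G i)) =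
          toS (G i) := by
        ext1 l
        rw [toS, PowerSeries.coeff_map, PowerSeries.coeff_map, PowerSeries.coeff_map]
        simp
      rw [h3, hx]
  have hE'v : φ (PowerSeries.map ek E') = Ev n O k (Pc h₀) := by
    rw [hE', map_sum, map_sum]
    obtain ⟨q, hq⟩ : ∃ q, p + 1 - h₀ = q + 1 := ⟨p - h₀, by omega⟩
    rw [hq, Finset.sum_range_succ']
    rw [Finset.sum_eq_zero]
    · rw [zero_add, pow_zero, mul_one, Nat.add_zero, hEv]
    · intro j _
      rw [map_mul, map_mul, map_pow, map_pow, hPhi]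
      simp
  have hdvd : (zz : S2) ^ (Nk n k * I) ∣ Ev n O k (Pc h₀) := by
    rw [← hE'v, hφ]
    apply hevd
    have h1 := map_dvd (PowerSeries.map ek) hXdvd
    rwa [map_pow, PowerSeries.map_X] at h1
  -- clearing denominators
  have hcl : ∀ l, ∃ q : P2, q.natDegree ≤ c + nv * (p * (κ * (2 * n) ^ k)) ∧
      algebraMap P2 S2 (Cp k) ^ (p * nv) * ek ((Pc h₀).coeff l) = algebraMap P2 S2 q := by
    intro l
    have := VALAux.clear x (Cp k) num hxn p (κ * (2 * n) ^ k) c (hO k).2.2.2.1 hnumd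
      ((Pc h₀).coeff l) ((hPd h₀).2 l) (hc l)
    rw [← hnv] at this
    rw [hek]
    exact this
  choose q hq1 hq2 using hcl
  obtain ⟨Z, hZ⟩ : ∃ Z : P2, Z = ∑ l ∈ Finset.range (p + 1), q l * X ^ (Nk n k * l) := ⟨_, rfl⟩
  have hZd : Z.natDegree ≤ c + nv * (p * (κ * (2 * n) ^ k)) + Nk n k * p := by
    rw [hZ]
    refine natDegree_sum_le_of_forall_le _ _ fun l hl => ?_
    refine natDegree_mul_le.trans (Nat.add_le_add (hq1 l) ?_)
    rw [natDegree_X_pow]
    exact Nat.mul_le_mul_left _ (by have := Finset.mem_range.1 hl; omega)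
  have hZv : algebraMap P2 S2 Z = algebraMap P2 S2 (Cp k) ^ (p * nv) * Ev n O k (Pc h₀) := by
    have h1 : Ev n O k (Pc h₀) = ∑ l ∈ Finset.range (p + 1), ek ((Pc h₀).coeff l) *
        (zz ^ Nk n k) ^ l := by
      rw [Ev, Polynomial.coe_eval₂RingHom, Polynomial.eval₂_eq_sum_range'
        _ (Nat.lt_succ_of_le (hPd h₀).1), hek, hx]
      rfl
    rw [h1, hZ, map_sum, Finset.mul_sum]
    refine Finset.sum_congr rfl fun l _ => ?_
    rw [map_mul, map_pow, VALAux.alg_X, ← hq2 l, pow_mul]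
    ring
  have hCne : algebraMap P2 S2 (Cp k) ≠ 0 := by
    intro h
    exact (hO k).1 (VALAux.alg_inj (by rw [h, map_zero]))
  have hZ0 : Z ≠ 0 := by
    intro h
    rw [h, map_zero] at hZv
    rcases mul_eq_zero.1 hZv.symm with h' | h'
    · exact pow_ne_zero _ hCne h'
    · exact hK₀ k (by omega) h'
  have hfin := VALAux.dvd_deg Z hZ0 (Nk n k * I) (by rw [hZv]; exact Dvd.dvd.mul_left hdvd _)
  have hf := hfin.trans hZd
  have hx1 : nv * (p * (κ * (2 * n) ^ k)) ≤ nv * (p * (κ * Nk n k)) := by gcongr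
  have hx2 : Nk n k * I = Nk n k * p + nv * (p * (κ * Nk n k)) + Nk n k := by rw [hI]; ring
  have hx3 : c < Nk n k := by omega
  omega

end Pool.Agent.Lib.MPba1bba.TM
end
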