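import Pool.Agent.Lib.MP_ba1bba_al.TM.Spec
import Pool.Agent.Lib.MP_ba1bba_al.TR.Main3

/-!
# ZSM: transport of the system to `ℤ[u]⟦z⟧`
-/

set_option autoImplicit false

namespace Pool.Agent.Lib.MPba1bba.TM.ZSMAux

open Polynomial Finset
open Pool.Agent.Lib.MPba1bba
open Pool.Agent.Lib.MPba1bba.LINM
open Pool.Agent.Lib.MPba1bba.TR
open Pool.Agent.Lib.MPba1bba.TR.ZSM

/-- the statement of LZM for one `m` -/
def LZ (m : ℕ) : Prop := (∀ v : ℕ, lamB 2 m (Multiset.replicate v 0) = ∑ r ∈ Finset.range m,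
    PowerSeries.monomial (cc m v r)
      (AddMonoidAlgebra.single (Multiset.replicate (ww m v r) 0) (1 : ℤ))) ∧
  serY 2 = PowerSeries.monomial 1 (AddMonoidAlgebra.single {0} (1 : ℤ))

theorem coeff_im (m v b : ℕ) : PowerSeries.coeff b (im ℤ m v) =
    ∑ r ∈ Finset.range m, if b = cc m v r then (X : ℤ[X]) ^ ww m v r else 0 := by
  rw [im, map_sum]
  refine Finset.sum_congr rfl fun r _ => ?_
  rw [uu, ← map_pow, zz, PowerSeries.coeff_X_pow_mul', PowerSeries.coeff_C]
  by_cases h : b = cc m v r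
  · rw [if_pos h, if_pos (by omega), if_pos (by omega)]
  · rw [if_neg h]
    by_cases h1 : cc m v r ≤ b
    · rw [if_pos h1, if_neg (by omega)]
    · rw [if_neg h1]

theorem coeff_lamB {m : ℕ} (hLZ : LZ m) (v b : ℕ) :
    PowerSeries.coeff b (lamB 2 m (Multiset.replicate v 0)) =
      io (PowerSeries.coeff b (im ℤ m v)) := by
  rw [hLZ.1 v, coeff_im, map_sum, map_sum]
  refine Finset.sum_congr rfl fun r _ => ?_
  rw [PowerSeries.coeff_monomial]
  split_ifs
  · rw [io_X_pow]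
  · rw [map_zero]

/-- the section operator on one coefficient -/
noncomputable def lb (m b : ℕ) (p : ℤ[X]) : ℤ[X] :=
  p.sum fun v a => C a * PowerSeries.coeff b (im ℤ m v)

theorem lb_add (m b : ℕ) (p q : ℤ[X]) : lb m b (p + q) = lb m b p + lb m b q := by
  unfold lb
  rw [Polynomial.sum_add_index]
  · intro v
    rw [C_0, zero_mul]
  · intro v a b
    rw [C_add, add_mul]

theorem lb_monomial (m b v : ℕ) (a : ℤ) : lb m b (Polynomial.monomial v a) =
    C a * PowerSeries.coeff b (im ℤ m v) := by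
  unfold lb
  rw [Polynomial.sum_monomial_index]
  rw [C_0, zero_mul]

theorem lc_io {m : ℕ} (hLZ : LZ m) (b : ℕ) (p : ℤ[X]) :
    lc 2 m b (io p) = io (lb m b p) := by
  induction p using Polynomial.induction_on' with
  | add p q hp hq =>
    rw [map_add, lc_add, hp, hq, lb_add, map_add]
  | monomial v a =>
    rw [io_monomial, lc_single, coeff_lamB hLZ, lb_monomial, map_mul, zsmul_eq_mul]
    congr 1
    rw [io, Polynomial.coe_eval₂RingHom, Polynomial.eval₂_C]
    rfl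

theorem lam_jj {m : ℕ} (hLZ : LZ m) (F : PowerSeries ℤ[X]) :
    lam 2 m (jj F) = jj (LMm m F) := by
  ext n : 1
  rw [coeff_lam, coeff_jj, LMm, PowerSeries.coeff_mk, map_sum]
  refine Finset.sum_congr rfl fun ij _ => ?_
  rw [coeff_jj, lc_io hLZ]
  rfl

theorem Zn_lam {m : ℕ} (hLZ : LZ m) {n : ℕ} {F : Ser} (hF : Zn n F) : Zn n (lam 2 m F) := by
  intro l hl
  rw [coeff_lam]
  refine sum_mem fun ij hij => ?_
  have hij' := Finset.HasAntidiagonal.mem_antidiagonal.1 hij
  obtain ⟨p, hp⟩ := hF ij.1 (by omega)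
  rw [← hp, lc_io hLZ]
  exact ⟨_, rfl⟩

theorem serY_eq {m : ℕ} (hLZ : LZ m) : serY 2 = PowerSeries.X * PowerSeries.C (io X) := by
  rw [hLZ.2, io_X]
  ext n : 1
  rw [PowerSeries.coeff_monomial]
  rcases n with _ | n
  · rw [PowerSeries.coeff_zero_X_mul]
    simp
  · rw [PowerSeries.coeff_succ_X_mul, PowerSeries.coeff_C]
    by_cases h : n = 0
    · subst h
      simp
    · rw [if_neg h, if_neg (by omega)]

theorem range_all {m : ℕ} (hLZ : LZ m) {Q E H : Ser} (h : Sys 2 m Q E H) (n : ℕ) :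
    Zn n Q ∧ Zn n E ∧ Zn n H := by
  induction n with
  | zero => exact ⟨fun m hm => absurd hm (by omega), fun m hm => absurd hm (by omega),
      fun m hm => absurd hm (by omega)⟩
  | succ n ih =>
    obtain ⟨hQ, hE, hH⟩ := ih
    obtain ⟨eQ, eE, eH⟩ := h
    have h1 := Zn.one n
    refine ⟨?_, ?_, ?_⟩
    · rw [eQ, serY_eq hLZ]
      refine Zn.add ?_ ?_
      · exact Zn.X_mul (Zn_C n X)
      · rw [mul_assoc, mul_assoc]
        exact Zn.X_mul ((Zn_C n X).mul (hE.mul hQ))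
    · rw [eE, _root_.pow_two, mul_assoc]
      refine (Zn.X_mul (Zn.X_mul (Zn.sub (Zn_lam hLZ ?_) h1))).mono (by omega)
      exact (h1.add hE).add (hQ.mul ((h1.add hE).pow 2))
    · rw [eH]
      refine Zn.X_mul (Zn_lam hLZ ?_)
      exact (h1.add (hQ.mul (h1.add hE))).mul ((h1.add hE).add hH)

theorem psi_jj (m : ℕ) (F : PowerSeries ℤ[X]) : psi 2 m (jj F) =
    psi2 (fun v => PowerSeries.mk fun n => (pcoef 2 m (Multiset.replicate v 0) n : ℤ)) F := by
  ext n
  rw [psi, psi2, PowerSeries.coeff_mk, PowerSeries.coeff_mk]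
  refine Finset.sum_congr rfl fun ij _ => ?_
  rw [coeff_jj, sum_io (fun s => (pcoef 2 m s ij.2 : ℤ))]
  simp only [PowerSeries.coeff_mk]

end Pool.Agent.Lib.MPba1bba.TM.ZSMAux

namespace Pool.Agent.Lib.MPba1bba.TM

open TR TR.ZSM in
theorem specZSM (hLZM : SpecLZM) : SpecZSM := by
  intro m hm Q E H h
  have hLZ : ZSMAux.LZ m := hLZM m hm
  obtain ⟨Q', rfl⟩ := exists_lift fun n => (ZSMAux.range_all hLZ h n).1
  obtain ⟨E', rfl⟩ := exists_lift fun n => (ZSMAux.range_all hLZ h n).2.1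
  obtain ⟨H', rfl⟩ := exists_lift fun n => (ZSMAux.range_all hLZ h n).2.2
  obtain ⟨eQ, eE, eH⟩ := h
  have hX : jj (zz : PowerSeries (Polynomial ℤ)) = PowerSeries.X := PowerSeries.map_X _
  have hu : jj (uu : PowerSeries (Polynomial ℤ)) = PowerSeries.C (io Polynomial.X) :=
    PowerSeries.map_C _ _
  have hY : serY 2 = jj (zz * uu) := by
    rw [map_mul, hX, hu, ZSMAux.serY_eq hLZ]
  refine ⟨Q', E', H', ⟨?_, ?_, ?_⟩, ?_⟩
  · apply jj_inj
    rw [map_add, map_mul _ _ Q', map_mul _ _ E', ← hY]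
    exact eQ
  · apply jj_inj
    rw [map_mul, map_pow, hX, map_sub, ← ZSMAux.lam_jj hLZ, map_add, map_add, map_mul, map_pow,
      map_add, map_one]
    exact eE
  · apply jj_inj
    rw [map_mul, hX, ← ZSMAux.lam_jj hLZ, map_mul, map_add, map_mul, map_add, map_add, map_add,
      map_one]
    exact eH
  · rw [← ZSMAux.psi_jj]
    congr 1
    rw [FF2]
    simp only [map_add, map_mul, map_pow, map_one, map_ofNat]

end Pool.Agent.Lib.MPba1bba.TM
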