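import Pool.Agent.Lib.MP_ba1bba_al.TM.Spec
import Pool.Agent.Lib.MP_ba1bba_al.TR.Main3
import Pool.Agent.Lib.MP_ba1bba_al.TM.FRB
import Pool.Agent.Lib.MP_ba1bba_al.TM.ZSM
import Pool.Agent.Lib.MP_ba1bba_al.TM.PVM
import Pool.Agent.Lib.MP_ba1bba_al.TM.VAL
import Pool.Agent.Lib.MP_ba1bba_al.TM.RAT
import Pool.Agent.Lib.MP_ba1bba_al.TM.KAM
import Pool.Agent.Lib.MP_ba1bba_al.TM.HGM
import Pool.Agent.Lib.MP_ba1bba_al.TR.RE
import Pool.Agent.Lib.MP_ba1bba_al.TR.EC
import Pool.Agent.Lib.MP_ba1bba_al.AS.GFI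

section
/-!
# The growth series of `B(2,4n)`: the final statement
-/
namespace Pool.Agent.Lib.MPba1bba.TM

open Polynomial TR

namespace MNMAux

/-- The kernel of the sphere sizes modulo 4 is infinite. -/
theorem ker_infinite (N : ℕ) (hcore : ∃ S₁ : PowerSeries ℤ,
      (PowerSeries.mk fun n => (sphere 2 N n : ℤ)) = 1 + 2 * S₁ ∧ ¬ IsAlgebraic P2 (bar0 S₁))
    (hAUT : SpecAUT) : (ker2 fun n => (sphere 2 N n : ZMod 4)).Infinite := by
  obtain ⟨S₁, hS, hna⟩ := hcore
  intro hfin
  refine hna (hAUT _ ((hfin.image fun f n => half4 (f n)).subset ?_))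
  have hval : ∀ n, PowerSeries.coeff n (bar0 S₁) = half4 (sphere 2 N n : ZMod 4) := by
    intro n
    have h1 := congrArg (PowerSeries.coeff n) hS
    rw [PowerSeries.coeff_mk, map_add, PowerSeries.coeff_one] at h1
    have h2 : PowerSeries.coeff n (2 * S₁) = 2 * PowerSeries.coeff n S₁ := by
      rw [show (2 : PowerSeries ℤ) = PowerSeries.C 2 from (map_ofNat PowerSeries.C 2).symm,
        PowerSeries.coeff_C_mul]
    rw [h2] at h1
    have h3 : (sphere 2 N n : ZMod 4) = (((sphere 2 N n : ℕ) : ℤ) : ZMod 4) := by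
      rw [Int.cast_natCast]
    rw [h3, h1, bar0, PowerSeries.coeff_map]
    by_cases hn : n = 0
    · rw [if_pos hn]
      exact (half4_odd _).symm
    · rw [if_neg hn, zero_add]
      exact (half4_even _).symm
  rintro f ⟨k, r, hr, hf⟩
  refine ⟨fun n => (sphere 2 N (2 ^ k * n + r) : ZMod 4), ⟨k, r, hr, fun _ => rfl⟩, ?_⟩
  funext n
  rw [hf]
  exact (hval _).symm

theorem fin (N : ℕ) (hcore : ∃ S₁ : PowerSeries ℤ,
      (PowerSeries.mk fun n => (sphere 2 N n : ℤ)) = 1 + 2 * S₁ ∧ ¬ IsAlgebraic P2 (bar0 S₁))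
    (hRE : SpecRE) (hDIA : SpecDIA) (hAUT : SpecAUT) (T : ℕ → ℤ)
    (hT : IsAlgebraic (Polynomial ℚ) (PowerSeries.mk fun n => (T n : ℚ)) ∨
      (∃ (d : ℕ) (F : MvPowerSeries (Fin d) ℤ), IsRational F ∧ ∀ n, diag F n = T n) ∨
      (ker2 fun n => (T n : ZMod 4)).Finite) :
    ∃ n, (T n : ZMod 4) ≠ (sphere 2 N n : ZMod 4) := by
  have hker := ker_infinite N hcore hAUT
  by_contra hcon
  push Not at hcon
  have hcon2 : (fun n => ((T n : ℤ) : ZMod 4)) = fun n => (sphere 2 N n : ZMod 4) := funext hcon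
  rcases hT with hT | ⟨d, F, hF, hFT⟩ | hT
  · obtain ⟨S₁, hS, hna⟩ := hcore
    have h1 : ∀ n, ∃ c : ℤ, T n = (sphere 2 N n : ℤ) + 4 * c := by
      intro n
      have h2 : ((T n : ℤ) : ZMod 4) = (((sphere 2 N n : ℕ) : ℤ) : ZMod 4) := by
        rw [hcon n, Int.cast_natCast]
      rw [ZMod.intCast_eq_intCast_iff_dvd_sub] at h2
      obtain ⟨c, hc⟩ := h2
      refine ⟨-c, ?_⟩
      push_cast at hc
      linarith
    choose c hc using h1
    refine hna ?_
    have h3 : PowerSeries.mk T = 1 + 2 * (S₁ + 2 * PowerSeries.mk c) := by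
      have h4 : (1 : PowerSeries ℤ) + 2 * (S₁ + 2 * PowerSeries.mk c) =
          (1 + 2 * S₁) + 4 * PowerSeries.mk c := by ring
      rw [h4, ← hS]
      ext n
      rw [PowerSeries.coeff_mk, map_add, PowerSeries.coeff_mk,
        show (4 : PowerSeries ℤ) = PowerSeries.C 4 from (map_ofNat PowerSeries.C 4).symm,
        PowerSeries.coeff_C_mul, PowerSeries.coeff_mk, hc n]
    have h5 := hRE _ _ h3 (by
      have : PowerSeries.map (Int.castRingHom ℚ) (PowerSeries.mk T) =
          PowerSeries.mk fun n => (T n : ℚ) := by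
        ext n
        simp
      rw [this]
      exact hT)
    have h6 : bar0 (S₁ + 2 * PowerSeries.mk c) = bar0 S₁ := by
      have h7 : (PowerSeries.map (Int.castRingHom (ZMod 2))) (2 : PowerSeries ℤ) = 0 := by
        rw [show (2 : PowerSeries ℤ) = PowerSeries.C 2 from (map_ofNat PowerSeries.C 2).symm,
          PowerSeries.map_C]
        have : (Int.castRingHom (ZMod 2)) 2 = 0 := by decide
        rw [this, map_zero]
      rw [bar0, bar0, map_add, map_mul, h7, zero_mul, add_zero]
    rw [h6] at h5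
    exact h5
  · refine hker ?_
    have h := hDIA d F hF
    have h2 : (fun n => ((diag F n : ℤ) : ZMod 4)) = fun n => (sphere 2 N n : ZMod 4) := by
      rw [← hcon2]
      funext n
      rw [hFT n]
    rw [h2] at h
    exact h
  · rw [hcon2] at hT
    exact hker hT

end MNMAux

theorem specMNM (hFNM : SpecFNM) : SpecMNM := fun n hn T hT =>
  MNMAux.fin (4 * n) (hFNM n hn) specRE specDIA specAUT T hT

end Pool.Agent.Lib.MPba1bba.TM
end

section
/-!
# The growth series of `B(2,4n)` is transcendental for every `n ≥ 1`: assembly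
-/
namespace Pool.Agent.Lib.MPba1bba.TM

open Polynomial TR

theorem emm : SpecEMM := specEMM specEVM specBAM specPAM specBA specPA

theorem hgm : SpecHGM := specHGM specSGM specDHM specEC

theorem qum : SpecQUM :=
  specQUM (specKAM specEVM specPAM) (specMOM specEVM specBAM emm specEV specBA) (specCFM emm) emm

theorem lib : SpecLIB := specLIB (specLIA specGRM) (specRAT specSGM) hgm specSGM

/-- `B(2,4n)`, `n ≥ 1`: no algebraic series, no diagonal of a rational series and no `2`-automatic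
sequence modulo `4` is congruent to the growth series modulo `4`. -/
theorem main : MainStatement :=
  specMNM (specFNM Pool.Agent.Lib.MPba1bba.main (specZSM specLZM) specPVM emm qum
    (specDUM specEVM specPAM) specSGM specDHM hgm lib specFRB (specNHM specALG specSGM)
    (specVAL specAUX (specSEQ specSGM specEC) specNVM specSGM specEC) specTRS)

end Pool.Agent.Lib.MPba1bba.TM
end
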