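import Pool.Agent.Lib.MP_ba1bba_al.TM.Defs

/-!
# The growth series of `B(2,4n)` is transcendental: Specs (proofs in the docstrings)

In a module with hypotheses `SpecX` write `theorem specNAME (hX : SpecX) ... : SpecNAME`.
The numbers are estimates of Lean lines. `z = zz`, `u = uu`, `m = 2 n`, `q = 4 n`, `n ≥ 1`,
`w = z^(2n+2)`, `T₁ = 1 + z w = 1 + z^(2n+3)`, `Δ = T₁ + z + z²`. For `n = 1` sections A-B are the
landed modules of `TR/` (`TR/RE.lean`, `TR/Zer.lean`, `TR/ZS.lean`, `TR/KA.lean`, `TR/EC.lean`, ..):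
adapt them. All formulas were checked by computer (`n = 1, 2, 3, 4`, up to order `z^150`).
-/

namespace Pool.Agent.Lib.MPba1bba.TM

open Polynomial TR

/-! ## A. From the group to a series over `𝔽₂` -/

/-- **LZM** [150]. The section operator for `s = v` zeros; `b_s(k) = 2 dist(k, [0,v])`
(`TR/Zer.lean`, `b_zs`). `r ≤ v`: `r + m·0 ∈ [0,v]`, so `cmin = 0`. `v < r < m`: the nearest points of
the class are `r` (distance `r - v`) and `r - m` (distance `m - r`). `sml`: `b` is even, so only the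
increment `0` counts; equality `b(r + m(j+1)) = b(r + m j)`: both points in `[0,v]`: `(v - r)/m` values
of `j` if `r ≤ v`; or the first point is `< 0` and the second `> v` at the same distance: only
`j = -1`, `r > v`, `m - r = r - v`. -/
def SpecLZM : Prop := ∀ m : ℕ, 2 ≤ m →
  (∀ v : ℕ, lamB 2 m (Multiset.replicate v 0) = ∑ r ∈ Finset.range m,
    PowerSeries.monomial (cc m v r)
      (AddMonoidAlgebra.single (Multiset.replicate (ww m v r) 0) (1 : ℤ))) ∧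
  serY 2 = PowerSeries.monomial 1 (AddMonoidAlgebra.single {0} (1 : ℤ))

/-- **PVM** [300] (`TR/Zer.lean`). The recursion of `P_v = ∑_k z^(f_v(k))`, `f_v = b_v □ e`.
(1) For `N = r + m l`, `0 ≤ r < m`: `f_v(N) = min (b_v(N), 2 + min_i b_v(r + m i) + e(l - i))`: an
optimal digit list of `e(N - j)` is empty or `[d]` (cost `b_v(j) + 2|d| ≥ b_v(N)`), or `d :: rest` with
`rest` nonempty, cost `2|d| + 2 + dcost rest`, and `b_v(j) + 2|d| ≥ b_v(N - m dval rest)`; conversely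
`e(m k) ≤ 2 + e(k)`. (2) `min_i b_v(r + m i) + e(l - i) = c + f_w(l - y)`, `c = cc m v r`,
`w = ww m v r`, as `b_v(r + m ·) □ 2|·| = c + b_w(· - y)`, `y = 0` or `-1` (check by the formula for `b`;
or `specSTR`), `2|·| □ e = e`. So with `g_v(N) = 2 + c + f_w(l - y)`: `f_v = min(b_v, g_v)`,
`∑_N z^(g_v(N)) = z² ∑_r z^c P_w`. (3) `g_v ≤ b_v + 2`, both are even, so the two sums differ only in the
points with `g_v(N) = b_v(N) + 2`, i.e. `b_v(N - m i) + e(i) ≥ b_v(N)` for all `i`. These are the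
points of `[0,v]` (`b = 0`) and the points at distance `1 ≤ d ≤ xx m v` from `[0,v]` (`b = 2 d`):
for `N = v + d` the case `i = 1`, `e(1) = 2`, says: `d ≤ 1` if `v + d ≥ m` (then `N - m` is in `[0,v]`, or
at distance `d - m`), and `2 (m - v - d) + 2 ≥ 2 d` if `v + d < m`; this is `d ≤ xx m v`; and then all
other `i` are fine: `e(i) ≥ 2` for `i ≠ 0`, and for `i ≥ 2` the distance is larger than for `i = 1`, for
`i < 0` it is `≥ d`. Left side by the symmetry `N ↦ v - N`. The correction is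
`(v+1)(1 - z²) + 2 ∑_{d ≤ xx} (z^(2d) - z^(2d+2))`. -/
def SpecPVM : Prop := ∀ m : ℕ, 2 ≤ m →
  RecPM m fun v => PowerSeries.mk fun k => (pcoef 2 m (Multiset.replicate v 0) k : ℤ)

/-- **ZSM** [250], from LZM (`TR/ZS.lean`). Transport to `ℤ[u]⟦z⟧`. Let `ι : ℤ[u] →+* SR`,
`u ↦ single {0} 1` (injective), `j = PowerSeries.map ι`. By LZM `lam 2 m (j F) = j (LMm m F)`. The
solution `Q, E, H` of `Sys 2 m` has all its coefficients in the range of `ι` (induction on the degree). -/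
def SpecZSM : Prop := ∀ m : ℕ, 2 ≤ m → ∀ Q E H : Ser, Sys 2 m Q E H →
  ∃ Q' E' H' : PowerSeries ℤ[X], SysM m Q' E' H' ∧
    psi 2 m (1 + E + 2 * H + Q * (1 + E + H) ^ 2) =
      psi2 (fun v => PowerSeries.mk fun k => (pcoef 2 m (Multiset.replicate v 0) k : ℤ))
        (FF2 Q' E' H')

/-- **EVM** [250]. Facts on `LMm`. `∑_r z^cc (ww + 1) = v + 1 + 2 ch_v`: the residues `r ≤ v` give
`∑_{r ≤ v, r < m} (1 + (v-r)/m) = v + 1` (the pairs `(r, j)` with `r + m j ≤ v`); the others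
(`v < m - 1`), with `t = r - v`, `L = m - v`: `∑_{0<t<L} z^(2 min(t, L-t)) (1 + [2 t = L]) =
2 ∑_{t ≤ L/2} z^(2t)`. This is the formula for `F = u^v`; the general case by linearity
(coefficientwise). The last two items: reduction modulo `2`. -/
def SpecEVM : Prop := ∀ (R : Type) [CommRing R] (m : ℕ), 1 ≤ m →
  (∀ F G : PowerSeries R[X], LMm m (F + G) = LMm m F + LMm m G) ∧
  (∀ F : PowerSeries R[X], LMm m (zz * F) = zz * LMm m F) ∧
  (∀ F : PowerSeries R[X], LMm m (-F) = -LMm m F) ∧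
  (∀ v : ℕ, LMm m (uu ^ v : PowerSeries R[X]) = im R m v) ∧
  (∀ F : PowerSeries R[X], ev1 (LMm m F) + dv1 (LMm m F) =
    ev1 F + dv1 F + 2 * ∑ v ∈ Finset.range m, ch R m v * cf v F)

/-- **BAM** [60]. Reduction modulo `2`, see also `SpecBA`. -/
def SpecBAM : Prop :=
  (∀ (m : ℕ) (F : PowerSeries ℤ[X]), bar (LMm m F) = LMm m (bar F)) ∧
  (∀ (v : ℕ) (F : PowerSeries ℤ[X]), bar0 (cf v F) = cf v (bar F)) ∧
  (∀ m v : ℕ, bar0 (ch ℤ m v) = ch (ZMod 2) m v)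

/-- **PAM** [200]. `Λ` modulo `2` for `m = 2 n`. Write `v = m k + s`, `s < m`. `v ≥ m - 1`: `s + 1`
residues (`r ≤ s`) give `u^k`, `m - 1 - s` residues give `u^(k-1)`; `s` and `v` have the same parity.
`v < m - 1`: `v + 1` residues give `1`; in `∑_{0<t<L} z^(2 min(t,L-t)) u^[2t=L]`, `L = m - v`, `t` and
`L - t` cancel, the middle term `z^L u` remains if `L` is even. `OddU F`: coefficientwise by
linearity. -/
def SpecPAM : Prop := ∀ n : ℕ, 1 ≤ n →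
  (∀ F : PowerSeries (ZMod 2)[X], OddU F → LMm (2 * n) F = 0) ∧
  (∀ i : ℕ, i < n → LMm (2 * n) (uu ^ (2 * i) : PowerSeries (ZMod 2)[X]) =
    1 + zz ^ (2 * n - 2 * i) * uu) ∧
  (∀ i : ℕ, n ≤ i → LMm (2 * n) (uu ^ (2 * i) : PowerSeries (ZMod 2)[X]) =
    uu ^ (i / n) + uu ^ (i / n - 1)) ∧
  (∀ v : ℕ, Odd v → LMm (2 * n) (uu ^ v : PowerSeries (ZMod 2)[X]) = 0)

/-- **EMM** [150], from EVM, BAM, PAM and `SpecBA`, `SpecPA` (as `TR`, module EM). Modulo `2` let `Q'` be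
the solution of `(1 + z^(2n+3) u²) Q' = z u` (odd) and `E' = z^(2n+2) u`. Then
`1 + E' + Q' (1 + E')² = 1 + odd`, so `z² (Λ(..) - 1) = z² (Λ(1) - 1) = z^(2n+2) u = E'`; uniqueness:
if `z^k ∣ bar E - E'` then `z^(k+1) ∣ bar Q - Q'`, so `z^(k+2) ∣ bar E - E'`. With
`A = 1 + Q (1 + E) = (1 + z u)/(1 + z^(2n+3) u²)`: `A (1 + E) = 1 + E + Q (1+E)² = 1 + odd`, and
`H = z Λ(A H) + z Λ(A (1 + E))`. The last two: `FF2 = 1 + E + 2 H + Q (1 + E + H)²`. -/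
def SpecEMM : Prop := ∀ n : ℕ, 1 ≤ n → ∀ Q E H : PowerSeries ℤ[X], SysM (2 * n) Q E H →
  bar E = zz ^ (2 * n + 2) * uu ∧ (1 + zz ^ (2 * n + 3) * uu ^ 2) * bar Q = zz * uu ∧
  (1 + zz ^ (2 * n + 3) * uu ^ 2) * (1 + bar Q * (1 + bar E)) = 1 + zz * uu ∧
  bar H = zz * LMm (2 * n) ((1 + bar Q * (1 + bar E)) * bar H) + zz + zz ^ (2 * n + 1) * uu ∧
  OddU (bar (FF2 Q E H) - 1) ∧
  (1 + zz ^ (2 * n + 3) * uu ^ 2) * (bar (FF2 Q E H) - 1 - bar E) =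
    zz * uu * (1 + bar E + bar H) ^ 2

/-- **KAM** [250], from EVM, BAM, PAM (`TR/KA.lean`). Put `T_v = P_v - (v + 1)`. By
`∑_r z^cc (ww + 1) = v + 1 + 2 ch_v`, `T_v = z² ∑_r z^cc T_(ww) + 2 (z² ch_v + z² - z^(2 xx + 2))`. So all
`T_v` are in the ideal `(2, z^N)` for every `N` (induction), `T_v = 2 κ_v`,
`κ_v = z² ∑_r z^cc κ_(ww) + ρ_v`, `ρ_v = z² ch_v + z² - z^(2 xx + 2)`. Modulo `2`: if `v` is odd,
`∑_r z^cc u^ww = 0` (PAM), so `κ_v = ρ_v` (apply the `z`-linear map `u^w ↦ κ_w`); and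
`κ_0 = z² (κ_0 + z^(2n) κ_1) + ρ_0`. So `(1 + z²) κ_0 = z^(2n+2) ρ_1 + ρ_0 =: k₀`. For odd
`v = 2 j + 1 ≥ 2 n - 1`: `ρ_v = z² + z⁴`; put `rh j = ρ_(2j+1) + z² + z⁴` for `j < n - 1`. Let
`κ = ∑_v F_v κ_v`; if `F = 1 + odd` modulo `2` then `κ = κ_0 + ∑_{v odd} F_v ρ_v`, and
`∑_{v odd} F_v = F(1) - 1`. (All `ρ_v` are polynomials in `z`.) -/
def SpecKAM : Prop := ∀ n : ℕ, 1 ≤ n → ∃ (k₀ : P2) (rh : ℕ → P2),
  ∀ P : ℕ → PowerSeries ℤ, RecPM (2 * n) P → ∀ F : PowerSeries ℤ[X],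
    ∃ κ : PowerSeries ℤ, psi2 P F = ev1 F + dv1 F + 2 * κ ∧
      (OddU (bar F - 1) → (1 + zz ^ 2) * bar0 κ = algebraMap P2 S2 k₀ +
        (1 + zz ^ 2) * ((zz ^ 2 + zz ^ 4) * (ev1 (bar F) - 1) +
          ∑ j ∈ Finset.range (n - 1), algebraMap P2 S2 (rh j) * cf (2 * j + 1) (bar F)))

/-- **MOM** [300], from EVM, BAM, EMM, `SpecEV`, `SpecBA` (as `TR`, module MO). Write `a = E(1)`,
`a' = E'(1)`, `q, q', h, h'` for the values at `u = 1` of `Q`, `H` and of their derivatives,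
`R = 1 + E + Q (1+E)²`, `r = R(1)`, `r' = R'(1)`, `x = 1 + a + h`, `x' = a' + h'`.
(0) `q = z + z a q`, `q' = z + z a q + z a' q + z a q'` [derivative of `Q = z u + z u E Q`].
(1) By EVM, `E = z² (Λ R - 1)` gives `a + a' = z² (r + r' - 1 + 2 X)`, `X = ∑_{v<m} ch_v R_v`. And
`(1-za)² (r + r') = (1-za)(1+2z+za) + (a+a')(1+z)²`. Modulo `2`: `a = a' = w`; put `a + a' = 2 σ`; divide
by `2`: modulo `2`, `σ Δ² = z³ (1+w) T₁ + z² T₁² X =: cσ`, `Δ² = T₁² + z² + z⁴`; modulo `2`,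
`(1 + z w u²)(R - 1) = (z + w) u`, so `R_v = [v = 0] + [v odd] (z+w)(z w)^((v-1)/2)` is a polynomial in
`z`, hence so is `X`. (2) EVM and EMM modulo `2`: `h + h' = z + z (value + derivative at 1 of A H)`,
`T₁ A(1) = 1 + z`, `T₁ A'(1) = z`: `h' Δ = z T₁ + h (T₁ + z)`. (3) modulo `4`:
`f + f' = 1 + (a+a') + 2(h+h') + (q+q') x² + 2 q x x'` for `f, f'` the value and derivative of `FF2` at
`1`, `(1-za)(q+q') = 2z + z q (a+a')`, so `q + q' = 2 y` with `T₁² y = z (T₁ + z σ)` modulo `2`, `T₁ q = z`.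
So `f + f' = 1 + 2 S₀` with the formula below. -/
def SpecMOM : Prop := ∀ n : ℕ, 1 ≤ n → ∃ cσ : P2, ∀ Q E H : PowerSeries ℤ[X], SysM (2 * n) Q E H →
  ∃ S₀ : PowerSeries ℤ, ev1 (FF2 Q E H) + dv1 (FF2 Q E H) = 1 + 2 * S₀ ∧
    ∃ σ h' : S2,
      σ * (1 + zz ^ (2 * n + 3) + zz + zz ^ 2) ^ 2 = algebraMap P2 S2 cσ ∧
      h' * (1 + zz ^ (2 * n + 3) + zz + zz ^ 2) =
        zz * (1 + zz ^ (2 * n + 3)) + ev1 (bar H) * (1 + zz ^ (2 * n + 3) + zz) ∧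
      (1 + zz ^ (2 * n + 3)) ^ 2 * bar0 S₀ = (1 + zz ^ (2 * n + 3)) ^ 2 * (σ + ev1 (bar H) + h') +
        zz * (1 + zz ^ (2 * n + 3) + zz * σ) * (1 + zz ^ (2 * n + 2) + ev1 (bar H)) ^ 2 +
        zz * (1 + zz ^ (2 * n + 3)) * (1 + zz ^ (2 * n + 2) + ev1 (bar H)) *
          (zz ^ (2 * n + 2) + h')

/-- **CFM** [120], from EMM. The coefficient of `u^(2j+1)` in the last equation of EMM:
`φ_j + z^(2n+3) φ_(j-1) = z ([j = 0] + w² [j = 1] + H_j²)`, `φ_j = F_(2j+1) - w [j = 0]`; the coefficient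
of `u^(2i)` in a square over `𝔽₂` is the square of the coefficient of `u^i`. -/
def SpecCFM : Prop := ∀ n : ℕ, 1 ≤ n → ∀ Q E H : PowerSeries ℤ[X], SysM (2 * n) Q E H → ∀ j : ℕ,
  cf (2 * j + 1) (bar (FF2 Q E H)) = (if j = 0 then zz ^ (2 * n + 2) else 0) +
    ∑ i ∈ Finset.range (j + 1), zz ^ ((2 * n + 3) * (j - i) + 1) *
      ((if i = 0 then 1 else 0) + (if i = 1 then zz ^ (4 * n + 4) else 0) + cf i (bar H) ^ 2)

/-- **QUM** [200], from KAM, MOM, CFM, EMM. Elimination. `S = 1 + 2 S₁`, `S₁ = S₀ + κ`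
(`ℤ⟦z⟧` has no `2`-torsion, so `S₁` is unique). With `e = F(1) - 1`, `T₁ e = T₁ w + z x²` (`u = 1` in the
last equation of EMM), `h = H(1)`, `x = 1 + w + h`, multiply `T₁² S₁ = T₁² (S₀ + κ)` by `(1 + z²) Δ²`:
`(1+z²) Δ² T₁² S₁ = (1+z²) [T₁² cσ + T₁² Δ² h + T₁² Δ (z T₁ + h (T₁+z)) + z (T₁ Δ² + z cσ) x² +
z T₁ x (Δ² w + Δ (z T₁ + h (T₁ + z)))] + T₁² Δ² [k₀ + (1+z²) Z] + (1+z²) Δ² (z²+z⁴) T₁ (T₁ w + z x²)`,
`Z = ∑_j rh_j F_(2j+1)`, which by CFM is a polynomial plus a linear combination of the `H_i²`, `i < n-1`,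
with polynomial coefficients. The coefficient of `h` is
`B = (1+z²) T₁ Δ [T₁ Δ + T₁ (T₁+z) + z ((1+w)(T₁+z) + w Δ + z T₁)]`, and `(1+w)(T₁+z) + w Δ + z T₁ = T₁`, so
`B = (1+z²) T₁² Δ z (1+z) ≠ 0`. (Modulo `2`, `x²` has no linear term.) -/
def SpecQUM : Prop := ∀ n : ℕ, 1 ≤ n → ∃ (A B C₂ D : P2) (Ci : ℕ → P2), B ≠ 0 ∧ D ≠ 0 ∧
  ∀ (P : ℕ → PowerSeries ℤ) (Q E H : PowerSeries ℤ[X]), RecPM (2 * n) P → SysM (2 * n) Q E H →
    ∃ S₁ : PowerSeries ℤ, psi2 P (FF2 Q E H) = 1 + 2 * S₁ ∧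
      algebraMap P2 S2 D * bar0 S₁ = algebraMap P2 S2 A + algebraMap P2 S2 B * ev1 (bar H) +
        algebraMap P2 S2 C₂ * ev1 (bar H) ^ 2 +
        ∑ i ∈ Finset.range (n - 1), algebraMap P2 S2 (Ci i) * cf i (bar H) ^ 2

/-! ## B. The dual sequences and the Mahler functions -/

/-- **DUM** [250], from EVM, PAM (as `TR`, module DU). Put `T G = z Λ(A G)`; `T^k G` is divisible by
`z^k`, so `L G = ∑_k evf ψ (T^k G)` converges; `L` is additive and `z`-linear, `L G = evf ψ G + L (T G)`.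
Put `δ j = L (T u^j)`, so `L u^j = w j = ψ(u^j) + δ j`. From `T u^j + z^(2n+3) T u^(j+2) =
z Λ(u^j + z u^(j+1))` and PAM: `δ_(2i) + z^(2n+3) δ_(2i+2) = z L(Λ u^(2i))`,
`δ_(2i-1) + z^(2n+3) δ_(2i+1) = z² L(Λ u^(2i))` (`i ≥ 1`). So `g_i := z δ_(2i) + δ_(2i-1)` satisfies
`g_i = z^(2n+3) g_(i+1)`, hence `g_i = 0` (divisible by all powers of `z`). `H = T H + z + z^(2n+1) u` gives
`evf ψ H = L H - L (T H) = L (z + z^(2n+1) u)`. -/
def SpecDUM : Prop := ∀ n : ℕ, 1 ≤ n → ∀ A H : PowerSeries (ZMod 2)[X],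
  (1 + zz ^ (2 * n + 3) * uu ^ 2) * A = 1 + zz * uu →
  H = zz * LMm (2 * n) (A * H) + zz + zz ^ (2 * n + 1) * uu →
  ∀ ψ : (ZMod 2)[X] →ₗ[ZMod 2] ZMod 2, ∃ δ : ℕ → S2, RecD n (fun j => ψ (X ^ j)) δ ∧
    evf ψ H = zz * (PowerSeries.C (ψ 1) + δ 0) + zz ^ (2 * n + 1) * (PowerSeries.C (ψ X) + δ 1)

/-- **GRM** [180]. Growth. `coeff 0 (δ j) = 0`: all terms of the recursion have a factor `z`. `k ≥ 1`,
strong induction on `k`: `[z^k] δ_(2i) = [z^(k-1)] (w_(i/n) + w_(i/n-1)) + [z^(k-2n-3)] δ_(2i+2)` for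
`i ≥ n`. Let `J = (2n)^(k-1) g - 2`. `k ≥ 2`: `[z^(k-1)] w_j = [z^(k-1)] δ_j` is `0` for `j > J` and `1` for
`j = J` (for odd `j`: `[z^(k-1)] δ_j = [z^(k-2)] δ_(j+1)`). If `2 i > (2n)^k g - 2` then
`i ≥ (2n)^k g / 2`, `i/n - 1 ≥ (2n)^(k-1) g - 1 > J`; if `2 i = (2n)^k g - 2` then `i/n - 1 = J`, and
`w_(J+1)` does not contribute. `k = 1`: `[z^0] w_j = a_j = ψ(u^j)`; value at `1`: `a_j = 1`, so the sum is
`0` for `i ≥ n`, and for `i < n`: `[z^1] δ_(2i) = a_0 = 1`, top index `2 n - 2`; coefficient of `u^i₀`: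
`a_j = [j = i₀]`, `i/n - 1 = i₀` for the top index `2 i = 2 n (i₀ + 2) - 2`. Odd `j`:
`[z^k] δ_j = [z^(k-1)] δ_(j+1) = 0`. -/
def SpecGRM : Prop := ∀ n : ℕ, 1 ≤ n → ∀ (f : Fi n) (δ : ℕ → S2),
  RecD n (fun j => fl n f (X ^ j)) δ → (∀ j : ℕ, PowerSeries.coeff 0 (δ j) = 0) ∧
  ∀ k : ℕ, 1 ≤ k → (∀ j : ℕ, (2 * n) ^ k * gg n f - 2 < j → PowerSeries.coeff k (δ j) = 0) ∧
    PowerSeries.coeff k (δ ((2 * n) ^ k * gg n f - 2)) = 1

/-- **SGM** [200]. The substitution `y ↦ c y^(2n)` is a ring homomorphism, injective for `c ≠ 0` over a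
domain, compatible with coefficient maps, it maps (the series of) a polynomial to (the series of) a
polynomial with the right value at `1`, and `ev` of it is `ev` at the next point: for `c = z^ce`,
`ev N (sg n c F) = ev (ce n + 2 n N) F` for all `N` with `1 ≤ ce n + 2 n N`. (All by coefficients;
`sg n c F = ∑ c^i F_i y^(2 n i)`.) Existence and uniqueness of solutions: coefficient `j` of
`ϑ · sg g` only involves `g_i` with `2 n i + n ≤ j`, `i < j` (`ϑ` is divisible by `y^n`). -/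
def SpecSGM : Prop := ∀ n : ℕ, 1 ≤ n →
  (∀ (R : Type) [CommRing R] (c : R), ∃ φ : PowerSeries R →+* PowerSeries R,
    (∀ F, φ F = sg n c F) ∧ (∀ r : R, sg n c (PowerSeries.C r) = PowerSeries.C r) ∧
    sg n c (PowerSeries.X : PowerSeries R) = PowerSeries.C c * PowerSeries.X ^ (2 * n) ∧
    (∀ p : Polynomial R, sg n c (p : PowerSeries R) =
      ((p.comp (Polynomial.C c * Polynomial.X ^ (2 * n)) : Polynomial R) : PowerSeries R))) ∧
  (∀ (R : Type) [CommRing R] [IsDomain R] (c : R), c ≠ 0 → ∀ F : PowerSeries R,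
    sg n c F = 0 → F = 0) ∧
  (∀ F : PowerSeries P2, toS (sg n ((X : P2) ^ ce n) F) = sg n ((zz : S2) ^ ce n) (toS F)) ∧
  (∀ (N : ℕ) (F : PowerSeries S2), ev N (sg n ((zz : S2) ^ ce n) F) = ev (ce n + 2 * n * N) F) ∧
  (∀ β : Polynomial P2, ∃ g : PowerSeries P2, Sol n β g) ∧
  (∀ (β : Polynomial S2) (x x' : PowerSeries S2), SolS n β x → SolS n β x' → x = x') ∧
  (∀ (β : Polynomial P2) (g : PowerSeries P2), Sol n β g → SolS n (pS β) (toS g))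

/-- **DHM** [200], from SGM. The Mahler equation of a dual sequence. Coefficient `i` of
`(1 + y) Dh` is `s₀^i (δ_(2i) + s₀ δ_(2i+2))` (`s₀ = z^(2n+3)`), plus `δ_0` for `i = 0` (characteristic 2).
So `(1+y) Dh = δ_0 + z ∑_i s₀^i ρ_i y^i` with `ρ_i = w_(i/n) + w_(i/n-1)` (`i ≥ n`),
`w_0 + z^(2n-2i) w_1` (`i < n`). Group `i = n k + t`, `t < n`: `∑_i s₀^i ρ_i y^i = En (1+Y) W(Y) +
w_1 z^(2n) Tn` where `W(Y) = ∑ w_k Y^k` [`∑_k Y^k (w_k + w_(k-1)) = (1+Y) W`, and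
`s₀^t z^(2n-2t) = z^(2n) z^((2n+1)t)`], and `W(Y) = ∑ a_k Y^k + δ_0 + ∑_{j≥1} δ_j Y^j`,
`∑_{j≥1} δ_j Y^j = ∑_{i≥0} δ_(2i+2) (Y^(2i+2) + z Y^(2i+1))`, and
`z En (1+Y) Y (Y + z) ∑ δ_(2i+2) Y^(2i) = ϑ · sg(Dh)`, as `Y^(2i) = s₀^(2n i) y^(2n i)`,
`s₀^(i+1) c^i = s₀ s₀^(2n i)`, `z^(1+(2n+3)(n-1)) y^n · s₀ = z Y`. And `(1+Y) ∑ a_k Y^k = Ps n f`. Finally
`z^(2n+1) w_1 = z^(2n+1) a_1 + z^(2n+2) δ_2` and, from the recursion for `i = 0` and `δ_1 = z δ_2`,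
`(1+z) z^(2n+2) δ_2 = (1+z) δ_0 + z (a_0 + z^(2n) a_1)`. Multiply by `1 + z`. The last statement is
the same relation. -/
def SpecDHM : Prop := ∀ n : ℕ, 1 ≤ n → ∀ (f : Fi n) (δ : ℕ → S2),
  RecD n (fun j => fl n f (X ^ j)) δ →
  SolS n (pS (bpsi n f) + Polynomial.C ((1 + zz) * δ 0) * pS (bphi n))
    (PowerSeries.C (1 + zz) * Dh n δ) ∧
  (1 + zz) * (zz * (PowerSeries.C (fl n f 1) + δ 0) +
      zz ^ (2 * n + 1) * (PowerSeries.C (fl n f X) + δ 1)) =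
    (1 + zz) ^ 2 * δ 0 + zz ^ 2 * (PowerSeries.C (fl n f 1) + zz ^ (2 * n) * PowerSeries.C (fl n f X))

/-- **HGM** [200], from SGM, DHM, `SpecEC`. (1) `Fv none = ϑ(1) φ(y_1) + bphi(1)`, `bphi(1) =
1 + z (1 + s₀^n) (1 + ..) + 1 + z^(2n+1) (..) = z + z² (..)`, `ϑ(1)` is divisible by `z²`
(`z^(1+..)` and `s₀^n + z`). (2) `x = (1+z) Dh δ` is a solution for
`pS (bpsi n f) + (1+z) δ_0 pS (bphi n)`, so by uniqueness `x = toS (G (some f)) + (1+z) δ_0 toS (G none)`.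
(3) the residue of `x` is `0`: all coefficients of `Dh` at `y^i` are divisible by `z^((2n+3)(i+1))`, so `x`
can be evaluated at `y = 1` (e.g. `x = s₀ · (series X(s) evaluated at s = s₀ y)`, i.e. use
`ev (2n+3)` of `∑ δ_(2i+2) s^i`; or sum the recursion: `∑_i s₀^i (δ_(2i) + s₀ δ_(2i+2)) = δ_0`), where
`1 + y = 0`. By linearity of `Res` the residue is `Fv (some f) + (1+z) δ_0 Fv none`. -/
def SpecHGM : Prop := ∀ n : ℕ, 1 ≤ n → ∀ G : Option (Fi n) → PowerSeries P2,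
  (∀ i, Sol n (bet n i) (G i)) → HasOrd (Fv n G none) 1 ∧
  ∀ (f : Fi n) (δ : ℕ → S2), RecD n (fun j => fl n f (X ^ j)) δ →
    PowerSeries.C (1 + zz) * Dh n δ =
      toS (G (some f)) + PowerSeries.C ((1 + zz) * δ 0) * toS (G none) ∧
    Fv n G (some f) + (1 + zz) * δ 0 * Fv n G none = 0 ∧
    Res n (PowerSeries.C (1 + zz) * Dh n δ)
      (pS (bpsi n f) + Polynomial.C ((1 + zz) * δ 0) * pS (bphi n)) = 0

/-! ## C. Independence of the functions -/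

/-- **LIA** [250], from GRM. Suppose some `c f ≠ 0`. For a nonzero `x : S2` let `val x` be its order. Put
`W_i = ∑_f c_f δ^f_(2i+2)`; as `Dh` has the coefficients `s₀^(i+1) δ_(2i+2)`, for `i > deg N`, `i ≥ deg D`:
`∑_l D'_l W_(i-l) = 0`, `D'_l = D_l s₀^(deg D - l)` (cancel a power of `s₀`). Let `e = min val c_f`, `f₀` with
`val c_(f₀) = e` and `g₀ = gg f₀` maximal (`gg` is injective, `1 ≤ gg ≤ n`; for `n = 1` only `none`).
Let `i_k = (2n)^k g₀/2 - 2` (so `2 i_k + 2 = (2n)^k g₀ - 2`). By GRM, for large `k`: `val W_(i_k) = e + k`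
[`f₀` gives `e + k` exactly; `val c_f = e`, `gg f < g₀`: `[z^l] δ^f_j = 0` for `l ≤ k`,
`j = (2n)^k g₀ - 2`; `val c_f > e`: `[z^l] δ^f_j = 0` for `l ≤ k - 1`, as `(2n)^k > (2n)^(k-1) n`];
`z^(e+k+1) ∣ W_i` for `i > i_k`; `z^(e+k) ∣ W_i` for `i_k - deg D ≤ i < i_k`. Let `v = min val D'_l`, `l₀` the
largest `l` with `val D'_l = v`. In the relation for `i = i_k + l₀` the term `l = l₀` has order exactly
`v + e + k`, all others have a larger order. Contradiction. -/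
def SpecLIA : Prop := ∀ n : ℕ, 1 ≤ n → ∀ δ : Fi n → ℕ → S2,
  (∀ f, RecD n (fun j => fl n f (X ^ j)) (δ f)) →
  ∀ (c : Fi n → S2) (D N : Polynomial S2), D ≠ 0 →
    (D : PowerSeries S2) * ∑ f, PowerSeries.C (c f) * Dh n (δ f) = (N : PowerSeries S2) →
    ∀ f, c f = 0

/-- **RAT** [300], from SGM, `SpecEC`. A rational solution has residue `0`. Work in `L[y]`, `L` the
fraction field of `S2`; we may assume `N, D` coprime (divide by the gcd). Let `σ p = p(c y^(2n))`. From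
`(1+y) x = ϑ σx + β`: `(1+y) N σD = ϑ σN D + β D σD`; `σN, σD` are coprime (Bezout), so `σD ∣ ϑ D`.
(A) `D(1) ≠ 0`: then `(σD)(1) = D(c) ≠ 0` (it divides `ϑ(1) D(1)`, `ϑ(1) ≠ 0`), `c = y_1 = z^ce`; at `y = 1`:
`0 = ϑ(1) N(c) D(1) + β(1) D(1) D(c)`, and `D x = N` evaluated at `y_1` (`ev (ce n)`) gives
`D(c) x(y_1) = N(c)`. So `D(1) D(c) Res = 0`. (B) `D(1) = 0`: `(1+y) ∣ D`, so `1 + c y^m = σ(1+y) ∣ σD ∣ ϑ D`
(`m = 2n`), coprime to `ϑ`, so it divides `D`; again `1 + c^(1+m) y^(m²) = σ(1 + c y^m) ∣ ϑ D`, coprime to `ϑ`,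
so it divides `D` and `m² ≤ deg D`. But `m deg D = deg σD ≤ deg ϑ + deg D = (2m - 1) + deg D`, so
`(m-1) deg D ≤ 2m - 1`, `deg D ≤ 3` (`m = 2`), `≤ 2` (`m ≥ 4`): contradiction. Coprimality, factors of `ϑ`
(units of `L` apart): `y`: clear. `Y + z` (`Y = s₀^n y^n`, `Y² = s₀^m y^m`, `c = s₀^(m-1)`):
`1 + c y^m = s₀^(-1) (Y + z)² + (1 + z² s₀^(-1))`, the last term is not `0`; and
`1 + c^(1+m) y^(m²) = 1 + s₀^(-1) (Y²)^m`, `Y² ≡ z²`: `1 + z^(2m) s₀^(-1) ≠ 0` (`2m ≠ m + 3`). `1 + Y`: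
`Y² ≡ 1`: `1 + s₀^(-1) ≠ 0` in both cases. `En ∣ 1 + Y`. -/
def SpecRAT : Prop := ∀ n : ℕ, 1 ≤ n → ∀ (x : PowerSeries S2) (β : Polynomial S2), SolS n β x →
  ∀ D N : Polynomial S2, D ≠ 0 → (D : PowerSeries S2) * x = (N : PowerSeries S2) → Res n x β = 0

/-- **LIB** [150], from LIA, RAT, HGM, SGM. Let `D ∑ c_i g_i = N`, `g_i = toS (G i)`. By HGM
`g_(some f) = (1+z) Dh δ_f + (1+z) δ_(f,0) g_none` (characteristic 2), so
`x := ∑ c_i g_i = c' g_none + ∑_f c_f (1+z) Dh δ_f`, `c' = c_none + ∑_f c_f (1+z) δ_(f,0)`. `x` is a solution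
for `β = ∑ c_i pS (bet n i) = c' pS (bphi n) + ∑_f c_f (pS (bpsi n f) + (1+z) δ_(f,0) pS (bphi n))`, and it is
rational, so `Res n x β = 0` (RAT); by linearity of `Res` and HGM `Res n x β = c' Fv none`, and
`Fv none ≠ 0` (order 1), so `c' = 0`. Then
`D ∑_f C (c_f (1+z)) Dh δ_f = C(1+z) N` and LIA gives `c_f = 0`, and `c' = 0` gives `c_none = 0`. -/
def SpecLIB : Prop := ∀ n : ℕ, 1 ≤ n → ∀ G : Option (Fi n) → PowerSeries P2,
  (∀ i, Sol n (bet n i) (G i)) → (∀ f : Fi n, ∃ δ : ℕ → S2, RecD n (fun j => fl n f (X ^ j)) δ) →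
  ∀ (c : Option (Fi n) → S2) (D N : Polynomial S2), D ≠ 0 →
    (D : PowerSeries S2) * ∑ i, PowerSeries.C (c i) * toS (G i) = (N : PowerSeries S2) →
    ∀ i, c i = 0

/-- **FRB** [150]. Frobenius powers. Induction on `r`. Let `D ∑ c_i g_i^(2^(r+1)) = N`. Every `c : S2` is
`c = c'² + z c''²` (even and odd coefficients; `(∑ a_k z^k)² = ∑ a_k z^(2k)` over `𝔽₂`). With
`h₀ = D ∑ c'_i g_i^(2^r)`, `h₁ = D ∑ c''_i g_i^(2^r)`: `h₀² + z h₁² = D N` (Frobenius is additive).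
The coefficient of `y^(2l)` is `h_(0,l)² + z h_(1,l)²`, it vanishes for large `l`, so `h_(0,l) = h_(1,l) = 0`
(even and odd part), `h₀, h₁` are polynomials; by induction `c'_i = c''_i = 0`. -/
def SpecFRB : Prop := ∀ (ι : Type) [Fintype ι] (g : ι → PowerSeries S2),
  (∀ (c : ι → S2) (D N : Polynomial S2), D ≠ 0 →
    (D : PowerSeries S2) * ∑ i, PowerSeries.C (c i) * g i = (N : PowerSeries S2) → ∀ i, c i = 0) →
  ∀ (r : ℕ) (c : ι → S2) (D N : Polynomial S2), D ≠ 0 →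
    (D : PowerSeries S2) * ∑ i, PowerSeries.C (c i) * g i ^ 2 ^ r = (N : PowerSeries S2) →
    ∀ i, c i = 0

/-- **ALG** [350]. A criterion of algebraic independence (pure algebra). `K` a field of characteristic
`2`, `σ` an endomorphism, `M` a subfield with `σ M ⊆ M`, `a ∈ M`, `g_i = a σ(g_i) + b_i`, `b_i ∈ M`. (NH): for
`j ≥ 1` the equation `a^j σ(r) = r` has only the solution `0`. `M` contains infinitely many fixed elements
of `σ`. (LI): no nontrivial combination of the `g_i^(2^r)` with fixed coefficients is in `M`. Then the `g_i`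
are algebraically independent over `M`. Proof. `a ≠ 0` by (NH) [if `a = 0` then `r = 0 ..`; if `ι` is empty
there is nothing to do, otherwise `a = 0` gives `g_i = b_i ∈ M` against (LI)]. Suppose there is
`P ≠ 0` over `M` with `P(g) = 0`; choose it with minimal `(e, t)`, `e` the total degree, `t` the number of
monomials of degree `e` in it, and with coefficient `1` at some monomial `ν` of degree `e ≥ 1`. (1) `P^σ` (`σ`
on coefficients) and `P(a X + b)` vanish at `σ g`. So `R = P(a X + b) - a^e P^σ` vanishes at `σ g = (g - b)/a`,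
and `R((X - b)/a)` vanishes at `g`, has total degree `≤ e` and top monomials among those of `P` except `ν`: by
minimality it is `0`. So `P(a X + b) = a^e P^σ(X)`; comparing top coefficients: `σ c_μ = c_μ` for `|μ| = e`.
(2) Let `P̃(X) = P(g + X) = ∑ d_κ X^κ` over `K`. Then `P̃(a X) = P(g + a X) = P(a (σg + X) + b) =
a^e P^σ(σ g + X) = a^e (P̃)^σ(X)`, so `a^|κ| d_κ = a^e σ(d_κ)`, and `d_κ = 0` for `|κ| < e` by (NH). So
`P̃ = p := ∑_{|κ|=e} c_κ X^κ`. (3) for `t` in `L₀^ι`, `L₀` = fixed elements of `M` (an infinite field):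
`P(X + t) - P(X) - p(t)` has coefficients in `M`, vanishes at `g` (`P(g + t) = P̃(t) = p(t)`) and has degree
`< e`, so it is `0`. Hence `P(t) = P(0) + p(t)` and `p(t + t') = p(t) + p(t')` for `t, t'` in `L₀^ι`; so
`P = P(0) + p` (`L₀` infinite), `p(t) = ∑_i p(t_i e_i) = ∑_i c_i t_i^e`, `p = ∑ c_i X_i^e`, `c_i ∈ L₀` not all
`0`, and `(s+t)^e = s^e + t^e` on `L₀`, so `e` is a power of `2` [`e = 2^r o`, `o` odd: the coefficient of
`s^(2^r)` in `(s+1)^e = (s^(2^r) + 1)^o` is `o`]. So `∑ c_i g_i^e = -P(0) ∈ M`, against (LI). -/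
def SpecALG : Prop := ∀ (K : Type) [Field K] [CharP K 2] (ι : Type) [Fintype ι] (σ : K →+* K)
  (M : Subfield K) (a : K) (g b : ι → K), a ∈ M → (∀ i, b i ∈ M) → (∀ x ∈ M, σ x ∈ M) →
  (∀ i, g i = a * σ (g i) + b i) → (∀ (j : ℕ) (r : K), 1 ≤ j → a ^ j * σ r = r → r = 0) →
  {x : K | x ∈ M ∧ σ x = x}.Infinite →
  (∀ (r : ℕ) (c : ι → K), (∀ i, σ (c i) = c i) → ∑ i, c i * g i ^ 2 ^ r ∈ M → ∀ i, c i = 0) →
  ∀ P : MvPolynomial ι K, (∀ κ, P.coeff κ ∈ M) → MvPolynomial.eval g P = 0 → P = 0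

/-- **NHM** [300], from ALG, SGM. Application to `K` = fraction field of `PowerSeries S2`, `σ` induced by
`sg n c`, `c = z^ce` (injective on `PowerSeries S2`), `M = {N/D}`, `N, D` (series of) polynomials over `S2`,
`a = ϑ/(1+y)`, `b_i = β_i/(1+y)`. (NH) Let `r = r₂/r₁ ≠ 0`, `r_i = ρ_i y^(v_i) (1 + ..)` (`ρ_i ∈ S2` nonzero),
`a^j σ(r) = r`, i.e. `ϑ^j σ(r₂) r₁ = (1+y)^j r₂ σ(r₁)`. `ϑ = ϑ₀ y^n + ..`, `ϑ₀` of order
`2 + (2n+3)(n-1)`; `σ(r_i) = c^(v_i) ρ_i y^(2n v_i) + ..`. Orders in `y`: `j n + 2n v₂ + v₁ = v₂ + 2n v₁`;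
lowest coefficients: `ϑ₀^j c^(v₂) = c^(v₁)`; orders in `z`, multiplied by ..: `v₁ - v₂ = j n/(2n-1)`,
`j (2 + (2n+3)(n-1)) = (v₁-v₂)(2n+3)(2n-1) = j n (2n+3)`, so `2 = 2n+3`, impossible. (constants) If
`σ(r) = r = r₂/r₁` then `v₁ = v₂`, and `r' = ρ₁ r₂ - ρ₂ r₁` satisfies `r' σ(r₁) = σ(r') r₁` and has larger
`y`-order; if `r' ≠ 0` its order would have to be `v₁` too; so `r = ρ₂/ρ₁`. So a combination as in (LI) of
ALG becomes, after multiplication with the common denominators, one as in the hypothesis. Infinitely many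
constants: `z^k`. -/
def SpecNHM : Prop := ∀ n : ℕ, 1 ≤ n → ∀ (ι : Type) [Fintype ι] (g : ι → PowerSeries S2)
  (β : ι → Polynomial S2), (∀ i, SolS n (β i) (g i)) →
  (∀ (r : ℕ) (c : ι → S2) (D N : Polynomial S2), D ≠ 0 →
    (D : PowerSeries S2) * ∑ i, PowerSeries.C (c i) * g i ^ 2 ^ r = (N : PowerSeries S2) →
    ∀ i, c i = 0) →
  ∀ P : MvPolynomial ι (Polynomial S2),
    MvPolynomial.eval₂ (Polynomial.coeToPowerSeries.ringHom : Polynomial S2 →+* PowerSeries S2) g P = 0 →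
    P = 0

/-! ## D. Independence of the values (Mahler's method) -/

/-- **AUX** [250]. Siegel's lemma. Unknowns: the coefficients in `P2` of `y^l v^e`, `l ≤ p`, `e : V → Fin (p+1)`,
of the `Pc h`, `h ≤ p`: their number is `(p+1)² (p+1)^|V|`. The coefficient of `y^i`, `i < I`, in
`∑ Pc_h Φ^h` is a polynomial of degree `≤ p + p d` in each variable; the number of conditions is
`I ((1+d) p + 1)^|V| ≤ I (1+d)^|V| (p+1)^|V| < (p+1)² (p+1)^|V|`. A `P2`-linear map between free modules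
of these ranks is not injective (`TR`, module LI, `siegel`, with `card_le_of_injective`). -/
def SpecAUX : Prop := ∀ (V : Type) [Fintype V] (d p I : ℕ)
  (Φ : PowerSeries (MvPolynomial V P2)), (∀ l v, (PowerSeries.coeff l Φ).degreeOf v ≤ d) →
  I * (1 + d) ^ Fintype.card V < (p + 1) ^ 2 →
  ∃ Pc : ℕ → Polynomial (MvPolynomial V P2), (∃ h ≤ p, Pc h ≠ 0) ∧
    (∀ h, (Pc h).natDegree ≤ p ∧ ∀ l v, ((Pc h).coeff l).degreeOf v ≤ p) ∧
    PowerSeries.X ^ I ∣ ∑ h ∈ Finset.range (p + 1),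
      (Pc h : PowerSeries (MvPolynomial V P2)) * Φ ^ h

/-- **SEQ** [300], from SGM, `SpecEC`. The orbit. `y_k = z^(Nk n k)`, `y_(k+1) = c y_k^(2n)`:
`ce n + 2 n Nk n k = Nk n (k+1)`. Put `a_0 = ϑ(1)`, `b_(i,0) = β_i(1)`,
`a_(k+1) = a_k ϑ(y_k)/(1+y_k)`, `b_(i,k+1) = b_(i,k) + a_k β_i(y_k)/(1+y_k)` (`1 + y_k` is a unit of `S2`).
`F_i = a_k g_i(y_k) + b_(i,k)`: `k = 0` by definition (`Nk n 0 = ce n`), and the step is the Mahler equation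
evaluated at `y_k` (`ev` of `sg`). `C_k = ∏_{l<k} (1 + y_l)`, `A_k`, `B_(i,k)`:
`C_(k+1) = C_k (1+y_k)`, `A_(k+1) = A_k ϑ(y_k)`, `B_(i,k+1) = (1+y_k) B_(i,k) + A_k β_i(y_k)` in `P2`. Degrees:
`Nk n l ≤ (2n+3)(2n)^(l+1)`, `∑_{l<k} Nk n l ≤ 2 (2n+3) (2n)^k`. Order of `ϑ(y_k)`:
`1 + (2n+3)(n-1) + n N_k + 1` (`ord (Y + z) = 1`), which is `n (2n+3)(2n)^(k+1) - (2n+1)`; the same for
`ϑ(1)` with `k+1 = 0`. -/
def SpecSEQ : Prop := ∀ n : ℕ, 1 ≤ n → ∀ (ι : Type) [Fintype ι] (g : ι → PowerSeries S2)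
  (β : ι → Polynomial P2), (∀ i, SolS n (pS (β i)) (g i)) →
  ∃ (O : Orb n g (fun i => Res n (g i) (pS (β i)))) (Cp Ap : ℕ → P2) (Bp : ι → ℕ → P2) (κ : ℕ),
    ∀ k, Cp k ≠ 0 ∧ algebraMap P2 S2 (Cp k) * O.a k = algebraMap P2 S2 (Ap k) ∧
      (∀ i, algebraMap P2 S2 (Cp k) * O.b i k = algebraMap P2 S2 (Bp i k)) ∧
      (Cp k).natDegree ≤ κ * (2 * n) ^ k ∧ (Ap k).natDegree ≤ κ * (2 * n) ^ k ∧
      ∀ i, (Bp i k).natDegree ≤ κ * (2 * n) ^ k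

/-- **NVM** [300], from `SpecEC`. Nonvanishing. Substitute `b_i = F_i - a g_i(y)`: let
`Θ(P) = ∑_j q_j(y) T^j ∈ S2⟦y⟧[T]` be the image of `P` under `a ↦ T`, `b_i ↦ F_i - T g_i(y)`, `y ↦ y`. As
`F_i = a_k g_i(y_k) + b_(i,k)`, `Ev O k P = ∑_j a_k^j q_j(y_k)`. `Θ(P) ≠ 0`: `Θ(P)` is the value at `X = g` of
`P(y; T, F - T X)`, a polynomial in `T` with coefficients in `S2[y][X]`; by (AI) it is enough that
this polynomial is not `0`, and `P ↦ P(y; T, F - T X)` is injective: let `B` be the maximal `|β|` of the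
monomials `a^α b^β` of `P`; the coefficient of `X^β`, `|β| = B`, is `∑_α p_(α,β)(y) T^(α+B)` (signs do
not matter). For `q_j ≠ 0`: `q_j = y^(e_j) (ρ_j + y (..))`, `ρ_j` of order `o_j`; so `q_j(y_k)` has the exact
order `e_j N_k + o_j` for `k` large, and `a_k^j q_j(y_k)` the order `j al_k + e_j N_k + o_j`. For `j ≠ j'`
these are different for large `k`: `(2n-1) al_k = n (2n+3)((2n)^(k+1) - 1) - (2n-1)(2n+1)(k+1)`,
`N_k = (2n+3)((2n)^(k+1) - 1)`, so `(2n-1)` times the difference is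
`(2n+3)((2n)^(k+1) - 1) ((j-j') n + (e_j - e_j')(2n-1)) - (2n-1)(2n+1)(k+1)(j-j') + const`: if the factor
is not `0` the first term dominates, otherwise the second. So the sum is not `0` (a sum of elements of
pairwise different orders). -/
def SpecNVM : Prop := ∀ n : ℕ, 1 ≤ n → ∀ (ι : Type) [Fintype ι] (g : ι → PowerSeries S2) (F : ι → S2)
  (O : Orb n g F),
  (∀ P : MvPolynomial ι (Polynomial S2), MvPolynomial.eval₂
    (Polynomial.coeToPowerSeries.ringHom : Polynomial S2 →+* PowerSeries S2) g P = 0 → P = 0) →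
  ∀ P : Polynomial (MvPolynomial (Option ι) P2), P ≠ 0 → ∃ K₀ : ℕ, ∀ k ≥ K₀, Ev n O k P ≠ 0

/-- **VAL** [300], from AUX, SEQ, NVM, SGM, `SpecEC`. Independence of the values. Let `Γ ≠ 0`, `Γ(F) = 0`,
`d = totalDegree Γ`, `V = Option ι`, `Φ = Γ(a g_i(y) + b_i) ∈ P2[a,b]⟦y⟧` (`g_i ∈ P2⟦y⟧`): its coefficients
have degree `≤ d` in each variable; its constant coefficient `Γ(a g_i(0) + b_i)` is not `0` (put `a = 0`).
Let `κ` be from SEQ, `p` large, `I = ((p+1)² - 1)/(1+d)^|V|`, `Pc h` from AUX, `h₀` minimal with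
`Pc h₀ ≠ 0`, `E' = ∑_{h ≥ h₀} Pc h Φ^(h-h₀)`; `y^I ∣ Φ^(h₀) E'` and `Φ(0) ≠ 0` in a domain, so `y^I ∣ E'`. Apply the
ring homomorphism `P2[a,b]⟦y⟧ → S2⟦y⟧ → S2`, `a ↦ a_k`, `b ↦ b_k`, then `ev (Nk n k)`: `Φ ↦ Γ(F) = 0`
(`a_k g_i(y_k) + b_(i,k) = F_i`), so `E' ↦ Ev O k (Pc h₀)`, which is divisible by `z^(N_k I)`, and not `0` for
large `k` (NVM). Multiplied by `C_k^(p |V|)` it is the image of a nonzero `Z_k ∈ P2` of degree
`≤ p N_k + p |V| κ (2n)^k + c(p)`. So `N_k I ≤ p N_k + p |V| κ (2n)^k + c(p)`; `N_k ≥ (2n+3)(2n)^k`, `k → ∞`: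
`(2n+3)(I - p) ≤ p |V| κ + 1`, a contradiction for `p` large. -/
def SpecVAL : Prop := ∀ n : ℕ, 1 ≤ n → ∀ (ι : Type) [Fintype ι] (G : ι → PowerSeries P2)
  (β : ι → Polynomial P2), (∀ i, Sol n (β i) (G i)) →
  (∀ P : MvPolynomial ι (Polynomial S2), MvPolynomial.eval₂
    (Polynomial.coeToPowerSeries.ringHom : Polynomial S2 →+* PowerSeries S2)
    (fun i => toS (G i)) P = 0 → P = 0) →
  ∀ Γ : MvPolynomial ι P2, MvPolynomial.eval₂ (algebraMap P2 S2)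
    (fun i => Res n (toS (G i)) (pS (β i))) Γ = 0 → Γ = 0

/-- **TRS** [150]. Pure algebra. Suppose `x` is algebraic over `P2`, `μ(x) = 0`, `μ = ∑ μ_j T^j ∈ P2[T]` nonzero
of degree `d`. Let `Θ = A X₀² + B X₀ X₁ + C₂ X₁² + ∑_i c_i X_i²` (`0 = i₀`, `1 = i₁`), `Γ = ∑_j μ_j Θ^j (D X₀²)^(d-j)`.
Then `Γ(F) = (D F₀²)^d μ(x) = 0`, so `Γ = 0`. Specialize `X₀ = 1`, `X₁ = T`, the others `0`: `Θ` becomes
`θ = A' + B T + C' T²`, of degree `≥ 1` as `B ≠ 0`, and `∑_j μ_j θ^j D^(d-j) = 0` in `P2[T]`, impossible: the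
term `j = d` has the degree `d deg θ`, the others less. -/
def SpecTRS : Prop := ∀ (ι : Type) [Fintype ι] (F : ι → S2),
  (∀ Γ : MvPolynomial ι P2, MvPolynomial.eval₂ (algebraMap P2 S2) F Γ = 0 → Γ = 0) →
  ∀ (i₀ i₁ : ι), i₀ ≠ i₁ → ∀ (A B C₂ D : P2) (c : ι → P2), B ≠ 0 → D ≠ 0 → ∀ x : S2,
    algebraMap P2 S2 D * F i₀ ^ 2 * x = algebraMap P2 S2 A * F i₀ ^ 2 +
      algebraMap P2 S2 B * F i₀ * F i₁ + algebraMap P2 S2 C₂ * F i₁ ^ 2 +
      ∑ i, algebraMap P2 S2 (c i) * F i ^ 2 →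
    ¬ IsAlgebraic P2 x

/-! ## E. Assembly -/

/-- **FNM** [250], from everything. `main` (`Main.lean`) with `p = 2`, `m = 2 n`, ZSM, PVM, QUM give
`∑ σ(k) z^k = 1 + 2 S₁` and `D S₁ = A + B η + C η² + ∑ C_i H_i²`, `η = evf (fl none) H = ev1 H`,
`H_i = evf (fl (some i)) H`. EMM gives the equation of `H = bar H`, DUM the sequences `δ_f`, SGM the
solutions `G`, HGM, DHM: `(1+z) F₀ ψ_f(H) = (1+z) F_f + z² (a_0 + z^(2n) a_1) F₀` (`F₀ = Fv none`,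
`F_f = Fv (some f)`), as `(1+z) ψ_f(H) = (1+z)² δ_0 + z² (..)` and `(1+z) δ_0 F₀ = F_f`. So
`((1+z) F₀)² D S₁` is a quadratic form in `F` as in TRS, with the coefficient `(1+z)² B` of `F₀ F_none'`.
LIB, FRB, NHM, VAL: the `F` are algebraically independent; TRS: `S₁` is not algebraic. -/
def SpecFNM : Prop := ∀ n : ℕ, 1 ≤ n → ∃ S₁ : PowerSeries ℤ,
  (PowerSeries.mk fun k => (sphere 2 (4 * n) k : ℤ)) = 1 + 2 * S₁ ∧ ¬ IsAlgebraic P2 (bar0 S₁)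

/-- **MNM** [100], from FNM, `SpecRE`, `SpecDIA`, `SpecAUT` (as `TR/Main3.lean`, `fin3`). -/
def SpecMNM : Prop := MainStatement

end Pool.Agent.Lib.MPba1bba.TM
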